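import Pool.Agent.Lib.MP_a773b5_gt.Defs

set_option autoImplicit false

namespace Pool.Agent.Lib.MP_a773b5_gt

open MeasureTheory Set
open scoped ENNReal

/-- Euclidean three-space. -/
abbrev E3 : Type := EuclideanSpace ℝ (Fin 3)

/-- An affine isomorphism multiplies Haar volumes by a constant (map of the volume under the
inverse is translation invariant, so it is a multiple of the volume). -/
theorem exists_scale {E F : Type*} [NormedAddCommGroup E] [NormedSpace ℝ E]
    [FiniteDimensional ℝ E] [MeasureSpace E] [BorelSpace E] [(volume : Measure E).IsAddHaarMeasure]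
    [NormedAddCommGroup F] [NormedSpace ℝ F] [FiniteDimensional ℝ F] [MeasureSpace F]
    [BorelSpace F] [(volume : Measure F).IsAddHaarMeasure] (e : E ≃ᵃ[ℝ] F) :
    ∃ c : ℝ≥0∞, c ≠ 0 ∧ c ≠ ∞ ∧ ∀ S : Set E, volume (e '' S) = c * volume S := by
  haveI : ProperSpace E := FiniteDimensional.proper_real E
  let L : E ≃L[ℝ] F := e.linear.toContinuousLinearEquiv
  let ν : Measure E := Measure.map L.symm (volume : Measure F)
  haveI : ν.IsAddHaarMeasure := L.symm.isAddHaarMeasure_map volume
  have h1 : ν = ν.addHaarScalarFactor (volume : Measure E) • (volume : Measure E) :=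
    Measure.isAddLeftInvariant_eq_smul ν volume
  have hpos := Measure.addHaarScalarFactor_pos_of_isAddHaarMeasure ν (volume : Measure E)
  refine ⟨(ν.addHaarScalarFactor (volume : Measure E) : ℝ≥0∞), ?_, ENNReal.coe_ne_top, fun S => ?_⟩
  · exact_mod_cast hpos.ne'
  · have h2 : ν S = (ν.addHaarScalarFactor (volume : Measure E) : ℝ≥0∞) * volume S := by
      conv_lhs => rw [h1]
      rw [Measure.smul_apply]
      rfl
    rw [← h2]
    have h3 : ν S = volume (L '' S) := by
      have h4 : ν S = volume ((L.symm.toHomeomorph.toMeasurableEquiv : F → E) ⁻¹' S) :=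
        MeasurableEquiv.map_apply L.symm.toHomeomorph.toMeasurableEquiv S
      rw [h4]
      congr 1
      ext y
      constructor
      · intro hy
        exact ⟨L.symm y, hy, L.apply_symm_apply y⟩
      · rintro ⟨x, hx, rfl⟩
        change L.symm (L x) ∈ S
        rw [L.symm_apply_apply]
        exact hx
    rw [h3]
    have h5 : e '' S = (fun y => y + e 0) '' (L '' S) := by
      rw [image_image]
      apply image_congr
      intro x _
      have := e.map_vadd (0 : E) x
      simp only [vadd_eq_add, add_zero] at this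
      rw [this]
      rfl
    have h6 : (fun y => y + e 0) '' (L '' S) = (fun y => y + (-e 0)) ⁻¹' (L '' S) := by
      ext y
      constructor
      · rintro ⟨z, hz, rfl⟩
        simpa using hz
      · intro hy
        exact ⟨y + (-e 0), hy, by simp⟩
    rw [h5, h6, measure_preimage_add_right]

/-- The ratio property is invariant under affine isomorphisms. -/
theorem tetRatio_of_image {E F : Type*} [NormedAddCommGroup E] [NormedSpace ℝ E]
    [FiniteDimensional ℝ E] [MeasureSpace E] [BorelSpace E] [(volume : Measure E).IsAddHaarMeasure]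
    [NormedAddCommGroup F] [NormedSpace ℝ F] [FiniteDimensional ℝ F] [MeasureSpace F]
    [BorelSpace F] [(volume : Measure F).IsAddHaarMeasure] (e : E ≃ᵃ[ℝ] F) {K : Set E} {C : ℝ}
    (h : TetRatio (e '' K) C) : TetRatio K C := by
  obtain ⟨v, hv, hK, hvol⟩ := h
  obtain ⟨c, hc0, hct, hc⟩ := exists_scale e
  have himg : e '' (convexHull ℝ (range (e.symm ∘ v))) = convexHull ℝ (range v) := by
    have h1 := (e : E →ᵃ[ℝ] F).image_convexHull (range (e.symm ∘ v))
    have h2 : (e : E →ᵃ[ℝ] F) '' (range (e.symm ∘ v)) = range v := by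
      rw [← range_comp]
      congr 1
      ext i
      simp
    rw [h2] at h1
    simpa using h1
  refine ⟨e.symm ∘ v, (e.symm.affineIndependent_iff).2 hv, ?_, ?_⟩
  · intro x hx
    have h1 : e x ∈ convexHull ℝ (range v) := hK (mem_image_of_mem _ hx)
    rw [← himg] at h1
    obtain ⟨y, hy, hxy⟩ := h1
    rwa [← e.injective hxy]
  · rw [← himg, hc, hc] at hvol
    have h1 : c * volume (convexHull ℝ (range (e.symm ∘ v))) ≤
        c * (ENNReal.ofReal C * volume K) := by
      calc _ ≤ _ := hvol
        _ = _ := by ring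
    exact (ENNReal.mul_le_mul_iff_right hc0 hct).1 h1

/-- Passing from the absolute to the relative form. -/
theorem tetRatio_of_hasTet {K : Set P3} (hK : volume K ≠ ∞) {C : ℝ} (hC : 0 ≤ C)
    (h : HasTet K (C * (volume K).toReal)) : TetRatio K C := by
  obtain ⟨v, hv, h1, h2⟩ := h
  refine ⟨v, hv, h1, h2.trans_eq ?_⟩
  rw [ENNReal.ofReal_mul hC, ENNReal.ofReal_toReal hK]

/-- A nonzero affine functional is the first coordinate of an affine isomorphism onto `P3`. -/
theorem exists_coord (u : E3) (hu : u ≠ 0) (b : ℝ) :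
    ∃ e : E3 ≃ᵃ[ℝ] P3, ∀ x, (e x).1 = b - inner ℝ u x := by
  classical
  let f : E3 →ₗ[ℝ] ℝ := -(innerSL ℝ u : E3 →L[ℝ] ℝ).toLinearMap
  have hf : ∀ x, f x = -inner ℝ u x := fun x => by simp [f]
  have huu : (inner ℝ u u : ℝ) ≠ 0 := by
    rw [ne_eq, inner_self_eq_zero]; exact hu
  have hf0 : f u ≠ 0 := by rw [hf]; exact neg_ne_zero.2 huu
  have hfr : LinearMap.range f = ⊤ := by
    rw [LinearMap.range_eq_top]
    intro y
    refine ⟨(y / f u) • u, ?_⟩
    rw [map_smul, smul_eq_mul, div_mul_cancel₀ _ hf0]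
  have hk : Module.finrank ℝ (LinearMap.ker f) = Module.finrank ℝ (ℝ × ℝ) := by
    have h1 := LinearMap.finrank_range_add_finrank_ker f
    rw [hfr, finrank_top] at h1
    simp only [Module.finrank_self, finrank_euclideanSpace, Fintype.card_fin] at h1
    rw [Module.finrank_prod, Module.finrank_self]
    omega
  let g0 : (LinearMap.ker f) ≃ₗ[ℝ] (ℝ × ℝ) := LinearEquiv.ofFinrankEq _ _ hk
  -- the projection onto the kernel along `u`
  let p : E3 →ₗ[ℝ] LinearMap.ker f :=
    LinearMap.codRestrict (LinearMap.ker f)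
      (LinearMap.id - (f.smulRight ((f u)⁻¹ • u))) (by
        intro x
        rw [LinearMap.mem_ker]
        simp only [LinearMap.sub_apply, LinearMap.id_apply, LinearMap.smulRight_apply, map_sub,
          map_smul, smul_eq_mul]
        rw [inv_mul_cancel₀ hf0]
        ring)
  have hp : ∀ x : LinearMap.ker f, p x = x := by
    intro x
    apply Subtype.ext
    have hx : f x = 0 := x.2
    simp [p, hx]
  have hcompl : IsCompl (LinearMap.ker f) (LinearMap.ker p) := LinearMap.isCompl_of_proj hp
  let g : E3 →ₗ[ℝ] (ℝ × ℝ) := g0.toLinearMap ∘ₗ p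
  have hgk : LinearMap.ker g = LinearMap.ker p := by
    simp [g, LinearMap.ker_comp]
  have hgr : LinearMap.range g = ⊤ := by
    rw [LinearMap.range_eq_top]
    intro y
    refine ⟨(g0.symm y : LinearMap.ker f), ?_⟩
    simp [g, hp]
  let L : E3 ≃ₗ[ℝ] ℝ × (ℝ × ℝ) :=
    LinearMap.equivProdOfSurjectiveOfIsCompl f g hfr hgr (by rw [hgk]; exact hcompl)
  refine ⟨L.toAffineEquiv.trans (AffineEquiv.constVAdd ℝ P3 ((b, 0, 0) : P3)), fun x => ?_⟩
  have h1 : (L x).1 = f x := by simp [L]
  have h2 : (L.toAffineEquiv.trans (AffineEquiv.constVAdd ℝ P3 ((b, 0, 0) : P3))) x =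
      ((b, 0, 0) : P3) + L x := rfl
  rw [h2, Prod.fst_add, h1, hf]
  ring

end Pool.Agent.Lib.MP_a773b5_gt
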