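import Pool.Agent.Lib.MP_a773b5_gt.Defs
import Pool.Agent.Lib.MP_6d4359_pr.PL

set_option autoImplicit false

namespace Pool.Agent.Lib.MP_a773b5_gt

open MeasureTheory Set
open scoped Pointwise

private lemma bm_vol_smul (r : ℝ) (S : Set (ℝ × ℝ)) :
    (volume (r • S)).toReal = r ^ 2 * (volume S).toReal := by
  rw [Measure.addHaar_smul]
  have h2 : Module.finrank ℝ (ℝ × ℝ) = 2 := by simp
  rw [h2, ENNReal.toReal_mul, ENNReal.toReal_ofReal (abs_nonneg _), abs_of_nonneg (sq_nonneg r)]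

private lemma bm_sum_compact {A B : Set (ℝ × ℝ)} (hA : IsCompact A) (hB : IsCompact B) (l m : ℝ) :
    IsCompact (l • A + m • B) := (hA.smul l).add (hB.smul m)

private lemma bm_mono {A B : Set (ℝ × ℝ)} (hB : IsCompact B) (h : A ⊆ B) :
    (volume A).toReal ≤ (volume B).toReal :=
  ENNReal.toReal_mono hB.measure_lt_top.ne (measure_mono h)

private lemma bm_degenerate {A B : Set (ℝ × ℝ)} (hA : IsCompact A) (hB : IsCompact B)
    (hA' : A.Nonempty) {l m : ℝ} (hm : 0 ≤ m) :
    m * √(volume B).toReal ≤ √(volume (l • A + m • B)).toReal := by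
  obtain ⟨a, ha⟩ := hA'
  have h1 : (fun x => l • a + x) '' (m • B) ⊆ l • A + m • B := by
    rintro _ ⟨x, hx, rfl⟩
    exact Set.add_mem_add (Set.smul_mem_smul_set ha) hx
  have h2 := bm_mono (bm_sum_compact hA hB l m) h1
  have h3 : volume ((fun x => l • a + x) '' (m • B)) = volume (m • B) := by
    rw [Set.image_add_left, measure_preimage_add]
  rw [h3, bm_vol_smul] at h2
  calc m * √(volume B).toReal = √(m ^ 2 * (volume B).toReal) := by
        rw [Real.sqrt_mul (sq_nonneg m), Real.sqrt_sq hm]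
    _ ≤ _ := Real.sqrt_le_sqrt h2

/-- Brunn-Minkowski in the plane in additive form, from the multiplicative form
`Pool.Agent.Lib.MP_6d4359_pr.bm_two` (applied to `A / √|A|`, `B / √|B|`; if one of the areas is
zero, the sum contains a translate of a multiple of the other set). -/
theorem bm_sqrt {A B : Set (ℝ × ℝ)} (hA : IsCompact A) (hB : IsCompact B) (hA' : A.Nonempty)
    (hB' : B.Nonempty) {l m : ℝ} (hl : 0 ≤ l) (hm : 0 ≤ m) (hlm : l + m = 1) :
    l * √(volume A).toReal + m * √(volume B).toReal ≤ √(volume (l • A + m • B)).toReal := by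
  set α : ℝ := √(volume A).toReal with hα
  set β : ℝ := √(volume B).toReal with hβ
  have hα0 : 0 ≤ α := Real.sqrt_nonneg _
  have hβ0 : 0 ≤ β := Real.sqrt_nonneg _
  rcases eq_or_lt_of_le (mul_nonneg hl hα0) with h | h
  · rw [← h, zero_add]
    exact bm_degenerate hA hB hA' hm
  rcases eq_or_lt_of_le (mul_nonneg hm hβ0) with h' | h'
  · rw [← h', add_zero, add_comm (l • A)]
    exact bm_degenerate hB hA hB' hl
  have hl0 : 0 < l := by
    rcases eq_or_lt_of_le hl with h1 | h1
    · rw [← h1, zero_mul] at h; exact absurd h (lt_irrefl _)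
    · exact h1
  have hm0 : 0 < m := by
    rcases eq_or_lt_of_le hm with h1 | h1
    · rw [← h1, zero_mul] at h'; exact absurd h' (lt_irrefl _)
    · exact h1
  have hαp : 0 < α := by
    rcases eq_or_lt_of_le hα0 with h1 | h1
    · rw [← h1, mul_zero] at h; exact absurd h (lt_irrefl _)
    · exact h1
  have hβp : 0 < β := by
    rcases eq_or_lt_of_le hβ0 with h1 | h1
    · rw [← h1, mul_zero] at h'; exact absurd h' (lt_irrefl _)
    · exact h1
  set s : ℝ := l * α + m * β with hs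
  have hsp : 0 < s := by positivity
  have hα2 : (volume A).toReal = α ^ 2 := by
    rw [hα, Real.sq_sqrt ENNReal.toReal_nonneg]
  have hβ2 : (volume B).toReal = β ^ 2 := by
    rw [hβ, Real.sq_sqrt ENNReal.toReal_nonneg]
  have hvA : volume (α⁻¹ • A) = 1 := by
    have h1 : (volume (α⁻¹ • A)).toReal = 1 := by
      rw [bm_vol_smul, hα2]
      field_simp
    rw [← ENNReal.ofReal_toReal (hA.smul α⁻¹).measure_lt_top.ne, h1, ENNReal.ofReal_one]
  have hvB : volume (β⁻¹ • B) = 1 := by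
    have h1 : (volume (β⁻¹ • B)).toReal = 1 := by
      rw [bm_vol_smul, hβ2]
      field_simp
    rw [← ENNReal.ofReal_toReal (hB.smul β⁻¹).measure_lt_top.ne, h1, ENNReal.ofReal_one]
  have hkey := Pool.Agent.Lib.MP_6d4359_pr.bm_two_compact (hA.smul α⁻¹) (hB.smul β⁻¹)
    (l := l * α / s) (m := m * β / s) (by positivity) (by positivity) (by
      rw [← add_div, ← hs, div_self hsp.ne'])
  rw [hvA, hvB, ENNReal.one_rpow, ENNReal.one_rpow, one_mul] at hkey
  have hset : (l * α / s) • α⁻¹ • A + (m * β / s) • β⁻¹ • B = s⁻¹ • (l • A + m • B) := by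
    rw [smul_add, smul_smul, smul_smul, smul_smul, smul_smul]
    have e1 : l * α / s * α⁻¹ = s⁻¹ * l := by field_simp
    have e2 : m * β / s * β⁻¹ = s⁻¹ * m := by field_simp
    rw [e1, e2]
  rw [hset] at hkey
  have h1 : (1 : ℝ) ≤ (volume (s⁻¹ • (l • A + m • B))).toReal := by
    have := ENNReal.toReal_mono ((bm_sum_compact hA hB l m).smul s⁻¹).measure_lt_top.ne hkey
    simpa using this
  rw [bm_vol_smul] at h1
  apply Real.le_sqrt_of_sq_le
  have h2 : s ^ 2 * 1 ≤ s ^ 2 * (s⁻¹ ^ 2 * (volume (l • A + m • B)).toReal) :=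
    mul_le_mul_of_nonneg_left h1 (sq_nonneg s)
  have h3 : s ^ 2 * (s⁻¹ ^ 2 * (volume (l • A + m • B)).toReal) =
      (volume (l • A + m • B)).toReal := by
    field_simp
  rw [h3, mul_one] at h2
  exact h2

private lemma bm_sec_compact {K : Set P3} (hK : IsCompact K) (z : ℝ) : IsCompact (sec K z) := by
  have h : sec K z = Prod.snd '' (K ∩ Prod.fst ⁻¹' {z}) := by
    ext p
    constructor
    · intro hp
      exact ⟨(z, p), ⟨hp, rfl⟩, rfl⟩
    · rintro ⟨⟨z', p'⟩, ⟨hp, hz⟩, rfl⟩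
      have hz' : z' = z := hz
      subst hz'
      exact hp
  rw [h]
  exact (hK.inter_right (isClosed_singleton.preimage continuous_fst)).image continuous_snd

/-- The square root of the area of the sections is concave on the projection. -/
theorem sqrt_secArea_concaveOn {K : Set P3} (hK : IsCompact K) (hc : Convex ℝ K) :
    ConcaveOn ℝ (Prod.fst '' K) (fun z => √(secArea K z)) := by
  refine ⟨?_, ?_⟩
  · exact hc.is_linear_image (IsLinearMap.mk (fun _ _ => rfl) (fun _ _ => rfl))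
  · rintro z₁ ⟨⟨z₁, p₁⟩, hp₁, rfl⟩ z₂ ⟨⟨z₂, p₂⟩, hp₂, rfl⟩ a b ha hb hab
    simp only [smul_eq_mul]
    have h1 := bm_sqrt (bm_sec_compact hK z₁) (bm_sec_compact hK z₂) ⟨p₁, hp₁⟩ ⟨p₂, hp₂⟩ ha hb hab
    refine h1.trans (Real.sqrt_le_sqrt ?_)
    apply bm_mono (bm_sec_compact hK _)
    rintro _ ⟨_, ⟨x, hx, rfl⟩, _, ⟨y, hy, rfl⟩, rfl⟩
    have hx' : ((z₁, x) : P3) ∈ K := hx
    have hy' : ((z₂, y) : P3) ∈ K := hy
    exact hc hx' hy' ha hb hab

end Pool.Agent.Lib.MP_a773b5_gt
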