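import Pool.Agent.Lib.MP_a773b5_gt.Aff

set_option autoImplicit false

namespace Pool.Agent.Lib.MP_a773b5_gt

open MeasureTheory Set Metric

/-- Second moment of a ball in three-space. -/
theorem ball_second_moment {ρ : ℝ} (hρ : 0 ≤ ρ) :
    ∫ x in closedBall (0 : E3) ρ, ‖x‖ ^ 2 =
      3 / 5 * ρ ^ 2 * (volume (closedBall (0 : E3) ρ)).toReal := by
  have h1 : ∫ x in closedBall (0 : E3) ρ, ‖x‖ ^ 2 =
      ∫ x : E3, (Set.Iic ρ).indicator (fun y : ℝ => y ^ 2) ‖x‖ := by
    rw [← integral_indicator isClosed_closedBall.measurableSet]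
    congr 1
    funext x
    by_cases h : ‖x‖ ≤ ρ
    · rw [indicator_of_mem (by simpa using h), indicator_of_mem (by simpa using h)]
    · rw [indicator_of_notMem (by simpa using h), indicator_of_notMem (by simpa using h)]
  rw [h1, MeasureTheory.integral_fun_norm_addHaar (volume : Measure E3)]
  have hdim : Module.finrank ℝ E3 = 3 := by simp
  rw [hdim]
  have h2 : ∫ y in Ioi (0 : ℝ), y ^ (3 - 1) • (Set.Iic ρ).indicator (fun y : ℝ => y ^ 2) y =
      ρ ^ 5 / 5 := by
    have e : (fun y : ℝ => y ^ (3 - 1) • (Set.Iic ρ).indicator (fun y : ℝ => y ^ 2) y) =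
        (Set.Iic ρ).indicator (fun y : ℝ => y ^ 4) := by
      funext y
      by_cases h : y ≤ ρ
      · rw [indicator_of_mem (by simpa using h), indicator_of_mem (by simpa using h)]
        simp only [smul_eq_mul]
        ring
      · rw [indicator_of_notMem (by simpa using h), indicator_of_notMem (by simpa using h)]
        simp
    rw [e, setIntegral_indicator measurableSet_Iic]
    have e2 : Ioi (0 : ℝ) ∩ Iic ρ = Ioc 0 ρ := rfl
    rw [e2, ← intervalIntegral.integral_of_le hρ, integral_pow]
    norm_num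
  rw [h2]
  have h3 : (volume (closedBall (0 : E3) ρ)).toReal = ρ ^ 3 * (volume (ball (0 : E3) 1)).toReal := by
    rw [Measure.addHaar_closedBall _ _ hρ, hdim, ENNReal.toReal_mul,
      ENNReal.toReal_ofReal (by positivity)]
  rw [h3]
  simp only [smul_eq_mul, nsmul_eq_mul, Measure.real]
  push_cast
  ring

/-- A compact set containing the ball of radius `ρ` has at least the mean square norm of that
ball. -/
theorem moment_ge {K : Set E3} (hK : IsCompact K) {ρ : ℝ} (hρ : 0 ≤ ρ)
    (hb : closedBall (0 : E3) ρ ⊆ K) :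
    3 / 5 * ρ ^ 2 * (volume K).toReal ≤ ∫ x in K, ‖x‖ ^ 2 := by
  have hmB : MeasurableSet (closedBall (0 : E3) ρ) := isClosed_closedBall.measurableSet
  have hmK : MeasurableSet K := hK.measurableSet
  have hint : IntegrableOn (fun x : E3 => ‖x‖ ^ 2) K :=
    (Continuous.continuousOn (by fun_prop)).integrableOn_compact hK
  have hfin : volume K ≠ ⊤ := hK.measure_lt_top.ne
  have hsplit : ∫ x in K, ‖x‖ ^ 2 = (∫ x in closedBall (0 : E3) ρ, ‖x‖ ^ 2) +
      ∫ x in K \ closedBall (0 : E3) ρ, ‖x‖ ^ 2 := by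
    rw [← setIntegral_union disjoint_sdiff_right (hmK.diff hmB) (hint.mono_set hb)
      (hint.mono_set sdiff_subset), union_sdiff_cancel hb]
  have h2 : ρ ^ 2 * (volume (K \ closedBall (0 : E3) ρ)).toReal ≤
      ∫ x in K \ closedBall (0 : E3) ρ, ‖x‖ ^ 2 := by
    have h := setIntegral_mono_on (μ := (volume : Measure E3)) (s := K \ closedBall (0 : E3) ρ)
      (f := fun _ => ρ ^ 2) (g := fun x => ‖x‖ ^ 2)
      (integrableOn_const (ne_top_of_le_ne_top hfin (measure_mono sdiff_subset)))
      (hint.mono_set sdiff_subset) (hmK.diff hmB) (fun x hx => by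
        have : ρ < ‖x‖ := by simpa using hx.2
        exact pow_le_pow_left₀ hρ this.le 2)
    rw [setIntegral_const, smul_eq_mul, Measure.real] at h
    linarith
  have h3 : (volume K).toReal = (volume (closedBall (0 : E3) ρ)).toReal +
      (volume (K \ closedBall (0 : E3) ρ)).toReal := by
    rw [← ENNReal.toReal_add (ne_top_of_le_ne_top hfin (measure_mono hb))
      (ne_top_of_le_ne_top hfin (measure_mono sdiff_subset)),
      ← measure_union disjoint_sdiff_right (hmK.diff hmB), union_sdiff_cancel hb]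
  rw [hsplit, ball_second_moment hρ, h3]
  have h4 : 0 ≤ ρ ^ 2 * (volume (K \ closedBall (0 : E3) ρ)).toReal :=
    mul_nonneg (sq_nonneg _) ENNReal.toReal_nonneg
  nlinarith

end Pool.Agent.Lib.MP_a773b5_gt
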