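import Pool.Agent.Lib.MP_a773b5_gt.Defs

set_option autoImplicit false

namespace Pool.Agent.Lib.MP_a773b5_gt

open MeasureTheory Set

private lemma chord_le {u w : ℝ} (huw : u < w) {f : ℝ → ℝ} (hf : ConcaveOn ℝ (Icc u w) f)
    {z : ℝ} (hz : z ∈ Icc u w) :
    f u + (f w - f u) / (w - u) * (z - u) ≤ f z := by
  have hd : 0 < w - u := by linarith
  have h := hf.2 (left_mem_Icc.2 huw.le) (right_mem_Icc.2 huw.le)
    (div_nonneg (by linarith [hz.2] : 0 ≤ w - z) hd.le)
    (div_nonneg (by linarith [hz.1] : 0 ≤ z - u) hd.le) (by field_simp; ring)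
  simp only [smul_eq_mul] at h
  have h1 : (w - z) / (w - u) * u + (z - u) / (w - u) * w = z := by field_simp; ring
  rw [h1] at h
  refine le_trans (le_of_eq ?_) h
  field_simp; ring

private lemma chord_nonneg {u w : ℝ} (huw : u < w) {f : ℝ → ℝ}
    (hn : ∀ z ∈ Icc u w, 0 ≤ f z) {z : ℝ} (hz : z ∈ Icc u w) :
    0 ≤ f u + (f w - f u) / (w - u) * (z - u) := by
  have hd : 0 < w - u := by linarith
  have h1 : f u + (f w - f u) / (w - u) * (z - u) =
      (w - z) / (w - u) * f u + (z - u) / (w - u) * f w := by field_simp; ring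
  rw [h1]
  have := hn u (left_mem_Icc.2 huw.le)
  have := hn w (right_mem_Icc.2 huw.le)
  have := div_nonneg (by linarith [hz.2] : 0 ≤ w - z) hd.le
  have := div_nonneg (by linarith [hz.1] : 0 ≤ z - u) hd.le
  positivity

private lemma chord_int {u w A B : ℝ} :
    ∫ z in u..w, (A + B * (z - u)) ^ 2 =
      (w - u) * (A ^ 2 + A * (A + B * (w - u)) + (A + B * (w - u)) ^ 2) / 3 := by
  have h : ∀ z ∈ uIcc u w, HasDerivAt
      (fun z => A ^ 2 * (z - u) + A * B * (z - u) ^ 2 + B ^ 2 * (z - u) ^ 3 / 3)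
      ((A + B * (z - u)) ^ 2) z := by
    intro z _
    have h0 : HasDerivAt (fun z : ℝ => z - u) 1 z := (hasDerivAt_id z).sub_const u
    have h1 := ((h0.const_mul (A ^ 2)).add ((h0.pow 2).const_mul (A * B))).add
      (((h0.pow 3).const_mul (B ^ 2)).div_const 3)
    refine HasDerivAt.congr_deriv (f' := _) h1 ?_
    norm_num; ring
  rw [intervalIntegral.integral_eq_sub_of_hasDerivAt h
    (Continuous.intervalIntegrable (by fun_prop) _ _)]
  ring

private lemma chord_int2 {w A B : ℝ} :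
    ∫ z in (0:ℝ)..w, z * (A + B * (z - 0)) ^ 2 =
      w ^ 2 * (A ^ 2 / 12 + A * (A + B * w) / 6 + (A + B * w) ^ 2 / 4) := by
  have h : ∀ z ∈ uIcc 0 w, HasDerivAt
      (fun z => A ^ 2 * z ^ 2 / 2 + 2 * A * B * z ^ 3 / 3 + B ^ 2 * z ^ 4 / 4)
      (z * (A + B * (z - 0)) ^ 2) z := by
    intro z _
    have h0 : HasDerivAt (fun z : ℝ => z) 1 z := hasDerivAt_id z
    have h1 := ((((h0.pow 2).const_mul (A ^ 2)).div_const 2).add
      (((h0.pow 3).const_mul (2 * A * B)).div_const 3)).add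
      (((h0.pow 4).const_mul (B ^ 2)).div_const 4)
    refine HasDerivAt.congr_deriv (f' := _) h1 ?_
    norm_num; ring
  rw [intervalIntegral.integral_eq_sub_of_hasDerivAt h
    (Continuous.intervalIntegrable (by fun_prop) _ _)]
  ring

/-- Lower bound for the mass of the square of a concave function on an interval. -/
theorem chord_mass {u w : ℝ} (huw : u ≤ w) {f : ℝ → ℝ} (hf : ConcaveOn ℝ (Icc u w) f)
    (hfc : ContinuousOn f (Icc u w)) (hn : ∀ z ∈ Icc u w, 0 ≤ f z) :
    (w - u) * (f u ^ 2 + f u * f w + f w ^ 2) / 3 ≤ ∫ z in u..w, f z ^ 2 := by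
  rcases huw.eq_or_lt with rfl | huw'
  · simp
  have hd : 0 < w - u := by linarith
  have h1 := chord_int (u := u) (w := w) (A := f u) (B := (f w - f u) / (w - u))
  have h2 : f u + (f w - f u) / (w - u) * (w - u) = f w := by field_simp; ring
  rw [h2] at h1
  rw [← h1]
  apply intervalIntegral.integral_mono_on huw
  · exact Continuous.intervalIntegrable (by fun_prop) _ _
  · exact ContinuousOn.intervalIntegrable (by rw [uIcc_of_le huw]; exact hfc.pow 2)
  · intro z hz
    exact pow_le_pow_left₀ (chord_nonneg huw' hn hz) (chord_le huw' hf hz) 2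

/-- Upper bound for the first moment on `[0,a]`. (`f² ≥ chord²` and the excess is at distance at
most `a`.) -/
theorem chord_moment {a : ℝ} (ha : 0 ≤ a) {f : ℝ → ℝ} (hf : ConcaveOn ℝ (Icc 0 a) f)
    (hfc : ContinuousOn f (Icc 0 a)) (hn : ∀ z ∈ Icc 0 a, 0 ≤ f z) :
    ∫ z in (0:ℝ)..a, z * f z ^ 2 ≤
      a ^ 2 * (f 0 ^ 2 / 12 + f 0 * f a / 6 + f a ^ 2 / 4) +
      a * ((∫ z in (0:ℝ)..a, f z ^ 2) - a * (f 0 ^ 2 + f 0 * f a + f a ^ 2) / 3) := by
  rcases ha.eq_or_lt with rfl | ha'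
  · simp
  have h1 := chord_int (u := 0) (w := a) (A := f 0) (B := (f a - f 0) / (a - 0))
  have h2 : f 0 + (f a - f 0) / (a - 0) * (a - 0) = f a := by
    have : a - 0 ≠ 0 := by simpa using ha'.ne'
    field_simp; ring
  have h3 := chord_int2 (w := a) (A := f 0) (B := (f a - f 0) / (a - 0))
  have h4 : f 0 + (f a - f 0) / (a - 0) * a = f a := by simpa using h2
  rw [h2] at h1
  rw [h4] at h3
  have hI1 : IntervalIntegrable (fun z => z * f z ^ 2) volume 0 a :=
    ContinuousOn.intervalIntegrable (by rw [uIcc_of_le ha]; exact continuousOn_id.mul (hfc.pow 2))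
  have hI2 : IntervalIntegrable (fun z => f z ^ 2) volume 0 a :=
    ContinuousOn.intervalIntegrable (by rw [uIcc_of_le ha]; exact hfc.pow 2)
  have hI3 : IntervalIntegrable (fun z => z * (f 0 + (f a - f 0) / (a - 0) * (z - 0)) ^ 2)
      volume 0 a := Continuous.intervalIntegrable (by fun_prop) _ _
  have hI4 : IntervalIntegrable (fun z => (f 0 + (f a - f 0) / (a - 0) * (z - 0)) ^ 2)
      volume 0 a := Continuous.intervalIntegrable (by fun_prop) _ _
  have h5 : ∫ z in (0:ℝ)..a, z * f z ^ 2 ≤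
      ∫ z in (0:ℝ)..a, (z * (f 0 + (f a - f 0) / (a - 0) * (z - 0)) ^ 2 +
        a * (f z ^ 2 - (f 0 + (f a - f 0) / (a - 0) * (z - 0)) ^ 2)) := by
    apply intervalIntegral.integral_mono_on ha hI1 (hI3.add ((hI2.sub hI4).const_mul a))
    intro z hz
    have := pow_le_pow_left₀ (chord_nonneg ha' hn hz) (chord_le ha' hf hz) 2
    nlinarith [hz.1, hz.2]
  rw [intervalIntegral.integral_add hI3 ((hI2.sub hI4).const_mul a),
    intervalIntegral.integral_const_mul, intervalIntegral.integral_sub hI2 hI4, h3, h1] at h5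
  simpa using h5

end Pool.Agent.Lib.MP_a773b5_gt
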