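import Pool.Agent.Lib.MP_a773b5_gt.HullArea

set_option autoImplicit false

namespace Pool.Agent.Lib.MP_a773b5_gt

open MeasureTheory Set

/-- Arithmetic step: from `½ (b d + a c) ≤ A` with larger factors to the product inequality. -/
private lemma amgm {A a b c d : ℝ} (ha : 0 ≤ a) (hb : 0 ≤ b) (hc : 0 ≤ c) (hd : 0 ≤ d)
    (h : (b * d + a * c) / 2 ≤ A) : (d * a) * (c * b) ≤ A ^ 2 := by
  have h1 : 0 ≤ (b * d + a * c) / 2 := by positivity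
  have h2 : ((b * d + a * c) / 2) ^ 2 ≤ A ^ 2 := pow_le_pow_left₀ h1 h 2
  nlinarith [sq_nonneg (b * d - a * c)]

/-- Product inequality for the two opposite directions in the plane. From `hull_area` and the
inequality of the means; if `y₁ < y₂` exchange the roles of the two chords (each factor only
grows). The bottom height may be taken as `min η₁ (min y₁ y₂)`, the top height as
`max η₂ (max y₁ y₂)`. -/
theorem chord_prod {L : Set (ℝ × ℝ)} (hL : IsCompact L) (hc : Convex ℝ L)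
    {y₁ x₁ ξ₁ η₁ t₁ y₂ x₂ ξ₂ η₂ t₂ : ℝ}
    (h1 : (y₁, x₁) ∈ L) (h2 : (y₁, ξ₁) ∈ L) (h3 : (η₁, t₁) ∈ L)
    (h4 : (y₂, x₂) ∈ L) (h5 : (y₂, ξ₂) ∈ L) (h6 : (η₂, t₂) ∈ L)
    (hy1 : η₁ ≤ y₁) (hx1 : ξ₁ ≤ x₁) (hy2 : y₂ ≤ η₂) (hx2 : ξ₂ ≤ x₂) :
    ((y₁ - η₁) * (x₁ - ξ₁)) * ((η₂ - y₂) * (x₂ - ξ₂)) ≤ (volume L).toReal ^ 2 := by
  rcases le_total y₂ y₁ with hy | hy
  · -- lower chord is the second one
    obtain ⟨η, x₀, hη, hη1, hη2⟩ : ∃ η x₀ : ℝ, (η, x₀) ∈ L ∧ η ≤ y₂ ∧ η ≤ η₁ := by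
      rcases le_total η₁ y₂ with h | h
      · exact ⟨η₁, t₁, h3, h, le_rfl⟩
      · exact ⟨y₂, x₂, h4, le_rfl, h⟩
    obtain ⟨θ, x₃, hθ, hθ1, hθ2⟩ : ∃ θ x₃ : ℝ, (θ, x₃) ∈ L ∧ y₁ ≤ θ ∧ η₂ ≤ θ := by
      rcases le_total y₁ η₂ with h | h
      · exact ⟨η₂, t₂, h6, h, le_rfl⟩
      · exact ⟨y₁, x₁, h1, le_rfl, h⟩
    have := hull_area hL hc hη h4 h5 h1 h2 hθ hη1 hy hθ1 hx2 hx1
    apply amgm (by linarith) (by linarith) (by linarith) (by linarith)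
    refine le_trans ?_ this
    have e1 : (x₂ - ξ₂) * (y₁ - η₁) ≤ (x₂ - ξ₂) * (y₁ - η) :=
      mul_le_mul_of_nonneg_left (by linarith) (by linarith)
    have e2 : (x₁ - ξ₁) * (η₂ - y₂) ≤ (x₁ - ξ₁) * (θ - y₂) :=
      mul_le_mul_of_nonneg_left (by linarith) (by linarith)
    linarith
  · have := hull_area hL hc h3 h1 h2 h4 h5 h6 hy1 hy hy2 hx1 hx2
    have hprod : ((y₁ - η₁) * (x₂ - ξ₂)) * ((η₂ - y₂) * (x₁ - ξ₁)) ≤ (volume L).toReal ^ 2 := by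
      apply amgm (by linarith) (by linarith) (by linarith) (by linarith)
      refine le_trans ?_ this
      have e1 : (x₁ - ξ₁) * (y₁ - η₁) ≤ (x₁ - ξ₁) * (y₂ - η₁) :=
        mul_le_mul_of_nonneg_left (by linarith) (by linarith)
      have e2 : (x₂ - ξ₂) * (η₂ - y₂) ≤ (x₂ - ξ₂) * (η₂ - y₁) :=
        mul_le_mul_of_nonneg_left (by linarith) (by linarith)
      linarith
    calc ((y₁ - η₁) * (x₁ - ξ₁)) * ((η₂ - y₂) * (x₂ - ξ₂))
        = ((y₁ - η₁) * (x₂ - ξ₂)) * ((η₂ - y₂) * (x₁ - ξ₁)) := by ring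
      _ ≤ _ := hprod

/-- The area preserving linear map `p ↦ (v·p, (v.1 p.2 - v.2 p.1)/|v|²)`. -/
private noncomputable def rotMap (v : ℝ × ℝ) : (ℝ × ℝ) →ₗ[ℝ] (ℝ × ℝ) :=
  Matrix.toLin (Module.Basis.finTwoProd ℝ) (Module.Basis.finTwoProd ℝ)
    !![v.1, v.2; -v.2 / (v.1 ^ 2 + v.2 ^ 2), v.1 / (v.1 ^ 2 + v.2 ^ 2)]

private lemma rotMap_apply (v p : ℝ × ℝ) :
    rotMap v p = (v.1 * p.1 + v.2 * p.2,
      -v.2 / (v.1 ^ 2 + v.2 ^ 2) * p.1 + v.1 / (v.1 ^ 2 + v.2 ^ 2) * p.2) := by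
  rw [rotMap, Matrix.toLin_finTwoProd_apply]

private lemma nsq_pos {v : ℝ × ℝ} (hv : v ≠ 0) : 0 < v.1 ^ 2 + v.2 ^ 2 := by
  by_contra h
  have h1 : v.1 ^ 2 = 0 := by nlinarith [sq_nonneg v.1, sq_nonneg v.2]
  have h2 : v.2 ^ 2 = 0 := by nlinarith [sq_nonneg v.1, sq_nonneg v.2]
  exact hv (Prod.ext (by simpa using h1) (by simpa using h2))

private lemma rotMap_det {v : ℝ × ℝ} (hv : v ≠ 0) : LinearMap.det (rotMap v) = 1 := by
  have h := nsq_pos hv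
  rw [rotMap, LinearMap.det_toLin, Matrix.det_fin_two_of]
  field_simp
  ring

/-- The same for an arbitrary direction `v ≠ 0`: apply `chord_prod` to the image of `L` under the
linear map `p ↦ (v·p, (v.1 p.2 - v.2 p.1)/|v|²)`, whose determinant is `±1`. -/
theorem chord_prod_dir {L : Set (ℝ × ℝ)} (hL : IsCompact L) (hc : Convex ℝ L)
    {v p q r s : ℝ × ℝ} {l m : ℝ} (hv : v ≠ 0)
    (h1 : p ∈ L) (h2 : (p.1 + l * v.2, p.2 - l * v.1) ∈ L) (h3 : q ∈ L)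
    (h4 : r ∈ L) (h5 : (r.1 - m * v.2, r.2 + m * v.1) ∈ L) (h6 : s ∈ L)
    (hl : 0 ≤ l) (hd : 0 ≤ v.1 * (p.1 - q.1) + v.2 * (p.2 - q.2))
    (hm : 0 ≤ m) (he : 0 ≤ v.1 * (s.1 - r.1) + v.2 * (s.2 - r.2)) :
    (l * (v.1 * (p.1 - q.1) + v.2 * (p.2 - q.2))) *
      (m * (v.1 * (s.1 - r.1) + v.2 * (s.2 - r.2))) ≤ (volume L).toReal ^ 2 := by
  have hn := nsq_pos hv
  set N := v.1 ^ 2 + v.2 ^ 2 with hN
  have hcont : Continuous (rotMap v) := LinearMap.continuous_of_finiteDimensional _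
  have hL' : IsCompact (rotMap v '' L) := hL.image hcont
  have hc' : Convex ℝ (rotMap v '' L) := hc.linear_image _
  have hvol : volume (rotMap v '' L) = volume L := by
    rw [Measure.addHaar_image_linearMap, rotMap_det hv]
    simp
  set Y : ℝ × ℝ → ℝ := fun a => v.1 * a.1 + v.2 * a.2 with hY
  set X : ℝ × ℝ → ℝ := fun a => -v.2 / N * a.1 + v.1 / N * a.2 with hX
  have key : ∀ a ∈ L, (Y a, X a) ∈ rotMap v '' L := fun a ha =>
    ⟨a, ha, by rw [rotMap_apply]⟩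
  have k1 := key p h1
  have k2 := key _ h2
  have k3 := key q h3
  have k4 := key r h4
  have k5 := key _ h5
  have k6 := key s h6
  have y2 : Y (p.1 + l * v.2, p.2 - l * v.1) = Y p := by simp only [hY]; ring
  have x2 : X (p.1 + l * v.2, p.2 - l * v.1) = X p - l := by
    simp only [hX]
    have : (v.1 ^ 2 + v.2 ^ 2) / N = 1 := div_self hn.ne'
    have h7 : -v.2 / N * (p.1 + l * v.2) + v.1 / N * (p.2 - l * v.1) =
        (-v.2 / N * p.1 + v.1 / N * p.2) - l * ((v.1 ^ 2 + v.2 ^ 2) / N) := by ring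
    rw [h7, this, mul_one]
  have y5 : Y (r.1 - m * v.2, r.2 + m * v.1) = Y r := by simp only [hY]; ring
  have x5 : X (r.1 - m * v.2, r.2 + m * v.1) = X r + m := by
    simp only [hX]
    have : (v.1 ^ 2 + v.2 ^ 2) / N = 1 := div_self hn.ne'
    have h7 : -v.2 / N * (r.1 - m * v.2) + v.1 / N * (r.2 + m * v.1) =
        (-v.2 / N * r.1 + v.1 / N * r.2) + m * ((v.1 ^ 2 + v.2 ^ 2) / N) := by ring
    rw [h7, this, mul_one]
  rw [y2, x2] at k2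
  rw [y5, x5] at k5
  have e1 : v.1 * (p.1 - q.1) + v.2 * (p.2 - q.2) = Y p - Y q := by simp only [hY]; ring
  have e2 : v.1 * (s.1 - r.1) + v.2 * (s.2 - r.2) = Y s - Y r := by simp only [hY]; ring
  rw [e1] at hd ⊢
  rw [e2] at he ⊢
  have := chord_prod hL' hc' k1 k2 k3 k5 k4 k6 (by linarith) (by linarith) (by linarith)
    (by linarith)
  rw [hvol] at this
  calc l * (Y p - Y q) * (m * (Y s - Y r))
      = ((Y p - Y q) * (X p - (X p - l))) * ((Y s - Y r) * (X r + m - X r)) := by ring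
    _ ≤ _ := this

end Pool.Agent.Lib.MP_a773b5_gt
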