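import Pool.Agent.Lib.MP_a773b5_gt.Defs

set_option autoImplicit false

namespace Pool.Agent.Lib.MP_a773b5_gt

open MeasureTheory Set

/-- Volume of the cone from `c` over the section at height `0`: with `d = c.1 > 0` its section at
height `z ∈ [0,d]` is a translate of `(1 - z/d) • sec K 0`. If `c.1 = 0` the cone lies in the plane
`z = 0` and has volume zero. -/
theorem cone_volume_le {K : Set P3} (hK : IsCompact K) (c : P3) (hc : 0 ≤ c.1) :
    volume {p : P3 | ∃ y ∈ K, y.1 = 0 ∧ ∃ t ∈ Icc (0:ℝ) 1, p = c + t • (y - c)} ≤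
      ENNReal.ofReal (1 / 3 * c.1 * secArea K 0) := by
  classical
  set S : Set P3 := {p : P3 | ∃ y ∈ K, y.1 = 0 ∧ ∃ t ∈ Icc (0:ℝ) 1, p = c + t • (y - c)} with hS
  have hsecC : IsCompact (sec K 0) := by
    have h1 : sec K 0 = (fun p : P3 => p.2) '' (K ∩ {p : P3 | p.1 = 0}) := by
      ext q
      constructor
      · intro hq
        exact ⟨(0, q), ⟨hq, rfl⟩, rfl⟩
      · rintro ⟨p, ⟨hpK, hp0⟩, rfl⟩
        have : (0, p.2) = p := Prod.ext hp0.symm rfl
        change (0, p.2) ∈ K
        rw [this]; exact hpK
    rw [h1]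
    refine IsCompact.image ?_ continuous_snd
    exact hK.inter_right (isClosed_eq continuous_fst continuous_const)
  have hfin : volume (sec K 0) ≠ ⊤ := hsecC.measure_lt_top.ne
  have hSc : IsCompact S := by
    have h1 : S = (fun x : P3 × ℝ => c + x.2 • (x.1 - c)) ''
        ((K ∩ {p : P3 | p.1 = 0}) ×ˢ Icc (0:ℝ) 1) := by
      ext p
      constructor
      · rintro ⟨y, hy, hy0, t, ht, rfl⟩
        exact ⟨(y, t), ⟨⟨hy, hy0⟩, ht⟩, rfl⟩
      · rintro ⟨⟨y, t⟩, ⟨⟨hy, hy0⟩, ht⟩, rfl⟩
        exact ⟨y, hy, hy0, t, ht, rfl⟩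
    rw [h1]
    refine IsCompact.image ?_ (by fun_prop)
    exact (hK.inter_right (isClosed_eq continuous_fst continuous_const)).prod isCompact_Icc
  have hvol : (volume : Measure P3) = (volume : Measure ℝ).prod (volume : Measure (ℝ × ℝ)) := rfl
  rcases hc.eq_or_lt with hc0 | hc0
  · -- degenerate cone
    have h1 : S ⊆ {(0:ℝ)} ×ˢ (univ : Set (ℝ × ℝ)) := by
      rintro p ⟨y, hy, hy0, t, ht, rfl⟩
      refine ⟨?_, mem_univ _⟩
      have h2 : (c + t • (y - c)).1 = c.1 + t * (y.1 - c.1) := rfl
      rw [mem_singleton_iff, h2, hy0, ← hc0]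
      ring
    have h2 : volume S = 0 := by
      refine measure_mono_null h1 ?_
      rw [hvol, Measure.prod_prod]
      simp
    rw [h2]
    exact bot_le
  · set d : ℝ := c.1 with hd
    have hfib : ∀ z : ℝ, volume (Prod.mk z ⁻¹' S) ≤
        (Icc (0:ℝ) d).indicator (fun z => ENNReal.ofReal ((1 - z / d) ^ 2) *
          volume (sec K 0)) z := by
      intro z
      by_cases hz : z ∈ Icc (0:ℝ) d
      · rw [indicator_of_mem hz]
        have h1 : Prod.mk z ⁻¹' S ⊆ AffineMap.homothety c.2 (1 - z / d) '' (sec K 0) := by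
          rintro q ⟨y, hy, hy0, t, ht, hq⟩
          have hq1 : z = c.1 + t * (y.1 - c.1) := congrArg Prod.fst hq
          have hq2 : q = c.2 + t • (y.2 - c.2) := congrArg Prod.snd hq
          have ht' : t = 1 - z / d := by
            rw [hq1, hy0, ← hd]
            field_simp
            ring
          refine ⟨y.2, ?_, ?_⟩
          · change (0, y.2) ∈ K
            have : (0, y.2) = y := Prod.ext hy0.symm rfl
            rw [this]; exact hy
          · rw [AffineMap.homothety_apply, hq2, ← ht']
            simp only [vsub_eq_sub, vadd_eq_add]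
            rw [add_comm]
        refine (measure_mono h1).trans ?_
        rw [Measure.addHaar_image_homothety]
        have h2 : Module.finrank ℝ (ℝ × ℝ) = 2 := by simp
        rw [h2, abs_of_nonneg (sq_nonneg _)]
      · rw [indicator_of_notMem hz]
        have h1 : Prod.mk z ⁻¹' S = ∅ := by
          ext q
          simp only [mem_preimage, mem_empty_iff_false, iff_false]
          rintro ⟨y, hy, hy0, t, ht, hq⟩
          have hq1 : z = c.1 + t * (y.1 - c.1) := congrArg Prod.fst hq
          rw [hy0, ← hd] at hq1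
          apply hz
          constructor
          · rw [hq1]; nlinarith [ht.1, ht.2]
          · rw [hq1]; nlinarith [ht.1, ht.2]
        rw [h1, measure_empty]
    rw [hvol, Measure.prod_apply hSc.measurableSet]
    refine (lintegral_mono hfib).trans ?_
    rw [lintegral_indicator measurableSet_Icc]
    rw [lintegral_mul_const _ (by fun_prop)]
    have hint : ∫⁻ z in Icc (0:ℝ) d, ENNReal.ofReal ((1 - z / d) ^ 2) =
        ENNReal.ofReal (1 / 3 * d) := by
      rw [← ofReal_integral_eq_lintegral_ofReal]
      · congr 1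
        rw [integral_Icc_eq_integral_Ioc, ← intervalIntegral.integral_of_le hc0.le]
        have h := intervalIntegral.integral_eq_sub_of_hasDerivAt (a := (0:ℝ)) (b := d)
          (f := fun z : ℝ => z - z ^ 2 / d + z ^ 3 / (3 * d ^ 2))
          (f' := fun z : ℝ => (1 - z / d) ^ 2)
          (fun x _ => by
            have h1 : HasDerivAt (fun r : ℝ => r) 1 x := hasDerivAt_id x
            have h2 : HasDerivAt (fun r : ℝ => r ^ 2 / d) ((2 * x ^ 1) / d) x := by
              simpa using (hasDerivAt_pow 2 x).div_const d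
            have h3 : HasDerivAt (fun r : ℝ => r ^ 3 / (3 * d ^ 2)) ((3 * x ^ 2) / (3 * d ^ 2)) x := by
              simpa using (hasDerivAt_pow 3 x).div_const (3 * d ^ 2)
            refine ((h1.sub h2).add h3).congr_deriv ?_
            field_simp
            ring)
          (by apply Continuous.intervalIntegrable; fun_prop)
        rw [h]
        field_simp
        ring
      · apply ContinuousOn.integrableOn_Icc
        fun_prop
      · exact Filter.Eventually.of_forall fun z => sq_nonneg _
    rw [hint, secArea]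
    have h4 : ENNReal.ofReal (1 / 3 * d * (volume (sec K 0)).toReal) =
        ENNReal.ofReal (1 / 3 * d) * ENNReal.ofReal ((volume (sec K 0)).toReal) :=
      ENNReal.ofReal_mul (by positivity)
    rw [h4, ENNReal.ofReal_toReal hfin]

end Pool.Agent.Lib.MP_a773b5_gt
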