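import Pool.Agent.Lib.MP_a773b5_gt.CubeLower

set_option autoImplicit false

namespace Pool.Agent.Lib.MP_a773b5_gt

open MeasureTheory Set

/-- The unit cube has volume `1`. -/
theorem volume_cube : volume {x : E3 | ∀ i, 0 ≤ x i ∧ x i ≤ 1} = 1 := by
  have h1 := EuclideanSpace.volume_preserving_symm_measurableEquiv_toLp (Fin 3)
  have h2 : {x : E3 | ∀ i, 0 ≤ x i ∧ x i ≤ 1} =
      (MeasurableEquiv.toLp 2 (Fin 3 → ℝ)).symm ⁻¹' (Icc (0 : Fin 3 → ℝ) 1) := by
    ext x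
    simp only [mem_setOf_eq, mem_preimage, mem_Icc, Pi.le_def]
    constructor
    · intro h
      exact ⟨fun i => (h i).1, fun i => (h i).2⟩
    · rintro ⟨h, h'⟩ i
      exact ⟨h i, h' i⟩
  rw [h2, h1.measure_preimage measurableSet_Icc.nullMeasurableSet, Real.volume_Icc_pi]
  simp

theorem cube_lower' (v : Fin 4 → E3) (hv : AffineIndependent ℝ v)
    (h : {x : E3 | ∀ i, 0 ≤ x i ∧ x i ≤ 1} ⊆ convexHull ℝ (range v)) :
    ENNReal.ofReal (9 / 2) * volume {x : E3 | ∀ i, 0 ≤ x i ∧ x i ≤ 1} ≤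
      volume (convexHull ℝ (range v)) := by
  rw [volume_cube, mul_one]
  exact cube_lower v hv h

end Pool.Agent.Lib.MP_a773b5_gt
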