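import Mathlib

set_option autoImplicit false

namespace Pool.Agent.Lib.MP_a773b5_gt

private lemma det_fun {ι : Type*} [Fintype ι] [Nonempty ι] (c u : ι → ℝ) (hu : ∑ i, u i = 0)
    {D : ℝ} (hD : ∀ i j, |c i - c j| ≤ D) :
    |∑ i, c i * u i| ≤ (∑ i, |u i|) / 2 * D := by
  obtain ⟨i₀, hi⟩ := Finite.exists_max c
  obtain ⟨j₀, hj⟩ := Finite.exists_min c
  have h1 : ∑ i, c i * u i = ∑ i, (c i - (c i₀ + c j₀) / 2) * u i := by
    have : ∑ i, (c i - (c i₀ + c j₀) / 2) * u i =
        ∑ i, c i * u i - (c i₀ + c j₀) / 2 * ∑ i, u i := by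
      rw [Finset.mul_sum, ← Finset.sum_sub_distrib]
      refine Finset.sum_congr rfl fun i _ => ?_
      ring
    rw [this, hu]; ring
  have hd := (abs_le.1 (hD i₀ j₀)).2
  rw [h1]
  calc |∑ i, (c i - (c i₀ + c j₀) / 2) * u i|
      ≤ ∑ i, |(c i - (c i₀ + c j₀) / 2) * u i| := Finset.abs_sum_le_sum_abs _ _
    _ ≤ ∑ i, D / 2 * |u i| := by
        refine Finset.sum_le_sum fun i _ => ?_
        rw [abs_mul]
        refine mul_le_mul_of_nonneg_right ?_ (abs_nonneg _)
        rw [abs_le]
        constructor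
        · linarith [hi i, hj i]
        · linarith [hi i, hj i]
    _ = (∑ i, |u i|) / 2 * D := by
        rw [← Finset.mul_sum]; ring

private lemma det_two {p q r p' q' r' : ℝ} (h : p + q + r = 0) (h' : p' + q' + r' = 0) :
    |p * q' - q * p'| ≤ (|p| + |q| + |r|) / 2 * ((|p'| + |q'| + |r'|) / 2) := by
  have hp : |p'| ≤ |q'| + |r'| := by
    have : p' = -(q' + r') := by linarith
    rw [this, abs_neg]; exact abs_add_le _ _
  have hq : |q'| ≤ |p'| + |r'| := by
    have : q' = -(p' + r') := by linarith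
    rw [this, abs_neg]; exact abs_add_le _ _
  have hr : |r'| ≤ |p'| + |q'| := by
    have : r' = -(p' + q') := by linarith
    rw [this, abs_neg]; exact abs_add_le _ _
  have key := det_fun (ι := Fin 3) ![q', -p', 0] ![p, q, r]
    (by simp [Fin.sum_univ_three]; linarith)
    (D := (|p'| + |q'| + |r'|) / 2) (by
      have e1 : |q' - -p'| ≤ (|p'| + |q'| + |r'|) / 2 := by
        have : q' - -p' = -r' := by linarith
        rw [this, abs_neg]; linarith
      have e2 : |q'| ≤ (|p'| + |q'| + |r'|) / 2 := by linarith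
      have e3 : |p'| ≤ (|p'| + |q'| + |r'|) / 2 := by linarith
      have e0 : 0 ≤ (|p'| + |q'| + |r'|) / 2 := by positivity
      intro i j
      fin_cases i <;> fin_cases j
      · simpa using e0
      · simpa using e1
      · simpa using e2
      · have : |-p' - q'| = |q' - -p'| := by rw [abs_sub_comm]
        simpa using this.le.trans e1
      · simpa using e0
      · simpa using e3
      · simpa using e2
      · simpa using e3
      · simpa using e0)
  simp only [Fin.sum_univ_three, Matrix.cons_val_zero, Matrix.cons_val_one, Matrix.cons_val] at key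
  have e : p * q' - q * p' = q' * p + -p' * q + 0 * r := by ring
  rw [e]
  exact key

private lemma det_block {p q r p' q' r' S T : ℝ} (h : p + q + r = 0) (h' : p' + q' + r' = 0)
    (hS : |p| + |q| + |r| ≤ S) (hT : |p'| + |q'| + |r'| ≤ T) :
    |p * q' - q * p'| ≤ S / 2 * (T / 2) := by
  refine (det_two h h').trans ?_
  have h1 : 0 ≤ |p| + |q| + |r| := by positivity
  have h2 : 0 ≤ |p'| + |q'| + |r'| := by positivity
  have h3 : 0 ≤ S / 2 := by linarith
  exact mul_le_mul (by linarith) (by linarith) (by linarith) h3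

/-- Four rows `B 0, ..., B 3` in `ℝ³` with sum zero. Then the determinant of the last three is at
most the product of the half column sums of absolute values. (A linear functional `Σ c_j b_j` of a
column `b` with sum zero is at most `(Σ|b_j|/2) max |c_i - c_j|`; apply this to the three columns
one after the other; the determinants with all three columns of the form `e_i - e_j` are
`-1`, `0` or `1`.) -/
theorem det_le (B : Matrix (Fin 4) (Fin 3) ℝ) (h : ∀ k, ∑ j, B j k = 0) :
    |(Matrix.of (fun i k : Fin 3 => B i.succ k)).det| ≤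
      (∑ j, |B j 0|) / 2 * ((∑ j, |B j 1|) / 2) * ((∑ j, |B j 2|) / 2) := by
  have hx : B 0 0 + B 1 0 + B 2 0 + B 3 0 = 0 := by
    have := h 0; simpa [Fin.sum_univ_four] using this
  have hy : B 0 1 + B 1 1 + B 2 1 + B 3 1 = 0 := by
    have := h 1; simpa [Fin.sum_univ_four] using this
  have hz : B 0 2 + B 1 2 + B 2 2 + B 3 2 = 0 := by
    have := h 2; simpa [Fin.sum_univ_four] using this
  have hdet : (Matrix.of (fun i k : Fin 3 => B i.succ k)).det =
      ∑ i, (![0, B 2 1 * B 3 2 - B 3 1 * B 2 2, B 3 1 * B 1 2 - B 1 1 * B 3 2,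
        B 1 1 * B 2 2 - B 2 1 * B 1 2] : Fin 4 → ℝ) i * B i 0 := by
    rw [Matrix.det_fin_three, Fin.sum_univ_four]
    have e1 : (Fin.succ 0 : Fin 4) = 1 := rfl
    have e2 : (Fin.succ 1 : Fin 4) = 2 := rfl
    have e3 : (Fin.succ 2 : Fin 4) = 3 := rfl
    simp only [Matrix.of_apply, e1, e2, e3, Matrix.cons_val_zero, Matrix.cons_val_one,
      Matrix.cons_val]
    ring
  rw [hdet, mul_assoc]
  refine det_fun _ (fun i => B i 0) (h 0) ?_
  generalize hS : (∑ j, |B j 1|) = S
  generalize hT : (∑ j, |B j 2|) = T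
  rw [Fin.sum_univ_four] at hS hT
  have a01 := abs_add_le (B 0 1) (B 1 1)
  have a02 := abs_add_le (B 0 1) (B 2 1)
  have a03 := abs_add_le (B 0 1) (B 3 1)
  have a12 := abs_add_le (B 1 1) (B 2 1)
  have a13 := abs_add_le (B 1 1) (B 3 1)
  have a23 := abs_add_le (B 2 1) (B 3 1)
  have b01 := abs_add_le (B 0 2) (B 1 2)
  have b02 := abs_add_le (B 0 2) (B 2 2)
  have b03 := abs_add_le (B 0 2) (B 3 2)
  have b12 := abs_add_le (B 1 2) (B 2 2)
  have b13 := abs_add_le (B 1 2) (B 3 2)
  have b23 := abs_add_le (B 2 2) (B 3 2)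
  have c10 : |B 2 1 * B 3 2 - B 3 1 * B 2 2| ≤ S / 2 * (T / 2) :=
    det_block (r := B 0 1 + B 1 1) (r' := B 0 2 + B 1 2) (by linarith) (by linarith)
      (by linarith) (by linarith)
  have c20 : |B 3 1 * B 1 2 - B 1 1 * B 3 2| ≤ S / 2 * (T / 2) :=
    det_block (r := B 0 1 + B 2 1) (r' := B 0 2 + B 2 2) (by linarith) (by linarith)
      (by linarith) (by linarith)
  have c30 : |B 1 1 * B 2 2 - B 2 1 * B 1 2| ≤ S / 2 * (T / 2) :=
    det_block (r := B 0 1 + B 3 1) (r' := B 0 2 + B 3 2) (by linarith) (by linarith)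
      (by linarith) (by linarith)
  have c12 : |(B 2 1 * B 3 2 - B 3 1 * B 2 2) - (B 3 1 * B 1 2 - B 1 1 * B 3 2)| ≤
      S / 2 * (T / 2) := by
    have := det_block (p := B 1 1 + B 2 1) (q := B 3 1) (r := B 0 1) (p' := B 1 2 + B 2 2)
      (q' := B 3 2) (r' := B 0 2) (S := S) (T := T) (by linarith) (by linarith)
      (by linarith) (by linarith)
    refine le_trans (le_of_eq ?_) this
    congr 1; ring
  have c13 : |(B 2 1 * B 3 2 - B 3 1 * B 2 2) - (B 1 1 * B 2 2 - B 2 1 * B 1 2)| ≤
      S / 2 * (T / 2) := by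
    have := det_block (p := B 2 1) (q := B 1 1 + B 3 1) (r := B 0 1) (p' := B 2 2)
      (q' := B 1 2 + B 3 2) (r' := B 0 2) (S := S) (T := T) (by linarith) (by linarith)
      (by linarith) (by linarith)
    refine le_trans (le_of_eq ?_) this
    congr 1; ring
  have c23 : |(B 3 1 * B 1 2 - B 1 1 * B 3 2) - (B 1 1 * B 2 2 - B 2 1 * B 1 2)| ≤
      S / 2 * (T / 2) := by
    have := det_block (p := B 2 1 + B 3 1) (q := B 1 1) (r := B 0 1) (p' := B 2 2 + B 3 2)
      (q' := B 1 2) (r' := B 0 2) (S := S) (T := T) (by linarith) (by linarith)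
      (by linarith) (by linarith)
    refine le_trans (le_of_eq ?_) this
    congr 1; ring
  have c00 : 0 ≤ S / 2 * (T / 2) := le_trans (abs_nonneg _) c10
  intro i j
  fin_cases i <;> fin_cases j
  · simpa using c00
  · simpa [abs_sub_comm] using c10
  · simpa [abs_sub_comm] using c20
  · simpa [abs_sub_comm] using c30
  · simpa using c10
  · simpa using c00
  · simpa using c12
  · simpa using c13
  · simpa using c20
  · rw [abs_sub_comm] at c12; simpa using c12
  · simpa using c00
  · simpa using c23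
  · simpa using c30
  · rw [abs_sub_comm] at c13; simpa using c13
  · rw [abs_sub_comm] at c23; simpa using c23
  · simpa using c00

end Pool.Agent.Lib.MP_a773b5_gt
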