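import Pool.Agent.Lib.MP_a773b5_gt.TetVol
import Pool.Agent.Lib.MP_a773b5_gt.DetIneq

set_option autoImplicit false

namespace Pool.Agent.Lib.MP_a773b5_gt

open MeasureTheory Set

/-- A tetrahedron containing the unit cube has volume at least `9/2`. With barycentric coordinates
`λ_j x = α_j + Σ_k B j k x_k` one has `Σ_j B j k = 0`, `Σ α_j = 1`; evaluating `λ_j ≥ 0` at the
vertex of the cube where it is smallest gives `Σ_k max (-B j k) 0 ≤ α_j`, so the half column sums
`σ_k = (Σ_j |B j k|)/2` satisfy `σ_0 + σ_1 + σ_2 ≤ 1`, and `det_le` gives `|det B| ≤ 1/27`. But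
`det B = 1 / det (v_i - v_0)`; use `volume_tet`. -/
theorem cube_lower (v : Fin 4 → E3) (hv : AffineIndependent ℝ v)
    (h : {x : E3 | ∀ i, 0 ≤ x i ∧ x i ≤ 1} ⊆ convexHull ℝ (range v)) :
    ENNReal.ofReal (9 / 2) ≤ volume (convexHull ℝ (range v)) := by
  have htop : affineSpan ℝ (range v) = ⊤ := by
    rw [hv.affineSpan_eq_top_iff_card_eq_finrank_add_one]
    simp
  let b : AffineBasis (Fin 4) ℝ E3 := ⟨v, hv, htop⟩
  let e : Fin 3 → E3 := fun k => EuclideanSpace.single k (1 : ℝ)
  let B : Matrix (Fin 4) (Fin 3) ℝ := Matrix.of fun j k => (b.coord j).linear (e k)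
  let al : Fin 4 → ℝ := fun j => b.coord j 0
  have hcoord : ∀ j (x : E3), b.coord j x = al j + ∑ k, B j k * x k := by
    intro j x
    have h1 : b.coord j x = (b.coord j).linear x + b.coord j 0 := by
      have := (b.coord j).decomp'
      have h2 := (b.coord j).map_vadd 0 x
      simpa using h2
    have h2 : x = ∑ k, x k • e k := by
      ext i
      simp [e, Pi.single_apply]
    rw [h1]
    conv_lhs => rw [h2]
    rw [map_sum]
    simp only [map_smul, smul_eq_mul]
    rw [add_comm]
    congr 1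
    exact Finset.sum_congr rfl fun k _ => mul_comm _ _
  have hsum : ∀ x : E3, ∑ j, b.coord j x = 1 := fun x => b.sum_coord_apply_eq_one x
  have hal : ∑ j, al j = 1 := hsum 0
  have hB0 : ∀ k, ∑ j, B j k = 0 := by
    intro k
    have h1 := hsum (e k)
    simp only [hcoord, Finset.sum_add_distrib, hal] at h1
    have h2 : ∑ j, ∑ l, B j l * (e k) l = ∑ j, B j k := by
      refine Finset.sum_congr rfl fun j _ => ?_
      simp [e]
    rw [h2] at h1
    linarith
  have hnn : ∀ x : E3, (∀ i, 0 ≤ x i ∧ x i ≤ 1) → ∀ j, 0 ≤ b.coord j x := by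
    intro x hx j
    have h1 := h hx
    have h2 : convexHull ℝ (range v) = {x | ∀ i, 0 ≤ b.coord i x} :=
      b.convexHull_eq_nonneg_coord
    rw [h2] at h1
    exact h1 j
  have hmin : ∀ j, ∑ k, max (-B j k) 0 ≤ al j := by
    intro j
    have h1 := hnn (WithLp.toLp 2 fun k => if B j k < 0 then 1 else 0) (fun i => by
      dsimp only
      split_ifs <;> norm_num) j
    rw [hcoord] at h1
    have h2 : ∑ k, B j k * (WithLp.toLp 2 (fun k => if B j k < 0 then (1:ℝ) else 0) : E3) k =
        - ∑ k, max (-B j k) 0 := by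
      rw [← Finset.sum_neg_distrib]
      refine Finset.sum_congr rfl fun k _ => ?_
      dsimp only
      split_ifs with h3
      · rw [max_eq_left (by linarith)]
        ring
      · rw [max_eq_right (by linarith)]
        ring
    rw [h2] at h1
    linarith
  have habs : ∀ k, ∑ j, |B j k| = 2 * ∑ j, max (-B j k) 0 := by
    intro k
    have h1 : ∀ j, |B j k| = 2 * max (-B j k) 0 + B j k := by
      intro j
      rcases le_total (B j k) 0 with h2 | h2
      · rw [abs_of_nonpos h2, max_eq_left (by linarith)]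
        ring
      · rw [abs_of_nonneg h2, max_eq_right (by linarith)]
        ring
    simp only [h1, Finset.sum_add_distrib, hB0, add_zero, ← Finset.mul_sum]
  have htot : (∑ j, |B j 0|) / 2 + (∑ j, |B j 1|) / 2 + (∑ j, |B j 2|) / 2 ≤ 1 := by
    have h1 : ∑ j, ∑ k, max (-B j k) 0 ≤ ∑ j, al j := Finset.sum_le_sum fun j _ => hmin j
    rw [Finset.sum_comm, Fin.sum_univ_three, hal] at h1
    rw [habs, habs, habs]
    linarith
  have hdet := det_le B hB0
  set s0 := (∑ j, |B j 0|) / 2 with hs0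
  set s1 := (∑ j, |B j 1|) / 2 with hs1
  set s2 := (∑ j, |B j 2|) / 2 with hs2
  have p0 : 0 ≤ s0 := by positivity
  have p1 : 0 ≤ s1 := by positivity
  have p2 : 0 ≤ s2 := by positivity
  have hamgm : s0 * s1 * s2 ≤ 1 / 27 := by
    have h1 : 27 * (s0 * s1 * s2) ≤ (s0 + s1 + s2) ^ 3 := by
      nlinarith [mul_nonneg p0 (sq_nonneg (s1 - s2)), mul_nonneg p1 (sq_nonneg (s0 - s2)),
        mul_nonneg p2 (sq_nonneg (s0 - s1)), mul_nonneg p0 (sq_nonneg (s0 - s1)),
        mul_nonneg p0 (sq_nonneg (s0 - s2)), mul_nonneg p1 (sq_nonneg (s0 - s1)),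
        mul_nonneg p1 (sq_nonneg (s1 - s2)), mul_nonneg p2 (sq_nonneg (s0 - s2)),
        mul_nonneg p2 (sq_nonneg (s1 - s2))]
    have h2 : (s0 + s1 + s2) ^ 3 ≤ 1 := pow_le_one₀ (by positivity) htot
    linarith
  set B' : Matrix (Fin 3) (Fin 3) ℝ := Matrix.of (fun i k : Fin 3 => B i.succ k) with hB'
  set V : Matrix (Fin 3) (Fin 3) ℝ := Matrix.of (fun i j : Fin 3 => v i.succ j - v 0 j) with hV
  have hprod : B' * V.transpose = 1 := by
    ext i l
    rw [Matrix.mul_apply]
    have h1 : ∑ k, B' i k * V.transpose k l =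
        b.coord i.succ (v l.succ) - b.coord i.succ (v 0) := by
      rw [hcoord, hcoord, add_sub_add_left_eq_sub, ← Finset.sum_sub_distrib]
      refine Finset.sum_congr rfl fun k _ => ?_
      simp only [hB', hV, Matrix.of_apply, Matrix.transpose_apply]
      ring
    rw [h1]
    have h2 : ∀ m, b.coord i.succ (v m) = if i.succ = m then 1 else 0 := by
      intro m
      exact b.coord_apply i.succ m
    rw [h2, h2, Matrix.one_apply]
    simp [Fin.succ_ne_zero]
  have hdd : B'.det * V.det = 1 := by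
    rw [← Matrix.det_transpose V, ← Matrix.det_mul, hprod, Matrix.det_one]
  have hV27 : 27 ≤ |V.det| := by
    have h1 : |B'.det| * |V.det| = 1 := by rw [← abs_mul, hdd, abs_one]
    have h2 : |B'.det| ≤ 1 / 27 := le_trans hdet hamgm
    have h3 : 0 ≤ |V.det| := abs_nonneg _
    nlinarith
  rw [volume_tet]
  apply ENNReal.ofReal_le_ofReal
  rw [← hV]
  linarith

end Pool.Agent.Lib.MP_a773b5_gt
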