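import Mathlib

set_option autoImplicit false

/-!
MP_a773b5_gt: small tetrahedra around a convex body. Common definitions.
Coordinates of three-space are written `(z, y, x)`.
-/

namespace Pool.Agent.Lib.MP_a773b5_gt

open MeasureTheory Set

/-- Three-space with coordinates `(z, y, x)`. -/
abbrev P3 : Type := ℝ × ℝ × ℝ

/-- The section of `K` at height `z`. -/
def sec (K : Set P3) (z : ℝ) : Set (ℝ × ℝ) := {p | (z, p) ∈ K}

/-- The area of the section of `K` at height `z`. -/
noncomputable def secArea (K : Set P3) (z : ℝ) : ℝ := (volume (sec K z)).toReal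

/-- `K` lies in a nondegenerate tetrahedron of volume at most `c`. -/
def HasTet (K : Set P3) (c : ℝ) : Prop :=
  ∃ v : Fin 4 → P3, AffineIndependent ℝ v ∧ K ⊆ convexHull ℝ (range v) ∧
    volume (convexHull ℝ (range v)) ≤ ENNReal.ofReal c

/-- `K` lies in a nondegenerate tetrahedron of volume at most `C` times the volume of `K`. -/
def TetRatio {E : Type*} [AddCommGroup E] [Module ℝ E] [MeasureSpace E] (K : Set E) (C : ℝ) :
    Prop :=
  ∃ v : Fin 4 → E, AffineIndependent ℝ v ∧ K ⊆ convexHull ℝ (range v) ∧
    volume (convexHull ℝ (range v)) ≤ ENNReal.ofReal C * volume K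

end Pool.Agent.Lib.MP_a773b5_gt
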