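import Pool.Agent.Lib.MP_a773b5_gt.ZSet

set_option autoImplicit false

namespace Pool.Agent.Lib.MP_a773b5_gt

open MeasureTheory Set Filter Topology

/-- Some direction `v` has no bad height. Otherwise the two sets
`{v ≠ 0 | ∃ z ∈ Zset v, ∃ z' ∈ Zset (-v), z < z'}` and the same with `z' < z` are open, disjoint,
exchanged by `v ↦ -v` and cover `ℝ² \ {0}`, which is connected. -/
theorem exists_dir {K : Set P3} (hK : IsCompact K) (hc : Convex ℝ K)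
    (hz : ∀ p ∈ K, 0 ≤ p.1) {G : ℝ} (hG : ∀ z, z * secArea K z ≤ G) :
    ∃ v : ℝ × ℝ, v ≠ 0 ∧ Zset K G v = ∅ := by
  by_contra hcon
  push Not at hcon
  have hG0 : 0 ≤ G := by simpa using hG 0
  have hne : ∀ v : ℝ × ℝ, v ≠ 0 → (Zset K G v).Nonempty := fun v hv => hcon v hv
  set U : Set (ℝ × ℝ) := {v | ∃ z ∈ Zset K G v, ∃ z' ∈ Zset K G (-v), z < z'} with hU
  set V : Set (ℝ × ℝ) := {v | ∃ z ∈ Zset K G v, ∃ z' ∈ Zset K G (-v), z' < z} with hV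
  have hneg : ∀ (v : ℝ × ℝ) (z : ℝ), z ∈ Zset K G (-v) → ∀ᶠ w in 𝓝 v, z ∈ Zset K G (-w) := by
    intro v z h
    have h1 := Zset_nhds hc hz hG0 h
    have h2 : Tendsto (fun w : ℝ × ℝ => -w) (𝓝 v) (𝓝 (-v)) := continuous_neg.continuousAt
    exact h2.eventually h1
  have hUo : IsOpen U := by
    rw [isOpen_iff_mem_nhds]
    rintro v ⟨z, hz1, z', hz2, hlt⟩
    filter_upwards [Zset_nhds hc hz hG0 hz1, hneg v z' hz2] with w hw1 hw2
    exact ⟨z, hw1, z', hw2, hlt⟩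
  have hVo : IsOpen V := by
    rw [isOpen_iff_mem_nhds]
    rintro v ⟨z, hz1, z', hz2, hlt⟩
    filter_upwards [Zset_nhds hc hz hG0 hz1, hneg v z' hz2] with w hw1 hw2
    exact ⟨z, hw1, z', hw2, hlt⟩
  have hcov : ∀ v : ℝ × ℝ, v ≠ 0 → v ∈ U ∪ V := by
    intro v hv
    obtain ⟨z, hz1⟩ := hne v hv
    obtain ⟨z', hz2⟩ := hne (-v) (neg_ne_zero.mpr hv)
    have hd := Zset_disjoint hK hc hz hG hv
    have hzz : z ≠ z' := by
      rintro rfl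
      exact Set.disjoint_left.mp hd hz1 hz2
    rcases lt_or_gt_of_ne hzz with h | h
    · exact Or.inl ⟨z, hz1, z', hz2, h⟩
    · exact Or.inr ⟨z, hz1, z', hz2, h⟩
  have hdisj : ∀ v : ℝ × ℝ, v ≠ 0 → v ∈ U → v ∈ V → False := by
    rintro v hv ⟨z, hz1, z', hz2, h1⟩ ⟨w, hw1, w', hw2, h2⟩
    have hd := Zset_disjoint hK hc hz hG hv
    by_cases h : z' ≤ w
    · have : z' ∈ Zset K G v := (Zset_ordConnected hc hz hG0 v).out hz1 hw1 ⟨h1.le, h⟩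
      exact Set.disjoint_left.mp hd this hz2
    · push Not at h
      have : w ∈ Zset K G (-v) := (Zset_ordConnected hc hz hG0 (-v)).out hw2 hz2 ⟨h2.le, h.le⟩
      exact Set.disjoint_left.mp hd hw1 this
  have hswapU : ∀ v, v ∈ U → -v ∈ V := by
    rintro v ⟨z, hz1, z', hz2, h1⟩
    exact ⟨z', hz2, z, by rwa [neg_neg], h1⟩
  have hswapV : ∀ v, v ∈ V → -v ∈ U := by
    rintro v ⟨z, hz1, z', hz2, h1⟩
    exact ⟨z', hz2, z, by rwa [neg_neg], h1⟩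
  have hrank : 1 < Module.rank ℝ (ℝ × ℝ) := by
    rw [rank_prod', Module.rank_self]
    norm_num
  have hpre := (isConnected_compl_singleton_of_one_lt_rank hrank (0 : ℝ × ℝ)).isPreconnected
  have he : ((1 : ℝ), (0 : ℝ)) ≠ (0 : ℝ × ℝ) := by
    intro h
    have := congrArg Prod.fst h
    simp at this
  have hen : -((1 : ℝ), (0 : ℝ)) ≠ (0 : ℝ × ℝ) := neg_ne_zero.mpr he
  have hUV : (({(0 : ℝ × ℝ)} : Set (ℝ × ℝ))ᶜ ∩ U).Nonempty ∧
      (({(0 : ℝ × ℝ)} : Set (ℝ × ℝ))ᶜ ∩ V).Nonempty := by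
    rcases hcov _ he with h | h
    · exact ⟨⟨_, he, h⟩, ⟨_, hen, hswapU _ h⟩⟩
    · exact ⟨⟨_, hen, hswapV _ h⟩, ⟨_, he, h⟩⟩
  obtain ⟨v, hv0, hvU, hvV⟩ := hpre U V hUo hVo (fun v hv => hcov v hv) hUV.1 hUV.2
  exact hdisj v hv0 hvU hvV

end Pool.Agent.Lib.MP_a773b5_gt
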