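import Mathlib

set_option autoImplicit false

namespace Pool.Agent.Lib.MP_a773b5_gt

/-- Polynomial inequality of the facet lemma. At `m = 0` the difference is
`(1-k)(2+6k+3k²+k³)/36`; the derivative in `m` of the difference is
`(1+k+k²)/3 + m - k²(1 + 3m/2)`, affine in `m` and nonnegative at both ends `m = 0` and
`m = 1 - (1+k+k²)/3`. -/
theorem facet_poly {k m : ℝ} (hk0 : 0 ≤ k) (hk : k < 1) (hm : 0 ≤ m)
    (hm' : (1 + k + k ^ 2) / 3 + m ≤ 1) :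
    k ^ 2 * ((k ^ 2 + 2 * k + 3) / 12 + m + 3 / 4 * m ^ 2) <
      ((1 + k + k ^ 2) / 3 + m) ^ 2 / 2 := by
  have h1k : 0 < 1 - k := by linarith
  have hk2 : 0 ≤ k ^ 2 := sq_nonneg k
  have hk3 : 0 ≤ k ^ 3 := by positivity
  have hk21 : k ^ 2 ≤ k := by nlinarith
  have hk31 : k ^ 3 ≤ k := by nlinarith
  -- the value at `m = 0`
  have h0 : 0 < (1 - k) * (2 + 6 * k + 3 * k ^ 2 + k ^ 3) / 36 := by
    have : 0 < 2 + 6 * k + 3 * k ^ 2 + k ^ 3 := by linarith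
    positivity
  -- the slope
  have h1 : 0 ≤ ((1 + k + k ^ 2) / 3 - k ^ 2) + m * (1 / 2 - 3 / 4 * k ^ 2) := by
    have e0 : (1 + k + k ^ 2) / 3 - k ^ 2 = (1 - k) * (1 + 2 * k) / 3 := by ring
    have p0 : 0 ≤ (1 - k) * (1 + 2 * k) / 3 := by
      have : 0 ≤ 1 + 2 * k := by linarith
      positivity
    rcases le_total 0 (1 / 2 - 3 / 4 * k ^ 2) with h | h
    · have := mul_nonneg hm h
      linarith
    · have h2 : m ≤ 1 - (1 + k + k ^ 2) / 3 := by linarith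
      have h3 := mul_le_mul_of_nonpos_right h2 h
      have h4 : 0 ≤ (1 - k) / 3 * (2 + 5 / 2 * k - 3 / 2 * k ^ 2 - 3 / 4 * k ^ 3) := by
        have : 0 ≤ 2 + 5 / 2 * k - 3 / 2 * k ^ 2 - 3 / 4 * k ^ 3 := by linarith
        positivity
      have e1 : (1 + k + k ^ 2) / 3 - k ^ 2 + (1 - (1 + k + k ^ 2) / 3) * (1 / 2 - 3 / 4 * k ^ 2) =
          (1 - k) / 3 * (2 + 5 / 2 * k - 3 / 2 * k ^ 2 - 3 / 4 * k ^ 3) := by ring
      linarith
  have h5 := mul_nonneg hm h1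
  have e2 : ((1 + k + k ^ 2) / 3 + m) ^ 2 / 2 -
      k ^ 2 * ((k ^ 2 + 2 * k + 3) / 12 + m + 3 / 4 * m ^ 2) =
      (1 - k) * (2 + 6 * k + 3 * k ^ 2 + k ^ 3) / 36 +
        m * (((1 + k + k ^ 2) / 3 - k ^ 2) + m * (1 / 2 - 3 / 4 * k ^ 2)) := by ring
  linarith

end Pool.Agent.Lib.MP_a773b5_gt
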