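import Pool.Agent.Lib.MP_a773b5_gt.Defs

set_option autoImplicit false

namespace Pool.Agent.Lib.MP_a773b5_gt

open MeasureTheory Set

/-- Among concave `g ≥ 0` on `[0,L]` with given `g 0` and given mass `m = ∫ g²`, the first moment
is largest for the cone `r ↦ g 0 (1 - r/ℓ)` with `ℓ = 3 m / (g 0)² ≥ L` (note `m ≥ (g 0)² L/3`).
Proof: with `c(r) = g 0 (1 - r/ℓ)` on `[0,ℓ]`, the difference `g - c` on `[0,L]` is concave and zero
at `0`, so there is `s ∈ [0,ℓ]` with `g² - c² ≥ 0` before `s` and `≤ 0` after `s` (where `g` is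
extended by `0` to `(L, ℓ]`), hence `∫ (r - s)(g² - c²) ≤ 0`, and the masses are equal. -/
theorem tail_moment {L : ℝ} (hL : 0 ≤ L) {g : ℝ → ℝ} (hg : ConcaveOn ℝ (Icc 0 L) g)
    (hgc : ContinuousOn g (Icc 0 L)) (hn : ∀ r ∈ Icc 0 L, 0 ≤ g r) (h0 : 0 < g 0) :
    ∫ r in (0:ℝ)..L, r * g r ^ 2 ≤ 3 * (∫ r in (0:ℝ)..L, g r ^ 2) ^ 2 / (4 * g 0 ^ 2) := by
  rcases hL.eq_or_lt with rfl | hL'
  · simp
  set A := g 0 with hA
  set m := ∫ r in (0:ℝ)..L, g r ^ 2 with hm
  have h0L : (0:ℝ) ∈ Icc 0 L := ⟨le_rfl, hL⟩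
  have hconc : ∀ t ∈ Icc (0:ℝ) L, ∀ r ∈ Icc (0:ℝ) t, 0 < t → (1 - r / t) * A + r / t * g t ≤ g r := by
    intro t ht r hr ht0
    have h := hg.2 h0L ht
      (by rw [sub_nonneg]; exact (div_le_one ht0).2 hr.2 : 0 ≤ 1 - r / t)
      (div_nonneg hr.1 ht0.le) (by ring)
    simp only [smul_eq_mul] at h
    have h1 : (1 - r / t) * 0 + r / t * t = r := by field_simp; ring
    rw [h1] at h
    exact h
  have hI2 : IntervalIntegrable (fun z => g z ^ 2) volume 0 L :=
    ContinuousOn.intervalIntegrable (by rw [uIcc_of_le hL]; exact hgc.pow 2)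
  have hI1 : IntervalIntegrable (fun z => z * g z ^ 2) volume 0 L :=
    ContinuousOn.intervalIntegrable (by rw [uIcc_of_le hL]; exact continuousOn_id.mul (hgc.pow 2))
  -- integrals of the cone
  have hcI : ∀ (B x y : ℝ), ∫ r in x..y, (A * (1 - B * r)) ^ 2 =
      A ^ 2 * ((y - B * y ^ 2 + B ^ 2 * y ^ 3 / 3) - (x - B * x ^ 2 + B ^ 2 * x ^ 3 / 3)) := by
    intro B x y
    have h : ∀ z ∈ uIcc x y, HasDerivAt
        (fun z => A ^ 2 * z - A ^ 2 * B * z ^ 2 + A ^ 2 * B ^ 2 * z ^ 3 / 3)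
        ((A * (1 - B * z)) ^ 2) z := by
      intro z _
      have h0 : HasDerivAt (fun z : ℝ => z) 1 z := hasDerivAt_id z
      have h1 := ((h0.const_mul (A ^ 2)).sub ((h0.pow 2).const_mul (A ^ 2 * B))).add
        (((h0.pow 3).const_mul (A ^ 2 * B ^ 2)).div_const 3)
      refine HasDerivAt.congr_deriv (f' := _) h1 ?_
      norm_num; ring
    rw [intervalIntegral.integral_eq_sub_of_hasDerivAt h
      (Continuous.intervalIntegrable (by fun_prop) _ _)]
    ring
  have hcI2 : ∀ (B x y : ℝ), ∫ r in x..y, r * (A * (1 - B * r)) ^ 2 =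
      A ^ 2 * ((y ^ 2 / 2 - 2 * B * y ^ 3 / 3 + B ^ 2 * y ^ 4 / 4) -
        (x ^ 2 / 2 - 2 * B * x ^ 3 / 3 + B ^ 2 * x ^ 4 / 4)) := by
    intro B x y
    have h : ∀ z ∈ uIcc x y, HasDerivAt
        (fun z => A ^ 2 * z ^ 2 / 2 - 2 * A ^ 2 * B * z ^ 3 / 3 + A ^ 2 * B ^ 2 * z ^ 4 / 4)
        (z * (A * (1 - B * z)) ^ 2) z := by
      intro z _
      have h0 : HasDerivAt (fun z : ℝ => z) 1 z := hasDerivAt_id z
      have h1 := ((((h0.pow 2).const_mul (A ^ 2)).div_const 2).sub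
        (((h0.pow 3).const_mul (2 * A ^ 2 * B)).div_const 3)).add
        (((h0.pow 4).const_mul (A ^ 2 * B ^ 2)).div_const 4)
      refine HasDerivAt.congr_deriv (f' := _) h1 ?_
      norm_num; ring
    rw [intervalIntegral.integral_eq_sub_of_hasDerivAt h
      (Continuous.intervalIntegrable (by fun_prop) _ _)]
    ring
  -- the length
  have hmL : A ^ 2 * L / 3 ≤ m := by
    have h1 := hcI (1 / L) 0 L
    have h2 : ∫ r in (0:ℝ)..L, (A * (1 - 1 / L * r)) ^ 2 ≤ m := by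
      apply intervalIntegral.integral_mono_on hL
        (Continuous.intervalIntegrable (by fun_prop) _ _) hI2
      intro r hr
      have h3 := hconc L ⟨hL, le_rfl⟩ r hr hL'
      have h4 : 0 ≤ r / L * g L := mul_nonneg (div_nonneg hr.1 hL) (hn L ⟨hL, le_rfl⟩)
      have h5 : 0 ≤ A * (1 - 1 / L * r) := by
        apply mul_nonneg h0.le
        have : 1 / L * r ≤ 1 := by rw [div_mul_eq_mul_div, one_mul]; exact (div_le_one hL').2 hr.2
        linarith
      apply pow_le_pow_left₀ h5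
      have h6 : A * (1 - 1 / L * r) = (1 - r / L) * A := by ring
      linarith
    rw [h1] at h2
    refine le_trans (le_of_eq ?_) h2
    field_simp; ring
  have hmpos : 0 < m := lt_of_lt_of_le (by positivity) hmL
  set l := 3 * m / A ^ 2 with hl
  have hlL : L ≤ l := by
    rw [hl, le_div_iff₀ (by positivity)]; linarith
  have hlpos : 0 < l := by linarith
  have hml : m = A ^ 2 * l / 3 := by rw [hl]; field_simp
  -- the crossing point
  set c : ℝ → ℝ := fun r => A * (1 - 1 / l * r) with hc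
  have hcc : Continuous c := by fun_prop
  have hclosed : IsCompact {r | r ∈ Icc (0:ℝ) L ∧ c r ≤ g r} := by
    have : {r | r ∈ Icc (0:ℝ) L ∧ c r ≤ g r} = Icc 0 L ∩ {r | r ∈ Icc (0:ℝ) L ∧ c r ≤ g r} := by
      ext r; simp only [mem_inter_iff, mem_ofPred_eq]; tauto
    apply IsCompact.of_isClosed_subset isCompact_Icc _ (fun r hr => hr.1)
    exact isClosed_Icc.isClosed_le hcc.continuousOn hgc
  have h0S : (0:ℝ) ∈ {r | r ∈ Icc (0:ℝ) L ∧ c r ≤ g r} := ⟨h0L, by simp [hc, hA]⟩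
  obtain ⟨s, hsS, hsmax⟩ := hclosed.exists_isGreatest ⟨0, h0S⟩
  obtain ⟨hsI, hsc⟩ := hsS
  have hbelow : ∀ r ∈ Icc (0:ℝ) s, c r ≤ g r := by
    intro r hr
    rcases hsI.1.eq_or_lt with h | h
    · have : r = 0 := le_antisymm (by rw [h]; exact hr.2) hr.1
      rw [this]; exact h0S.2
    · have h3 := hconc s hsI r hr h
      have h4 : r / s * c s ≤ r / s * g s := mul_le_mul_of_nonneg_left hsc (div_nonneg hr.1 h.le)
      have h5 : c r = (1 - r / s) * A + r / s * c s := by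
        simp only [hc]; field_simp; ring
      linarith
  have habove : ∀ r ∈ Icc (0:ℝ) L, s < r → g r ≤ c r := by
    intro r hr hsr
    by_contra hcon
    push Not at hcon
    have := hsmax ⟨hr, hcon.le⟩
    linarith
  have hcpos : ∀ r, r ≤ l → 0 ≤ c r := by
    intro r hr
    simp only [hc]
    apply mul_nonneg h0.le
    have : 1 / l * r ≤ 1 := by rw [div_mul_eq_mul_div, one_mul]; exact (div_le_one hlpos).2 hr
    linarith
  have hc2 : ∀ x y, IntervalIntegrable (fun z => c z ^ 2) volume x y := fun x y =>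
    Continuous.intervalIntegrable (by fun_prop) _ _
  have hc3 : ∀ x y, IntervalIntegrable (fun z => z * c z ^ 2) volume x y := fun x y =>
    Continuous.intervalIntegrable (by fun_prop) _ _
  have key1 : ∫ r in (0:ℝ)..L, (r * g r ^ 2 - s * g r ^ 2) ≤
      ∫ r in (0:ℝ)..L, (r * c r ^ 2 - s * c r ^ 2) := by
    apply intervalIntegral.integral_mono_on hL (hI1.sub (hI2.const_mul s))
      ((hc3 _ _).sub ((hc2 _ _).const_mul s))
    intro r hr
    rcases le_or_gt r s with h | h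
    · have h1 := hbelow r ⟨hr.1, h⟩
      have h2 := pow_le_pow_left₀ (hcpos r (hr.2.trans hlL)) h1 2
      nlinarith
    · have h1 := habove r hr h
      have h2 := pow_le_pow_left₀ (hn r hr) h1 2
      nlinarith
  have key2 : 0 ≤ ∫ r in L..l, (r * c r ^ 2 - s * c r ^ 2) := by
    apply intervalIntegral.integral_nonneg hlL
    intro r hr
    have : s ≤ r := hsI.2.trans hr.1
    nlinarith [sq_nonneg (c r)]
  rw [intervalIntegral.integral_sub hI1 (hI2.const_mul s), intervalIntegral.integral_const_mul,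
    intervalIntegral.integral_sub (hc3 _ _) ((hc2 _ _).const_mul s),
    intervalIntegral.integral_const_mul, hcI, hcI2] at key1
  rw [intervalIntegral.integral_sub (hc3 _ _) ((hc2 _ _).const_mul s),
    intervalIntegral.integral_const_mul, hcI, hcI2] at key2
  rw [← hm] at key1
  have e1 : 1 / l * l = 1 := by field_simp
  have e2 : 3 * m ^ 2 / (4 * A ^ 2) = A ^ 2 * l ^ 2 / 12 := by
    rw [hml]; field_simp; ring
  rw [e2]
  have e3 : A ^ 2 * (l - 1 / l * l ^ 2 + (1 / l) ^ 2 * l ^ 3 / 3) = m := by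
    rw [hml]; field_simp; ring
  have e4 : A ^ 2 * (l ^ 2 / 2 - 2 * (1 / l) * l ^ 3 / 3 + (1 / l) ^ 2 * l ^ 4 / 4) =
      A ^ 2 * l ^ 2 / 12 := by
    field_simp; ring
  have e5 : s * (A ^ 2 * (l - 1 / l * l ^ 2 + (1 / l) ^ 2 * l ^ 3 / 3)) = s * m := by rw [e3]
  generalize 1 / l = q at *
  linarith [key1, key2, e4, e5]

end Pool.Agent.Lib.MP_a773b5_gt
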