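import Pool.Agent.Lib.MP_a773b5_gt.Chord1
import Pool.Agent.Lib.MP_a773b5_gt.Tail
import Pool.Agent.Lib.MP_a773b5_gt.FacetPoly

set_option autoImplicit false

namespace Pool.Agent.Lib.MP_a773b5_gt

open MeasureTheory Set

private lemma facet_tail {a h : ℝ} (ha : 0 ≤ a) (hah : a ≤ h) {f : ℝ → ℝ}
    (hf : ConcaveOn ℝ (Icc 0 h) f)
    (hfc : ContinuousOn f (Icc 0 h)) (hn : ∀ z ∈ Icc 0 h, 0 ≤ f z) (hg : 0 < f a) :
    ∫ z in a..h, z * f z ^ 2 ≤ a * (∫ z in a..h, f z ^ 2) +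
      3 * (∫ z in a..h, f z ^ 2) ^ 2 / (4 * f a ^ 2) := by
  have hmap : ∀ r ∈ Icc 0 (h - a), a + r ∈ Icc 0 h := by
    intro r hr
    exact ⟨by linarith [hr.1], by linarith [hr.2]⟩
  have hg1 : ConcaveOn ℝ (Icc 0 (h - a)) (fun r => f (a + r)) := by
    refine ⟨convex_Icc _ _, ?_⟩
    intro x hx y hy s t hs ht hst
    have := hf.2 (hmap x hx) (hmap y hy) hs ht hst
    simp only [smul_eq_mul] at this ⊢
    have e : a + (s * x + t * y) = s * (a + x) + t * (a + y) := by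
      have : a = (s + t) * a := by rw [hst, one_mul]
      nlinarith [this]
    rw [e]
    exact this
  have hg2 : ContinuousOn (fun r => f (a + r)) (Icc 0 (h - a)) :=
    hfc.comp (by fun_prop) hmap
  have hg3 : ∀ r ∈ Icc 0 (h - a), 0 ≤ f (a + r) := fun r hr => hn _ (hmap r hr)
  have ht := tail_moment (L := h - a) (by linarith) hg1 hg2 hg3 (by simpa using hg)
  have e1 : ∫ r in (0:ℝ)..(h - a), f (a + r) ^ 2 = ∫ z in a..h, f z ^ 2 := by
    have := intervalIntegral.integral_comp_add_left (a := 0) (b := h - a)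
      (fun z => f z ^ 2) a
    simpa using this
  have e2 : ∫ r in (0:ℝ)..(h - a), r * f (a + r) ^ 2 = ∫ z in a..h, (z - a) * f z ^ 2 := by
    have := intervalIntegral.integral_comp_add_left (a := 0) (b := h - a)
      (fun z => (z - a) * f z ^ 2) a
    simpa using this
  simp only [add_zero] at ht
  rw [e1, e2] at ht
  have hsub : Icc a h ⊆ Icc 0 h := Icc_subset_Icc_left ha
  have hI1 : IntervalIntegrable (fun z => z * f z ^ 2) volume a h :=
    ContinuousOn.intervalIntegrable (by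
      rw [uIcc_of_le hah]; exact continuousOn_id.mul ((hfc.mono hsub).pow 2))
  have hI2 : IntervalIntegrable (fun z => a * f z ^ 2) volume a h :=
    ContinuousOn.intervalIntegrable (by
      rw [uIcc_of_le hah]; exact continuousOn_const.mul ((hfc.mono hsub).pow 2))
  have e3 : ∫ z in a..h, (z - a) * f z ^ 2 =
      (∫ z in a..h, z * f z ^ 2) - a * ∫ z in a..h, f z ^ 2 := by
    rw [← intervalIntegral.integral_const_mul, ← intervalIntegral.integral_sub hI1 hI2]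
    congr 1
    ext z
    ring
  rw [e3] at ht
  linarith

/-- Facet lemma: if `V²/2 ≤ f(0)² ∫ z f²` then `z f(z)² ≤ V = ∫ f²` for all `z`.
Proof: suppose `a f(a)² > V`, put `g = f a`, `m₀ = a (f0² + f0 g + g²)/3`, `m = V - m₀ ≥ 0`. By
`chord_moment` on `[0,a]` and `tail_moment` on `[a,h]` (for `r ↦ f (a + r)`),
`∫ z f² ≤ a² (f0²/12 + f0 g/6 + g²/4) + a m + (3/4) m²/g²`. With `k = f0/g` (`< 1` since
`m₀ ≤ V < a g²`) and after division by `a g²` this contradicts `facet_poly`. -/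
theorem facet_lemma {h : ℝ} (hh : 0 < h) {f : ℝ → ℝ} (hf : ConcaveOn ℝ (Icc 0 h) f)
    (hfc : ContinuousOn f (Icc 0 h)) (hn : ∀ z ∈ Icc 0 h, 0 ≤ f z)
    (hyp : (∫ z in (0:ℝ)..h, f z ^ 2) ^ 2 / 2 ≤ f 0 ^ 2 * ∫ z in (0:ℝ)..h, z * f z ^ 2) :
    ∀ z ∈ Icc 0 h, z * f z ^ 2 ≤ ∫ z in (0:ℝ)..h, f z ^ 2 := by
  intro a haI
  by_contra hcon
  push Not at hcon
  have ha0 : 0 ≤ a := haI.1
  have hah : a ≤ h := haI.2
  have hV0 : 0 ≤ ∫ z in (0:ℝ)..h, f z ^ 2 :=
    intervalIntegral.integral_nonneg hh.le (fun z _ => sq_nonneg _)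
  have hpos : 0 < a * f a ^ 2 := lt_of_le_of_lt hV0 hcon
  have ha : 0 < a := by
    rcases ha0.eq_or_lt with h0 | h0
    · rw [← h0, zero_mul] at hpos
      exact absurd hpos (lt_irrefl _)
    · exact h0
  have hga : 0 < f a := by
    rcases (hn a haI).eq_or_lt with h0 | h0
    · rw [← h0] at hpos
      norm_num at hpos
    · exact h0
  have hsub : Icc 0 a ⊆ Icc 0 h := Icc_subset_Icc_right hah
  have hf1 : ConcaveOn ℝ (Icc 0 a) f := hf.subset hsub (convex_Icc _ _)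
  have hfc1 : ContinuousOn f (Icc 0 a) := hfc.mono hsub
  have hn1 : ∀ z ∈ Icc 0 a, 0 ≤ f z := fun z hz => hn z (hsub hz)
  have hcm := chord_moment ha0 hf1 hfc1 hn1
  have hcs := chord_mass ha0 hf1 hfc1 hn1
  have htl := facet_tail ha0 hah hf hfc hn hga
  have hsub2 : Icc a h ⊆ Icc 0 h := Icc_subset_Icc_left ha0
  have hI1 : IntervalIntegrable (fun z => f z ^ 2) volume 0 a :=
    ContinuousOn.intervalIntegrable (by rw [uIcc_of_le ha0]; exact hfc1.pow 2)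
  have hI2 : IntervalIntegrable (fun z => f z ^ 2) volume a h :=
    ContinuousOn.intervalIntegrable (by
      rw [uIcc_of_le hah]; exact (hfc.mono hsub2).pow 2)
  have hI3 : IntervalIntegrable (fun z => z * f z ^ 2) volume 0 a :=
    ContinuousOn.intervalIntegrable (by
      rw [uIcc_of_le ha0]; exact continuousOn_id.mul (hfc1.pow 2))
  have hI4 : IntervalIntegrable (fun z => z * f z ^ 2) volume a h :=
    ContinuousOn.intervalIntegrable (by
      rw [uIcc_of_le hah]; exact continuousOn_id.mul ((hfc.mono hsub2).pow 2))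
  have hV := intervalIntegral.integral_add_adjacent_intervals hI1 hI2
  have hW := intervalIntegral.integral_add_adjacent_intervals hI3 hI4
  have hM2 : 0 ≤ ∫ z in a..h, f z ^ 2 :=
    intervalIntegral.integral_nonneg hah (fun z _ => sq_nonneg _)
  rw [← hV] at hcon hyp
  rw [← hW] at hyp
  have hf0 : 0 ≤ f 0 := hn 0 ⟨le_refl _, hh.le⟩
  simp only [sub_zero] at hcs
  generalize (∫ z in (0:ℝ)..a, f z ^ 2) = M1 at *
  generalize (∫ z in a..h, f z ^ 2) = M2 at *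
  generalize (∫ z in (0:ℝ)..a, z * f z ^ 2) = W1 at *
  generalize (∫ z in a..h, z * f z ^ 2) = W2 at *
  generalize f 0 = p at *
  generalize f a = g at *
  -- normalise
  obtain ⟨k, hk⟩ : ∃ k, k = p / g := ⟨_, rfl⟩
  have hpk : p = k * g := by rw [hk]; field_simp
  have hk0 : 0 ≤ k := by rw [hk]; positivity
  have hag : 0 < a * g ^ 2 := by positivity
  obtain ⟨m, hm⟩ : ∃ m, m = (M1 + M2 - a * (p ^ 2 + p * g + g ^ 2) / 3) / (a * g ^ 2) := ⟨_, rfl⟩
  have hmV : M1 + M2 = a * g ^ 2 * ((1 + k + k ^ 2) / 3 + m) := by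
    rw [hm, hpk]
    field_simp
    ring
  have hm0 : 0 ≤ m := by
    rw [hm]
    apply div_nonneg _ hag.le
    linarith
  have hm1 : (1 + k + k ^ 2) / 3 + m < 1 := by
    rw [hmV] at hcon
    have : a * g ^ 2 * ((1 + k + k ^ 2) / 3 + m) < a * g ^ 2 * 1 := by linarith
    exact lt_of_mul_lt_mul_left this hag.le
  have hk1 : k < 1 := by nlinarith
  have hfp := facet_poly hk0 hk1 hm0 hm1.le
  have hM2m : M2 ≤ a * g ^ 2 * m := by
    have : M2 = a * g ^ 2 * ((1 + k + k ^ 2) / 3 + m) - M1 := by linarith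
    rw [hpk] at hcs
    nlinarith
  have hW2 : W2 ≤ a * M2 + 3 * (a * g ^ 2 * m) ^ 2 / (4 * g ^ 2) := by
    refine htl.trans ?_
    gcongr
  have hWW : W1 + W2 ≤ a ^ 2 * g ^ 2 * ((k ^ 2 + 2 * k + 3) / 12 + m + 3 / 4 * m ^ 2) := by
    have e1 : 3 * (a * g ^ 2 * m) ^ 2 / (4 * g ^ 2) = a ^ 2 * g ^ 2 * (3 / 4 * m ^ 2) := by
      field_simp
    rw [e1] at hW2
    have e2 : a ^ 2 * (p ^ 2 / 12 + p * g / 6 + g ^ 2 / 4) =
        a ^ 2 * g ^ 2 * ((k ^ 2 + 2 * k + 3) / 12) := by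
      rw [hpk]; ring
    have e3 : a * (M1 - a * (p ^ 2 + p * g + g ^ 2) / 3) + a * M2 = a ^ 2 * g ^ 2 * m := by
      have : a * (M1 - a * (p ^ 2 + p * g + g ^ 2) / 3) + a * M2 =
          a * ((M1 + M2) - a * (p ^ 2 + p * g + g ^ 2) / 3) := by ring
      rw [this, hmV, hpk]
      ring
    linarith
  have hfin : (a * g ^ 2 * ((1 + k + k ^ 2) / 3 + m)) ^ 2 / 2 ≤
      p ^ 2 * (a ^ 2 * g ^ 2 * ((k ^ 2 + 2 * k + 3) / 12 + m + 3 / 4 * m ^ 2)) := by
    rw [← hmV]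
    exact hyp.trans (mul_le_mul_of_nonneg_left hWW (sq_nonneg p))
  have hq : 0 < a ^ 2 * g ^ 4 := by positivity
  have e4 : (a * g ^ 2 * ((1 + k + k ^ 2) / 3 + m)) ^ 2 / 2 =
      a ^ 2 * g ^ 4 * (((1 + k + k ^ 2) / 3 + m) ^ 2 / 2) := by ring
  have e5 : p ^ 2 * (a ^ 2 * g ^ 2 * ((k ^ 2 + 2 * k + 3) / 12 + m + 3 / 4 * m ^ 2)) =
      a ^ 2 * g ^ 4 * (k ^ 2 * ((k ^ 2 + 2 * k + 3) / 12 + m + 3 / 4 * m ^ 2)) := by
    rw [hpk]; ring
  rw [e4, e5] at hfin
  have := le_of_mul_le_mul_left hfin hq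
  linarith

end Pool.Agent.Lib.MP_a773b5_gt
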