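import Pool.Agent.Lib.MP_a773b5_gt.Defs

set_option autoImplicit false

namespace Pool.Agent.Lib.MP_a773b5_gt

open MeasureTheory Set

private theorem fibre_compact {E : Type*} [NormedAddCommGroup E] [NormedSpace ℝ E]
    {S : Set (E × ℝ)} (hS : IsCompact S) (x : E) : IsCompact {t : ℝ | (x, t) ∈ S} := by
  have h1 : {t : ℝ | (x, t) ∈ S} = Prod.snd '' (S ∩ {p | p.1 = x}) := by
    ext t
    constructor
    · intro ht
      exact ⟨(x, t), ⟨ht, rfl⟩, rfl⟩
    · rintro ⟨⟨a, b⟩, ⟨hab, h2⟩, rfl⟩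
      have h3 : a = x := h2
      subst h3
      exact hab
  rw [h1]
  have hcl : IsClosed {p : E × ℝ | p.1 = x} := isClosed_eq continuous_fst continuous_const
  exact (hS.inter_right hcl).image continuous_snd

private theorem fibre_convex {E : Type*} [NormedAddCommGroup E] [NormedSpace ℝ E]
    {S : Set (E × ℝ)} (hc : Convex ℝ S) : Convex ℝ (Prod.fst '' S) := by
  have h := hc.linear_image (LinearMap.fst ℝ E ℝ)
  exact h

/-- The upper boundary function of a compact convex set, attained and concave. -/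
theorem exists_hi {E : Type*} [NormedAddCommGroup E] [NormedSpace ℝ E] {S : Set (E × ℝ)}
    (hS : IsCompact S) (hc : Convex ℝ S) :
    ∃ hi : E → ℝ, ConcaveOn ℝ (Prod.fst '' S) hi ∧ (∀ x ∈ Prod.fst '' S, (x, hi x) ∈ S) ∧
      ∀ x t, (x, t) ∈ S → t ≤ hi x := by
  have h1 : ∀ x : E, ∃ m : ℝ, x ∈ Prod.fst '' S → (x, m) ∈ S ∧ ∀ t, (x, t) ∈ S → t ≤ m := by
    intro x
    by_cases hx : x ∈ Prod.fst '' S
    · obtain ⟨⟨a, b⟩, hab, h2⟩ := hx
      have h3 : a = x := h2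
      subst h3
      obtain ⟨m, hm, hmax⟩ := (fibre_compact hS a).exists_isGreatest ⟨b, hab⟩
      exact ⟨m, fun _ => ⟨hm, fun t ht => hmax ht⟩⟩
    · exact ⟨0, fun h => absurd h hx⟩
  choose hi hhi using h1
  refine ⟨hi, ⟨fibre_convex hc, ?_⟩, fun x hx => (hhi x hx).1, fun x t hxt =>
    (hhi x ⟨(x, t), hxt, rfl⟩).2 t hxt⟩
  intro x hx y hy a b ha hb hab
  have h2 := hc (hhi x hx).1 (hhi y hy).1 ha hb hab
  have h3 : a • (x, hi x) + b • (y, hi y) = (a • x + b • y, a • hi x + b • hi y) := rfl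
  rw [h3] at h2
  exact (hhi _ ⟨_, h2, rfl⟩).2 _ h2

/-- The lower boundary function of a compact convex set, attained and convex. -/
theorem exists_lo {E : Type*} [NormedAddCommGroup E] [NormedSpace ℝ E] {S : Set (E × ℝ)}
    (hS : IsCompact S) (hc : Convex ℝ S) :
    ∃ lo : E → ℝ, ConvexOn ℝ (Prod.fst '' S) lo ∧ (∀ x ∈ Prod.fst '' S, (x, lo x) ∈ S) ∧
      ∀ x t, (x, t) ∈ S → lo x ≤ t := by
  have h1 : ∀ x : E, ∃ m : ℝ, x ∈ Prod.fst '' S → (x, m) ∈ S ∧ ∀ t, (x, t) ∈ S → m ≤ t := by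
    intro x
    by_cases hx : x ∈ Prod.fst '' S
    · obtain ⟨⟨a, b⟩, hab, h2⟩ := hx
      have h3 : a = x := h2
      subst h3
      obtain ⟨m, hm, hmin⟩ := (fibre_compact hS a).exists_isLeast ⟨b, hab⟩
      exact ⟨m, fun _ => ⟨hm, fun t ht => hmin ht⟩⟩
    · exact ⟨0, fun h => absurd h hx⟩
  choose lo hlo using h1
  refine ⟨lo, ⟨fibre_convex hc, ?_⟩, fun x hx => (hlo x hx).1, fun x t hxt =>
    (hlo x ⟨(x, t), hxt, rfl⟩).2 t hxt⟩
  intro x hx y hy a b ha hb hab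
  have h2 := hc (hlo x hx).1 (hlo y hy).1 ha hb hab
  have h3 : a • (x, lo x) + b • (y, lo y) = (a • x + b • y, a • lo x + b • lo y) := rfl
  rw [h3] at h2
  exact (hlo _ ⟨_, h2, rfl⟩).2 _ h2

end Pool.Agent.Lib.MP_a773b5_gt
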