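import Pool.Agent.Lib.MP_a773b5_gt.StdTet

set_option autoImplicit false

namespace Pool.Agent.Lib.MP_a773b5_gt

open MeasureTheory Set

/-- The shear as an affine map. -/
private noncomputable def simplexShear (s1 s0 g1 g2 g0 : ℝ) : P3 →ᵃ[ℝ] P3 where
  toFun q := (q.1, q.2.1 + (s1 * q.1 + s0), q.2.2 + (g1 * q.1 + g2 * (q.2.1 + (s1 * q.1 + s0)) + g0))
  linear :=
    { toFun := fun q => (q.1, q.2.1 + s1 * q.1, q.2.2 + (g1 * q.1 + g2 * (q.2.1 + s1 * q.1)))
      map_add' := by
        intro p q
        ext
        · simp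
        · simp; ring
        · simp; ring
      map_smul' := by
        intro r p
        ext
        · simp
        · simp; ring
        · simp; ring }
  map_vadd' := by
    intro p v
    ext
    · simp
    · simp; ring
    · simp; ring

private theorem simplexShear_apply (s1 s0 g1 g2 g0 : ℝ) (q : P3) :
    simplexShear s1 s0 g1 g2 g0 q =
      (q.1, q.2.1 + (s1 * q.1 + s0),
        q.2.2 + (g1 * q.1 + g2 * (q.2.1 + (s1 * q.1 + s0)) + g0)) := rfl

private theorem simplexShear_inj (s1 s0 g1 g2 g0 : ℝ) :
    Function.Injective (simplexShear s1 s0 g1 g2 g0) := by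
  intro p q h
  rw [simplexShear_apply, simplexShear_apply] at h
  simp only [Prod.mk.injEq] at h
  obtain ⟨h1, h2, h3⟩ := h
  have e1 : p.1 = q.1 := h1
  have e2 : p.2.1 = q.2.1 := by rw [e1] at h2; linarith
  have e3 : p.2.2 = q.2.2 := by rw [e1, e2] at h3; linarith
  exact Prod.ext e1 (Prod.ext e2 e3)

private theorem simplexShear_mp (s1 s0 g1 g2 g0 : ℝ) :
    MeasurePreserving (simplexShear s1 s0 g1 g2 g0) volume volume := by
  have h1 : ∀ z : ℝ, MeasurePreserving
      (fun p : ℝ × ℝ => (p.1 + (s1 * z + s0),
        p.2 + (g1 * z + g2 * (p.1 + (s1 * z + s0)) + g0))) volume volume := by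
    intro z
    have := MeasurePreserving.skew_product (μa := (volume : Measure ℝ)) (μb := (volume : Measure ℝ))
      (μc := (volume : Measure ℝ)) (μd := (volume : Measure ℝ))
      (f := fun y : ℝ => y + (s1 * z + s0))
      (measurePreserving_add_right volume (s1 * z + s0))
      (g := fun y x => x + (g1 * z + g2 * (y + (s1 * z + s0)) + g0))
      (by fun_prop)
      (Filter.Eventually.of_forall fun y =>
        (measurePreserving_add_right volume (g1 * z + g2 * (y + (s1 * z + s0)) + g0)).map_eq)
    exact this
  have := MeasurePreserving.skew_product (μa := (volume : Measure ℝ)) (μb := (volume : Measure ℝ))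
      (μc := (volume : Measure (ℝ × ℝ))) (μd := (volume : Measure (ℝ × ℝ)))
      (f := fun z : ℝ => z) (MeasurePreserving.id volume)
      (g := fun z p => (p.1 + (s1 * z + s0),
        p.2 + (g1 * z + g2 * (p.1 + (s1 * z + s0)) + g0)))
      (by fun_prop)
      (Filter.Eventually.of_forall fun z => (h1 z).map_eq)
  exact this

/-- A set described by four affine inequalities lies in a tetrahedron of volume `(9/2) a b c`.
The tetrahedron is the image of the corner tetrahedron with legs `3a, 3b, 3c` (`volume_stdTet`)
under the shear `(z,y,x) ↦ (z, y + s1 z + s0, x + g1 z + g2 (y + s1 z + s0) + g0)`, whose linear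
part has determinant one. -/
theorem simplex_hasTet {K : Set P3} {a b c s1 s0 g1 g2 g0 : ℝ} (ha : 0 < a) (hb : 0 < b)
    (hc : 0 < c)
    (h1 : ∀ p ∈ K, 0 ≤ p.1)
    (h2 : ∀ p ∈ K, s1 * p.1 + s0 ≤ p.2.1)
    (h3 : ∀ p ∈ K, g1 * p.1 + g2 * p.2.1 + g0 ≤ p.2.2)
    (h4 : ∀ p ∈ K, p.1 / a + (p.2.1 - (s1 * p.1 + s0)) / b +
      (p.2.2 - (g1 * p.1 + g2 * p.2.1 + g0)) / c ≤ 3) :
    HasTet K (9 / 2 * (a * b * c)) := by
  set v : Fin 4 → P3 := ![((0:ℝ), (0:ℝ), (0:ℝ)), (3 * a, 0, 0), (0, 3 * b, 0), (0, 0, 3 * c)]
    with hv
  have hvol := volume_stdTet (3 * a) (3 * b) (3 * c) (by positivity) (by positivity) (by positivity)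
  rw [← hv] at hvol
  set S := simplexShear s1 s0 g1 g2 g0 with hS
  have himg : S '' convexHull ℝ (range v) = convexHull ℝ (range (S ∘ v)) := by
    rw [AffineMap.image_convexHull, range_comp]
  have hvi : AffineIndependent ℝ v := by
    rw [affineIndependent_iff]
    intro s w hw0 hw1
    have hfull : ∀ (w' : Fin 4 → ℝ), (∑ i, w' i • v i = 0) → (∑ i, w' i = 0) → ∀ i, w' i = 0 := by
      intro w' h h'
      simp only [Fin.sum_univ_four, hv] at h h'
      have e1 := congrArg (fun p : P3 => p.1) h
      have e2 := congrArg (fun p : P3 => p.2.1) h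
      have e3 := congrArg (fun p : P3 => p.2.2) h
      simp at e1 e2 e3
      have f1 : w' 1 = 0 := by rcases e1 with e | e; exact e; exact absurd e ha.ne'
      have f2 : w' 2 = 0 := by rcases e2 with e | e; exact e; exact absurd e hb.ne'
      have f3 : w' 3 = 0 := by rcases e3 with e | e; exact e; exact absurd e hc.ne'
      have f0 : w' 0 = 0 := by linarith
      intro i
      fin_cases i
      · exact f0
      · exact f1
      · exact f2
      · exact f3
    have k := hfull (fun i => if i ∈ s then w i else 0)
      (by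
        simp only [ite_smul, zero_smul]
        rw [Finset.sum_ite_mem, Finset.univ_inter]
        exact hw1)
      (by
        rw [Finset.sum_ite_mem, Finset.univ_inter]
        exact hw0)
    intro i hi
    have := k i
    simpa [hi] using this
  refine ⟨S ∘ v, hvi.map' S (simplexShear_inj _ _ _ _ _), ?_, ?_⟩
  · intro p hp
    rw [← himg]
    have k1 := h1 p hp
    have k2 := h2 p hp
    have k3 := h3 p hp
    have k4 := h4 p hp
    refine ⟨(p.1, p.2.1 - (s1 * p.1 + s0), p.2.2 - (g1 * p.1 + g2 * p.2.1 + g0)), ?_, ?_⟩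
    · set q1 := p.1
      set q2 := p.2.1 - (s1 * p.1 + s0)
      set q3 := p.2.2 - (g1 * p.1 + g2 * p.2.1 + g0)
      have hq2 : 0 ≤ q2 := by simp only [q2]; linarith
      have hq3 : 0 ≤ q3 := by simp only [q3]; linarith
      have hmem : ∀ i, v i ∈ convexHull ℝ (range v) := fun i =>
        subset_convexHull ℝ _ (mem_range_self i)
      have hsum := (convex_convexHull ℝ (range v)).sum_mem (t := Finset.univ)
        (w := ![1 - (q1 / (3 * a) + q2 / (3 * b) + q3 / (3 * c)), q1 / (3 * a), q2 / (3 * b),
          q3 / (3 * c)]) (z := v)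
        (by
          intro i _
          fin_cases i
          · simp only [Fin.zero_eta, Matrix.cons_val_zero]
            have : q1 / (3 * a) + q2 / (3 * b) + q3 / (3 * c) = (q1 / a + q2 / b + q3 / c) / 3 := by
              field_simp
            rw [this]
            linarith
          · show (0:ℝ) ≤ q1 / (3 * a)
            exact div_nonneg k1 (by positivity)
          · show (0:ℝ) ≤ q2 / (3 * b)
            positivity
          · show (0:ℝ) ≤ q3 / (3 * c)
            positivity)
        (by
          simp only [Fin.sum_univ_four]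
          show 1 - (q1 / (3 * a) + q2 / (3 * b) + q3 / (3 * c)) + q1 / (3 * a) + q2 / (3 * b) +
            q3 / (3 * c) = 1
          ring)
        (fun i _ => hmem i)
      have heq : (q1, q2, q3) = ∑ i, (![1 - (q1 / (3 * a) + q2 / (3 * b) + q3 / (3 * c)),
          q1 / (3 * a), q2 / (3 * b), q3 / (3 * c)] : Fin 4 → ℝ) i • v i := by
        rw [Fin.sum_univ_four]
        simp only [hv]
        ext
        · simp; field_simp
        · simp; field_simp
        · simp; field_simp
      rw [heq]
      exact hsum
    · rw [hS, simplexShear_apply]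
      ext
      · rfl
      · simp
      · simp
  · rw [← himg]
    have hmeas : MeasurableSet (S '' convexHull ℝ (range v)) := by
      rw [himg]
      exact ((finite_range (S ∘ v)).isCompact_convexHull (𝕜 := ℝ)).measurableSet
    have := (simplexShear_mp s1 s0 g1 g2 g0).measure_preimage hmeas.nullMeasurableSet
    rw [← hS, preimage_image_eq _ (simplexShear_inj _ _ _ _ _)] at this
    rw [← this, hvol]
    apply ENNReal.ofReal_le_ofReal
    apply le_of_eq
    ring

end Pool.Agent.Lib.MP_a773b5_gt
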