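import Pool.Agent.Lib.MP_a773b5_gt.FlagS
import Pool.Agent.Lib.MP_a773b5_gt.Simplex

set_option autoImplicit false

namespace Pool.Agent.Lib.MP_a773b5_gt

open MeasureTheory Set

/-- Flag lemma. -/
theorem flag_tet {K : Set P3} (hK : IsCompact K) (hc : Convex ℝ K) (hi : (interior K).Nonempty)
    (hz : ∀ p ∈ K, 0 ≤ p.1) {G : ℝ}
    (hG : ∀ z y η x ξ : ℝ, Chord K z y η x ξ → η ≤ y → ξ ≤ x →
      z * ((y - η) * (x - ξ)) ≤ G) :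
    HasTet K (9 / 2 * G) := by
  obtain ⟨z, y, η, x, ξ, hch, hz0, hy, hx, hmax⟩ := flag_max hK hi hz
  obtain ⟨s1, s0, hs, hs'⟩ := flag_s hK hc hi hz0 (sub_pos.2 hy) (sub_pos.2 hx)
    (fun z' y' η' x' ξ' h' => flag_first hc hz hch hz0 hy hx hmax h')
  obtain ⟨g1, g2, g0, hg⟩ := flag_g hK hc hi hz0 (sub_pos.2 hy) (sub_pos.2 hx) hs'
  have h := simplex_hasTet (K := K) hz0 (sub_pos.2 hy) (sub_pos.2 hx) hz
    (fun p hp => hs p.1 p.2.1 p.2.2 hp) (fun p hp => (hg p.1 p.2.1 p.2.2 hp).1)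
    (fun p hp => (hg p.1 p.2.1 p.2.2 hp).2)
  obtain ⟨v, hv, hKv, hvol⟩ := h
  refine ⟨v, hv, hKv, hvol.trans (ENNReal.ofReal_le_ofReal ?_)⟩
  have := hG z y η x ξ hch hy.le hx.le
  nlinarith

end Pool.Agent.Lib.MP_a773b5_gt
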