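import Pool.Agent.Lib.MP_a773b5_gt.Defs

set_option autoImplicit false

namespace Pool.Agent.Lib.MP_a773b5_gt

open MeasureTheory Set

/-- `(z,y,x)` and `(z,y,ξ)` lie in `K` and so does some point `(z,η,·)`. -/
def Chord (K : Set P3) (z y η x ξ : ℝ) : Prop :=
  (z, y, x) ∈ K ∧ (z, y, ξ) ∈ K ∧ ∃ x', (z, η, x') ∈ K

/-- The product `z (y-η) (x-ξ)` attains its maximum, and the maximum is positive. -/
theorem flag_max {K : Set P3} (hK : IsCompact K) (hi : (interior K).Nonempty)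
    (hz : ∀ p ∈ K, 0 ≤ p.1) :
    ∃ z y η x ξ : ℝ, Chord K z y η x ξ ∧ 0 < z ∧ η < y ∧ ξ < x ∧
      ∀ z' y' η' x' ξ' : ℝ, Chord K z' y' η' x' ξ' → η' ≤ y' → ξ' ≤ x' →
        z' * ((y' - η') * (x' - ξ')) ≤ z * ((y - η) * (x - ξ)) := by
  set T : Set (P3 × P3 × P3) := (K ×ˢ K ×ˢ K) ∩ {t | t.1.1 = t.2.1.1 ∧ t.1.1 = t.2.2.1 ∧
    t.1.2.1 = t.2.1.2.1 ∧ t.2.2.2.1 ≤ t.1.2.1 ∧ t.2.1.2.2 ≤ t.1.2.2} with hT
  have hTc : IsCompact T := by
    refine (hK.prod (hK.prod hK)).inter_right ?_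
    have c1 : IsClosed {t : P3 × P3 × P3 | t.1.1 = t.2.1.1} :=
      isClosed_eq (by fun_prop) (by fun_prop)
    have c2 : IsClosed {t : P3 × P3 × P3 | t.1.1 = t.2.2.1} :=
      isClosed_eq (by fun_prop) (by fun_prop)
    have c3 : IsClosed {t : P3 × P3 × P3 | t.1.2.1 = t.2.1.2.1} :=
      isClosed_eq (by fun_prop) (by fun_prop)
    have c4 : IsClosed {t : P3 × P3 × P3 | t.2.2.2.1 ≤ t.1.2.1} :=
      isClosed_le (by fun_prop) (by fun_prop)
    have c5 : IsClosed {t : P3 × P3 × P3 | t.2.1.2.2 ≤ t.1.2.2} :=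
      isClosed_le (by fun_prop) (by fun_prop)
    exact c1.inter (c2.inter (c3.inter (c4.inter c5)))
  -- a point of positive value
  obtain ⟨⟨z0, y0, x0⟩, hp⟩ := hi
  obtain ⟨r, hr, hball⟩ := Metric.isOpen_iff.1 isOpen_interior _ hp
  have hmem : ∀ a b c : ℝ, |a| < r → |b| < r → |c| < r → (z0 + a, y0 + b, x0 + c) ∈ K := by
    intro a b c ha hb hc
    refine interior_subset (hball ?_)
    rw [Metric.mem_ball, Prod.dist_eq, Prod.dist_eq]
    simp only [Real.dist_eq, add_sub_cancel_left]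
    exact max_lt ha (max_lt hb hc)
  have r0 : |(0 : ℝ)| < r := by rw [abs_zero]; exact hr
  have r1 : |r / 2| < r := by rw [abs_of_pos (half_pos hr)]; exact half_lt_self hr
  have r2 : |-(r / 2)| < r := by rw [abs_neg]; exact r1
  have hz0 : 0 < z0 := by
    have h1 := hz _ (hmem (-(r / 2)) 0 0 r2 r0 r0)
    simp only at h1
    linarith
  have m1 := hmem 0 (r / 2) (r / 2) r0 r1 r1
  have m2 := hmem 0 (r / 2) 0 r0 r1 r0
  have m3 := hmem 0 0 0 r0 r0 r0
  have htT : (((z0 + 0, y0 + r / 2, x0 + r / 2), (z0 + 0, y0 + r / 2, x0 + 0),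
      (z0 + 0, y0 + 0, x0 + 0)) : P3 × P3 × P3) ∈ T := by
    refine ⟨⟨m1, m2, m3⟩, rfl, rfl, rfl, ?_, ?_⟩
    · show y0 + 0 ≤ y0 + r / 2
      linarith
    · show x0 + 0 ≤ x0 + r / 2
      linarith
  have hf : Continuous fun t : P3 × P3 × P3 =>
      t.1.1 * ((t.1.2.1 - t.2.2.2.1) * (t.1.2.2 - t.2.1.2.2)) := by fun_prop
  obtain ⟨⟨⟨z, y, x⟩, ⟨z1, y1, ξ⟩, ⟨z2, η, x'⟩⟩, ht, hmax⟩ :=
    hTc.exists_isMaxOn ⟨_, htT⟩ hf.continuousOn
  obtain ⟨⟨k1, k2, k3⟩, e1, e2, e3, l1, l2⟩ := ht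
  simp only at k1 k2 k3 e1 e2 e3 l1 l2
  subst e1 e2 e3
  have hpos : 0 < z * ((y - η) * (x - ξ)) := by
    have h1 := hmax htT
    simp only [mem_ofPred_eq] at h1
    refine lt_of_lt_of_le ?_ h1
    have e : (z0 + 0) * ((y0 + r / 2 - (y0 + 0)) * (x0 + r / 2 - (x0 + 0))) =
      z0 * (r / 2 * (r / 2)) := by ring
    rw [e]
    positivity
  have hz1 : 0 ≤ z := hz _ k1
  have hzp : 0 < z := by
    rcases hz1.lt_or_eq with h | h
    · exact h
    · rw [← h, zero_mul] at hpos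
      exact absurd hpos (lt_irrefl _)
  have hyp : 0 < y - η := by
    rcases (sub_nonneg.2 l1).lt_or_eq with h | h
    · exact h
    · rw [← h, zero_mul, mul_zero] at hpos
      exact absurd hpos (lt_irrefl _)
  have hxp : 0 < x - ξ := by
    rcases (sub_nonneg.2 l2).lt_or_eq with h | h
    · exact h
    · rw [← h, mul_zero, mul_zero] at hpos
      exact absurd hpos (lt_irrefl _)
  refine ⟨z, y, η, x, ξ, ⟨k1, k2, x', k3⟩, hzp, by linarith, by linarith, ?_⟩
  rintro z' y' η' x'' ξ' ⟨g1, g2, x3, g3⟩ h1 h2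
  have h3 : (((z', y', x''), (z', y', ξ'), (z', η', x3)) : P3 × P3 × P3) ∈ T :=
    ⟨⟨g1, g2, g3⟩, rfl, rfl, rfl, h1, h2⟩
  exact hmax h3

private theorem flag_real {a b c : ℝ}
    (h : ∀ s : ℝ, 0 < s → s ≤ 1 → 0 ≤ 1 + s * b → 0 ≤ 1 + s * c →
      (1 + s * a) * ((1 + s * b) * (1 + s * c)) ≤ 1) : a + b + c ≤ 0 := by
  by_contra hneg
  rw [not_le] at hneg
  set σ := a + b + c with hσ
  set D := |a * b + b * c + c * a| + |a * b * c| with hD
  have hD0 : 0 ≤ D := by positivity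
  set s := min (1 / (|b| + |c| + 1)) (σ / (D + σ)) with hs
  have hs0 : 0 < s := lt_min (by positivity) (by positivity)
  have hs1 : s ≤ 1 / (|b| + |c| + 1) := min_le_left _ _
  have hs2 : s ≤ σ / (D + σ) := min_le_right _ _
  have hbc : 0 < |b| + |c| + 1 := by positivity
  rw [le_div_iff₀ hbc] at hs1
  rw [le_div_iff₀ (by positivity)] at hs2
  have nb := abs_nonneg b
  have nc := abs_nonneg c
  have hsb : s * |b| ≤ 1 := by nlinarith
  have hsc : s * |c| ≤ 1 := by nlinarith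
  have hs3 : s ≤ 1 := by nlinarith
  have k1 : 0 ≤ 1 + s * b := by
    have := neg_abs_le b
    nlinarith
  have k2 : 0 ≤ 1 + s * c := by
    have := neg_abs_le c
    nlinarith
  have h1 := h s hs0 hs3 k1 k2
  have e : (1 + s * a) * ((1 + s * b) * (1 + s * c)) =
      1 + s * σ + s ^ 2 * (a * b + b * c + c * a) + s ^ 3 * (a * b * c) := by
    rw [hσ]
    ring
  rw [e] at h1
  have h2 : -(s ^ 2 * |a * b + b * c + c * a|) ≤ s ^ 2 * (a * b + b * c + c * a) := by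
    rw [← mul_neg]
    exact mul_le_mul_of_nonneg_left (neg_abs_le _) (by positivity)
  have h3 : -(s ^ 2 * |a * b * c|) ≤ s ^ 3 * (a * b * c) := by
    have h4 : -(s ^ 3 * |a * b * c|) ≤ s ^ 3 * (a * b * c) := by
      rw [← mul_neg]
      exact mul_le_mul_of_nonneg_left (neg_abs_le _) (by positivity)
    have h5 : s ^ 3 * |a * b * c| ≤ s ^ 2 * |a * b * c| :=
      mul_le_mul_of_nonneg_right (pow_le_pow_of_le_one hs0.le hs3 (by norm_num)) (abs_nonneg _)
    linarith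
  have h6 : s * (σ - s * D) ≤ 0 := by
    have : s * (σ - s * D) = s * σ - s ^ 2 * |a * b + b * c + c * a| - s ^ 2 * |a * b * c| := by
      rw [hD]
      ring
    rw [this]
    linarith
  have h7 : 0 < σ - s * D := by
    have : 0 < s * σ := mul_pos hs0 hneg
    nlinarith
  have h8 := mul_pos hs0 h7
  linarith

/-- First order condition at a maximum. -/
theorem flag_first {K : Set P3} (hc : Convex ℝ K) (hz : ∀ p ∈ K, 0 ≤ p.1)
    {z y η x ξ : ℝ} (h : Chord K z y η x ξ) (hz0 : 0 < z) (hy : η < y) (hx : ξ < x)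
    (hmax : ∀ z' y' η' x' ξ' : ℝ, Chord K z' y' η' x' ξ' → η' ≤ y' → ξ' ≤ x' →
        z' * ((y' - η') * (x' - ξ')) ≤ z * ((y - η) * (x - ξ)))
    {z' y' η' x' ξ' : ℝ} (h' : Chord K z' y' η' x' ξ') :
    z' / z + (y' - η') / (y - η) + (x' - ξ') / (x - ξ) ≤ 3 := by
  have hy0 : 0 < y - η := sub_pos.2 hy
  have hx0 : 0 < x - ξ := sub_pos.2 hx
  have key := flag_real (a := z' / z - 1) (b := (y' - η') / (y - η) - 1)
    (c := (x' - ξ') / (x - ξ) - 1) ?_
  · linarith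
  · intro s hs0 hs1 hb hcc
    obtain ⟨g1, g2, u, g3⟩ := h
    obtain ⟨g1', g2', u', g3'⟩ := h'
    have hs1' : 0 ≤ 1 - s := by linarith
    have hsum : 1 - s + s = 1 := by ring
    have c1 := hc g1 g1' hs1' hs0.le hsum
    have c2 := hc g2 g2' hs1' hs0.le hsum
    have c3 := hc g3 g3' hs1' hs0.le hsum
    simp only [Prod.smul_mk, Prod.mk_add_mk, smul_eq_mul] at c1 c2 c3
    have eb : (1 - s) * y + s * y' - ((1 - s) * η + s * η') =
        (y - η) * (1 + s * ((y' - η') / (y - η) - 1)) := by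
      field_simp
      ring
    have ec : (1 - s) * x + s * x' - ((1 - s) * ξ + s * ξ') =
        (x - ξ) * (1 + s * ((x' - ξ') / (x - ξ) - 1)) := by
      field_simp
      ring
    have ea : (1 - s) * z + s * z' = z * (1 + s * (z' / z - 1)) := by
      field_simp
      ring
    have hb' : (1 - s) * η + s * η' ≤ (1 - s) * y + s * y' := by
      rw [← sub_nonneg, eb]
      exact mul_nonneg hy0.le hb
    have hc' : (1 - s) * ξ + s * ξ' ≤ (1 - s) * x + s * x' := by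
      rw [← sub_nonneg, ec]
      exact mul_nonneg hx0.le hcc
    have hm := hmax _ _ _ _ _ ⟨c1, c2, _, c3⟩ hb' hc'
    rw [eb, ec, ea] at hm
    have hP : 0 < z * ((y - η) * (x - ξ)) := by positivity
    have e : z * (1 + s * (z' / z - 1)) * ((y - η) * (1 + s * ((y' - η') / (y - η) - 1)) *
        ((x - ξ) * (1 + s * ((x' - ξ') / (x - ξ) - 1)))) =
        (1 + s * (z' / z - 1)) * ((1 + s * ((y' - η') / (y - η) - 1)) *
        (1 + s * ((x' - ξ') / (x - ξ) - 1))) * (z * ((y - η) * (x - ξ))) := by ring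
    rw [e] at hm
    by_contra hcon
    rw [not_le] at hcon
    have := mul_lt_mul_of_pos_right hcon hP
    rw [one_mul] at this
    linarith

end Pool.Agent.Lib.MP_a773b5_gt
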