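import Pool.Agent.Lib.MP_a773b5_gt.Defs

set_option autoImplicit false

namespace Pool.Agent.Lib.MP_a773b5_gt

open MeasureTheory Set

/-- Sandwich theorem. Proof: separate the open convex set `{(x,t) | x ∈ interior D, t < g x}`
(open because a concave function is continuous on the interior of its domain) from
`{(x,t) | x ∈ D, h x ≤ t}` by `geometric_hahn_banach_open`; the coefficient of `t` is positive;
pass to boundary points of `D` along segments to an interior point. -/
theorem sandwich {E : Type*} [NormedAddCommGroup E] [NormedSpace ℝ E] [FiniteDimensional ℝ E]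
    {D : Set E} (hD : Convex ℝ D) (hDi : (interior D).Nonempty) {g h : E → ℝ}
    (hg : ConcaveOn ℝ D g) (hh : ConvexOn ℝ D h) (hle : ∀ x ∈ D, g x ≤ h x) :
    ∃ (φ : E →ₗ[ℝ] ℝ) (c : ℝ), ∀ x ∈ D, g x ≤ φ x + c ∧ φ x + c ≤ h x := by
  obtain ⟨x0, hx0⟩ := hDi
  have hx0D : x0 ∈ D := interior_subset hx0
  have hgi : ConcaveOn ℝ (interior D) g := hg.subset interior_subset hD.interior
  have hgc : ContinuousOn g (interior D) := hgi.continuousOn isOpen_interior
  let U : Set (E × ℝ) := {p | p.1 ∈ interior D ∧ p.2 < g p.1}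
  let V : Set (E × ℝ) := {p | p.1 ∈ D ∧ h p.1 ≤ p.2}
  have hUc : Convex ℝ U := hgi.convex_strict_hypograph
  have hVc : Convex ℝ V := hh.convex_epigraph
  have hUo : IsOpen U := by
    have h1 : ContinuousOn (fun p : E × ℝ => g p.1 - p.2) (Prod.fst ⁻¹' interior D) :=
      (hgc.comp continuousOn_fst (fun p hp => hp)).sub continuousOn_snd
    have h2 : IsOpen ((Prod.fst ⁻¹' interior D) ∩ (fun p : E × ℝ => g p.1 - p.2) ⁻¹' Ioi 0) :=
      h1.isOpen_inter_preimage (isOpen_interior.preimage continuous_fst) isOpen_Ioi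
    have h3 : U = (Prod.fst ⁻¹' interior D) ∩ (fun p : E × ℝ => g p.1 - p.2) ⁻¹' Ioi 0 := by
      ext p
      simp only [U, Set.mem_ofPred_eq, mem_inter_iff, mem_preimage, mem_Ioi, sub_pos]
    rw [h3]
    exact h2
  have hdis : Disjoint U V := by
    rw [Set.disjoint_left]
    rintro p ⟨hp1, hp2⟩ ⟨hp3, hp4⟩
    have := hle p.1 hp3
    linarith
  obtain ⟨f, u, hfU, hfV⟩ := geometric_hahn_banach_open hUc hUo hVc hdis
  have hf : ∀ (x : E) (t : ℝ), f (x, t) = f (x, 0) + t * f (0, 1) := by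
    intro x t
    have h1 : ((x, t) : E × ℝ) = (x, 0) + t • ((0, 1) : E × ℝ) := by simp
    rw [h1, map_add, map_smul, smul_eq_mul]
  have hU' : ∀ x ∈ interior D, ∀ t : ℝ, t < g x → f (x, 0) + t * f (0, 1) < u := by
    intro x hx t ht
    rw [← hf]
    exact hfU (x, t) ⟨hx, ht⟩
  have hV' : ∀ x ∈ D, u ≤ f (x, 0) + h x * f (0, 1) := by
    intro x hx
    rw [← hf]
    exact hfV (x, h x) ⟨hx, le_refl _⟩
  set κ : ℝ := f (0, 1) with hκ
  have hκ0 : 0 < κ := by
    have h1 := hU' x0 hx0 (g x0 - 1) (by linarith)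
    have h2 := hV' x0 hx0D
    have h3 := hle x0 hx0D
    have h4 : 0 < (h x0 - g x0 + 1) * κ := by nlinarith
    exact (mul_pos_iff_of_pos_left (by linarith)).1 h4
  let φ : E →ₗ[ℝ] ℝ := (-(1 / κ)) • (f.toLinearMap.comp (LinearMap.inl ℝ E ℝ))
  have hφ : ∀ x, φ x = -(f (x, 0) / κ) := by
    intro x
    have : φ x = -(1 / κ) * f (x, 0) := rfl
    rw [this]
    ring
  have hup : ∀ x ∈ D, φ x + u / κ ≤ h x := by
    intro x hx
    have h1 := hV' x hx
    rw [hφ, neg_add_eq_sub, ← sub_div, div_le_iff₀ hκ0]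
    linarith
  have hlo : ∀ x ∈ interior D, g x ≤ φ x + u / κ := by
    intro x hx
    rw [hφ, neg_add_eq_sub, ← sub_div, le_div_iff₀ hκ0]
    by_contra hcon
    push Not at hcon
    have h1 : (u - f (x, 0)) / κ < g x := by rwa [div_lt_iff₀ hκ0]
    have h2 := hU' x hx _ h1
    rw [div_mul_cancel₀ _ hκ0.ne'] at h2
    linarith
  refine ⟨φ, u / κ, fun x hx => ⟨?_, hup x hx⟩⟩
  by_contra hcon
  push Not at hcon
  have hA : 0 < g x - (φ x + u / κ) := by linarith
  have hB : 0 ≤ φ x0 + u / κ - g x0 := by linarith [hlo x0 hx0]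
  set A := g x - (φ x + u / κ) with hAdef
  set B := φ x0 + u / κ - g x0 with hBdef
  have hAB : 0 < A + B := by linarith
  set t := A / (2 * (A + B)) with ht
  have ht0 : 0 < t := by positivity
  have ht1 : t ≤ 1 / 2 := by
    rw [ht, div_le_div_iff₀ (by positivity) (by norm_num)]
    linarith
  have htAB : t * (A + B) = A / 2 := by
    rw [ht]
    field_simp
  have hmem : t • x0 + (1 - t) • x ∈ interior D :=
    hD.combo_interior_self_mem_interior hx0 hx ht0 (by linarith) (by ring)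
  have h1 := hlo _ hmem
  have h2 := hg.2 hx0D hx ht0.le (by linarith : 0 ≤ 1 - t) (by ring)
  rw [map_add, map_smul, map_smul] at h1
  simp only [smul_eq_mul] at h1 h2
  have h3 : (1 - t) * A ≤ t * B := by
    rw [hAdef, hBdef]
    nlinarith
  nlinarith

end Pool.Agent.Lib.MP_a773b5_gt
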