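import Pool.Agent.Lib.MP_a773b5_gt.FlagMax
import Pool.Agent.Lib.MP_a773b5_gt.Sandwich
import Pool.Agent.Lib.MP_a773b5_gt.Fibre

set_option autoImplicit false

namespace Pool.Agent.Lib.MP_a773b5_gt

open MeasureTheory Set

/-- One-dimensional sandwich: `m z = min {η | (z,η,·) ∈ K}` is convex, and
`ψ z = max {y + D (z/a + (x-ξ)/l - 3) | (z,y,x),(z,y,ξ) ∈ K}` is concave, `ψ ≤ m`. Apply
`exists_lo`, `exists_hi` to the compact convex sets `{(z,η) | ∃ x, (z,η,x) ∈ K}` and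
`{(z,t) | ∃ y x ξ, (z,y,x) ∈ K ∧ (z,y,ξ) ∈ K ∧ t = y + D (z/a + (x-ξ)/l - 3)}`. -/
theorem flag_s {K : Set P3} (hK : IsCompact K) (hc : Convex ℝ K) (hi : (interior K).Nonempty)
    {a D l : ℝ} (ha : 0 < a) (hD : 0 < D) (hl : 0 < l)
    (h : ∀ z y η x ξ : ℝ, Chord K z y η x ξ → z / a + (y - η) / D + (x - ξ) / l ≤ 3) :
    ∃ s1 s0 : ℝ, (∀ z y x : ℝ, (z, y, x) ∈ K → s1 * z + s0 ≤ y) ∧
      ∀ z y x ξ : ℝ, (z, y, x) ∈ K → (z, y, ξ) ∈ K →
        z / a + (y - (s1 * z + s0)) / D + (x - ξ) / l ≤ 3 := by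
  -- the lower set
  let A : P3 →L[ℝ] (ℝ × ℝ) :=
    (ContinuousLinearMap.fst ℝ ℝ (ℝ × ℝ)).prod
      ((ContinuousLinearMap.fst ℝ ℝ ℝ).comp (ContinuousLinearMap.snd ℝ ℝ (ℝ × ℝ)))
  have hA : ∀ p : P3, A p = (p.1, p.2.1) := fun p => rfl
  have hloC : IsCompact (A '' K) := hK.image A.continuous
  have hloV : Convex ℝ (A '' K) := hc.linear_image A.toLinearMap
  have hlomem : ∀ z y : ℝ, (z, y) ∈ A '' K ↔ ∃ x, (z, y, x) ∈ K := by
    intro z y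
    constructor
    · rintro ⟨⟨z', y', x'⟩, hp, hq⟩
      rw [hA] at hq
      obtain ⟨rfl, rfl⟩ := Prod.mk.inj hq
      exact ⟨x', hp⟩
    · rintro ⟨x, hx⟩
      exact ⟨(z, y, x), hx, rfl⟩
  -- the upper set
  let B : (P3 × P3) →L[ℝ] (ℝ × ℝ) :=
    ((ContinuousLinearMap.fst ℝ ℝ (ℝ × ℝ)).comp (ContinuousLinearMap.fst ℝ P3 P3)).prod
      (((ContinuousLinearMap.fst ℝ ℝ ℝ).comp
        ((ContinuousLinearMap.snd ℝ ℝ (ℝ × ℝ)).comp (ContinuousLinearMap.fst ℝ P3 P3))) +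
        (D / a) • ((ContinuousLinearMap.fst ℝ ℝ (ℝ × ℝ)).comp (ContinuousLinearMap.fst ℝ P3 P3)) +
        (D / l) • (((ContinuousLinearMap.snd ℝ ℝ ℝ).comp
          ((ContinuousLinearMap.snd ℝ ℝ (ℝ × ℝ)).comp (ContinuousLinearMap.fst ℝ P3 P3))) -
          ((ContinuousLinearMap.snd ℝ ℝ ℝ).comp
          ((ContinuousLinearMap.snd ℝ ℝ (ℝ × ℝ)).comp (ContinuousLinearMap.snd ℝ P3 P3)))))
  have hB : ∀ p : P3 × P3, B p =
      (p.1.1, p.1.2.1 + D / a * p.1.1 + D / l * (p.1.2.2 - p.2.2.2)) := fun p => rfl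
  let T : Set (P3 × P3) := (K ×ˢ K) ∩ {p | p.1.1 = p.2.1 ∧ p.1.2.1 = p.2.2.1}
  have hTC : IsCompact T := by
    refine (hK.prod hK).inter_right ?_
    exact (isClosed_eq (by fun_prop) (by fun_prop)).inter (isClosed_eq (by fun_prop) (by fun_prop))
  have hTV : Convex ℝ T := by
    refine (hc.prod hc).inter ?_
    rintro p ⟨hp1, hp2⟩ q ⟨hq1, hq2⟩ s t hs ht hst
    constructor
    · change s * p.1.1 + t * q.1.1 = s * p.2.1 + t * q.2.1
      rw [hp1, hq1]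
    · change s * p.1.2.1 + t * q.1.2.1 = s * p.2.2.1 + t * q.2.2.1
      rw [hp2, hq2]
  let w : ℝ × ℝ := (0, -(3 * D))
  have hhiC : IsCompact ((fun q => w + q) '' (B '' T)) :=
    (hTC.image B.continuous).image (by fun_prop)
  have hhiV : Convex ℝ ((fun q => w + q) '' (B '' T)) :=
    (hTV.linear_image B.toLinearMap).translate w
  have hhimem : ∀ z t : ℝ, (z, t) ∈ ((fun q => w + q) '' (B '' T)) ↔
      ∃ y x ξ : ℝ, (z, y, x) ∈ K ∧ (z, y, ξ) ∈ K ∧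
        t = y + D * (z / a + (x - ξ) / l - 3) := by
    intro z t
    constructor
    · rintro ⟨_, ⟨⟨⟨z', y', x'⟩, ⟨z'', y'', x''⟩⟩, ⟨⟨hp1, hp2⟩, hp3, hp4⟩, rfl⟩, hq⟩
      rw [hB] at hq
      simp only [w, Prod.mk_add_mk, zero_add] at hq
      obtain ⟨h1, h2⟩ := Prod.mk.inj hq
      change z' = z'' at hp3
      change y' = y'' at hp4
      subst hp3 hp4 h1
      refine ⟨y', x', x'', hp1, hp2, ?_⟩
      rw [← h2]
      ring
    · rintro ⟨y, x, ξ, h1, h2, h3⟩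
      refine ⟨B ((z, y, x), (z, y, ξ)), ⟨((z, y, x), (z, y, ξ)), ⟨⟨h1, h2⟩, rfl, rfl⟩, rfl⟩, ?_⟩
      rw [hB]
      simp only [w, Prod.mk_add_mk, zero_add]
      rw [h3]
      congr 1
      ring
  obtain ⟨lo, hlo1, hlo2, hlo3⟩ := exists_lo hloC hloV
  obtain ⟨hI, hhi1, hhi2, hhi3⟩ := exists_hi hhiC hhiV
  let Dm : Set ℝ := {z | ∃ p, (z, p) ∈ K}
  have hd1 : Prod.fst '' (A '' K) = Dm := by
    ext z
    constructor
    · rintro ⟨⟨z', y⟩, hp, rfl⟩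
      obtain ⟨x, hx⟩ := (hlomem _ _).1 hp
      exact ⟨_, hx⟩
    · rintro ⟨⟨y, x⟩, hp⟩
      exact ⟨(z, y), (hlomem _ _).2 ⟨x, hp⟩, rfl⟩
  have hd2 : Prod.fst '' ((fun q => w + q) '' (B '' T)) = Dm := by
    ext z
    constructor
    · rintro ⟨⟨z', t⟩, hp, rfl⟩
      obtain ⟨y, x, ξ, hx, -, -⟩ := (hhimem _ _).1 hp
      exact ⟨_, hx⟩
    · rintro ⟨⟨y, x⟩, hp⟩
      exact ⟨(z, y + D * (z / a + (x - x) / l - 3)),
        (hhimem _ _).2 ⟨y, x, x, hp, hp, rfl⟩, rfl⟩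
  rw [hd1] at hlo1 hlo2
  rw [hd2] at hhi1 hhi2
  have hDmi : (interior Dm).Nonempty := by
    obtain ⟨p, hp⟩ := hi
    refine ⟨p.1, ?_⟩
    have h1 : IsOpen (Prod.fst '' (interior K)) := isOpenMap_fst _ isOpen_interior
    have h2 : Prod.fst '' (interior K) ⊆ Dm := by
      rintro _ ⟨⟨z, q⟩, hq, rfl⟩
      exact ⟨q, interior_subset hq⟩
    exact interior_maximal h2 h1 ⟨p, hp, rfl⟩
  obtain ⟨φ, c, hφ⟩ := sandwich hlo1.1 hDmi hhi1 hlo1 (by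
    intro z hz
    obtain ⟨y, x, ξ, h1, h2, h3⟩ := (hhimem _ _).1 (hhi2 z hz)
    obtain ⟨x', hx'⟩ := (hlomem _ _).1 (hlo2 z hz)
    have h4 := h z y (lo z) x ξ ⟨h1, h2, x', hx'⟩
    rw [h3]
    have h5 : (y - lo z) / D ≤ 3 - z / a - (x - ξ) / l := by linarith
    rw [div_le_iff₀ hD] at h5
    nlinarith)
  have hφ1 : ∀ z : ℝ, φ z = φ 1 * z := by
    intro z
    have h1 : φ z = φ (z • (1 : ℝ)) := by rw [smul_eq_mul, mul_one]
    rw [h1, map_smul, smul_eq_mul, mul_comm]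
  refine ⟨φ 1, c, ?_, ?_⟩
  · intro z y x hx
    have h1 := (hφ z ⟨_, hx⟩).2
    have h2 := hlo3 z y ((hlomem _ _).2 ⟨x, hx⟩)
    rw [hφ1 z] at h1
    linarith
  · intro z y x ξ hx hξ
    have h1 := (hφ z ⟨_, hx⟩).1
    have h2 := hhi3 z _ ((hhimem _ _).2 ⟨y, x, ξ, hx, hξ, rfl⟩)
    rw [hφ1 z] at h1
    have h3 : (y - (φ 1 * z + c)) / D ≤ 3 - z / a - (x - ξ) / l := by
      rw [div_le_iff₀ hD]
      nlinarith
    linarith

/-- Two-dimensional sandwich: with `lo, hi` the lower and upper boundary functions of `K` over its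
projection to the `(z,y)`-plane and `λ (z,y) = l (3 - z/a - (y - s1 z - s0)/D)` (affine), the
concave function `hi - λ` is at most the convex function `lo`. -/
theorem flag_g {K : Set P3} (hK : IsCompact K) (hc : Convex ℝ K) (hi : (interior K).Nonempty)
    {a D l s1 s0 : ℝ} (ha : 0 < a) (hD : 0 < D) (hl : 0 < l)
    (h : ∀ z y x ξ : ℝ, (z, y, x) ∈ K → (z, y, ξ) ∈ K →
        z / a + (y - (s1 * z + s0)) / D + (x - ξ) / l ≤ 3) :
    ∃ g1 g2 g0 : ℝ, ∀ z y x : ℝ, (z, y, x) ∈ K →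
      g1 * z + g2 * y + g0 ≤ x ∧
      z / a + (y - (s1 * z + s0)) / D + (x - (g1 * z + g2 * y + g0)) / l ≤ 3 := by
  let A : P3 →L[ℝ] ((ℝ × ℝ) × ℝ) :=
    ((ContinuousLinearMap.fst ℝ ℝ (ℝ × ℝ)).prod
      ((ContinuousLinearMap.fst ℝ ℝ ℝ).comp (ContinuousLinearMap.snd ℝ ℝ (ℝ × ℝ)))).prod
      ((ContinuousLinearMap.snd ℝ ℝ ℝ).comp (ContinuousLinearMap.snd ℝ ℝ (ℝ × ℝ)))
  have hA : ∀ p : P3, A p = ((p.1, p.2.1), p.2.2) := fun p => rfl
  have hC : IsCompact (A '' K) := hK.image A.continuous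
  have hV : Convex ℝ (A '' K) := hc.linear_image A.toLinearMap
  have hmem : ∀ z y x : ℝ, ((z, y), x) ∈ A '' K ↔ (z, y, x) ∈ K := by
    intro z y x
    constructor
    · rintro ⟨⟨z', y', x'⟩, hp, hq⟩
      rw [hA] at hq
      obtain ⟨h1, rfl⟩ := Prod.mk.inj hq
      obtain ⟨rfl, rfl⟩ := Prod.mk.inj h1
      exact hp
    · intro hx
      exact ⟨(z, y, x), hx, rfl⟩
  obtain ⟨lo, hlo1, hlo2, hlo3⟩ := exists_lo hC hV
  obtain ⟨hI, hhi1, hhi2, hhi3⟩ := exists_hi hC hV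
  have hDmi : (interior (Prod.fst '' (A '' K))).Nonempty := by
    obtain ⟨p, hp⟩ := hi
    have h0 : IsOpenMap (fun p : P3 => ((p.1, p.2.1) : ℝ × ℝ)) := by
      have h1 : IsOpenMap (Prod.map (id : ℝ → ℝ) (Prod.fst : ℝ × ℝ → ℝ)) :=
        IsOpenMap.id.prodMap isOpenMap_fst
      exact h1
    refine ⟨(p.1, p.2.1), ?_⟩
    have h2 : (fun p : P3 => ((p.1, p.2.1) : ℝ × ℝ)) '' (interior K) ⊆
        Prod.fst '' (A '' K) := by
      rintro _ ⟨⟨z, y, x⟩, hq, rfl⟩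
      exact ⟨((z, y), x), (hmem _ _ _).2 (interior_subset hq), rfl⟩
    exact interior_maximal h2 (h0 _ isOpen_interior) ⟨p, hp, rfl⟩
  let lam : ℝ × ℝ → ℝ := fun q => l * (3 - q.1 / a - (q.2 - (s1 * q.1 + s0)) / D)
  have hconc : ConcaveOn ℝ (Prod.fst '' (A '' K)) (fun q => hI q - lam q) := by
    refine ⟨hhi1.1, ?_⟩
    intro p hp q hq s t hs ht hst
    have h1 := hhi1.2 hp hq hs ht hst
    simp only [smul_eq_mul] at h1 ⊢
    have h2 : lam (s • p + t • q) = s * lam p + t * lam q := by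
      have h3 : (s • p + t • q).1 = s * p.1 + t * q.1 := rfl
      have h4 : (s • p + t • q).2 = s * p.2 + t * q.2 := rfl
      have h5 : t = 1 - s := by linarith
      simp only [lam, h3, h4]
      subst h5
      ring
    rw [h2]
    linarith
  obtain ⟨φ, c, hφ⟩ := sandwich hlo1.1 hDmi hconc hlo1 (by
    rintro ⟨z, y⟩ hz
    have h1 := (hmem _ _ _).1 (hhi2 _ hz)
    have h2 := (hmem _ _ _).1 (hlo2 _ hz)
    have h3 := h z y _ _ h1 h2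
    have h4 : (hI (z, y) - lo (z, y)) / l ≤ 3 - z / a - (y - (s1 * z + s0)) / D := by linarith
    rw [div_le_iff₀ hl] at h4
    simp only [lam]
    linarith)
  have hφ1 : ∀ z y : ℝ, φ (z, y) = φ (1, 0) * z + φ (0, 1) * y := by
    intro z y
    have h1 : ((z, y) : ℝ × ℝ) = z • ((1, 0) : ℝ × ℝ) + y • ((0, 1) : ℝ × ℝ) := by simp
    rw [h1, map_add, map_smul, map_smul, smul_eq_mul, smul_eq_mul, mul_comm z, mul_comm y]
  refine ⟨φ (1, 0), φ (0, 1), c, ?_⟩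
  intro z y x hx
  have hx' := (hmem _ _ _).2 hx
  have h1 := hφ (z, y) ⟨_, hx', rfl⟩
  have h2 := hlo3 _ _ hx'
  have h3 := hhi3 _ _ hx'
  rw [hφ1 z y] at h1
  refine ⟨by linarith [h1.2], ?_⟩
  have h4 := h1.1
  simp only [lam] at h4
  have h5 : (x - (φ (1, 0) * z + φ (0, 1) * y + c)) / l ≤
      3 - z / a - (y - (s1 * z + s0)) / D := by
    rw [div_le_iff₀ hl]
    nlinarith
  linarith

end Pool.Agent.Lib.MP_a773b5_gt
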