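import Pool.Agent.Lib.MP_a773b5_gt.Defs

set_option autoImplicit false

namespace Pool.Agent.Lib.MP_a773b5_gt

open MeasureTheory Set

/-- Outside the projection the sections are empty. -/
theorem secArea_eq_zero {K : Set P3} {z : ℝ} (hz : z ∉ Prod.fst '' K) : secArea K z = 0 := by
  have h : sec K z = ∅ := by
    ext p
    simp only [sec, mem_setOf_eq, mem_empty_iff_false, iff_false]
    intro hp
    exact hz ⟨(z, p), hp, rfl⟩
  unfold secArea
  rw [h, measure_empty, ENNReal.toReal_zero]

/-- Integrals of functions of the height, by Fubini. -/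
theorem integral_height {K : Set P3} (hK : IsCompact K) {z0 z1 : ℝ} (h01 : z0 ≤ z1)
    (hI : Prod.fst '' K ⊆ Icc z0 z1) {φ : ℝ → ℝ} (hφ : Continuous φ) :
    ∫ p in K, φ p.1 = ∫ z in z0..z1, φ z * secArea K z := by
  have hKm : MeasurableSet K := hK.isClosed.measurableSet
  have hcont : Continuous fun p : P3 => φ p.1 := hφ.comp continuous_fst
  have hint : IntegrableOn (fun p : P3 => φ p.1) K volume :=
    hcont.continuousOn.integrableOn_compact hK
  have hind : Integrable (K.indicator fun p : P3 => φ p.1) volume :=
    (integrable_indicator_iff hKm).mpr hint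
  have hsec : ∀ z, MeasurableSet (sec K z) := fun z => measurable_prodMk_left hKm
  have hin : ∀ z : ℝ, ∫ w : ℝ × ℝ, K.indicator (fun p : P3 => φ p.1) (z, w) =
      φ z * secArea K z := by
    intro z
    have e : (fun w : ℝ × ℝ => K.indicator (fun p : P3 => φ p.1) (z, w)) =
        (sec K z).indicator fun _ => φ z := by
      funext w
      by_cases hw : (z, w) ∈ K
      · rw [indicator_of_mem hw, indicator_of_mem (show w ∈ sec K z from hw)]
      · rw [indicator_of_notMem hw, indicator_of_notMem (show w ∉ sec K z from hw)]
    rw [e, integral_indicator (hsec z), setIntegral_const, smul_eq_mul, mul_comm]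
    rfl
  have h1 : ∫ p in K, φ p.1 = ∫ z : ℝ, φ z * secArea K z := by
    rw [← integral_indicator hKm]
    have h2 := integral_prod (μ := (volume : Measure ℝ)) (ν := (volume : Measure (ℝ × ℝ)))
      (K.indicator fun p : P3 => φ p.1) hind
    rw [← Measure.volume_eq_prod] at h2
    rw [h2]
    exact integral_congr_ae (Filter.Eventually.of_forall hin)
  rw [h1, intervalIntegral.integral_of_le h01, ← integral_Icc_eq_integral_Ioc]
  symm
  apply setIntegral_eq_integral_of_forall_compl_eq_zero
  intro z hz
  rw [secArea_eq_zero (fun h => hz (hI h)), mul_zero]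

/-- The volume by Fubini. -/
theorem volume_height {K : Set P3} (hK : IsCompact K) {z0 z1 : ℝ} (h01 : z0 ≤ z1)
    (hI : Prod.fst '' K ⊆ Icc z0 z1) :
    (volume K).toReal = ∫ z in z0..z1, secArea K z := by
  have h := integral_height hK h01 hI (φ := fun _ => 1) continuous_const
  simp only [one_mul] at h
  rw [← h, setIntegral_const, smul_eq_mul, mul_one]
  rfl

end Pool.Agent.Lib.MP_a773b5_gt
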