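import Pool.Agent.Lib.MP_a773b5_gt.Dir
import Pool.Agent.Lib.MP_a773b5_gt.Flag

set_option autoImplicit false

namespace Pool.Agent.Lib.MP_a773b5_gt

open MeasureTheory Set

/-- The rotation as a linear equivalence. -/
private noncomputable def heightRot (v : ℝ × ℝ) (hv : v.1 ^ 2 + v.2 ^ 2 ≠ 0) : P3 ≃ₗ[ℝ] P3 where
  toFun p := (p.1, v.1 * p.2.1 + v.2 * p.2.2,
      (v.1 * p.2.2 - v.2 * p.2.1) / (v.1 ^ 2 + v.2 ^ 2))
  invFun p := (p.1, v.1 * p.2.1 / (v.1 ^ 2 + v.2 ^ 2) - v.2 * p.2.2,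
      v.2 * p.2.1 / (v.1 ^ 2 + v.2 ^ 2) + v.1 * p.2.2)
  map_add' := by
    intro p q
    ext
    · simp
    · simp; ring
    · simp; ring
  map_smul' := by
    intro r p
    ext
    · simp
    · simp; ring
    · simp; ring
  left_inv := by
    intro p
    ext
    · simp
    · simp; field_simp; ring
    · simp; field_simp; ring
  right_inv := by
    intro p
    ext
    · simp
    · simp; field_simp; ring
    · simp; field_simp; ring

private theorem heightRot_apply (v : ℝ × ℝ) (hv : v.1 ^ 2 + v.2 ^ 2 ≠ 0) (p : P3) :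
    heightRot v hv p = (p.1, v.1 * p.2.1 + v.2 * p.2.2,
      (v.1 * p.2.2 - v.2 * p.2.1) / (v.1 ^ 2 + v.2 ^ 2)) := rfl

private theorem heightRot_sq {v : ℝ × ℝ} (hv : v ≠ 0) : v.1 ^ 2 + v.2 ^ 2 ≠ 0 := by
  intro h
  apply hv
  have h1 : v.1 ^ 2 = 0 := by nlinarith [sq_nonneg v.1, sq_nonneg v.2]
  have h2 : v.2 ^ 2 = 0 := by nlinarith [sq_nonneg v.1, sq_nonneg v.2]
  exact Prod.ext (pow_eq_zero_iff (two_ne_zero) |>.1 h1) (pow_eq_zero_iff (two_ne_zero) |>.1 h2)

private theorem heightRot_plane (v : ℝ × ℝ) (hv : v.1 ^ 2 + v.2 ^ 2 ≠ 0) :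
    MeasurePreserving (fun p : ℝ × ℝ => (v.1 * p.1 + v.2 * p.2,
      (v.1 * p.2 - v.2 * p.1) / (v.1 ^ 2 + v.2 ^ 2))) volume volume := by
  set M : Matrix (Fin 2) (Fin 2) ℝ := !![v.1, v.2; -(v.2 / (v.1 ^ 2 + v.2 ^ 2)),
    v.1 / (v.1 ^ 2 + v.2 ^ 2)] with hM
  set f := Matrix.toLin (Module.Basis.finTwoProd ℝ) (Module.Basis.finTwoProd ℝ) M with hf
  have hdet : LinearMap.det f = 1 := by
    rw [hf, LinearMap.det_toLin, hM, Matrix.det_fin_two_of]
    field_simp
    try ring
  have hfun : (fun p : ℝ × ℝ => (v.1 * p.1 + v.2 * p.2,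
      (v.1 * p.2 - v.2 * p.1) / (v.1 ^ 2 + v.2 ^ 2))) = f := by
    funext p
    rw [hf, hM, Matrix.toLin_finTwoProd_apply]
    ext
    · rfl
    · simp only; ring
  rw [hfun]
  refine ⟨f.continuous_of_finiteDimensional.measurable, ?_⟩
  rw [Measure.map_linearMap_addHaar_eq_smul_addHaar volume (by rw [hdet]; exact one_ne_zero),
    hdet]
  simp

private theorem heightRot_mp (v : ℝ × ℝ) (hv : v.1 ^ 2 + v.2 ^ 2 ≠ 0) :
    MeasurePreserving (heightRot v hv) volume volume :=
  (MeasurePreserving.id volume).prod (heightRot_plane v hv)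

/-- The linear map `(z, p) ↦ (z, v·p, (v.1 p.2 - v.2 p.1)/|v|²)` has determinant one; transport
of `HasTet` back along it. -/
theorem hasTet_rot {K : Set P3} {c : ℝ} {v : ℝ × ℝ} (hv : v ≠ 0)
    (h : HasTet ((fun p : P3 => ((p.1, v.1 * p.2.1 + v.2 * p.2.2,
      (v.1 * p.2.2 - v.2 * p.2.1) / (v.1 ^ 2 + v.2 ^ 2)) : P3)) '' K) c) : HasTet K c := by
  have hv' := heightRot_sq hv
  obtain ⟨w, hw, hK, hvol⟩ := h
  set T := heightRot v hv' with hT
  have himg : T.symm '' convexHull ℝ (range w) = convexHull ℝ (range (T.symm ∘ w)) := by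
    have := AffineMap.image_convexHull (T.symm : P3 →ₗ[ℝ] P3).toAffineMap (range w)
    rw [range_comp]
    simpa using this
  have himg2 : T.symm '' convexHull ℝ (range w) = T ⁻¹' convexHull ℝ (range w) := by
    ext p
    constructor
    · rintro ⟨q, hq, rfl⟩
      simpa using hq
    · intro hp
      exact ⟨T p, hp, by simp⟩
  refine ⟨T.symm ∘ w, ?_, ?_, ?_⟩
  · exact hw.map' (T.symm : P3 →ₗ[ℝ] P3).toAffineMap T.symm.injective
  · rw [← himg, himg2]
    intro p hp
    exact hK ⟨p, hp, rfl⟩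
  · rw [← himg, himg2, (heightRot_mp v hv').measure_preimage]
    · exact hvol
    · exact ((finite_range w).isCompact_convexHull (𝕜 := ℝ)).measurableSet.nullMeasurableSet

/-- Main lemma: a tetrahedron with a face in the plane `z = 0` (from `exists_dir`, `flag_tet`
applied to the rotated body, `hasTet_rot`). -/
theorem tet_height {K : Set P3} (hK : IsCompact K) (hc : Convex ℝ K)
    (hi : (interior K).Nonempty) (hz : ∀ p ∈ K, 0 ≤ p.1) {G : ℝ}
    (hG : ∀ z, z * secArea K z ≤ G) : HasTet K (9 / 2 * G) := by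
  obtain ⟨v, hv, hZ⟩ := exists_dir hK hc hz hG
  have hv' := heightRot_sq hv
  apply hasTet_rot hv
  set T := heightRot v hv' with hT
  change HasTet (T '' K) (9 / 2 * G)
  have hTc : Continuous T := (T : P3 →ₗ[ℝ] P3).continuous_of_finiteDimensional
  refine flag_tet (hK.image hTc) (hc.linear_image (T : P3 →ₗ[ℝ] P3)) ?_ ?_ ?_
  · have hop : IsOpenMap T :=
      LinearMap.isOpenMap_of_finiteDimensional (T : P3 →ₗ[ℝ] P3) T.surjective
    obtain ⟨p, hp⟩ := hi
    exact ⟨T p, hop.image_interior_subset K ⟨p, hp, rfl⟩⟩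
  · rintro _ ⟨p, hp, rfl⟩
    exact hz p hp
  · rintro z y η x ξ ⟨⟨p, hp, hp'⟩, ⟨q, hq, hq'⟩, ⟨x', ⟨r, hr, hr'⟩⟩⟩ hy hx
    by_contra hcon
    push Not at hcon
    have hmem : z ∈ Zset K G v := by
      rw [hT, heightRot_apply] at hp' hq' hr'
      simp only [Prod.mk.injEq] at hp' hq' hr'
      obtain ⟨p1, p2, p3⟩ := hp'
      obtain ⟨q1, q2, q3⟩ := hq'
      obtain ⟨r1, r2, r3⟩ := hr'
      rw [div_eq_iff hv'] at p3 q3 r3
      refine ⟨p.2, r.2, x - ξ, ?_, ?_, ?_, by linarith, ?_, ?_⟩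
      · rw [← p1]; exact hp
      · have e1 : q.2.1 = p.2.1 + (x - ξ) * v.2 := by
          apply mul_left_cancel₀ hv'
          linear_combination v.1 * (q2 - p2) - v.2 * (q3 - p3)
        have e2 : q.2.2 = p.2.2 - (x - ξ) * v.1 := by
          apply mul_left_cancel₀ hv'
          linear_combination v.2 * (q2 - p2) + v.1 * (q3 - p3)
        have : q = (z, (p.2.1 + (x - ξ) * v.2, p.2.2 - (x - ξ) * v.1)) := by
          ext
          · exact q1
          · exact e1
          · exact e2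
        rw [← this]; exact hq
      · rw [← r1]; exact hr
      · have : v.1 * (p.2.1 - r.2.1) + v.2 * (p.2.2 - r.2.2) = y - η := by
          linear_combination p2 - r2
        rw [this]; linarith
      · have : v.1 * (p.2.1 - r.2.1) + v.2 * (p.2.2 - r.2.2) = y - η := by
          linear_combination p2 - r2
        rw [this]
        calc G < z * ((y - η) * (x - ξ)) := hcon
          _ = z * ((x - ξ) * (y - η)) := by ring
    rw [hZ] at hmem
    exact hmem

end Pool.Agent.Lib.MP_a773b5_gt
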