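import Pool.Agent.Lib.MP_a773b5_gt.Height

set_option autoImplicit false

namespace Pool.Agent.Lib.MP_a773b5_gt

open MeasureTheory Set

/-- Transport of `HasTet` back along a volume preserving affine isomorphism. -/
private theorem hb_transport {K : Set P3} {c : ℝ} (e : P3 ≃ᵃ[ℝ] P3)
    (hm : MeasurePreserving e volume volume) (h : HasTet (e '' K) c) : HasTet K c := by
  obtain ⟨v, hv, hK, hvol⟩ := h
  have hhull : convexHull ℝ (range (e.symm ∘ v)) = e.symm '' convexHull ℝ (range v) := by
    rw [range_comp]
    exact (AffineMap.image_convexHull (e.symm : P3 →ᵃ[ℝ] P3) _).symm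
  refine ⟨e.symm ∘ v, hv.map' (e.symm : P3 →ᵃ[ℝ] P3) e.symm.injective, ?_, ?_⟩
  · rw [hhull]
    intro x hx
    exact ⟨e x, hK ⟨x, hx, rfl⟩, e.symm_apply_apply x⟩
  · rw [hhull, AffineEquiv.image_symm]
    have hmeas : MeasurableSet (convexHull ℝ (range v)) :=
      ((Set.finite_range v).isCompact_convexHull ℝ).measurableSet
    rw [hm.measure_preimage hmeas.nullMeasurableSet]
    exact hvol

/-- The affine isomorphism `(z, p) ↦ (c + s z, p)`. -/
private noncomputable def hb_map (c s : ℝ) (hs : s ≠ 0) : P3 ≃ᵃ[ℝ] P3 :=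
  ((LinearEquiv.prodCongr (LinearEquiv.smulOfNeZero ℝ ℝ s hs)
    (LinearEquiv.refl ℝ (ℝ × ℝ))).toAffineEquiv).trans
    (AffineEquiv.constVAdd ℝ P3 ((c, 0) : P3))

private theorem hb_map_apply (c s : ℝ) (hs : s ≠ 0) (p : P3) :
    hb_map c s hs p = (c + s * p.1, p.2) := by
  simp [hb_map]

/-- Common part: the map `(z, p) ↦ (c + s z, p)` with inverse height map `z ↦ t z`. -/
private theorem hb_main {K : Set P3} (hK : IsCompact K) (hc : Convex ℝ K)
    (hi : (interior K).Nonempty) (c s : ℝ) (hs : s ≠ 0)
    (hmp : MeasurePreserving (fun z : ℝ => c + s * z) volume volume)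
    (hz : ∀ p ∈ K, 0 ≤ c + s * p.1) {G : ℝ}
    (hG : ∀ z, (c + s * z) * secArea K z ≤ G) : HasTet K (9 / 2 * G) := by
  have hfun : (hb_map c s hs : P3 → P3) = Prod.map (fun z : ℝ => c + s * z) id := by
    funext p
    rw [hb_map_apply]
    rfl
  have hm : MeasurePreserving (hb_map c s hs) (volume : Measure P3) (volume : Measure P3) := by
    rw [hfun]
    exact hmp.prod (MeasurePreserving.id (volume : Measure (ℝ × ℝ)))
  refine hb_transport (hb_map c s hs) hm ?_
  have hcont : Continuous (hb_map c s hs) := by
    rw [hfun]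
    fun_prop
  have hcont' : Continuous (hb_map c s hs).symm :=
    AffineMap.continuous_of_finiteDimensional ((hb_map c s hs).symm : P3 →ᵃ[ℝ] P3)
  refine tet_height (hK.image hcont) ?_ ?_ ?_ ?_
  · exact hc.affine_image (hb_map c s hs : P3 →ᵃ[ℝ] P3)
  · obtain ⟨x, hx⟩ := hi
    refine ⟨hb_map c s hs x, ?_⟩
    have hopen : IsOpen ((hb_map c s hs) '' interior K) := by
      rw [← AffineEquiv.preimage_symm]
      exact isOpen_interior.preimage hcont'
    exact interior_maximal (image_mono interior_subset) hopen ⟨x, hx, rfl⟩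
  · rintro _ ⟨p, hp, rfl⟩
    rw [hb_map_apply]
    exact hz p hp
  · intro z
    have hsec : sec ((hb_map c s hs) '' K) z = sec K ((z - c) / s) := by
      ext q
      constructor
      · rintro ⟨p, hp, hpq⟩
        rw [hb_map_apply] at hpq
        have h1 : c + s * p.1 = z := congrArg Prod.fst hpq
        have h2 : p.2 = q := congrArg Prod.snd hpq
        show ((z - c) / s, q) ∈ K
        have h3 : (z - c) / s = p.1 := by
          rw [← h1]
          field_simp
          ring
        rw [h3, ← h2]
        exact hp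
      · intro hq
        refine ⟨((z - c) / s, q), hq, ?_⟩
        rw [hb_map_apply]
        have h3 : c + s * ((z - c) / s) = z := by
          field_simp
          ring
        show (c + s * ((z - c) / s), q) = (z, q)
        rw [h3]
    have h4 : secArea ((hb_map c s hs) '' K) z = secArea K ((z - c) / s) := by
      unfold secArea
      rw [hsec]
    rw [h4]
    have h5 := hG ((z - c) / s)
    have h3 : c + s * ((z - c) / s) = z := by
      field_simp
      ring
    rw [h3] at h5
    exact h5

/-- `tet_height` for a body above the plane `z = z0` (translate). -/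
theorem tet_above {K : Set P3} (hK : IsCompact K) (hc : Convex ℝ K)
    (hi : (interior K).Nonempty) {z0 : ℝ} (hz : ∀ p ∈ K, z0 ≤ p.1) {G : ℝ}
    (hG : ∀ z, (z - z0) * secArea K z ≤ G) : HasTet K (9 / 2 * G) := by
  refine hb_main hK hc hi (-z0) 1 one_ne_zero ?_ ?_ ?_
  · have h := measurePreserving_add_left (volume : Measure ℝ) (-z0)
    have he : (fun z : ℝ => -z0 + 1 * z) = fun z : ℝ => -z0 + z := by
      funext z
      ring
    rw [he]
    exact h
  · intro p hp
    have := hz p hp
    linarith
  · intro z
    have := hG z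
    have he : -z0 + 1 * z = z - z0 := by ring
    rw [he]
    exact this

/-- `tet_height` for a body below the plane `z = h` (reflect). -/
theorem tet_below {K : Set P3} (hK : IsCompact K) (hc : Convex ℝ K)
    (hi : (interior K).Nonempty) {h : ℝ} (hz : ∀ p ∈ K, p.1 ≤ h) {G : ℝ}
    (hG : ∀ z, (h - z) * secArea K z ≤ G) : HasTet K (9 / 2 * G) := by
  refine hb_main hK hc hi h (-1) (by norm_num) ?_ ?_ ?_
  · have h1 := Measure.measurePreserving_sub_left (volume : Measure ℝ) h
    have he : (fun z : ℝ => h + -1 * z) = fun z : ℝ => h - z := by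
      funext z
      ring
    rw [he]
    exact h1
  · intro p hp
    have := hz p hp
    linarith
  · intro z
    have := hG z
    have he : h + -1 * z = h - z := by ring
    rw [he]
    exact this

end Pool.Agent.Lib.MP_a773b5_gt
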