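import Pool.Agent.Lib.MP_a773b5_gt.Defs

set_option autoImplicit false

namespace Pool.Agent.Lib.MP_a773b5_gt

open MeasureTheory Set

/-- Integral of the linear interpolation of `u` and `v` over `(a, b)`. -/
private lemma integral_interp {a b : ℝ} (hab : a < b) (u v : ℝ) :
    ∫ y in Ioo a b, (u + (y - a) / (b - a) * (v - u)) = (u + v) / 2 * (b - a) := by
  rw [← integral_Ioc_eq_integral_Ioo, ← intervalIntegral.integral_of_le hab.le]
  have hne : b - a ≠ 0 := by linarith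
  have h1 : ∀ y : ℝ, u + (y - a) / (b - a) * (v - u) =
      (u - a * ((v - u) / (b - a))) + ((v - u) / (b - a)) * y := by
    intro y
    field_simp
    ring
  simp_rw [h1]
  rw [intervalIntegral.integral_add, intervalIntegral.integral_const,
    intervalIntegral.integral_const_mul, integral_id]
  · simp only [smul_eq_mul]
    field_simp
    ring
  · exact intervalIntegrable_const
  · exact (intervalIntegral.intervalIntegrable_id).const_mul _

/-- The part of a convex set between two heights has at least the area of the trapezoid spanned by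
the two chords. -/
private lemma trap_le {L : Set (ℝ × ℝ)} (hc : Convex ℝ L) {a b p p' q q' : ℝ}
    (hab : a ≤ b) (hp : (a, p) ∈ L) (hp' : (a, p') ∈ L) (hq : (b, q) ∈ L) (hq' : (b, q') ∈ L)
    (hpp : p ≤ p') (hqq : q ≤ q') :
    ENNReal.ofReal (((p' - p) + (q' - q)) / 2 * (b - a)) ≤ volume (L ∩ Ioo a b ×ˢ univ) := by
  rcases hab.eq_or_lt with rfl | hlt
  · simp
  have hpos : 0 < b - a := by linarith
  have hsub : regionBetween (fun y => p + (y - a) / (b - a) * (q - p))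
      (fun y => p' + (y - a) / (b - a) * (q' - p')) (Ioo a b) ⊆ L ∩ Ioo a b ×ˢ univ := by
    rintro ⟨y, x⟩ ⟨hy, hx1, hx2⟩
    simp only at hy hx1 hx2
    refine ⟨?_, ⟨hy, mem_univ _⟩⟩
    set t := (y - a) / (b - a) with ht
    have ht0 : 0 ≤ t := div_nonneg (by linarith [hy.1]) hpos.le
    have ht1 : t ≤ 1 := by rw [ht, div_le_one hpos]; linarith [hy.2]
    have hty : a + t * (b - a) = y := by rw [ht]; field_simp; ring
    have e1 : (y, p + t * (q - p)) ∈ L := by
      have := hc hp hq (by linarith : 0 ≤ 1 - t) ht0 (by ring)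
      have h2 : (1 - t) • (a, p) + t • (b, q) = (y, p + t * (q - p)) := by
        ext
        · simp only [Prod.smul_mk, smul_eq_mul, Prod.mk_add_mk]
          rw [← hty]; ring
        · simp only [Prod.smul_mk, smul_eq_mul, Prod.mk_add_mk]
          ring
      rwa [h2] at this
    have e2 : (y, p' + t * (q' - p')) ∈ L := by
      have := hc hp' hq' (by linarith : 0 ≤ 1 - t) ht0 (by ring)
      have h2 : (1 - t) • (a, p') + t • (b, q') = (y, p' + t * (q' - p')) := by
        ext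
        · simp only [Prod.smul_mk, smul_eq_mul, Prod.mk_add_mk]
          rw [← hty]; ring
        · simp only [Prod.smul_mk, smul_eq_mul, Prod.mk_add_mk]
          ring
      rwa [h2] at this
    set X₁ := p + t * (q - p)
    set X₂ := p' + t * (q' - p')
    have hX : 0 < X₂ - X₁ := by linarith
    have := hc e1 e2 (a := (X₂ - x) / (X₂ - X₁)) (b := (x - X₁) / (X₂ - X₁))
      (div_nonneg (by linarith) hX.le) (div_nonneg (by linarith) hX.le)
      (by rw [← add_div, div_eq_one_iff_eq hX.ne']; ring)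
    have h3 : ((X₂ - x) / (X₂ - X₁)) • (y, X₁) + ((x - X₁) / (X₂ - X₁)) • (y, X₂) = (y, x) := by
      ext
      · simp only [Prod.smul_mk, smul_eq_mul, Prod.mk_add_mk]
        field_simp
        ring
      · simp only [Prod.smul_mk, smul_eq_mul, Prod.mk_add_mk]
        field_simp
        ring
    rwa [h3] at this
  refine le_trans ?_ (measure_mono hsub)
  have hcont : ∀ u v : ℝ, Continuous (fun y : ℝ => u + (y - a) / (b - a) * (v - u)) := by
    intro u v
    fun_prop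
  have hint : ∀ u v : ℝ, IntegrableOn (fun y : ℝ => u + (y - a) / (b - a) * (v - u)) (Ioo a b) :=
    fun u v => ((hcont u v).continuousOn.integrableOn_compact isCompact_Icc).mono_set
      Ioo_subset_Icc_self
  have hvol := volume_regionBetween_eq_integral (μ := (volume : Measure ℝ)) (hint p q)
    (hint p' q') measurableSet_Ioo (by
      intro y hy
      have ht0 : 0 ≤ (y - a) / (b - a) := div_nonneg (by linarith [hy.1]) hpos.le
      have ht1 : (y - a) / (b - a) ≤ 1 := by rw [div_le_one hpos]; linarith [hy.2]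
      nlinarith)
  rw [show (volume : Measure (ℝ × ℝ)) = (volume : Measure ℝ).prod volume from rfl, hvol]
  apply ENNReal.ofReal_le_ofReal
  have : ∫ y in Ioo a b, ((fun y => p' + (y - a) / (b - a) * (q' - p')) -
      (fun y => p + (y - a) / (b - a) * (q - p))) y = ((p' - p) + (q' - q)) / 2 * (b - a) := by
    rw [← integral_interp hlt (p' - p) (q' - q)]
    apply integral_congr_ae
    filter_upwards with y
    simp only [Pi.sub_apply]
    ring
  exact this.ge

/-- A planar convex set (coordinates `(y,x)`) with a bottom point at height `η`, a chord of length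
`x₂ - ξ₂` at height `y₂`, a chord of length `x₁ - ξ₁` at height `y₁ ≥ y₂`, and a top point at
height `θ` has area at least `½ (w₂ (y₁ - η) + w₁ (θ - y₂))`.
(The chord length at a height `t` is at least the piecewise linear interpolation of
`0, w₂, w₁, 0` at `η, y₂, y₁, θ`; integrate over `t`.) -/
theorem hull_area {L : Set (ℝ × ℝ)} (hL : IsCompact L) (hc : Convex ℝ L)
    {η x₀ y₂ x₂ ξ₂ y₁ x₁ ξ₁ θ x₃ : ℝ}
    (h0 : (η, x₀) ∈ L) (h2 : (y₂, x₂) ∈ L) (h2' : (y₂, ξ₂) ∈ L)
    (h1 : (y₁, x₁) ∈ L) (h1' : (y₁, ξ₁) ∈ L) (h3 : (θ, x₃) ∈ L)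
    (hη : η ≤ y₂) (h21 : y₂ ≤ y₁) (hθ : y₁ ≤ θ) (hx2 : ξ₂ ≤ x₂) (hx1 : ξ₁ ≤ x₁) :
    ((x₂ - ξ₂) * (y₁ - η) + (x₁ - ξ₁) * (θ - y₂)) / 2 ≤ (volume L).toReal := by
  have a1 := trap_le hc hη h0 h0 h2' h2 le_rfl hx2
  have a2 := trap_le hc h21 h2' h2 h1' h1 hx2 hx1
  have a3 := trap_le hc hθ h1' h1 h3 h3 hx1 le_rfl
  have hm : MeasurableSet L := hL.isClosed.measurableSet
  have hI : ∀ a b : ℝ, MeasurableSet (L ∩ Ioo a b ×ˢ (univ : Set ℝ)) := fun a b =>
    hm.inter (measurableSet_Ioo.prod MeasurableSet.univ)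
  have hd1 : Disjoint (L ∩ Ioo η y₂ ×ˢ (univ : Set ℝ)) (L ∩ Ioo y₂ y₁ ×ˢ (univ : Set ℝ)) := by
    rw [Set.disjoint_left]
    rintro ⟨y, x⟩ ⟨-, ha, -⟩ ⟨-, hb, -⟩
    exact absurd ha.2 (not_lt.2 hb.1.le)
  have hd2 : Disjoint ((L ∩ Ioo η y₂ ×ˢ (univ : Set ℝ)) ∪ (L ∩ Ioo y₂ y₁ ×ˢ (univ : Set ℝ)))
      (L ∩ Ioo y₁ θ ×ˢ (univ : Set ℝ)) := by
    rw [Set.disjoint_left]
    rintro ⟨y, x⟩ (⟨-, ha, -⟩ | ⟨-, ha, -⟩) ⟨-, hb, -⟩
    · have h5 := ha.2
      have h6 := hb.1
      simp only at h5 h6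
      linarith
    · exact absurd ha.2 (not_lt.2 hb.1.le)
  have hle : volume (L ∩ Ioo η y₂ ×ˢ (univ : Set ℝ)) + volume (L ∩ Ioo y₂ y₁ ×ˢ (univ : Set ℝ)) +
      volume (L ∩ Ioo y₁ θ ×ˢ (univ : Set ℝ)) ≤ volume L := by
    rw [← measure_union hd1 (hI _ _), ← measure_union hd2 (hI _ _)]
    apply measure_mono
    rintro z ((h | h) | h) <;> exact h.1
  have hfin : volume L ≠ ⊤ := hL.measure_ne_top
  have b1 : 0 ≤ ((x₀ - x₀) + (x₂ - ξ₂)) / 2 * (y₂ - η) := by
    apply mul_nonneg <;> linarith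
  have b2 : 0 ≤ ((x₂ - ξ₂) + (x₁ - ξ₁)) / 2 * (y₁ - y₂) := by
    apply mul_nonneg <;> linarith
  have b3 : 0 ≤ ((x₁ - ξ₁) + (x₃ - x₃)) / 2 * (θ - y₁) := by
    apply mul_nonneg <;> linarith
  have hsum : ENNReal.ofReal (((x₂ - ξ₂) * (y₁ - η) + (x₁ - ξ₁) * (θ - y₂)) / 2) ≤ volume L := by
    have : ((x₂ - ξ₂) * (y₁ - η) + (x₁ - ξ₁) * (θ - y₂)) / 2 =
        ((x₀ - x₀) + (x₂ - ξ₂)) / 2 * (y₂ - η) + ((x₂ - ξ₂) + (x₁ - ξ₁)) / 2 * (y₁ - y₂) +
        ((x₁ - ξ₁) + (x₃ - x₃)) / 2 * (θ - y₁) := by ring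
    rw [this, ENNReal.ofReal_add (by linarith) b3, ENNReal.ofReal_add b1 b2]
    exact (add_le_add (add_le_add a1 a2) a3).trans hle
  exact (ENNReal.ofReal_le_iff_le_toReal hfin).1 hsum

end Pool.Agent.Lib.MP_a773b5_gt
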