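import Pool.Agent.Lib.MP_a773b5_gt.BallMoment

set_option autoImplicit false

namespace Pool.Agent.Lib.MP_a773b5_gt

open MeasureTheory Set Metric

private lemma iso_int {K : Set E3} (hK : IsCompact K) (g w w' : E3) :
    IntegrableOn (fun x => (inner ℝ w (x - g) : ℝ) * inner ℝ w' (x - g)) K := by
  apply ContinuousOn.integrableOn_compact hK
  fun_prop

/-- the moment form -/
private noncomputable def isoForm {K : Set E3} (hK : IsCompact K) (g : E3) :
    LinearMap.BilinForm ℝ E3 :=
  LinearMap.mk₂ ℝ (fun w w' => ∫ x in K, (inner ℝ w (x - g) : ℝ) * inner ℝ w' (x - g))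
    (by
      intro a b c
      rw [← integral_add (iso_int hK g a c) (iso_int hK g b c)]
      congr 1; ext x
      rw [inner_add_left]; ring)
    (by
      intro r a b
      rw [smul_eq_mul, ← integral_const_mul]
      congr 1; ext x
      rw [real_inner_smul_left]; ring)
    (by
      intro a b c
      rw [← integral_add (iso_int hK g a b) (iso_int hK g a c)]
      congr 1; ext x
      rw [inner_add_left]; ring)
    (by
      intro r a b
      rw [smul_eq_mul, ← integral_const_mul]
      congr 1; ext x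
      rw [real_inner_smul_left]; ring)

private lemma isoForm_apply {K : Set E3} (hK : IsCompact K) (g w w' : E3) :
    isoForm hK g w w' = ∫ x in K, (inner ℝ w (x - g) : ℝ) * inner ℝ w' (x - g) := rfl

private lemma isoForm_pos {K : Set E3} (hK : IsCompact K) (hi : (interior K).Nonempty) (g w : E3)
    (hw : w ≠ 0) : 0 < isoForm hK g w w := by
  rw [isoForm_apply]
  have hcont : Continuous (fun x : E3 => (inner ℝ w (x - g) : ℝ)) := by fun_prop
  have hnn : 0 ≤ᵐ[volume.restrict K] (fun x => (inner ℝ w (x - g) : ℝ) * inner ℝ w (x - g)) :=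
    Filter.Eventually.of_forall fun x => mul_self_nonneg _
  rw [setIntegral_pos_iff_support_of_nonneg_ae hnn (iso_int hK g w w)]
  have hopen : IsOpen ({x : E3 | (inner ℝ w (x - g) : ℝ) ≠ 0} ∩ interior K) :=
    (isOpen_ne_fun hcont continuous_const).inter isOpen_interior
  have hne : ({x : E3 | (inner ℝ w (x - g) : ℝ) ≠ 0} ∩ interior K).Nonempty := by
    obtain ⟨y, hy⟩ := hi
    by_cases h : (inner ℝ w (y - g) : ℝ) = 0
    · have hc : Filter.Tendsto (fun t : ℝ => y + t • w) (nhdsWithin 0 (Ioi 0)) (nhds y) := by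
        have h1 : Filter.Tendsto (fun t : ℝ => y + t • w) (nhds 0) (nhds (y + (0:ℝ) • w)) := by
          apply Continuous.tendsto; fun_prop
        rw [zero_smul, add_zero] at h1
        exact h1.mono_left nhdsWithin_le_nhds
      have h2 : ∀ᶠ t in nhdsWithin (0:ℝ) (Ioi 0), y + t • w ∈ interior K :=
        hc (isOpen_interior.mem_nhds hy)
      obtain ⟨t, ht1, ht2⟩ := (h2.and self_mem_nhdsWithin).exists
      refine ⟨y + t • w, ?_, ht1⟩
      have h3 : y + t • w - g = (y - g) + t • w := by abel
      simp only [mem_ofPred_eq]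
      rw [h3, inner_add_right, h, zero_add, real_inner_smul_right, real_inner_self_eq_norm_sq]
      have : 0 < ‖w‖ := norm_pos_iff.2 hw
      have ht : (0:ℝ) < t := ht2
      positivity
    · exact ⟨y, h, hy⟩
  refine lt_of_lt_of_le (hopen.measure_pos volume hne) (measure_mono ?_)
  rintro x ⟨hx1, hx2⟩
  refine ⟨?_, interior_subset hx2⟩
  simp only [Function.mem_support]
  exact mul_self_ne_zero.2 hx1

/-- an orthonormal basis for the moment form -/
private lemma iso_basis {K : Set E3} (hK : IsCompact K) (hi : (interior K).Nonempty) (g : E3) :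
    ∃ b : Fin 3 → E3, (∀ x : E3, (∀ i, (inner ℝ (b i) x : ℝ) = 0) → x = 0) ∧
      ∀ i j, isoForm hK g (b i) (b j) = if i = j then 1 else 0 := by
  have : Invertible (2 : ℝ) := invertibleOfNonzero two_ne_zero
  have hsymm : LinearMap.IsSymm (isoForm hK g) := by
    constructor
    intro x y
    rw [RingHom.id_apply, isoForm_apply, isoForm_apply]
    congr 1; ext z; ring
  obtain ⟨v, hv⟩ := LinearMap.BilinForm.exists_orthogonal_basis hsymm
  have hfr : Module.finrank ℝ E3 = 3 := finrank_euclideanSpace_fin
  let v' : Module.Basis (Fin 3) ℝ E3 := v.reindex (finCongr hfr)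
  have hv' : ∀ i j, i ≠ j → isoForm hK g (v' i) (v' j) = 0 := by
    intro i j hij
    have := LinearMap.isOrthoᵢ_def.1 hv ((finCongr hfr).symm i) ((finCongr hfr).symm j)
      (fun h => hij ((finCongr hfr).symm.injective h))
    simpa [v', Module.Basis.reindex_apply] using this
  have hpos : ∀ i, 0 < isoForm hK g (v' i) (v' i) := fun i => isoForm_pos hK hi g _ (v'.ne_zero i)
  refine ⟨fun i => (Real.sqrt (isoForm hK g (v' i) (v' i)))⁻¹ • v' i, ?_, ?_⟩
  · intro x hx
    have h1 : ∀ i, (inner ℝ (v' i) x : ℝ) = 0 := by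
      intro i
      have := hx i
      rw [real_inner_smul_left] at this
      rcases mul_eq_zero.1 this with h | h
      · exact absurd h (inv_ne_zero (Real.sqrt_pos.2 (hpos i)).ne')
      · exact h
    have h2 : ∀ y : E3, (inner ℝ y x : ℝ) = 0 := by
      intro y
      rw [← v'.sum_repr y, sum_inner]
      apply Finset.sum_eq_zero
      intro i _
      rw [real_inner_smul_left, h1 i, mul_zero]
    exact inner_self_eq_zero.1 (h2 x)
  · intro i j
    simp only [map_smul, LinearMap.smul_apply, smul_eq_mul]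
    split_ifs with h
    · subst h
      have h3 := Real.mul_self_sqrt (hpos i).le
      have h4 := (Real.sqrt_pos.2 (hpos i)).ne'
      set s := Real.sqrt (isoForm hK g (v' i) (v' i)) with hs
      rw [← h3]
      field_simp
    · rw [hv' i j h]; simp

/-- Isotropic position about a point `g`. The matrix `S i j = ∫_K (x-g)_i (x-g)_j` is positive
definite, `S = Bᵀ B` with `B` invertible; the linear part of `e` is a multiple of `(Bᵀ)⁻¹`. -/
theorem exists_iso {K : Set E3} (hK : IsCompact K) (hi : (interior K).Nonempty) (g : E3) :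
    ∃ e : E3 ≃ᵃ[ℝ] E3, e g = 0 ∧ ∀ u : E3,
      ∫ x in e '' K, inner ℝ u x ^ 2 = ‖u‖ ^ 2 / 5 * (volume (e '' K)).toReal := by
  obtain ⟨b, hb1, hb2⟩ := iso_basis hK hi g
  have hVpos : 0 < (volume K).toReal := by
    apply ENNReal.toReal_pos
    · exact (lt_of_lt_of_le (isOpen_interior.measure_pos volume hi)
        (measure_mono interior_subset)).ne'
    · exact hK.measure_lt_top.ne
  set c : ℝ := Real.sqrt ((volume K).toReal / 5) with hc
  have hcpos : 0 < c := Real.sqrt_pos.2 (by positivity)
  have hc2 : c ^ 2 = (volume K).toReal / 5 := Real.sq_sqrt (by positivity)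
  -- the linear map
  let L0 : E3 →ₗ[ℝ] E3 :=
    { toFun := fun x => WithLp.toLp 2 (fun i => c * (inner ℝ (b i) x : ℝ))
      map_add' := by
        intro x y; ext i
        simp only [PiLp.add_apply, inner_add_right]
        ring
      map_smul' := by
        intro r x; ext i
        simp only [PiLp.smul_apply, real_inner_smul_right, RingHom.id_apply, smul_eq_mul]
        ring }
  have hL0 : ∀ x i, L0 x i = c * (inner ℝ (b i) x : ℝ) := fun x i => rfl
  have hinj : Function.Injective L0 := by
    rw [← LinearMap.ker_eq_bot, LinearMap.ker_eq_bot']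
    intro x hx
    apply hb1
    intro i
    have h1 : L0 x i = 0 := by rw [hx]; rfl
    rw [hL0] at h1
    rcases mul_eq_zero.1 h1 with h | h
    · exact absurd h hcpos.ne'
    · exact h
  let L : E3 ≃ₗ[ℝ] E3 := LinearEquiv.ofInjectiveEndo L0 hinj
  have hL : ∀ x, L x = L0 x := fun x => rfl
  let e : E3 ≃ᵃ[ℝ] E3 := (AffineEquiv.constVAdd ℝ E3 (-g)).trans L.toAffineEquiv
  have he : ∀ x, e x = L (x - g) := by
    intro x
    simp only [e, AffineEquiv.trans_apply, AffineEquiv.constVAdd_apply, vadd_eq_add,
      LinearEquiv.coe_toAffineEquiv]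
    congr 1; abel
  have hinner : ∀ u x : E3, (inner ℝ u (e x) : ℝ) = ∑ i, (c * u i) * (inner ℝ (b i) (x - g)) := by
    intro u x
    rw [he, hL, PiLp.inner_apply]
    apply Finset.sum_congr rfl
    intro i _
    rw [hL0]
    simp only [RCLike.inner_apply, conj_trivial]
    ring
  refine ⟨e, by rw [he, sub_self, map_zero], ?_⟩
  intro u
  let Lc : E3 →L[ℝ] E3 := LinearMap.toContinuousLinearMap L0
  have hder : ∀ x ∈ K, HasFDerivWithinAt (fun x => e x) Lc K x := by
    intro x _
    have h1 : (fun x => e x) = fun x => Lc x - Lc g := by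
      ext1 y
      rw [he, hL, ← map_sub]; rfl
    rw [h1]
    exact (Lc.hasFDerivWithinAt).sub_const _
  have hinjOn : InjOn (fun x => e x) K := e.injective.injOn
  have hI1 := integral_image_eq_integral_abs_det_fderiv_smul volume hK.measurableSet hder hinjOn
    (fun x => (inner ℝ u x : ℝ) ^ 2)
  have hI2 := integral_image_eq_integral_abs_det_fderiv_smul volume hK.measurableSet hder hinjOn
    (fun _ => (1 : ℝ))
  have hI3 : (volume (e '' K)).toReal = |Lc.det| * (volume K).toReal := by
    have h5 : ∫ x in (fun x => e x) '' K, (1:ℝ) = (volume (e '' K)).toReal := by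
      rw [setIntegral_const]; simp [Measure.real]
    rw [← h5, hI2, setIntegral_const]
    simp only [smul_eq_mul, Measure.real]
    ring
  have hI4 : ∫ x in e '' K, (inner ℝ u x : ℝ) ^ 2 = |Lc.det| * (c ^ 2 * ‖u‖ ^ 2) := by
    rw [show (e '' K) = (fun x => e x) '' K from rfl, hI1]
    simp only [smul_eq_mul]
    rw [integral_const_mul]
    congr 1
    have h6 : ∀ x, (inner ℝ u (e x) : ℝ) ^ 2 = ∑ i, ∑ j, (c * u i) * (c * u j) *
        ((inner ℝ (b i) (x - g)) * (inner ℝ (b j) (x - g))) := by
      intro x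
      rw [hinner, sq, Finset.sum_mul_sum]
      apply Finset.sum_congr rfl; intro i _
      apply Finset.sum_congr rfl; intro j _
      ring
    simp only [h6]
    rw [integral_finsetSum]
    · have h7 : ∀ i, ∫ x in K, ∑ j, (c * u i) * (c * u j) *
          (((inner ℝ (b i) (x - g)) : ℝ) * (inner ℝ (b j) (x - g))) = (c * u i) ^ 2 := by
        intro i
        rw [integral_finsetSum]
        · simp only [integral_const_mul]
          simp only [← isoForm_apply hK, hb2]
          simp; ring
        · intro j _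
          exact (iso_int hK g (b i) (b j)).const_mul _
      simp only [h7]
      rw [EuclideanSpace.norm_sq_eq, Finset.mul_sum]
      apply Finset.sum_congr rfl; intro i _
      rw [Real.norm_eq_abs, sq_abs]; ring
    · intro i _
      apply integrable_finsetSum
      intro j _
      exact (iso_int hK g (b i) (b j)).const_mul _
  rw [hI4, hI3, hc2]
  ring

/-- A near support plane. If `max_K ⟪u,·⟫ > 1` for all unit vectors `u`, then by compactness `K`
contains a ball about `0` of radius `ρ > 1`; but `∫_K ‖x‖² = (3/5) |K|`, against `moment_ge`. -/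
theorem exists_near {K : Set E3} (hK : IsCompact K) (hc : Convex ℝ K)
    (hi : (interior K).Nonempty)
    (hiso : ∀ u : E3, ∫ x in K, inner ℝ u x ^ 2 = ‖u‖ ^ 2 / 5 * (volume K).toReal) :
    ∃ u : E3, ‖u‖ = 1 ∧ ∀ x ∈ K, inner ℝ u x ≤ 1 := by
  by_contra hcon
  push Not at hcon
  have hKne : K.Nonempty := hi.mono interior_subset
  have hVpos : 0 < (volume K).toReal := by
    apply ENNReal.toReal_pos
    · exact (lt_of_lt_of_le (isOpen_interior.measure_pos volume hi)
        (measure_mono interior_subset)).ne'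
    · exact hK.measure_lt_top.ne
  let h : E3 → ℝ := fun u => sSup ((fun x => (inner ℝ u x : ℝ)) '' K)
  have hcont : Continuous h := by
    apply IsCompact.continuous_sSup hK
    show Continuous (fun p : E3 × E3 => (inner ℝ p.1 p.2 : ℝ))
    fun_prop
  have hle : ∀ u, ∀ x ∈ K, (inner ℝ u x : ℝ) ≤ h u := by
    intro u x hx
    apply le_csSup _ (mem_image_of_mem _ hx)
    apply (hK.image _).bddAbove
    fun_prop
  have hatt : ∀ u, ∃ x ∈ K, (inner ℝ u x : ℝ) = h u := by
    intro u
    obtain ⟨x, hx, hx2⟩ := hK.exists_sSup_image_eq hKne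
      (f := fun x => (inner ℝ u x : ℝ)) (by fun_prop)
    exact ⟨x, hx, hx2.symm⟩
  have hsph : (sphere (0 : E3) 1).Nonempty := NormedSpace.sphere_nonempty.2 zero_le_one
  obtain ⟨u0, hu0, hmin⟩ := (isCompact_sphere (0 : E3) 1).exists_isMinOn hsph hcont.continuousOn
  set ρ := h u0 with hρ
  have hρ1 : 1 < ρ := by
    obtain ⟨x, hx, hx2⟩ := hcon u0 (by simpa using hu0)
    exact lt_of_lt_of_le hx2 (hle u0 x hx)
  have hball : closedBall (0 : E3) ρ ⊆ K := by
    intro y hy
    by_contra hyK
    obtain ⟨f, s, hf1, hf2⟩ := geometric_hahn_banach_closed_point hc hK.isClosed hyK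
    set w : E3 := (InnerProductSpace.toDual ℝ E3).symm f with hw
    have hfw : ∀ x, f x = (inner ℝ w x : ℝ) := by
      intro x
      rw [hw, InnerProductSpace.toDual_symm_apply]
    have hw0 : w ≠ 0 := by
      intro h0
      obtain ⟨x, hx⟩ := hKne
      have h1 := hf1 x hx
      rw [hfw, h0, inner_zero_left] at h1
      rw [hfw, h0, inner_zero_left] at hf2
      linarith
    have hwn : 0 < ‖w‖ := norm_pos_iff.2 hw0
    obtain ⟨x, hx, hx2⟩ := hatt (‖w‖⁻¹ • w)
    have hu1 : ‖w‖⁻¹ • w ∈ sphere (0 : E3) 1 := by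
      simp [norm_smul, inv_mul_cancel₀ hwn.ne']
    have h3 : ρ ≤ h (‖w‖⁻¹ • w) := hmin hu1
    have h4 : (inner ℝ (‖w‖⁻¹ • w) x : ℝ) < inner ℝ (‖w‖⁻¹ • w) y := by
      rw [real_inner_smul_left, real_inner_smul_left]
      apply mul_lt_mul_of_pos_left _ (inv_pos.2 hwn)
      rw [← hfw, ← hfw]
      exact (hf1 x hx).trans hf2
    have h5 : (inner ℝ (‖w‖⁻¹ • w) y : ℝ) ≤ ρ := by
      refine (real_inner_le_norm _ _).trans ?_
      have : ‖(‖w‖⁻¹ • w : E3)‖ = 1 := by simpa using hu1
      rw [this, one_mul]
      simpa using hy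
    linarith
  have hmom := moment_ge hK (by linarith : (0:ℝ) ≤ ρ) hball
  have hsum : ∫ x in K, ‖x‖ ^ 2 = 3 / 5 * (volume K).toReal := by
    have h1 : ∀ x : E3, ‖x‖ ^ 2 = ∑ i : Fin 3, (inner ℝ (EuclideanSpace.single i (1:ℝ)) x : ℝ) ^ 2 := by
      intro x
      rw [EuclideanSpace.norm_sq_eq]
      apply Finset.sum_congr rfl; intro i _
      rw [EuclideanSpace.inner_single_left]
      simp
    simp only [h1]
    rw [integral_finsetSum]
    · simp only [hiso]
      simp
      ring
    · intro i _
      apply ContinuousOn.integrableOn_compact hK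
      fun_prop
  rw [hsum] at hmom
  nlinarith [mul_pos hVpos (by nlinarith : (0:ℝ) < ρ ^ 2 - 1)]

end Pool.Agent.Lib.MP_a773b5_gt
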