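import Pool.Agent.Lib.MP_a773b5_gt.Chord1

set_option autoImplicit false

namespace Pool.Agent.Lib.MP_a773b5_gt

open MeasureTheory Set

private lemma os_poly_int (a b c d e L : ℝ) :
    ∫ r in (0:ℝ)..L, (a + b * r + c * r ^ 2 + d * r ^ 3 + e * r ^ 4) =
      a * L + b * L ^ 2 / 2 + c * L ^ 3 / 3 + d * L ^ 4 / 4 + e * L ^ 5 / 5 := by
  have h := intervalIntegral.integral_eq_sub_of_hasDerivAt (a := (0:ℝ)) (b := L)
    (f := fun r : ℝ => a * r + b * r ^ 2 / 2 + c * r ^ 3 / 3 + d * r ^ 4 / 4 + e * r ^ 5 / 5)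
    (f' := fun r : ℝ => a + b * r + c * r ^ 2 + d * r ^ 3 + e * r ^ 4)
    (fun x _ => by
      have h1 : HasDerivAt (fun r : ℝ => a * r) (a * 1) x := (hasDerivAt_id x).const_mul a
      have h2 : HasDerivAt (fun r : ℝ => b * r ^ 2 / 2) (b * (2 * x ^ 1) / 2) x := by
        simpa using ((hasDerivAt_pow 2 x).const_mul b).div_const 2
      have h3 : HasDerivAt (fun r : ℝ => c * r ^ 3 / 3) (c * (3 * x ^ 2) / 3) x := by
        simpa using ((hasDerivAt_pow 3 x).const_mul c).div_const 3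
      have h4 : HasDerivAt (fun r : ℝ => d * r ^ 4 / 4) (d * (4 * x ^ 3) / 4) x := by
        simpa using ((hasDerivAt_pow 4 x).const_mul d).div_const 4
      have h5 : HasDerivAt (fun r : ℝ => e * r ^ 5 / 5) (e * (5 * x ^ 4) / 5) x := by
        simpa using ((hasDerivAt_pow 5 x).const_mul e).div_const 5
      have h6 := (((h1.add h2).add h3).add h4).add h5
      refine h6.congr_deriv ?_
      ring)
    (by apply Continuous.intervalIntegrable; fun_prop)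
  rw [h]
  ring

private lemma os_int_poly {L : ℝ} (a b c d e : ℝ) {f : ℝ → ℝ}
    (hf : ∀ r, f r = a + b * r + c * r ^ 2 + d * r ^ 3 + e * r ^ 4) :
    ∫ r in (0:ℝ)..L, f r =
      a * L + b * L ^ 2 / 2 + c * L ^ 3 / 3 + d * L ^ 4 / 4 + e * L ^ 5 / 5 := by
  rw [← os_poly_int]
  exact intervalIntegral.integral_congr fun r _ => hf r

/-- Comparison with a linear function of the same mass: `κ ∈ [1/2, 1]` is chosen with
`1 - κ + κ²/3 = m / (g0² L)` where `m = ∫ g²` (possible since `g0² L/3 ≤ m ≤ (7/12) g0² L`), and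
`c r = g0 (1 - κ r / L)`. Then `g - c` is concave and zero at `0`, so `g² - c²` changes sign once
from `+` to `-`, and `∫ ψ g² ≤ ∫ ψ c²` for every nondecreasing continuous `ψ`. -/
theorem exists_linear {L : ℝ} (hL : 0 < L) {g : ℝ → ℝ} (hg : ConcaveOn ℝ (Icc 0 L) g)
    (hgc : ContinuousOn g (Icc 0 L)) (hn : ∀ r ∈ Icc 0 L, 0 ≤ g r) (h0 : 0 < g 0)
    (hm : ∫ r in (0:ℝ)..L, g r ^ 2 ≤ 7 / 12 * (g 0 ^ 2 * L)) :
    ∃ κ : ℝ, 1 / 2 ≤ κ ∧ κ ≤ 1 ∧
      ∫ r in (0:ℝ)..L, g r ^ 2 = g 0 ^ 2 * L * (1 - κ + κ ^ 2 / 3) ∧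
      ∀ ψ : ℝ → ℝ, Continuous ψ → MonotoneOn ψ (Icc 0 L) →
        ∫ r in (0:ℝ)..L, ψ r * g r ^ 2 ≤
          ∫ r in (0:ℝ)..L, ψ r * (g 0 * (1 - κ * r / L)) ^ 2 := by
  have hLI : L ∈ Icc (0:ℝ) L := ⟨hL.le, le_refl L⟩
  have h0I : (0:ℝ) ∈ Icc (0:ℝ) L := ⟨le_refl 0, hL.le⟩
  set m : ℝ := ∫ r in (0:ℝ)..L, g r ^ 2 with hmdef
  have hlow : g 0 ^ 2 * L / 3 ≤ m := by
    have h1 := chord_mass hL.le hg hgc hn
    have h2 : 0 ≤ (L - 0) * (g 0 * g L + g L ^ 2) / 3 := by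
      have := hn L hLI
      have := h0.le
      have h3 : 0 ≤ L - 0 := by linarith
      positivity
    calc g 0 ^ 2 * L / 3 ≤ (L - 0) * (g 0 ^ 2 + g 0 * g L + g L ^ 2) / 3 := by linarith
      _ ≤ m := h1
  have hpos : 0 < g 0 ^ 2 * L := by positivity
  obtain ⟨κ, ⟨hκ1, hκ2⟩, hκ⟩ : m / (g 0 ^ 2 * L) ∈
      (fun κ : ℝ => 1 - κ + κ ^ 2 / 3) '' Icc (1 / 2 : ℝ) 1 := by
    have hc : ContinuousOn (fun κ : ℝ => 1 - κ + κ ^ 2 / 3) (Icc (1 / 2 : ℝ) 1) := by fun_prop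
    refine intermediate_value_Icc' (by norm_num) hc ⟨?_, ?_⟩
    · rw [le_div_iff₀ hpos]; norm_num; linarith
    · rw [div_le_iff₀ hpos]; norm_num; linarith
  have hκm : m = g 0 ^ 2 * L * (1 - κ + κ ^ 2 / 3) := by
    have : (1 - κ + κ ^ 2 / 3) = m / (g 0 ^ 2 * L) := hκ
    rw [this]; field_simp
  refine ⟨κ, hκ1, hκ2, hκm, fun ψ hψ hψm => ?_⟩
  set c : ℝ → ℝ := fun r => g 0 * (1 - κ * r / L) with hcdef
  have hcc : Continuous c := by
    simp only [hcdef]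
    fun_prop
  have hcn : ∀ r ∈ Icc 0 L, 0 ≤ c r := by
    intro r hr
    have h1 : κ * r / L ≤ 1 := by
      rw [div_le_one hL]
      nlinarith [hr.1, hr.2]
    have h2 : 0 ≤ 1 - κ * r / L := by linarith
    simp only [hcdef]
    exact mul_nonneg h0.le h2
  have hcint : ∫ r in (0:ℝ)..L, c r ^ 2 = m := by
    rw [os_int_poly (g 0 ^ 2) (-2 * g 0 ^ 2 * κ / L) (g 0 ^ 2 * κ ^ 2 / L ^ 2) 0 0
      (fun r => by simp only [hcdef]; field_simp; ring), hκm]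
    field_simp
    ring
  -- the sign change
  have hS : IsCompact {r ∈ Icc (0:ℝ) L | c r ≤ g r} := by
    have hcl : IsClosed {r ∈ Icc (0:ℝ) L | c r ≤ g r} :=
      IsClosed.isClosed_le isClosed_Icc hcc.continuousOn hgc
    exact (isCompact_Icc (a := (0:ℝ)) (b := L)).of_isClosed_subset hcl (fun r hr => hr.1)
  have hSne : {r ∈ Icc (0:ℝ) L | c r ≤ g r}.Nonempty := by
    refine ⟨0, h0I, ?_⟩
    simp [hcdef]
  obtain ⟨r0, ⟨hr0I, hr0⟩, hr0max⟩ := hS.exists_isGreatest hSne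
  have hleft : ∀ r ∈ Icc (0:ℝ) r0, c r ≤ g r := by
    intro r hr
    rcases hr0I.1.eq_or_lt with h | h
    · have : r = 0 := le_antisymm (by linarith [hr.2]) hr.1
      subst this
      simp [hcdef]
    · have hs0 : 0 ≤ r / r0 := div_nonneg hr.1 h.le
      have hs1 : r / r0 ≤ 1 := (div_le_one h).2 hr.2
      have hcon := hg.2 h0I hr0I (sub_nonneg.2 hs1) hs0 (sub_add_cancel 1 (r / r0))
      simp only [smul_eq_mul, mul_zero, zero_add] at hcon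
      rw [div_mul_cancel₀ _ h.ne'] at hcon
      have hlin : c r = (1 - r / r0) * g 0 + r / r0 * c r0 := by
        simp only [hcdef]
        field_simp
        ring
      rw [hlin]
      have : r / r0 * c r0 ≤ r / r0 * g r0 := mul_le_mul_of_nonneg_left hr0 hs0
      linarith
  have hright : ∀ r ∈ Icc (0:ℝ) L, r0 < r → g r ≤ c r := by
    intro r hr hlt
    by_contra hcon
    push Not at hcon
    have := hr0max ⟨hr, hcon.le⟩
    linarith
  have hpt : ∀ r ∈ Icc (0:ℝ) L, (ψ r - ψ r0) * (g r ^ 2 - c r ^ 2) ≤ 0 := by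
    intro r hr
    rcases le_or_gt r r0 with h | h
    · have h1 : ψ r ≤ ψ r0 := hψm hr hr0I h
      have h2 : c r ≤ g r := hleft r ⟨hr.1, h⟩
      have h3 : c r ^ 2 ≤ g r ^ 2 := pow_le_pow_left₀ (hcn r hr) h2 2
      exact mul_nonpos_of_nonpos_of_nonneg (by linarith) (by linarith)
    · have h1 : ψ r0 ≤ ψ r := hψm hr0I hr h.le
      have h2 : g r ≤ c r := hright r hr h
      have h3 : g r ^ 2 ≤ c r ^ 2 := pow_le_pow_left₀ (hn r hr) h2 2
      exact mul_nonpos_of_nonneg_of_nonpos (by linarith) (by linarith)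
  have huI : uIcc (0:ℝ) L = Icc 0 L := uIcc_of_le hL.le
  have hi1 : IntervalIntegrable (fun r => ψ r * g r ^ 2) volume 0 L := by
    apply ContinuousOn.intervalIntegrable
    rw [huI]
    exact hψ.continuousOn.mul (hgc.pow 2)
  have hi2 : IntervalIntegrable (fun r => ψ r * c r ^ 2) volume 0 L := by
    apply Continuous.intervalIntegrable
    fun_prop
  have hi3 : IntervalIntegrable (fun r => g r ^ 2) volume 0 L := by
    apply ContinuousOn.intervalIntegrable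
    rw [huI]
    exact hgc.pow 2
  have hi4 : IntervalIntegrable (fun r => c r ^ 2) volume 0 L := by
    apply Continuous.intervalIntegrable
    fun_prop
  have hint : ∫ r in (0:ℝ)..L, (ψ r - ψ r0) * (g r ^ 2 - c r ^ 2) ≤ 0 := by
    have := intervalIntegral.integral_nonneg (μ := volume) (a := (0:ℝ)) (b := L)
      (f := fun r => -((ψ r - ψ r0) * (g r ^ 2 - c r ^ 2))) hL.le
      (fun r hr => by have := hpt r hr; linarith)
    rw [intervalIntegral.integral_neg] at this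
    linarith
  have heq : ∫ r in (0:ℝ)..L, (ψ r - ψ r0) * (g r ^ 2 - c r ^ 2) =
      (∫ r in (0:ℝ)..L, ψ r * g r ^ 2) - (∫ r in (0:ℝ)..L, ψ r * c r ^ 2) -
        ψ r0 * ((∫ r in (0:ℝ)..L, g r ^ 2) - ∫ r in (0:ℝ)..L, c r ^ 2) := by
    rw [← intervalIntegral.integral_sub hi1 hi2, ← intervalIntegral.integral_sub hi3 hi4,
      ← intervalIntegral.integral_const_mul, ← intervalIntegral.integral_sub (hi1.sub hi2)
        ((hi3.sub hi4).const_mul _)]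
    exact intervalIntegral.integral_congr fun r _ => by ring
  rw [heq, hcint, ← hmdef] at hint
  have : (∫ r in (0:ℝ)..L, ψ r * g r ^ 2) ≤ ∫ r in (0:ℝ)..L, ψ r * c r ^ 2 := by linarith
  exact this

/-- First and second moments, from `exists_linear`: for the linear function the moments are
`g0² L² (1/2 - 2κ/3 + κ²/4)` and `g0² L³ (1/3 - κ/2 + κ²/5)`, and both differences are nonpositive
multiples of `(1-κ)(1-2κ)`. -/
theorem oneside {L : ℝ} (hL : 0 < L) {g : ℝ → ℝ} (hg : ConcaveOn ℝ (Icc 0 L) g)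
    (hgc : ContinuousOn g (Icc 0 L)) (hn : ∀ r ∈ Icc 0 L, 0 ≤ g r) (h0 : 0 < g 0)
    (hm : ∫ r in (0:ℝ)..L, g r ^ 2 ≤ 7 / 12 * (g 0 ^ 2 * L)) :
    ∫ r in (0:ℝ)..L, r * g r ^ 2 ≤
        L * (7 / 12 * (∫ r in (0:ℝ)..L, g r ^ 2) - g 0 ^ 2 * L / 9) ∧
      ∫ r in (0:ℝ)..L, r ^ 2 * g r ^ 2 ≤
        L ^ 2 * (2 / 5 * (∫ r in (0:ℝ)..L, g r ^ 2) - g 0 ^ 2 * L / 10) := by
  obtain ⟨κ, hκ1, hκ2, hmeq, hψ⟩ := exists_linear hL hg hgc hn h0 hm
  have hk : (1 - κ) * (1 - 2 * κ) ≤ 0 :=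
    mul_nonpos_of_nonneg_of_nonpos (by linarith) (by linarith)
  rw [hmeq]
  constructor
  · refine (hψ (fun r => r) continuous_id (fun x _ y _ h => h)).trans ?_
    rw [os_int_poly 0 (g 0 ^ 2) (-2 * g 0 ^ 2 * κ / L) (g 0 ^ 2 * κ ^ 2 / L ^ 2) 0
      (fun r => by field_simp; ring)]
    have : L * (7 / 12 * (g 0 ^ 2 * L * (1 - κ + κ ^ 2 / 3)) - g 0 ^ 2 * L / 9) -
        (0 * L + g 0 ^ 2 * L ^ 2 / 2 + -2 * g 0 ^ 2 * κ / L * L ^ 3 / 3 +
          g 0 ^ 2 * κ ^ 2 / L ^ 2 * L ^ 4 / 4 + 0 * L ^ 5 / 5) =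
        g 0 ^ 2 * L ^ 2 / 36 * (-((1 - κ) * (1 - 2 * κ))) := by
      field_simp
      ring
    have h2 : 0 ≤ g 0 ^ 2 * L ^ 2 / 36 * (-((1 - κ) * (1 - 2 * κ))) :=
      mul_nonneg (by positivity) (by linarith)
    linarith
  · refine (hψ (fun r => r ^ 2) (by fun_prop)
      (fun x hx y _ h => pow_le_pow_left₀ hx.1 h 2)).trans ?_
    rw [os_int_poly 0 0 (g 0 ^ 2) (-2 * g 0 ^ 2 * κ / L) (g 0 ^ 2 * κ ^ 2 / L ^ 2)
      (fun r => by field_simp; ring)]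
    have : L ^ 2 * (2 / 5 * (g 0 ^ 2 * L * (1 - κ + κ ^ 2 / 3)) - g 0 ^ 2 * L / 10) -
        (0 * L + 0 * L ^ 2 / 2 + g 0 ^ 2 * L ^ 3 / 3 + -2 * g 0 ^ 2 * κ / L * L ^ 4 / 4 +
          g 0 ^ 2 * κ ^ 2 / L ^ 2 * L ^ 5 / 5) =
        g 0 ^ 2 * L ^ 3 / 30 * (-((1 - κ) * (1 - 2 * κ))) := by
      field_simp
      ring
    have h2 : 0 ≤ g 0 ^ 2 * L ^ 3 / 30 * (-((1 - κ) * (1 - 2 * κ))) :=
      mul_nonneg (by positivity) (by linarith)
    linarith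

/-- Trivial lower bound of the first moment (`g` is above the cone `g 0 (1 - r/L)`). -/
theorem oneside_lower {L : ℝ} (hL : 0 < L) {g : ℝ → ℝ} (hg : ConcaveOn ℝ (Icc 0 L) g)
    (hgc : ContinuousOn g (Icc 0 L)) (hn : ∀ r ∈ Icc 0 L, 0 ≤ g r) :
    g 0 ^ 2 * L ^ 2 / 12 ≤ ∫ r in (0:ℝ)..L, r * g r ^ 2 := by
  have hLI : L ∈ Icc (0:ℝ) L := ⟨hL.le, le_refl L⟩
  have h0I : (0:ℝ) ∈ Icc (0:ℝ) L := ⟨le_refl 0, hL.le⟩
  have h1 : ∫ r in (0:ℝ)..L, r * (g 0 * (1 - r / L)) ^ 2 = g 0 ^ 2 * L ^ 2 / 12 := by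
    rw [os_int_poly 0 (g 0 ^ 2) (-2 * g 0 ^ 2 / L) (g 0 ^ 2 / L ^ 2) 0
      (fun r => by field_simp; ring)]
    field_simp
    ring
  rw [← h1]
  apply intervalIntegral.integral_mono_on hL.le
  · apply Continuous.intervalIntegrable
    fun_prop
  · apply ContinuousOn.intervalIntegrable
    rw [uIcc_of_le hL.le]
    exact continuousOn_id.mul (hgc.pow 2)
  · intro r hr
    have hs0 : 0 ≤ r / L := div_nonneg hr.1 hL.le
    have hs1 : r / L ≤ 1 := (div_le_one hL).2 hr.2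
    have hcon := hg.2 h0I hLI (sub_nonneg.2 hs1) hs0 (sub_add_cancel 1 (r / L))
    simp only [smul_eq_mul, mul_zero, zero_add] at hcon
    rw [div_mul_cancel₀ _ hL.ne'] at hcon
    have h2 : g 0 * (1 - r / L) ≤ g r := by
      have := mul_nonneg hs0 (hn L hLI)
      linarith
    have h3 : 0 ≤ g 0 * (1 - r / L) := mul_nonneg (hn 0 h0I) (by linarith)
    exact mul_le_mul_of_nonneg_left (pow_le_pow_left₀ h3 h2 2) hr.1

end Pool.Agent.Lib.MP_a773b5_gt
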