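import Pool.Agent.Lib.MP_a773b5_gt.SDefs

set_option autoImplicit false

namespace Pool.Agent.Lib.MP_a773b5_gt

open MeasureTheory Set
open scoped Pointwise

private theorem sapprox_lf_cont (b : P3) : Continuous (lf b) := by
  unfold lf
  fun_prop

private theorem sapprox_lf_smul (b : P3) (t : ℝ) (p : P3) : lf b (t • p) = t * lf b p := by
  simp only [lf, Prod.smul_fst, Prod.smul_snd, smul_eq_mul]
  ring

private theorem sapprox_lf_of (f : P3 →L[ℝ] ℝ) (u : ℝ) (p : P3) :
    lf (f (1, 0, 0) / u, f (0, 1, 0) / u, f (0, 0, 1) / u) p = f p / u := by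
  have h1 : p = p.1 • ((1, 0, 0) : P3) + p.2.1 • ((0, 1, 0) : P3) + p.2.2 • ((0, 0, 1) : P3) := by
    ext <;> simp
  have h2 : f p = p.1 * f (1, 0, 0) + p.2.1 * f (0, 1, 0) + p.2.2 * f (0, 0, 1) := by
    conv_lhs => rw [h1]
    simp only [map_add, map_smul, smul_eq_mul]
  rw [h2]
  simp only [lf]
  ring

private theorem sapprox_sep {K : Set P3} (hK : IsCompact K) (hc : Convex ℝ K)
    (h0 : (0 : P3) ∈ K) (hs : ∀ x ∈ K, -x ∈ K) {y : P3} (hy : y ∉ K) :
    ∃ b : P3, (∀ p ∈ K, |lf b p| ≤ 1) ∧ 1 < lf b y := by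
  obtain ⟨f, u, h1, h2⟩ := geometric_hahn_banach_closed_point hc hK.isClosed hy
  have hu : 0 < u := by simpa using h1 0 h0
  refine ⟨(f (1, 0, 0) / u, f (0, 1, 0) / u, f (0, 0, 1) / u), ?_, ?_⟩
  · intro p hp
    rw [sapprox_lf_of, abs_le]
    have h3 := h1 p hp
    have h4 := h1 (-p) (hs p hp)
    rw [map_neg] at h4
    constructor
    · rw [le_div_iff₀ hu]
      linarith
    · rw [div_le_iff₀ hu]
      linarith
  · rw [sapprox_lf_of, lt_div_iff₀ hu]
    linarith

private theorem sapprox_seg {L : Set P3} (hL : IsClosed L) (h0 : (0 : P3) ∈ interior L) {p : P3}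
    (hp : p ∉ L) : ∃ t : ℝ, 0 ≤ t ∧ t ≤ 1 ∧ t • p ∈ frontier L := by
  by_contra hne
  push Not at hne
  have hseg : ∀ q ∈ segment ℝ (0 : P3) p, ∃ t : ℝ, 0 ≤ t ∧ t ≤ 1 ∧ t • p = q := by
    rintro q ⟨a, b, ha, hb, hab, rfl⟩
    exact ⟨b, hb, by linarith, by simp⟩
  have h1 := (convex_segment (𝕜 := ℝ) (0 : P3) p).isPreconnected (interior L) Lᶜ isOpen_interior
    hL.isOpen_compl ?_ ⟨0, left_mem_segment ℝ _ _, h0⟩ ⟨p, right_mem_segment ℝ _ _, hp⟩
  · obtain ⟨q, -, hq1, hq2⟩ := h1
    exact hq2 (interior_subset hq1)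
  · intro q hq
    by_contra hq2
    rw [mem_union, not_or, mem_compl_iff, not_not] at hq2
    obtain ⟨t, ht0, ht1, rfl⟩ := hseg q hq
    refine hne t ht0 ht1 ?_
    rw [hL.frontier_eq]
    exact ⟨hq2.2, hq2.1⟩

/-- Outer approximation of a symmetric convex body by symmetric polytopes. Let `δ > 0` be small and
`S` the compact set of the points of `(1+δ)² K` outside the interior of `(1+δ) K`. Each point of `S`
is not in `K` (as `0` is an interior point), so it is strictly separated from `K` by a form `lf b`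
with `lf b ≤ 1` on `K` (`geometric_hahn_banach_closed_point`; `|lf b| ≤ 1` on `K` by symmetry);
finitely many of the open sets `{lf b > 1}` cover `S`. For these forms, `SP a` is convex, contains `0`
and misses `S`, so it lies in `(1+δ) K`. -/
theorem exists_polytope {K : Set P3} (hK : IsCompact K) (hc : Convex ℝ K)
    (hi : (interior K).Nonempty) (hs : ∀ x ∈ K, -x ∈ K) {δ : ℝ} (hδ : 0 < δ) :
    ∃ (n : ℕ) (a : Fin (n + 1) → P3), K ⊆ SP a ∧ SP a ⊆ (1 + δ) • K := by
  obtain ⟨x₀, hx₀⟩ := hi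
  have hsi : -x₀ ∈ interior K := by
    have h1 : -K = K := by
      ext x
      rw [Set.mem_neg]
      exact ⟨fun h => by simpa using hs _ h, fun h => hs _ h⟩
    have h2 : interior (-K) = -interior K := by
      have := (Homeomorph.neg P3).preimage_interior K
      exact this.symm
    rw [← h1, h2, Set.neg_mem_neg]
    exact hx₀
  have h0i : (0 : P3) ∈ interior K := by
    have h1 := hc.interior hx₀ hsi (a := 1 / 2) (b := 1 / 2) (by norm_num) (by norm_num)
      (by norm_num)
    have h2 : (1 / 2 : ℝ) • x₀ + (1 / 2 : ℝ) • (-x₀) = 0 := by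
      rw [smul_neg, add_neg_cancel]
    rwa [h2] at h1
  have h0K : (0 : P3) ∈ K := interior_subset h0i
  have hhom : (AffineMap.homothety (0 : P3) (1 + δ) '' K) = (1 + δ) • K := by
    ext x
    simp only [Set.mem_image, Set.mem_smul_set, AffineMap.homothety_apply, vsub_eq_sub, sub_zero,
      vadd_eq_add, add_zero]
  have hKL : K ⊆ interior ((1 + δ) • K) := by
    rw [← hhom]
    exact hc.subset_interior_image_homothety_of_one_lt h0i _ (by linarith)
  have hL : IsCompact ((1 + δ) • K) := hK.smul _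
  have hF : IsCompact (frontier ((1 + δ) • K)) :=
    hL.of_isClosed_subset isClosed_frontier hL.isClosed.frontier_subset
  have hcov : frontier ((1 + δ) • K) ⊆
      ⋃ b ∈ {b : P3 | ∀ p ∈ K, |lf b p| ≤ 1}, {q : P3 | 1 < lf b q} := by
    intro y hy
    have hyK : y ∉ K := fun h => by
      rw [hL.isClosed.frontier_eq] at hy
      exact hy.2 (hKL h)
    obtain ⟨b, hb1, hb2⟩ := sapprox_sep hK hc h0K hs hyK
    exact Set.mem_biUnion (show b ∈ {b : P3 | ∀ p ∈ K, |lf b p| ≤ 1} from hb1) hb2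
  obtain ⟨B, hB1, hB2, hB3⟩ := hF.elim_finite_subcover_image
    (fun b _ => isOpen_lt continuous_const (sapprox_lf_cont b)) hcov
  have hT : (insert (0 : P3) B).Finite := hB2.insert 0
  obtain ⟨n, hn⟩ : ∃ n, hT.toFinset.card = n + 1 := by
    refine ⟨hT.toFinset.card - 1, ?_⟩
    have : 0 < hT.toFinset.card := Finset.card_pos.2 ⟨0, by simp⟩
    omega
  let e := hT.toFinset.equivFinOfCardEq hn
  refine ⟨n, fun i => ((e.symm i : hT.toFinset) : P3), ?_, ?_⟩
  · intro p hp i
    have h1 : ((e.symm i : hT.toFinset) : P3) ∈ insert (0 : P3) B := by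
      have := (e.symm i).2
      simpa using this
    show |lf ((e.symm i : hT.toFinset) : P3) p| ≤ 1
    rcases h1 with h1 | h1
    · rw [h1]
      simp [lf]
    · exact hB1 h1 p hp
  · intro p hp
    by_contra hpL
    obtain ⟨t, ht0, ht1, ht2⟩ := sapprox_seg hL.isClosed (hKL h0K) hpL
    obtain ⟨b, hb1, hb2⟩ := Set.mem_iUnion₂.1 (hB3 ht2)
    have hbT : b ∈ hT.toFinset := by
      rw [Set.Finite.mem_toFinset]
      exact Set.mem_insert_of_mem _ hb1
    have h1 := hp (e ⟨b, hbT⟩)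
    simp only [Equiv.symm_apply_apply] at h1
    have h2 : 1 < lf b (t • p) := hb2
    rw [sapprox_lf_smul] at h2
    have h3 := abs_le.1 h1
    nlinarith [h3.1, h3.2]

end Pool.Agent.Lib.MP_a773b5_gt
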