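import Pool.Agent.Lib.MP_a773b5_gt.TetVol

set_option autoImplicit false

namespace Pool.Agent.Lib.MP_a773b5_gt

open MeasureTheory Set

private theorem sclosedA_hull (v : Fin 4 → E3) (x : E3) :
    x ∈ convexHull ℝ (range v) ↔ ∃ w : stdSimplex ℝ (Fin 4), ∑ i, (w : Fin 4 → ℝ) i • v i = x := by
  constructor
  · intro hx
    have hc : Convex ℝ {x : E3 | ∃ w : stdSimplex ℝ (Fin 4), ∑ i, (w : Fin 4 → ℝ) i • v i = x} := by
      rintro _ ⟨w, rfl⟩ _ ⟨w', rfl⟩ s t hs ht hst
      refine ⟨⟨s • (w : Fin 4 → ℝ) + t • (w' : Fin 4 → ℝ),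
        convex_stdSimplex ℝ (Fin 4) w.2 w'.2 hs ht hst⟩, ?_⟩
      change ∑ i, (s * (w : Fin 4 → ℝ) i + t * (w' : Fin 4 → ℝ) i) • v i = _
      simp only [add_smul, mul_smul, Finset.sum_add_distrib, Finset.smul_sum]
    have hr : range v ⊆ {x : E3 | ∃ w : stdSimplex ℝ (Fin 4), ∑ i, (w : Fin 4 → ℝ) i • v i = x} := by
      rintro _ ⟨i, rfl⟩
      refine ⟨⟨Pi.single i 1, single_mem_stdSimplex ℝ i⟩, ?_⟩
      change ∑ j, (Pi.single i (1 : ℝ) : Fin 4 → ℝ) j • v j = _
      simp [Pi.single_apply]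
    exact convexHull_min hr hc hx
  · rintro ⟨w, rfl⟩
    exact (convex_convexHull ℝ (range v)).sum_mem (fun i _ => w.2.1 i) w.2.2
      (fun i _ => subset_convexHull ℝ _ (mem_range_self i))

/-- The set of the `v` with `x ∈ convexHull (range v)` is closed. -/
theorem isClosed_hull (x : E3) : IsClosed {v : Fin 4 → E3 | x ∈ convexHull ℝ (range v)} := by
  have : CompactSpace (stdSimplex ℝ (Fin 4)) :=
    isCompact_iff_compactSpace.1 (isCompact_stdSimplex ℝ (Fin 4))
  have he : {v : Fin 4 → E3 | x ∈ convexHull ℝ (range v)} =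
      Prod.snd '' {p : stdSimplex ℝ (Fin 4) × (Fin 4 → E3) |
        ∑ i, (p.1 : Fin 4 → ℝ) i • p.2 i = x} := by
    ext v
    rw [mem_ofPred_eq, sclosedA_hull]
    constructor
    · rintro ⟨w, hw⟩
      exact ⟨(w, v), hw, rfl⟩
    · rintro ⟨⟨w, v'⟩, hw, rfl⟩
      exact ⟨w, hw⟩
  rw [he]
  refine isClosedMap_snd_of_compactSpace _ (isClosed_eq ?_ continuous_const)
  refine continuous_finsetSum _ fun i _ => ?_
  have h1 : Continuous fun p : stdSimplex ℝ (Fin 4) × (Fin 4 → E3) => (p.1 : Fin 4 → ℝ) i :=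
    (continuous_apply i).comp (continuous_subtype_val.comp continuous_fst)
  have h2 : Continuous fun p : stdSimplex ℝ (Fin 4) × (Fin 4 → E3) => p.2 i :=
    (continuous_apply i).comp continuous_snd
  exact h1.smul h2

/-- The volume of a tetrahedron is a continuous function of its vertices (`volume_tet`). -/
theorem continuous_tetVol :
    Continuous (fun v : Fin 4 → E3 => (volume (convexHull ℝ (range v))).toReal) := by
  have he : (fun v : Fin 4 → E3 => (volume (convexHull ℝ (range v))).toReal) =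
      fun v : Fin 4 → E3 => |(Matrix.of (fun i j : Fin 3 => v i.succ j - v 0 j)).det| / 6 := by
    funext v
    rw [volume_tet, ENNReal.toReal_ofReal (by positivity)]
  rw [he]
  refine Continuous.div_const (Continuous.abs (Continuous.matrix_det ?_)) 6
  refine continuous_matrix fun i j => ?_
  simp only [Matrix.of_apply]
  fun_prop

end Pool.Agent.Lib.MP_a773b5_gt
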