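import Pool.Agent.Lib.MP_a773b5_gt.SBound
import Pool.Agent.Lib.MP_a773b5_gt.SClosedA

set_option autoImplicit false

namespace Pool.Agent.Lib.MP_a773b5_gt

open MeasureTheory Set Filter Topology

private theorem scl_volume_ne_top (v : Fin 4 → E3) : volume (convexHull ℝ (range v)) ≠ ⊤ := by
  rw [volume_tet]
  exact ENNReal.ofReal_ne_top

private theorem scl_indep (v : Fin 4 → E3) (h : volume (convexHull ℝ (range v)) ≠ 0) :
    AffineIndependent ℝ v := by
  have hfin : Module.finrank ℝ E3 = 3 := by
    simp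
  have hcard : Fintype.card (Fin 4) = 3 + 1 := by simp
  rw [affineIndependent_iff_finrank_vectorSpan_eq ℝ v hcard]
  by_cases hs : affineSpan ℝ (range v) = ⊤
  · rw [← direction_affineSpan, hs, AffineSubspace.direction_top, finrank_top, hfin]
  · exfalso
    apply h
    have h1 := Measure.addHaar_affineSubspace (volume : Measure E3) (affineSpan ℝ (range v)) hs
    exact measure_mono_null (convexHull_subset_affineSpan (range v)) h1

/-- a small tetrahedron in `K`. -/
private theorem scl_small {K : Set E3} (hi : (interior K).Nonempty) :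
    ∃ x : Fin 4 → E3, (∀ k, x k ∈ K) ∧ ∃ m : ℝ, 0 < m ∧
      ENNReal.ofReal m ≤ volume (convexHull ℝ (range x)) := by
  obtain ⟨p, hp⟩ := hi
  obtain ⟨r, hr, hball⟩ := Metric.isOpen_iff.1 isOpen_interior p hp
  have hb : Metric.ball p r ⊆ K := hball.trans interior_subset
  set x : Fin 4 → E3 := Fin.cons p (fun i : Fin 3 => p + (r / 2) • EuclideanSpace.single i (1:ℝ))
    with hx
  refine ⟨x, ?_, ?_⟩
  · intro k
    refine Fin.cases ?_ (fun i => ?_) k
    · exact hb (Metric.mem_ball_self hr)
    · apply hb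
      have : x i.succ = p + (r / 2) • EuclideanSpace.single i (1:ℝ) := by simp [hx]
      rw [this, Metric.mem_ball, dist_eq_norm, add_sub_cancel_left, norm_smul]
      rw [EuclideanSpace.norm_single, Real.norm_eq_abs, abs_of_pos (by positivity)]
      simp
      exact hr
  · refine ⟨(r / 2) ^ 3 / 6, by positivity, ?_⟩
    rw [volume_tet]
    apply ENNReal.ofReal_le_ofReal
    have hdet : (Matrix.of (fun i j : Fin 3 => x i.succ j - x 0 j)).det = (r / 2) ^ 3 := by
      have : (Matrix.of (fun i j : Fin 3 => x i.succ j - x 0 j)) =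
          Matrix.diagonal (fun _ : Fin 3 => r / 2) := by
        ext i j
        simp only [hx, Matrix.of_apply, Fin.cons_succ, Fin.cons_zero, PiLp.add_apply,
          PiLp.smul_apply, add_sub_cancel_left, smul_eq_mul, Matrix.diagonal_apply]
        by_cases hij : i = j
        · subst hij
          simp
        · rw [if_neg hij]
          simp [hij, Ne.symm hij]
      rw [this, Matrix.det_diagonal, Finset.prod_const, Finset.card_univ, Fintype.card_fin]
    rw [hdet, abs_of_pos (by positivity)]

/-- Limits of circumscribed tetrahedra: the sets `{v | K ⊆ hull, |hull| ≤ (C+ε) |K|}` are nonempty,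
closed, decreasing and bounded (a ball in `K` contains a tetrahedron `x`; `tet_bounded`), so they
have a common point. -/
theorem tetRatio_closed {K : Set E3} (hK : IsCompact K) (hi : (interior K).Nonempty) {C : ℝ}
    (hC : 0 ≤ C) (h : ∀ ε > 0, TetRatio K (C + ε)) : TetRatio K C := by
  have hKt : volume K ≠ ⊤ := hK.measure_ne_top
  set V : ℝ := (volume K).toReal with hV
  have hVn : 0 ≤ V := ENNReal.toReal_nonneg
  have hKV : volume K = ENNReal.ofReal V := (ENNReal.ofReal_toReal hKt).symm
  have hK0 : volume K ≠ 0 := (Measure.measure_pos_of_nonempty_interior _ hi).ne'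
  obtain ⟨x, hxK, m, hm, hxm⟩ := scl_small hi
  have h1 : ∀ n : ℕ, ∃ v : Fin 4 → E3, K ⊆ convexHull ℝ (range v) ∧
      (volume (convexHull ℝ (range v))).toReal ≤ (C + 1 / ((n : ℝ) + 1)) * V := by
    intro n
    have hn : (0 : ℝ) < 1 / ((n : ℝ) + 1) := by positivity
    obtain ⟨v, -, hv1, hv2⟩ := h _ hn
    refine ⟨v, hv1, ?_⟩
    rw [hKV, ← ENNReal.ofReal_mul (by positivity)] at hv2
    exact ENNReal.toReal_le_of_le_ofReal (by positivity) hv2
  choose v hvK hvV using h1
  set R : ℝ := ∑ k, ∑ j, |x k j| with hR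
  have hRx : ∀ k j, |x k j| ≤ R := by
    intro k j
    have h2 : |x k j| ≤ ∑ j, |x k j| :=
      Finset.single_le_sum (f := fun j => |x k j|) (fun i _ => abs_nonneg _) (Finset.mem_univ j)
    have h3 : ∑ j, |x k j| ≤ R :=
      Finset.single_le_sum (f := fun k => ∑ j, |x k j|)
        (fun i _ => Finset.sum_nonneg fun j _ => abs_nonneg _) (Finset.mem_univ k)
    exact h2.trans h3
  set Bd : ℝ := 24 * R * (((C + 1) * V) / m) with hBd
  have hb : ∀ n i j, |v n i j| ≤ Bd := by
    intro n
    apply tet_bounded hm x hxm hRx (v n)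
    · rw [← ENNReal.ofReal_toReal (scl_volume_ne_top (v n))]
      apply ENNReal.ofReal_le_ofReal
      refine (hvV n).trans ?_
      have h2 : 1 / ((n : ℝ) + 1) ≤ 1 := by
        rw [div_le_one (by positivity)]
        linarith [Nat.cast_nonneg (α := ℝ) n]
      nlinarith
    · intro k
      exact hvK n (hxK k)
  have hB0 : 0 ≤ Bd := (abs_nonneg _).trans (hb 0 0 0)
  have hbd : Bornology.IsBounded (Metric.closedBall (0 : Fin 4 → E3) (3 * Bd)) :=
    Metric.isBounded_closedBall
  have hmem : ∀ n, v n ∈ Metric.closedBall (0 : Fin 4 → E3) (3 * Bd) := by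
    intro n
    rw [mem_closedBall_zero_iff, pi_norm_le_iff_of_nonneg (by positivity)]
    intro i
    rw [EuclideanSpace.norm_eq]
    apply Real.sqrt_le_iff.2
    refine ⟨by positivity, ?_⟩
    rw [Fin.sum_univ_three]
    simp only [Real.norm_eq_abs]
    have k0 := hb n i 0
    have k1 := hb n i 1
    have k2 := hb n i 2
    have a0 := abs_nonneg (v n i 0)
    have a1 := abs_nonneg (v n i 1)
    have a2 := abs_nonneg (v n i 2)
    nlinarith
  obtain ⟨w, -, φ, hφ, hlim⟩ := tendsto_subseq_of_bounded hbd hmem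
  refine ⟨w, ?_, ?_, ?_⟩
  · apply scl_indep
    intro h0
    have hKw : K ⊆ convexHull ℝ (range w) := by
      intro y hy
      have hcl := isClosed_hull y
      exact hcl.mem_of_tendsto hlim (Eventually.of_forall fun n => hvK (φ n) hy)
    exact hK0 (measure_mono_null hKw h0)
  · intro y hy
    have hcl := isClosed_hull y
    exact hcl.mem_of_tendsto hlim (Eventually.of_forall fun n => hvK (φ n) hy)
  · have h2 : Tendsto (fun n => (volume (convexHull ℝ (range (v (φ n))))).toReal) atTop
        (𝓝 (volume (convexHull ℝ (range w))).toReal) :=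
      (continuous_tetVol.tendsto w).comp hlim
    have h3 : Tendsto (fun n : ℕ => (C + 1 / ((φ n : ℝ) + 1)) * V) atTop (𝓝 ((C + 0) * V)) := by
      have h4 : Tendsto (fun n : ℕ => 1 / ((n : ℝ) + 1)) atTop (𝓝 0) :=
        tendsto_one_div_add_atTop_nhds_zero_nat
      have h5 : Tendsto (fun n : ℕ => 1 / ((φ n : ℝ) + 1)) atTop (𝓝 0) :=
        h4.comp hφ.tendsto_atTop
      exact (tendsto_const_nhds.add h5).mul tendsto_const_nhds
    have h4 : (volume (convexHull ℝ (range w))).toReal ≤ (C + 0) * V :=
      le_of_tendsto_of_tendsto' h2 h3 fun n => hvV (φ n)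
    rw [add_zero] at h4
    rw [hKV, ← ENNReal.ofReal_mul hC]
    rw [← ENNReal.ofReal_toReal (scl_volume_ne_top w)]
    exact ENNReal.ofReal_le_ofReal h4

end Pool.Agent.Lib.MP_a773b5_gt
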