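import Pool.Agent.Lib.MP_a773b5_gt.SPoly
import Pool.Agent.Lib.MP_a773b5_gt.SApprox
import Pool.Agent.Lib.MP_a773b5_gt.SClosed

set_option autoImplicit false

namespace Pool.Agent.Lib.MP_a773b5_gt

open MeasureTheory Set
open scoped ENNReal

private theorem sb_haar : (volume : Measure P3).IsAddHaarMeasure :=
  Measure.prod.instIsAddHaarMeasure (volume : Measure ℝ) (volume : Measure (ℝ × ℝ))

attribute [local instance] sb_haar

/-- Symmetric convex bodies in coordinates, up to `ε` (`exists_polytope`, `hasTet_SP`;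
`|SP a| ≤ (1+δ)³ |K|`). -/
theorem tetRatio_sym_eps {K : Set P3} (hK : IsCompact K) (hc : Convex ℝ K)
    (hi : (interior K).Nonempty) (hs : ∀ x ∈ K, -x ∈ K) {ε : ℝ} (hε : 0 < ε) :
    TetRatio K (9 / 2 + ε) := by
  set δ : ℝ := min 1 (ε / 32) with hδdef
  have hδ : 0 < δ := lt_min one_pos (by positivity)
  have hδ1 : δ ≤ 1 := min_le_left _ _
  have hδ2 : δ ≤ ε / 32 := min_le_right _ _
  obtain ⟨n, a, h1, h2⟩ := exists_polytope hK hc hi hs hδ
  have hb : Bornology.IsBounded (SP a) := (hK.smul (1 + δ)).isBounded.subset h2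
  obtain ⟨v, hv1, hv2, hv3⟩ := hasTet_SP a hb
  refine ⟨v, hv1, h1.trans hv2, hv3.trans ?_⟩
  have h3 : volume (SP a) ≤ ENNReal.ofReal ((1 + δ) ^ 3) * volume K := by
    refine (measure_mono h2).trans (le_of_eq ?_)
    have hfr : Module.finrank ℝ P3 = 3 := by simp [P3]
    rw [Measure.addHaar_smul, hfr, abs_of_nonneg (by positivity)]
  calc ENNReal.ofReal (9 / 2) * volume (SP a)
      ≤ ENNReal.ofReal (9 / 2) * (ENNReal.ofReal ((1 + δ) ^ 3) * volume K) := by gcongr
    _ = ENNReal.ofReal (9 / 2 * (1 + δ) ^ 3) * volume K := by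
        rw [← mul_assoc, ← ENNReal.ofReal_mul (by norm_num)]
    _ ≤ ENNReal.ofReal (9 / 2 + ε) * volume K := by
        gcongr
        nlinarith [mul_nonneg hδ.le hδ.le, mul_nonneg (mul_nonneg hδ.le hδ.le) hδ.le,
          mul_nonneg hδ.le (sub_nonneg.2 hδ1),
          mul_nonneg (mul_nonneg hδ.le hδ.le) (sub_nonneg.2 hδ1)]

/-- A linear isomorphism from Euclidean space to the coordinates. -/
theorem exists_lin : Nonempty (E3 ≃ₗ[ℝ] P3) := by
  refine ⟨LinearEquiv.ofFinrankEq _ _ ?_⟩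
  simp [P3, E3]

/-- **Symmetric convex bodies.** -/
theorem sym_bodies {K : Set E3} (hK : IsCompact K) (hc : Convex ℝ K)
    (hi : (interior K).Nonempty) (hs : ∀ x ∈ K, -x ∈ K) : TetRatio K (9 / 2) := by
  refine tetRatio_closed hK hi (by norm_num) fun ε hε => ?_
  obtain ⟨e⟩ := exists_lin
  have hec : Continuous e := (e : E3 →ₗ[ℝ] P3).continuous_of_finiteDimensional
  have hop : IsOpenMap e :=
    LinearMap.isOpenMap_of_finiteDimensional (e : E3 →ₗ[ℝ] P3) e.surjective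
  have h1 : TetRatio (e '' K) (9 / 2 + ε) := by
    refine tetRatio_sym_eps (hK.image hec) (hc.linear_image (e : E3 →ₗ[ℝ] P3)) ?_ ?_ hε
    · obtain ⟨p, hp⟩ := hi
      exact ⟨e p, hop.image_interior_subset K ⟨p, hp, rfl⟩⟩
    · rintro _ ⟨x, hx, rfl⟩
      exact ⟨-x, hs x hx, map_neg e x⟩
  exact tetRatio_of_image e.toAffineEquiv h1

end Pool.Agent.Lib.MP_a773b5_gt
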