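import Pool.Agent.Lib.MP_a773b5_gt.TetVol

set_option autoImplicit false

namespace Pool.Agent.Lib.MP_a773b5_gt

open MeasureTheory Set

private lemma sbound_hull (v : Fin 4 → E3) {y : E3} (hy : y ∈ convexHull ℝ (range v)) :
    ∃ w : Fin 4 → ℝ, (∀ i, 0 ≤ w i) ∧ ∑ i, w i = 1 ∧ ∑ i, w i • v i = y := by
  have hc : Convex ℝ {y : E3 | ∃ w : Fin 4 → ℝ, (∀ i, 0 ≤ w i) ∧ ∑ i, w i = 1 ∧
      ∑ i, w i • v i = y} := by
    rintro y1 ⟨w1, h1, h2, rfl⟩ y2 ⟨w2, h3, h4, rfl⟩ a b ha hb hab
    refine ⟨fun i => a * w1 i + b * w2 i, fun i => ?_, ?_, ?_⟩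
    · have := h1 i; have := h3 i; positivity
    · rw [Finset.sum_add_distrib, ← Finset.mul_sum, ← Finset.mul_sum, h2, h4]; linarith
    · rw [Finset.smul_sum, Finset.smul_sum, ← Finset.sum_add_distrib]
      apply Finset.sum_congr rfl
      intro i _
      rw [add_smul, mul_smul, mul_smul]
  have hs : range v ⊆ {y : E3 | ∃ w : Fin 4 → ℝ, (∀ i, 0 ≤ w i) ∧ ∑ i, w i = 1 ∧
      ∑ i, w i • v i = y} := by
    rintro _ ⟨i, rfl⟩
    refine ⟨fun j => if j = i then 1 else 0, fun j => ?_, by simp, by simp⟩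
    show (0:ℝ) ≤ if j = i then 1 else 0
    split_ifs <;> norm_num
  exact convexHull_min hs hc hy

/-- the matrix with rows `(1, x k)` -/
private noncomputable def sboundX (x : Fin 4 → E3) : Matrix (Fin 4) (Fin 4) ℝ :=
  Matrix.of fun k => ![1, x k 0, x k 1, x k 2]

private lemma sboundX_det (x : Fin 4 → E3) :
    (sboundX x).det = (Matrix.of (fun i j : Fin 3 => x i.succ j - x 0 j)).det := by
  rw [Matrix.det_succ_row_zero]
  simp only [Fin.sum_univ_succ, Matrix.det_fin_three, sboundX, Matrix.submatrix_apply,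
    Matrix.of_apply]
  simp [Fin.succAbove, Fin.lt_def]
  ring

private lemma sboundX_zero (x : Fin 4 → E3) (k : Fin 4) : sboundX x k 0 = 1 := rfl

private lemma sboundX_succ (x : Fin 4 → E3) (k : Fin 4) (j : Fin 3) :
    sboundX x k j.succ = x k j := by
  fin_cases j <;> rfl

/-- Algebra: if `x k = ∑ i, B k i • v i` (`k = 0..3`) with `B` stochastic, and the tetrahedron of
the `x k` has volume at least `m > 0` and that of the `v i` at most `M`, the `v i` are bounded.
(`4×4` matrices `X = B V` with rows `(1, x k)`, `(1, v i)`; `|det X| = 6 vol`, so `|det B| ≥ m / M`,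
`V = B⁻¹ X = adj(B) X / det B`, and the entries of the adjugate of a matrix with entries in `[0,1]`
are at most `6` in absolute value.) -/
theorem tet_bounded {m M R : ℝ} (hm : 0 < m) (x : Fin 4 → E3)
    (hx : ENNReal.ofReal m ≤ volume (convexHull ℝ (range x))) (hR : ∀ k j, |x k j| ≤ R)
    (v : Fin 4 → E3) (hv : volume (convexHull ℝ (range v)) ≤ ENNReal.ofReal M)
    (hxv : ∀ k, x k ∈ convexHull ℝ (range v)) : ∀ i j, |v i j| ≤ 24 * R * (M / m) := by
  have hwt : ∀ k, ∃ w : Fin 4 → ℝ, (∀ i, 0 ≤ w i) ∧ ∑ i, w i = 1 ∧ ∑ i, w i • v i = x k :=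
    fun k => sbound_hull v (hxv k)
  choose w hw0 hw1 hw2 using hwt
  set B : Matrix (Fin 4) (Fin 4) ℝ := Matrix.of fun k i => w k i with hB
  have hBle : ∀ k i, |B k i| ≤ 1 := by
    intro k i
    show |w k i| ≤ 1
    rw [abs_of_nonneg (hw0 k i), ← hw1 k]
    exact Finset.single_le_sum (f := fun i => w k i) (fun j _ => hw0 k j) (Finset.mem_univ i)
  have hXB : sboundX x = B * sboundX v := by
    ext k j
    rw [Matrix.mul_apply]
    refine Fin.cases ?_ (fun j => ?_) j
    · simp only [sboundX_zero, mul_one]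
      exact (hw1 k).symm
    · simp only [sboundX_succ]
      rw [← hw2 k]
      simp [hB]
  rw [volume_tet, ← sboundX_det] at hx hv
  have hx' : 6 * m ≤ |(sboundX x).det| := by
    have := (ENNReal.ofReal_le_ofReal_iff (by positivity)).1 hx
    linarith
  have hVpos : 0 < |(sboundX v).det| := by
    apply abs_pos.2
    intro h0
    rw [hXB, Matrix.det_mul, h0, mul_zero, abs_zero] at hx'
    linarith
  have hMpos : 0 < M := by
    by_contra hM
    push Not at hM
    rw [ENNReal.ofReal_of_nonpos hM] at hv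
    have : |(sboundX v).det| / 6 ≤ 0 := by
      rw [← ENNReal.ofReal_eq_zero]; exact le_antisymm hv bot_le
    linarith
  have hv' : |(sboundX v).det| ≤ 6 * M := by
    have := (ENNReal.ofReal_le_ofReal_iff hMpos.le).1 hv
    linarith
  have hadj : ∀ i k, |B.adjugate i k| ≤ 6 := by
    intro i k
    rw [Matrix.adjugate_fin_succ_eq_det_submatrix, abs_mul, abs_pow, abs_neg, abs_one, one_pow,
      one_mul]
    have := Matrix.det_le (A := B.submatrix k.succAbove i.succAbove)
      (abv := AbsoluteValue.abs (S := ℝ)) (x := 1) (by intro a b; exact hBle _ _)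
    simpa [Nat.factorial] using this
  have hR0 : 0 ≤ R := (abs_nonneg _).trans (hR 0 0)
  intro i j
  have hcol : B.det * v i j = ∑ k, B.adjugate i k * x k j := by
    have h1 : B.adjugate * sboundX x = B.det • sboundX v := by
      rw [hXB, ← Matrix.mul_assoc, Matrix.adjugate_mul, Matrix.smul_mul, Matrix.one_mul]
    have h2 := congrFun (congrFun h1 i) j.succ
    rw [Matrix.mul_apply, Matrix.smul_apply, sboundX_succ, smul_eq_mul] at h2
    rw [← h2]
    apply Finset.sum_congr rfl
    intro k _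
    rw [sboundX_succ]
  have hb : |B.det| * |v i j| ≤ 24 * R := by
    rw [← abs_mul, hcol]
    refine (Finset.abs_sum_le_sum_abs _ _).trans ?_
    have h3 : ∀ k ∈ (Finset.univ : Finset (Fin 4)), |B.adjugate i k * x k j| ≤ 6 * R := by
      intro k _
      rw [abs_mul]
      exact mul_le_mul (hadj i k) (hR k j) (abs_nonneg _) (by norm_num)
    refine (Finset.sum_le_card_nsmul _ _ _ h3).trans ?_
    simp only [Finset.card_univ, Fintype.card_fin, nsmul_eq_mul]
    norm_num
    linarith
  have hdet : |(sboundX x).det| = |B.det| * |(sboundX v).det| := by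
    rw [hXB, Matrix.det_mul, abs_mul]
  have hfin : 6 * m * |v i j| ≤ 24 * R * (6 * M) := by
    calc 6 * m * |v i j| ≤ |(sboundX x).det| * |v i j| :=
          mul_le_mul_of_nonneg_right hx' (abs_nonneg _)
      _ = (|B.det| * |v i j|) * |(sboundX v).det| := by rw [hdet]; ring
      _ ≤ (24 * R) * |(sboundX v).det| := mul_le_mul_of_nonneg_right hb (abs_nonneg _)
      _ ≤ 24 * R * (6 * M) := mul_le_mul_of_nonneg_left hv' (by positivity)
  have : 24 * R * (M / m) = (24 * R * M) / m := by ring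
  rw [this, le_div_iff₀ hm]
  linarith

end Pool.Agent.Lib.MP_a773b5_gt
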