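import Pool.Agent.Lib.MP_a773b5_gt.STau

set_option autoImplicit false

namespace Pool.Agent.Lib.MP_a773b5_gt

open MeasureTheory Set

variable {n : ℕ} {a : Fin (n + 1) → P3}

private theorem sc_haar : (volume : Measure P3).IsAddHaarMeasure :=
  Measure.prod.instIsAddHaarMeasure (volume : Measure ℝ) (volume : Measure (ℝ × ℝ))

attribute [local instance] sc_haar

private theorem sc_lf_cont (b : P3) : Continuous (lf b) := by unfold lf; fun_prop

private theorem sc_lf_smul (b : P3) (r : ℝ) (p : P3) : lf b (r • p) = r * lf b p := by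
  simp only [lf, Prod.smul_fst, Prod.smul_snd, smul_eq_mul]; ring

private theorem sc_lf_neg (b : P3) (p : P3) : lf b (-p) = -lf b p := by
  simp only [lf, Prod.fst_neg, Prod.snd_neg]; ring

private theorem sc_up (i : Fin (n + 1)) (hi : 0 < (a i).1) (s : ℝ × ℝ) : up a i s =
    1 / (a i).1 - ((a i).2.1 / (a i).1 * s.1 + (a i).2.2 / (a i).1 * s.2) := by
  simp only [up, wc, gc, if_pos hi]

private theorem sc_up_cont (i : Fin (n + 1)) : Continuous (up a i) := by unfold up; fun_prop

private theorem sc_rep (i : Fin (n + 1)) (hi : 0 < (a i).1) (p : P3) (hp : 0 < lf (a i) p) :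
    p = lf (a i) p • ((up a i ((lf (a i) p)⁻¹ • p.2), (lf (a i) p)⁻¹ • p.2) : P3) := by
  have h1 : p.2 = lf (a i) p • ((lf (a i) p)⁻¹ • p.2) := by
    rw [smul_smul, mul_inv_cancel₀ hp.ne', one_smul]
  have h2 : p.1 = lf (a i) p * up a i ((lf (a i) p)⁻¹ • p.2) := by
    rw [sc_up i hi]
    simp only [Prod.smul_fst, Prod.smul_snd, smul_eq_mul]
    have h3 := hp.ne'
    have h4 := hi.ne'
    have h5 : lf (a i) p = (a i).1 * p.1 + (a i).2.1 * p.2.1 + (a i).2.2 * p.2.2 := rfl
    generalize lf (a i) p = u at *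
    field_simp
    linarith
  ext
  · exact h2
  · exact congrArg Prod.fst h1
  · exact congrArg Prod.snd h1

/-- the cone over the face, in the coordinates `(u, s)` -/
private def scD (a : Fin (n + 1) → P3) (i : Fin (n + 1)) : Set (ℝ × ℝ × ℝ) :=
  {q | q.1 ∈ Ioc (0:ℝ) 1 ∧ q.1⁻¹ • q.2 ∈ face a i}

private theorem sc_face_meas (i : Fin (n + 1)) : MeasurableSet (face a i) := by
  have h1 : ∀ j, Continuous fun s : ℝ × ℝ => |lf (a j) (up a i s, s)| := fun j =>
    ((sc_lf_cont (a j)).comp ((sc_up_cont i).prodMk continuous_id)).abs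
  have h2 : face a i = (⋂ j, {s | |lf (a j) (up a i s, s)| ≤ 1}) ∩
      ⋂ j, ⋂ (_ : j < i), {s | |lf (a j) (up a i s, s)| < 1} := by
    ext s
    simp [face]
  rw [h2]
  refine MeasurableSet.inter (MeasurableSet.iInter fun j => ?_)
    (MeasurableSet.iInter fun j => MeasurableSet.iInter fun _ => ?_)
  · exact (isClosed_le (h1 j) continuous_const).measurableSet
  · exact (isOpen_lt (h1 j) continuous_const).measurableSet

private theorem sc_D_meas (i : Fin (n + 1)) : MeasurableSet (scD a i) := by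
  have h1 : Measurable fun q : ℝ × ℝ × ℝ => q.1⁻¹ • q.2 :=
    (measurable_fst.inv).smul measurable_snd
  exact (measurable_fst measurableSet_Ioc).inter (h1 (sc_face_meas i))

private theorem sc_cell_iff (i : Fin (n + 1)) (hi : 0 < (a i).1) (p : P3) (hp : 0 < lf (a i) p) :
    p ∈ cell a i ↔ (lf (a i) p, p.2) ∈ scD a i := by
  set u := lf (a i) p with hu
  set q : P3 := (up a i (u⁻¹ • p.2), u⁻¹ • p.2) with hq
  have h1 : ∀ j, lf (a j) p = u * lf (a j) q := by
    intro j
    have h2 := sc_rep i hi p hp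
    conv_lhs => rw [h2]
    rw [sc_lf_smul]
  have h3 : ∀ j, |lf (a j) p| = u * |lf (a j) q| := by
    intro j
    rw [h1 j, abs_mul, abs_of_pos hp]
  have h4 : |lf (a i) p| = u := abs_of_pos hp
  constructor
  · rintro ⟨h5, h6, h7⟩
    refine ⟨⟨hp, ?_⟩, ?_, ?_⟩
    · have := h5 i
      rwa [h4] at this
    · intro j
      have := h6 j
      rw [h3 j, h4] at this
      exact le_of_mul_le_mul_left (by linarith) hp
    · intro j hj
      have := h7 j hj
      rw [h3 j, h4] at this
      exact lt_of_mul_lt_mul_left (by linarith) hp.le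
  · rintro ⟨⟨_, h5⟩, h6, h7⟩
    have h5' : u ≤ 1 := h5
    have h6' : ∀ j, |lf (a j) p| ≤ u := by
      intro j
      rw [h3 j]
      have := mul_le_mul_of_nonneg_left (h6 j) hp.le
      linarith
    refine ⟨fun j => (h6' j).trans h5', fun j => (h6' j).trans h4.ge, fun j hj => ?_⟩
    rw [h3 j, h4]
    have := mul_lt_mul_of_pos_left (h7 j hj) hp
    linarith

private theorem sc_vol_D (i : Fin (n + 1)) :
    volume (scD a i) = ENNReal.ofReal (1 / 3) * volume (face a i) := by
  rw [Measure.volume_eq_prod, Measure.prod_apply (sc_D_meas i)]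
  have h1 : ∀ u : ℝ, volume (Prod.mk u ⁻¹' scD a i) =
      (Ioc (0:ℝ) 1).indicator (fun u => ENNReal.ofReal (u ^ 2) * volume (face a i)) u := by
    intro u
    by_cases hu : u ∈ Ioc (0:ℝ) 1
    · rw [indicator_of_mem hu]
      have h2 : Prod.mk u ⁻¹' scD a i = (fun s : ℝ × ℝ => u⁻¹ • s) ⁻¹' face a i := by
        ext s
        exact ⟨fun h => h.2, fun h => ⟨hu, h⟩⟩
      rw [h2, Measure.addHaar_preimage_smul _ (inv_ne_zero hu.1.ne')]
      congr 2
      have h3 : Module.finrank ℝ (ℝ × ℝ) = 2 := by simp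
      rw [h3, inv_pow, inv_inv, abs_of_pos (pow_pos hu.1 2)]
    · rw [indicator_of_notMem hu]
      have h2 : Prod.mk u ⁻¹' scD a i = ∅ := by
        ext s
        exact ⟨fun h => hu h.1, fun h => h.elim⟩
      rw [h2, measure_empty]
  simp only [h1]
  rw [lintegral_indicator measurableSet_Ioc, lintegral_mul_const _ (by fun_prop)]
  congr 1
  have h4 : IntegrableOn (fun u : ℝ => u ^ 2) (Ioc 0 1) :=
    (intervalIntegrable_iff_integrableOn_Ioc_of_le zero_le_one).1
      (Continuous.intervalIntegrable (by fun_prop) _ _)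
  rw [← ofReal_integral_eq_lintegral_ofReal h4 (Filter.Eventually.of_forall fun u => sq_nonneg u),
    ← intervalIntegral.integral_of_le zero_le_one]
  norm_num

private theorem sc_vol_pos (i : Fin (n + 1)) (hi : 0 < (a i).1) :
    volume {p : P3 | (lf (a i) p, p.2) ∈ scD a i} =
      ENNReal.ofReal (1 / (a i).1) * volume (scD a i) := by
  have hm : MeasurableSet {p : P3 | (lf (a i) p, p.2) ∈ scD a i} :=
    ((sc_lf_cont (a i)).measurable.prodMk measurable_snd) (sc_D_meas i)
  rw [Measure.volume_eq_prod ℝ (ℝ × ℝ), Measure.prod_apply_symm hm,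
    Measure.prod_apply_symm (sc_D_meas i)]
  rw [← lintegral_const_mul _ (measurable_measure_prodMk_right (sc_D_meas i))]
  congr 1
  ext1 s
  have h1 : (fun t : ℝ => ((t, s) : P3)) ⁻¹' {p : P3 | (lf (a i) p, p.2) ∈ scD a i} =
      (fun t => (a i).1 * t) ⁻¹' ((fun t => t + ((a i).2.1 * s.1 + (a i).2.2 * s.2)) ⁻¹'
        ((fun u : ℝ => (u, s)) ⁻¹' scD a i)) := by
    ext t
    simp only [mem_preimage, mem_setOf_eq, lf]
    rw [add_assoc]
  rw [h1, Real.volume_preimage_mul_left hi.ne', measure_preimage_add_right, one_div,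
    abs_of_pos (inv_pos.2 hi)]

private theorem sc_zero (h : Std a) (p : P3) (hp : ∀ j, lf (a j) p = 0) : p = 0 := by
  by_contra hne
  obtain ⟨C, hC⟩ := h.bdd.exists_norm_le
  have hpn : 0 < ‖p‖ := norm_pos_iff.2 hne
  have h1 : ((C + 1) / ‖p‖) • p ∈ SP a := by
    intro j
    rw [sc_lf_smul, hp j, mul_zero, abs_zero]
    exact zero_le_one
  have h2 := hC _ h1
  have h0 : (0:P3) ∈ SP a := by
    intro j
    simp [lf]
  have hC0 : 0 ≤ C := (norm_nonneg _).trans (hC _ h0)
  rw [norm_smul, Real.norm_eq_abs, abs_of_nonneg (by positivity), div_mul_cancel₀ _ hpn.ne'] at h2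
  linarith

/-- Volume of a cell. `cell a i` is the union of its part where `lf (a i) p > 0`, the negative of
that part, and a part where all forms vanish (a null set, as `SP a` is bounded). The linear map
`(t,s) ↦ (lf (a i) (t,s), s)` has determinant `(a i).1`; it takes the first part to
`{(u, s) | 0 < u ≤ 1, s ∈ u • face a i}`, whose volume is `|face a i| ∫ u² = |face a i| / 3`. -/
theorem volume_cell (h : Std a) (i : Fin (n + 1)) (hi : 0 < (a i).1) :
    (volume (cell a i)).toReal = 2 / 3 * (1 / (a i).1) * (volume (face a i)).toReal := by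
  set Cp : Set P3 := {p : P3 | (lf (a i) p, p.2) ∈ scD a i} with hCp
  have hCpos : ∀ p ∈ Cp, 0 < lf (a i) p := fun p hp => hp.1.1
  have ht1 : MeasurableSet {p : P3 | 0 < lf (a i) p} :=
    (isOpen_lt continuous_const (sc_lf_cont _)).measurableSet
  have ht2 : MeasurableSet {p : P3 | lf (a i) p < 0} :=
    (isOpen_lt (sc_lf_cont _) continuous_const).measurableSet
  have hneg : ∀ p, -p ∈ cell a i ↔ p ∈ cell a i := by
    intro p
    simp only [cell, SP, mem_setOf_eq, sc_lf_neg, abs_neg]
  have e1 : cell a i ∩ {p : P3 | 0 < lf (a i) p} = Cp := by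
    ext p
    constructor
    · rintro ⟨h1, h2⟩
      exact (sc_cell_iff i hi p h2).1 h1
    · intro h1
      have h2 := hCpos p h1
      exact ⟨(sc_cell_iff i hi p h2).2 h1, h2⟩
  have e2 : (cell a i \ {p : P3 | 0 < lf (a i) p}) ∩ {p : P3 | lf (a i) p < 0} =
      (fun p : P3 => (-1:ℝ) • p) ⁻¹' Cp := by
    ext p
    simp only [mem_preimage, neg_smul, one_smul]
    constructor
    · rintro ⟨⟨h1, _⟩, h2⟩
      have h2' : 0 < lf (a i) (-p) := by
        rw [sc_lf_neg]
        have h3 : lf (a i) p < 0 := h2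
        linarith
      exact (sc_cell_iff i hi (-p) h2').1 ((hneg p).2 h1)
    · intro h1
      have h2 := hCpos _ h1
      have h3 : lf (a i) p < 0 := by
        rw [sc_lf_neg] at h2
        linarith
      refine ⟨⟨(hneg p).1 ((sc_cell_iff i hi (-p) h2).2 h1), ?_⟩, h3⟩
      intro h4
      exact lt_asymm h3 h4
  have e3 : (cell a i \ {p : P3 | 0 < lf (a i) p}) \ {p : P3 | lf (a i) p < 0} ⊆ {0} := by
    rintro p ⟨⟨⟨_, h1, _⟩, h2⟩, h3⟩
    have h4 : lf (a i) p = 0 := le_antisymm (not_lt.1 h2) (not_lt.1 h3)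
    refine sc_zero h p fun j => ?_
    have h5 := h1 j
    rw [h4, abs_zero] at h5
    exact abs_nonpos_iff.1 h5
  have h1 := measure_inter_add_diff (μ := volume) (cell a i) ht1
  have h2 := measure_inter_add_diff (μ := volume) (cell a i \ {p : P3 | 0 < lf (a i) p}) ht2
  have h3 : volume ((cell a i \ {p : P3 | 0 < lf (a i) p}) \ {p : P3 | lf (a i) p < 0}) = 0 :=
    measure_mono_null e3 (measure_singleton _)
  have h4 : volume ((fun p : P3 => (-1:ℝ) • p) ⁻¹' Cp) = volume Cp := by
    rw [Measure.addHaar_preimage_smul _ (by norm_num)]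
    have h5 : |((-1:ℝ) ^ Module.finrank ℝ P3)⁻¹| = 1 := by
      rw [abs_inv, abs_pow, abs_neg, abs_one, one_pow, inv_one]
    rw [h5, ENNReal.ofReal_one, one_mul]
  rw [e1] at h1
  rw [e2, h3, h4, add_zero] at h2
  rw [← h1, ← h2, sc_vol_pos i hi, sc_vol_D i]
  have h6 : ENNReal.ofReal (1 / (a i).1) * (ENNReal.ofReal (1 / 3) * volume (face a i)) +
      ENNReal.ofReal (1 / (a i).1) * (ENNReal.ofReal (1 / 3) * volume (face a i)) =
      2 * (ENNReal.ofReal (1 / (a i).1) * (ENNReal.ofReal (1 / 3) * volume (face a i))) := by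
    rw [two_mul]
  rw [h6]
  simp only [ENNReal.toReal_mul, ENNReal.toReal_ofNat]
  rw [ENNReal.toReal_ofReal (by positivity), ENNReal.toReal_ofReal (by norm_num)]
  ring

end Pool.Agent.Lib.MP_a773b5_gt
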