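import Pool.Agent.Lib.MP_a773b5_gt.SCell

set_option autoImplicit false

namespace Pool.Agent.Lib.MP_a773b5_gt

open MeasureTheory Set

variable {n : ℕ} {a : Fin (n + 1) → P3}

private theorem ss_line (c : ℝ) (g : ℝ × ℝ) (h : ¬(c = 0 ∧ g = 0)) :
    ∀ᵐ s : ℝ × ℝ, g.1 * s.1 + g.2 * s.2 ≠ c := by
  by_cases hg : g = 0
  · refine Filter.Eventually.of_forall fun s => ?_
    have hc : c ≠ 0 := fun hc => h ⟨hc, hg⟩
    rw [hg]
    simpa using hc.symm
  · rw [ae_iff]
    simp only [ne_eq, not_not]
    let L : (ℝ × ℝ) →ₗ[ℝ] ℝ := g.1 • LinearMap.fst ℝ ℝ ℝ + g.2 • LinearMap.snd ℝ ℝ ℝ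
    have hL : ∀ s, L s = g.1 * s.1 + g.2 * s.2 := fun s => by simp [L]
    by_cases hne : ∃ p : ℝ × ℝ, g.1 * p.1 + g.2 * p.2 = c
    · obtain ⟨p, hp⟩ := hne
      have h1 : {s : ℝ × ℝ | g.1 * s.1 + g.2 * s.2 = c} =
          (fun s => s + -p) ⁻¹' (LinearMap.ker L : Set (ℝ × ℝ)) := by
        ext s
        simp only [mem_setOf_eq, mem_preimage, SetLike.mem_coe, LinearMap.mem_ker, hL,
          Prod.fst_add, Prod.snd_add, Prod.fst_neg, Prod.snd_neg]
        constructor
        · intro h2; linarith
        · intro h2; linarith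
      rw [h1, measure_preimage_add_right]
      refine Measure.addHaar_submodule _ _ fun h2 => hg ?_
      have h3 : ∀ s : ℝ × ℝ, L s = 0 := fun s => by
        have : s ∈ LinearMap.ker L := by rw [h2]; trivial
        exact this
      ext
      · have := h3 (1, 0)
        rw [hL] at this
        simpa using this
      · have := h3 (0, 1)
        rw [hL] at this
        simpa using this
    · have h1 : {s : ℝ × ℝ | g.1 * s.1 + g.2 * s.2 = c} = ∅ := by
        ext s
        exact ⟨fun h2 => hne ⟨s, h2⟩, fun h2 => h2.elim⟩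
      rw [h1, measure_empty]

private theorem ss_lf_cont (b : P3) : Continuous (lf b) := by unfold lf; fun_prop

private theorem ss_up_cont (i : Fin (n + 1)) : Continuous (up a i) := by unfold up; fun_prop

private theorem ss_face_meas (i : Fin (n + 1)) : MeasurableSet (face a i) := by
  have h1 : ∀ j, Continuous fun s : ℝ × ℝ => |lf (a j) (up a i s, s)| := fun j =>
    ((ss_lf_cont (a j)).comp ((ss_up_cont i).prodMk continuous_id)).abs
  have h2 : face a i = (⋂ j, {s | |lf (a j) (up a i s, s)| ≤ 1}) ∩
      ⋂ j, ⋂ (_ : j < i), {s | |lf (a j) (up a i s, s)| < 1} := by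
    ext s
    simp [face]
  rw [h2]
  refine MeasurableSet.inter (MeasurableSet.iInter fun j => ?_)
    (MeasurableSet.iInter fun j => MeasurableSet.iInter fun _ => ?_)
  · exact (isClosed_le (h1 j) continuous_const).measurableSet
  · exact (isOpen_lt (h1 j) continuous_const).measurableSet

private theorem ss_up (i : Fin (n + 1)) (hi : 0 < (a i).1) (s : ℝ × ℝ) : up a i s =
    1 / (a i).1 - ((a i).2.1 / (a i).1 * s.1 + (a i).2.2 / (a i).1 * s.2) := by
  simp only [up, wc, gc, if_pos hi]

/-- for `0 < (a i).1` the form is one exactly on the graph of `up` -/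
private theorem ss_lf_eq (i : Fin (n + 1)) (hi : 0 < (a i).1) (t : ℝ) (s : ℝ × ℝ) :
    lf (a i) (t, s) = 1 ↔ t = up a i s := by
  rw [ss_up i hi]
  simp only [lf]
  have h4 := hi.ne'
  constructor
  · intro h1
    field_simp
    linarith
  · intro h1
    rw [h1]
    field_simp
    ring

private theorem ss_face_sub (i : Fin (n + 1)) : face a i ⊆ dom a := fun s hs => ⟨_, hs.1⟩

/-- on a face the height is `tau` -/
private theorem ss_face_tau (h : Std a) (i : Fin (n + 1)) {s : ℝ × ℝ}
    (hs : s ∈ face a i) : up a i s = tau a s := by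
  have h1 : (up a i s, s) ∈ SP a := hs.1
  exact le_antisymm ((mem_SP_iff h _ _).1 h1).2.2 (tau_le a i s)

private theorem ss_point (h : Std a) {s : ℝ × ℝ} (hs : s ∈ dom a) :
    ((tau a s, s) : P3) ∈ SP a := by
  rw [mem_SP_iff h]
  refine ⟨hs, ?_, le_rfl⟩
  linarith [tau_add_nonneg h hs]

private theorem ss_exists (h : Std a) {s : ℝ × ℝ} :
    ∃ i, |lf (a i) (tau a s, s)| = 1 := by
  by_cases h1 : 0 < (a (sel a s)).1
  · refine ⟨sel a s, ?_⟩
    rw [(ss_lf_eq _ h1 _ _).2 (up_sel a s).symm, abs_one]
  · obtain ⟨k, hk⟩ := h.top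
    refine ⟨k, ?_⟩
    have h2 : up a (sel a s) s = 1 := by
      simp only [up, wc, gc, if_neg h1]
      ring
    rw [up_sel] at h2
    rw [hk, h2]
    simp [lf]

private theorem ss_key (h : Std a) : ∀ᵐ s : ℝ × ℝ,
    (dom a).indicator (fun s => 1 / wc a (sel a s)) s =
      ∑ i, (face a i).indicator (fun _ => (a i).1 * (if 0 < (a i).1 then 1 else 0)) s := by
  have n1 : ∀ᵐ s : ℝ × ℝ, ∀ i, (a i).1 = 0 → (a i).2.1 * s.1 + (a i).2.2 * s.2 ≠ 1 :=
    ae_all_iff.2 fun i => (ss_line 1 (a i).2 (fun h1 => one_ne_zero h1.1)).mono fun s hs _ => hs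
  have n1' : ∀ᵐ s : ℝ × ℝ, ∀ i, (a i).1 = 0 → (a i).2.1 * s.1 + (a i).2.2 * s.2 ≠ -1 :=
    ae_all_iff.2 fun i => (ss_line (-1) (a i).2
      (fun h1 => by have := h1.1; norm_num at this)).mono fun s hs _ => hs
  have n2 : ∀ᵐ s : ℝ × ℝ, ∀ i, ∀ j, (gc a j - gc a i).1 * s.1 + (gc a j - gc a i).2 * s.2 ≠
      wc a i + wc a j :=
    ae_all_iff.2 fun i => ae_all_iff.2 fun j => ss_line _ _ (fun h1 => by
      have h2 := one_le_wc h i
      have h3 := one_le_wc h j
      linarith [h1.1])
  have n3 : ∀ᵐ s : ℝ × ℝ, ∀ i, ∀ j, wc a i ≠ wc a j →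
      (gc a i - gc a j).1 * s.1 + (gc a i - gc a j).2 * s.2 ≠ wc a i - wc a j :=
    ae_all_iff.2 fun i => ae_all_iff.2 fun j => by
      by_cases h1 : wc a i = wc a j
      · exact Filter.Eventually.of_forall fun s h2 => absurd h1 h2
      · exact (ss_line _ _ (fun h2 => h1 (sub_eq_zero.1 h2.1))).mono fun s hs _ => hs
  filter_upwards [n1, n1', n2, n3] with s m1 m1' m2 m3
  by_cases hs : s ∈ dom a
  · rw [indicator_of_mem hs]
    set p : P3 := (tau a s, s) with hp
    have hpS : p ∈ SP a := ss_point h hs
    obtain ⟨k, hk⟩ := ss_exists h (s := s)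
    obtain ⟨i, hi, hmin⟩ := wellFounded_lt.has_min {i : Fin (n+1) | |lf (a i) p| = 1} ⟨k, hk⟩
    have hi1 : |lf (a i) p| = 1 := hi
    have hpos : 0 < (a i).1 := by
      rcases (h.nonneg i).lt_or_eq with h1 | h1
      · exact h1
      · exfalso
        have h2 : lf (a i) p = (a i).2.1 * s.1 + (a i).2.2 * s.2 := by
          simp only [lf, hp, ← h1]
          ring
        rw [h2] at hi1
        rcases (abs_eq zero_le_one).1 hi1 with h3 | h3
        · exact m1 i h1.symm h3
        · exact m1' i h1.symm h3
    have hup : up a i s = tau a s := by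
      rcases (abs_eq zero_le_one).1 hi1 with h3 | h3
      · exact ((ss_lf_eq i hpos _ _).1 h3).symm
      · exfalso
        have h4 : lf (a i) (-tau a s, -s) = 1 := by
          have : lf (a i) (-tau a s, -s) = -lf (a i) p := by
            simp only [lf, hp, Prod.fst_neg, Prod.snd_neg]
            ring
          rw [this, h3, neg_neg]
        have h5 := (ss_lf_eq i hpos _ _).1 h4
        rw [← up_sel a s] at h5
        refine m2 i (sel a s) ?_
        simp only [up, Prod.fst_neg, Prod.snd_neg] at h5
        simp only [Prod.fst_sub, Prod.snd_sub]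
        linarith
    have hwc : wc a i = wc a (sel a s) := by
      by_contra hne
      refine m3 i (sel a s) hne ?_
      have h5 := hup
      rw [← up_sel a s] at h5
      simp only [up] at h5
      simp only [Prod.fst_sub, Prod.snd_sub]
      linarith
    have hface : s ∈ face a i := by
      refine ⟨?_, ?_⟩
      · rw [hup]
        exact hpS
      · intro j hj
        rw [hup]
        exact lt_of_le_of_ne (hpS j) fun h6 => hmin j h6 hj
    rw [Finset.sum_eq_single i]
    · rw [indicator_of_mem hface, if_pos hpos, mul_one, ← hwc]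
      simp only [wc, if_pos hpos]
      rw [one_div_one_div]
    · intro j _ hji
      by_cases hj : s ∈ face a j
      · rw [indicator_of_mem hj]
        by_cases hj0 : 0 < (a j).1
        · exfalso
          have h7 := ss_face_tau h j hj
          rcases lt_or_gt_of_ne hji with h8 | h8
          · refine hmin j ?_ h8
            show |lf (a j) p| = 1
            rw [(ss_lf_eq j hj0 _ _).2 h7.symm, abs_one]
          · have h9 := hj.2 i h8
            rw [h7] at h9
            exact h9.ne hi1
        · rw [if_neg hj0, mul_zero]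
      · rw [indicator_of_notMem hj]
    · intro h10
      exact absurd (Finset.mem_univ i) h10
  · rw [indicator_of_notMem hs]
    symm
    refine Finset.sum_eq_zero fun i _ => ?_
    rw [indicator_of_notMem fun h1 => hs (ss_face_sub i h1)]

/-- Almost every point of `dom a` lies in exactly one `face a i` with `0 < (a i).1`, and for it
`(a i).1 = 1 / wc a (sel a s)`. Null sets to avoid: `|lf (a j) (0,s)| = 1` for the `j` with
`(a j).1 = 0`; `up a i s = -up a j (-s)` (two affine functions that differ at `s = 0`); `up a i s =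
up a j s` for affine functions `up a i ≠ up a j`. For other `s ∈ dom a`, with `p = (tau a s, s)`, let
`i` be the first index with `|lf (a i) p| = 1`; then `0 < (a i).1`, `lf (a i) p = 1`, `up a i s =
tau a s = up a (sel a s) s`, so `up a i = up a (sel a s)` as functions and `wc a i = wc a (sel a s)`.
Conversely on `face a i` with `0 < (a i).1` one has `s ∈ dom a` and `up a i s = tau a s`. -/
theorem sum_faces (h : Std a) :
    ∑ i, (a i).1 * (volume (face a i)).toReal * (if 0 < (a i).1 then 1 else 0) =
      ∫ s in dom a, 1 / wc a (sel a s) := by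
  have hd := isCompact_dom h
  rw [← integral_indicator hd.isClosed.measurableSet, integral_congr_ae (ss_key h),
    integral_finsetSum]
  · refine Finset.sum_congr rfl fun i _ => ?_
    rw [integral_indicator_const _ (ss_face_meas i), smul_eq_mul]
    show (a i).1 * (volume (face a i)).toReal * _ = (volume (face a i)).toReal * _
    ring
  · intro i _
    rw [integrable_indicator_iff (ss_face_meas i)]
    exact integrableOn_const ((measure_mono (ss_face_sub i)).trans_lt hd.measure_lt_top).ne

theorem sum_cells (h : Std a) :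
    ∑ i, (a i).1 ^ 2 * (volume (cell a i)).toReal = 2 / 3 * ∫ s in dom a, 1 / wc a (sel a s) := by
  rw [← sum_faces h, Finset.mul_sum]
  refine Finset.sum_congr rfl fun i _ => ?_
  by_cases hi : 0 < (a i).1
  · rw [if_pos hi, volume_cell h i hi]
    field_simp
  · have h0 : (a i).1 = 0 := le_antisymm (not_lt.1 hi) (h.nonneg i)
    rw [h0]
    simp

end Pool.Agent.Lib.MP_a773b5_gt
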