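import Pool.Agent.Lib.MP_a773b5_gt.SDefs

set_option autoImplicit false

namespace Pool.Agent.Lib.MP_a773b5_gt

open MeasureTheory Set

variable {n : ℕ}

private lemma lf_smul (b p : P3) (c : ℝ) : lf b (c • p) = c * lf b p := by
  simp only [lf, Prod.smul_fst, Prod.smul_snd, smul_eq_mul]; ring

private lemma lf_cont (b : P3) : Continuous (lf b) := by
  unfold lf; fun_prop

/-- coordinates of a vector -/
private def vc (p : P3) : Fin 3 → ℝ := ![p.1, p.2.1, p.2.2]

private def cv (u : Fin 3 → ℝ) : P3 := (u 0, u 1, u 2)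

private lemma lf_eq (b p : P3) : lf b p = ∑ k, vc b k * vc p k := by
  simp [lf, vc, Fin.sum_univ_three]

private lemma vc_cv (u : Fin 3 → ℝ) : vc (cv u) = u := by
  ext k; fin_cases k <;> rfl

private lemma cv_vc (p : P3) : cv (vc p) = p := rfl

/-- Choice of the direction. Let `Q x = ∑ lam i (lf (a i) x)²` and let `q` minimise `Q` on the
compact set `{x | max_i |lf (a i) x| = 1}` (the boundary of the bounded set `SP a`), `m = Q q`. By
homogeneity `m (lf (a j) x)² ≤ Q x` for all `j`, `x`. If `m = 0` we are done. Otherwise `Q` is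
positive definite; take a basis `e 0, e 1, e 2` orthonormal for `Q`. For each `j` put
`x = ∑ k, lf (a j) (e k) • e k`; then `lf (a j) x = Q x = σ j := ∑ k, (lf (a j) (e k))²`, so
`m (σ j)² ≤ σ j`, `m σ j ≤ 1`. Finally `3 = ∑ k, Q (e k) = ∑ j, lam j σ j ≤ 1/m`. Replace `q` by
`-q` to have `lf (a i0) q = 1`. -/
theorem exists_q (a : Fin (n + 1) → P3) (hb : Bornology.IsBounded (SP a))
    (lam : Fin (n + 1) → ℝ) (h0 : ∀ i, 0 ≤ lam i) (h1 : ∑ i, lam i = 1) :
    ∃ (q : P3) (i0 : Fin (n + 1)), lf (a i0) q = 1 ∧ (∀ i, |lf (a i) q| ≤ 1) ∧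
      ∑ i, lam i * lf (a i) q ^ 2 ≤ 1 / 3 := by
  classical
  set Q : P3 → ℝ := fun x => ∑ i, lam i * lf (a i) x ^ 2 with hQ
  have hQc : Continuous Q := by
    refine continuous_finset_sum _ fun i _ => ?_
    exact continuous_const.mul ((lf_cont (a i)).pow 2)
  have hQ0 : ∀ x, 0 ≤ Q x := fun x =>
    Finset.sum_nonneg fun i _ => mul_nonneg (h0 i) (sq_nonneg _)
  have hQs : ∀ (c : ℝ) x, Q (c • x) = c ^ 2 * Q x := by
    intro c x
    simp only [hQ, lf_smul, mul_pow, Finset.mul_sum]
    refine Finset.sum_congr rfl fun i _ => by ring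
  -- no line in `SP a`
  have hline : ∀ x : P3, (∀ i, lf (a i) x = 0) → x = 0 := by
    intro x hx
    by_contra hne
    have hmem : ∀ c : ℝ, c • x ∈ SP a := by
      intro c i
      rw [lf_smul, hx i, mul_zero, abs_zero]
      exact zero_le_one
    obtain ⟨C, hC⟩ := hb.exists_norm_le
    have hxn : 0 < ‖x‖ := norm_pos_iff.2 hne
    have h2 := hC _ (hmem ((|C| + 1) / ‖x‖))
    rw [norm_smul, Real.norm_eq_abs, abs_of_nonneg (by positivity), div_mul_cancel₀ _ hxn.ne'] at h2
    linarith [le_abs_self C]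
  -- the maximum
  set M : P3 → ℝ := fun x => Finset.univ.sup' Finset.univ_nonempty fun i => |lf (a i) x| with hM
  have hMle : ∀ x i, |lf (a i) x| ≤ M x := fun x i =>
    Finset.le_sup' (fun i => |lf (a i) x|) (Finset.mem_univ i)
  have hMex : ∀ x, ∃ i, M x = |lf (a i) x| := by
    intro x
    obtain ⟨i, -, hi⟩ := Finset.exists_mem_eq_sup' (s := (Finset.univ : Finset (Fin (n + 1))))
      Finset.univ_nonempty (fun i => |lf (a i) x|)
    exact ⟨i, hi⟩
  set Bd : Set P3 := {x | (∀ i, |lf (a i) x| ≤ 1) ∧ ∃ i, |lf (a i) x| = 1} with hBd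
  have hBdc : IsCompact Bd := by
    have hcl : IsClosed Bd := by
      have e : Bd = (⋂ i, {x | |lf (a i) x| ≤ 1}) ∩ ⋃ i, {x | |lf (a i) x| = 1} := by
        ext x; simp [hBd]
      rw [e]
      refine IsClosed.inter (isClosed_iInter fun i =>
        isClosed_le (continuous_abs.comp (lf_cont (a i))) continuous_const) ?_
      exact isClosed_iUnion_of_finite fun i =>
        isClosed_eq (continuous_abs.comp (lf_cont (a i))) continuous_const
    exact Metric.isCompact_of_isClosed_isBounded hcl (hb.subset fun x hx => hx.1)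
  have hscale : ∀ x, M x ≠ 0 → (M x)⁻¹ • x ∈ Bd := by
    intro x hx
    obtain ⟨i, hi⟩ := hMex x
    have hpos : 0 < M x := lt_of_le_of_ne (by rw [hi]; exact abs_nonneg _) (Ne.symm hx)
    have habs : ∀ j, |lf (a j) ((M x)⁻¹ • x)| = (M x)⁻¹ * |lf (a j) x| := by
      intro j
      rw [lf_smul, abs_mul, abs_of_pos (inv_pos.2 hpos)]
    refine ⟨fun j => ?_, i, ?_⟩
    · rw [habs]
      calc (M x)⁻¹ * |lf (a j) x| ≤ (M x)⁻¹ * M x :=
            mul_le_mul_of_nonneg_left (hMle x j) (inv_pos.2 hpos).le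
        _ = 1 := inv_mul_cancel₀ hx
    · rw [habs, ← hi, inv_mul_cancel₀ hx]
  have hMz : ∀ x, M x = 0 → x = 0 := by
    intro x hx
    refine hline x fun i => ?_
    have := hMle x i
    rw [hx] at this
    exact abs_nonpos_iff.1 this
  have hne : Bd.Nonempty := by
    have hx : ((1 : ℝ), (0 : ℝ), (0 : ℝ)) ≠ (0 : P3) := by
      intro h
      have := congrArg Prod.fst h
      norm_num at this
    exact ⟨_, hscale _ fun h => hx (hMz _ h)⟩
  obtain ⟨q, hq, hmin⟩ := hBdc.exists_isMinOn hne hQc.continuousOn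
  have hmin' : ∀ x ∈ Bd, Q q ≤ Q x := fun x hx => hmin hx
  have hkey : ∀ x j, Q q * lf (a j) x ^ 2 ≤ Q x := by
    intro x j
    by_cases hx : M x = 0
    · have : lf (a j) x = 0 := by
        have := hMle x j
        rw [hx] at this
        exact abs_nonpos_iff.1 this
      rw [this]
      simpa using hQ0 x
    · have h2 := hmin' _ (hscale x hx)
      rw [hQs] at h2
      have hpos : 0 < M x := by
        obtain ⟨i, hi⟩ := hMex x
        exact lt_of_le_of_ne (by rw [hi]; exact abs_nonneg _) (Ne.symm hx)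
      have h3 : Q q * M x ^ 2 ≤ Q x := by
        have h4 := mul_le_mul_of_nonneg_right h2 (sq_nonneg (M x))
        have h5 : (M x)⁻¹ ^ 2 * Q x * M x ^ 2 = Q x := by
          field_simp
        rwa [h5] at h4
      have h6 : lf (a j) x ^ 2 ≤ M x ^ 2 := by
        rw [← sq_abs]
        exact pow_le_pow_left₀ (abs_nonneg _) (hMle x j) 2
      exact (mul_le_mul_of_nonneg_left h6 (hQ0 q)).trans h3
  have hm : Q q ≤ 1 / 3 := by
    by_cases hm0 : Q q = 0
    · rw [hm0]; norm_num
    have hmpos : 0 < Q q := lt_of_le_of_ne (hQ0 q) (Ne.symm hm0)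
    set A : Matrix (Fin 3) (Fin 3) ℝ :=
      ∑ i, lam i • Matrix.vecMulVec (vc (a i)) (vc (a i)) with hA
    have hAv : ∀ u : Fin 3 → ℝ, A.mulVec u = ∑ i, (lam i * lf (a i) (cv u)) • vc (a i) := by
      intro u
      rw [hA, Matrix.sum_mulVec]
      refine Finset.sum_congr rfl fun i _ => ?_
      rw [Matrix.smul_mulVec]
      ext k
      simp only [Pi.smul_apply, smul_eq_mul, Matrix.mulVec, Matrix.vecMulVec, dotProduct,
        Matrix.of_apply]
      rw [lf_eq, vc_cv]
      rw [Finset.mul_sum, Finset.mul_sum, Finset.sum_mul]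
      refine Finset.sum_congr rfl fun l _ => by ring
    have hAQ : ∀ u : Fin 3 → ℝ, dotProduct u (A.mulVec u) = Q (cv u) := by
      intro u
      rw [hAv, dotProduct_sum]
      simp only [hQ]
      refine Finset.sum_congr rfl fun i _ => ?_
      rw [dotProduct_smul, smul_eq_mul]
      have : dotProduct u (vc (a i)) = lf (a i) (cv u) := by
        rw [lf_eq, vc_cv]
        simp only [dotProduct]
        exact Finset.sum_congr rfl fun k _ => mul_comm _ _
      rw [this]; ring
    have hdet : IsUnit A.det := by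
      by_contra hdet
      have hdet0 : A.det = 0 := by
        by_contra h; exact hdet (isUnit_iff_ne_zero.2 h)
      obtain ⟨u, hu, hAu⟩ := Matrix.exists_mulVec_eq_zero_iff.2 hdet0
      have hQu : Q (cv u) = 0 := by rw [← hAQ, hAu, dotProduct_zero]
      have h2 : cv u = 0 := by
        refine hline _ fun j => ?_
        have h3 := hkey (cv u) j
        rw [hQu] at h3
        have h4 : lf (a j) (cv u) ^ 2 ≤ 0 := by
          by_contra h5
          exact absurd h3 (not_le.2 (mul_pos hmpos (not_le.1 h5)))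
        exact pow_eq_zero_iff (two_ne_zero) |>.1 (le_antisymm h4 (sq_nonneg _))
      apply hu
      have := vc_cv u
      rw [h2] at this
      rw [← this]
      ext k; fin_cases k <;> rfl
    have hinv : A * A⁻¹ = 1 := Matrix.mul_nonsing_inv A hdet
    have hinv' : A⁻¹ * A = 1 := Matrix.nonsing_inv_mul A hdet
    set σ : Fin (n + 1) → ℝ := fun j => dotProduct (vc (a j)) (A⁻¹.mulVec (vc (a j))) with hσ
    have hσ1 : ∀ j, Q q * σ j ≤ 1 := by
      intro j
      set u := A⁻¹.mulVec (vc (a j)) with hu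
      have hAu : A.mulVec u = vc (a j) := by
        rw [hu, Matrix.mulVec_mulVec, hinv, Matrix.one_mulVec]
      have h2 : lf (a j) (cv u) = σ j := by
        rw [lf_eq, vc_cv]; rfl
      have h3 : Q (cv u) = σ j := by
        rw [← hAQ, hAu, dotProduct_comm]
      have h4 := hkey (cv u) j
      rw [h2, h3] at h4
      have h5 : 0 ≤ σ j := by rw [← h3]; exact hQ0 _
      rcases h5.eq_or_lt with h6 | h6
      · rw [← h6]; simp
      · have : Q q * σ j * σ j ≤ 1 * σ j := by linarith [h4]
        exact le_of_mul_le_mul_right this h6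
    have htr : ∑ j, lam j * σ j = 3 := by
      have h2 : (A⁻¹ * A).trace = 3 := by
        rw [hinv', Matrix.trace_one]; simp
      rw [← h2, hA]
      rw [Matrix.mul_sum, Matrix.trace_sum]
      refine Finset.sum_congr rfl fun j _ => ?_
      rw [Matrix.mul_smul, Matrix.trace_smul, smul_eq_mul]
      congr 1
      rw [← hA]
      simp only [hσ, dotProduct, Matrix.mulVec, Matrix.trace, Matrix.diag, Matrix.mul_apply,
        Matrix.vecMulVec, Matrix.of_apply]
      refine Finset.sum_congr rfl fun k _ => ?_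
      rw [Finset.mul_sum]
      refine Finset.sum_congr rfl fun l _ => by ring
    have h3 : Q q * 3 ≤ 1 := by
      rw [← htr, Finset.mul_sum, ← h1]
      refine Finset.sum_le_sum fun j _ => ?_
      have := mul_le_mul_of_nonneg_left (hσ1 j) (h0 j)
      linarith
    linarith
  obtain ⟨hq1, i0, hi0⟩ := hq
  rcases (abs_eq (zero_le_one)).1 hi0 with h | h
  · exact ⟨q, i0, h, hq1, hm⟩
  · refine ⟨(-1 : ℝ) • q, i0, ?_, fun i => ?_, ?_⟩
    · rw [lf_smul, h]; norm_num
    · rw [lf_smul, abs_mul]; simpa using hq1 i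
    · have := hQs (-1) q
      simp only [hQ] at this hm
      rw [this]
      simpa using hm

end Pool.Agent.Lib.MP_a773b5_gt
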