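import Pool.Agent.Lib.MP_a773b5_gt.Defs

set_option autoImplicit false

/-!
MP_a773b5_gt, centrally symmetric bodies. Definitions.

A symmetric polytope is given by linear forms: `SP a = {p | ∀ i, |lf (a i) p| ≤ 1}`. In standard
position (`Std a`) the first coordinate `t` is one of the forms and the point `(1,0,0)` lies in
`SP a`. Over the projection `dom a` of `SP a` to the plane of `s = p.2` the polytope is
`{-tau (-s) ≤ t ≤ tau s}`, where `tau` is the minimum of finitely many affine functions `up i`.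
-/

namespace Pool.Agent.Lib.MP_a773b5_gt

open MeasureTheory Set

/-- The linear form with coefficients `a`. -/
def lf (a p : P3) : ℝ := a.1 * p.1 + a.2.1 * p.2.1 + a.2.2 * p.2.2

/-- The symmetric polytope `{p | ∀ i, |lf (a i) p| ≤ 1}`. -/
def SP {n : ℕ} (a : Fin (n + 1) → P3) : Set P3 := {p | ∀ i, |lf (a i) p| ≤ 1}

/-- The cell of the index `i`: points of the polytope at which `|lf (a i)|` is the largest of the
numbers `|lf (a j)|` and `i` is the first such index. The cells partition the polytope. -/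
def cell {n : ℕ} (a : Fin (n + 1) → P3) (i : Fin (n + 1)) : Set P3 :=
  {p | p ∈ SP a ∧ (∀ j, |lf (a j) p| ≤ |lf (a i) p|) ∧ ∀ j < i, |lf (a j) p| < |lf (a i) p|}

/-- Standard position. -/
structure Std {n : ℕ} (a : Fin (n + 1) → P3) : Prop where
  bdd : Bornology.IsBounded (SP a)
  nonneg : ∀ i, 0 ≤ (a i).1
  le_one : ∀ i, (a i).1 ≤ 1
  top : ∃ i, a i = (1, 0, 0)

/-- Height of the plane `lf (a i) = 1` over the origin; the dummy value `1` if it is vertical. -/
noncomputable def wc {n : ℕ} (a : Fin (n + 1) → P3) (i : Fin (n + 1)) : ℝ :=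
  if 0 < (a i).1 then 1 / (a i).1 else 1

/-- Minus the gradient of the plane `lf (a i) = 1`; the dummy value `0` if it is vertical. -/
noncomputable def gc {n : ℕ} (a : Fin (n + 1) → P3) (i : Fin (n + 1)) : ℝ × ℝ :=
  if 0 < (a i).1 then ((a i).2.1 / (a i).1, (a i).2.2 / (a i).1) else (0, 0)

/-- The affine function whose graph is the plane `lf (a i) = 1` (the constant `1` if this plane is
vertical). -/
noncomputable def up {n : ℕ} (a : Fin (n + 1) → P3) (i : Fin (n + 1)) (s : ℝ × ℝ) : ℝ :=
  wc a i - ((gc a i).1 * s.1 + (gc a i).2 * s.2)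

/-- The upper boundary function. -/
noncomputable def tau {n : ℕ} (a : Fin (n + 1) → P3) (s : ℝ × ℝ) : ℝ :=
  Finset.univ.inf' Finset.univ_nonempty (fun i => up a i s)

open Classical in
/-- The first index `i` with `up a i s = tau a s`. -/
noncomputable def sel {n : ℕ} (a : Fin (n + 1) → P3) (s : ℝ × ℝ) : Fin (n + 1) :=
  if h : ∃ i, up a i s = tau a s ∧ ∀ j < i, up a j s ≠ tau a s then h.choose else 0

/-- The projection of the polytope. -/
def dom {n : ℕ} (a : Fin (n + 1) → P3) : Set (ℝ × ℝ) := {s | ∃ t, (t, s) ∈ SP a}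

/-- The projection of the `i`-th facet (when `0 < (a i).1`), first indices only. -/
def face {n : ℕ} (a : Fin (n + 1) → P3) (i : Fin (n + 1)) : Set (ℝ × ℝ) :=
  {s | (∀ j, |lf (a j) (up a i s, s)| ≤ 1) ∧ ∀ j < i, |lf (a j) (up a i s, s)| < 1}

end Pool.Agent.Lib.MP_a773b5_gt
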