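import Pool.Agent.Lib.MP_a773b5_gt.SPolarRay

set_option autoImplicit false

namespace Pool.Agent.Lib.MP_a773b5_gt

open MeasureTheory Set

variable {n : ℕ} {a : Fin (n + 1) → P3}

private noncomputable def spA (a : Fin (n + 1) → P3) (s : ℝ × ℝ) : ℝ :=
  3 * tau a s + 1 / wc a (sel a s)

private noncomputable def spB (a : Fin (n + 1) → P3) (y : ℝ) (s : ℝ × ℝ) : ℝ :=
  if y ≤ tau a s ∧ -y ≤ tau a (-s) then (1:ℝ) else 0

private theorem spA_meas (a : Fin (n + 1) → P3) : Measurable (spA a) := by
  unfold spA
  exact ((continuous_tau a).measurable.const_mul 3).add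
    ((measurable_of_finite (fun i => 1 / wc a i)).comp (measurable_sel a))

private theorem spB_meas (a : Fin (n + 1) → P3) (y : ℝ) : Measurable (spB a y) := by
  unfold spB
  refine Measurable.ite ?_ measurable_const measurable_const
  exact (measurableSet_le measurable_const (continuous_tau a).measurable).inter
    (measurableSet_le measurable_const ((continuous_tau a).comp continuous_neg).measurable)

private theorem spA_bd (h : Std a) {s : ℝ × ℝ} (hs : s ∈ dom a) : ‖spA a s‖ ≤ 4 := by
  have h1 := tau_le_one h s
  have h2 := tau_le_one h (-s)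
  have h3 := tau_add_nonneg h hs
  have h4 := one_le_wc h (sel a s)
  have h5 : 1 / wc a (sel a s) ≤ 1 := by
    rw [div_le_one (by linarith)]
    exact h4
  have h6 : 0 ≤ 1 / wc a (sel a s) := by positivity
  unfold spA
  rw [Real.norm_eq_abs, abs_le]
  constructor <;> linarith

private theorem spB_bd (a : Fin (n + 1) → P3) (y : ℝ) (s : ℝ × ℝ) : ‖spB a y s‖ ≤ 1 := by
  unfold spB
  split_ifs <;> simp

private theorem sp_neg_dom {s : ℝ × ℝ} : -s ∈ dom a ↔ s ∈ dom a := by
  constructor
  · intro hs
    have := neg_mem_dom hs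
    rwa [neg_neg] at this
  · exact neg_mem_dom

/-- Polar coordinates (`integral_comp_polarCoord_symm`, Fubini) for the function
`Φ s + Φ (-s)`, `Φ = 1_{dom} (3 tau + 1/wc(sel) - 2 (1+y) 1_{...})`, and `polar_ray`. -/
theorem polar_ineq (h : Std a) {y : ℝ} (hy : 0 ≤ y) (hy1 : y ≤ 1) :
    2 * (1 + y) * (∫ s in dom a, (if y ≤ tau a s ∧ -y ≤ tau a (-s) then (1:ℝ) else 0)) ≤
      ∫ s in dom a, (3 * tau a s + 1 / wc a (sel a s)) := by
  have hdm : MeasurableSet (dom a) := (isCompact_dom h).measurableSet
  have hfin : volume (dom a) ≠ ⊤ := (isCompact_dom h).measure_lt_top.ne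
  have iA : IntegrableOn (spA a) (dom a) := by
    refine Measure.integrableOn_of_bounded (M := 4) hfin (spA_meas a).aestronglyMeasurable ?_
    rw [ae_restrict_iff' hdm]
    exact Filter.Eventually.of_forall fun s hs => spA_bd h hs
  have iB : IntegrableOn (spB a y) (dom a) := by
    refine Measure.integrableOn_of_bounded (M := 1) hfin (spB_meas a y).aestronglyMeasurable ?_
    exact Filter.Eventually.of_forall fun s => spB_bd a y s
  obtain ⟨G, hG⟩ : ∃ G : ℝ × ℝ → ℝ, G = fun s => spA a s - 2 * (1 + y) * spB a y s := ⟨_, rfl⟩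
  have hGs : ∀ s, G s = spA a s - 2 * (1 + y) * spB a y s := fun s => congrFun hG s
  have iG : IntegrableOn G (dom a) := by
    rw [hG]
    exact iA.sub (iB.const_mul _)
  have e1 : ∫ s in dom a, G s = (∫ s in dom a, spA a s) - 2 * (1 + y) * ∫ s in dom a, spB a y s := by
    rw [hG, integral_sub iA (iB.const_mul _), integral_const_mul]
  suffices hmain : 0 ≤ ∫ s in dom a, G s by
    rw [e1] at hmain
    unfold spA spB at hmain
    linarith
  obtain ⟨F, hF⟩ : ∃ F : ℝ × ℝ → ℝ, F = (dom a).indicator G := ⟨_, rfl⟩
  have iF : Integrable F := by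
    rw [hF, integrable_indicator_iff hdm]
    exact iG
  have haar : (volume : Measure (ℝ × ℝ)).IsAddHaarMeasure :=
    Measure.prod.instIsAddHaarMeasure _ _
  have e2 : ∫ s, F s = ∫ s in dom a, G s := by
    rw [hF, integral_indicator hdm]
  have e3 : ∫ s, F (-s) = ∫ s, F s := integral_neg_eq_self F volume
  have e4 : ∫ s, (F s + F (-s)) = 2 * ∫ s, F s := by
    rw [integral_add iF iF.comp_neg, e3]
    ring
  suffices hm : 0 ≤ ∫ s, (F s + F (-s)) by
    rw [← e2]
    linarith
  rw [← integral_comp_polarCoord_symm (fun s => F s + F (-s))]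
  by_cases hint : IntegrableOn (fun p : ℝ × ℝ => p.1 • (F (polarCoord.symm p) +
      F (-(polarCoord.symm p)))) polarCoord.target volume
  · have e5 : (volume : Measure (ℝ × ℝ)).restrict polarCoord.target =
        ((volume : Measure ℝ).restrict (Ioi 0)).prod
          ((volume : Measure ℝ).restrict (Ioo (-Real.pi) Real.pi)) := by
      rw [polarCoord_target, Measure.prod_restrict]
      rfl
    have hint' := hint
    unfold IntegrableOn at hint'
    rw [e5] at hint' ⊢
    rw [integral_prod_symm _ hint']
    refine integral_nonneg fun θ => ?_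
    simp only [Pi.zero_apply]
    -- one direction
    obtain ⟨v, hvd⟩ : ∃ v : ℝ × ℝ, v = (Real.cos θ, Real.sin θ) := ⟨_, rfl⟩
    have hv : v ≠ 0 := by
      rw [hvd]
      intro h0
      have h1 : Real.cos θ = 0 := congrArg Prod.fst h0
      have h2 : Real.sin θ = 0 := congrArg Prod.snd h0
      have := Real.sin_sq_add_cos_sq θ
      rw [h1, h2] at this
      norm_num at this
    have hsymm : ∀ r : ℝ, polarCoord.symm (r, θ) = r • v := by
      intro r
      rw [polarCoord_symm_apply, hvd]
      rfl
    obtain ⟨R, hR, hRd, hray⟩ := polar_ray h hy hy1 v hv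
    have e6 : ∫ r in Ioi (0:ℝ), r • (F (polarCoord.symm (r, θ)) + F (-(polarCoord.symm (r, θ)))) =
        ∫ r in (0:ℝ)..R, (G (r • v) + G (-(r • v))) * r := by
      rw [intervalIntegral.integral_of_le hR, ← integral_indicator measurableSet_Ioi,
        ← integral_indicator measurableSet_Ioc]
      congr 1
      funext r
      by_cases hr : 0 < r
      · rw [indicator_of_mem (by exact hr), hsymm]
        by_cases hrR : r ≤ R
        · have hm : r • v ∈ dom a := (hRd r hr.le).2 hrR
          rw [indicator_of_mem (by exact ⟨hr, hrR⟩), hF, indicator_of_mem hm,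
            indicator_of_mem (sp_neg_dom.2 hm), smul_eq_mul]
          ring
        · have hm : r • v ∉ dom a := fun hm => hrR ((hRd r hr.le).1 hm)
          rw [indicator_of_notMem (by exact fun hh => hrR hh.2), hF, indicator_of_notMem hm,
            indicator_of_notMem (fun hh => hm (sp_neg_dom.1 hh)), smul_eq_mul]
          ring
      · rw [indicator_of_notMem (by exact hr), indicator_of_notMem (by exact fun hh => hr hh.1)]
    rw [e6]
    have hmv : Measurable fun r : ℝ => r • v := (continuous_id.smul continuous_const).measurable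
    have hmv' : Measurable fun r : ℝ => -(r • v) := hmv.neg
    have jA : IntervalIntegrable (fun r : ℝ => (spA a (r • v) + spA a (-(r • v))) * r) volume 0 R := by
      rw [intervalIntegrable_iff_integrableOn_Ioc_of_le hR]
      refine Measure.integrableOn_of_bounded (M := 8 * R) (by simp)
        ((((spA_meas a).comp hmv).add ((spA_meas a).comp hmv')).mul
          measurable_id).aestronglyMeasurable ?_
      rw [ae_restrict_iff' measurableSet_Ioc]
      refine Filter.Eventually.of_forall fun r hr => ?_
      have hm : r • v ∈ dom a := (hRd r hr.1.le).2 hr.2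
      have b1 := spA_bd h hm
      have b2 := spA_bd h (sp_neg_dom.2 hm)
      rw [norm_mul]
      have b3 : ‖spA a (r • v) + spA a (-(r • v))‖ ≤ 8 := by
        refine (norm_add_le _ _).trans ?_
        linarith
      have b4 : ‖r‖ ≤ R := by
        rw [Real.norm_eq_abs, abs_of_pos hr.1]
        exact hr.2
      exact mul_le_mul b3 b4 (norm_nonneg _) (by norm_num)
    have jB : IntervalIntegrable (fun r : ℝ => (spB a y (r • v) + spB a y (-(r • v))) * r)
        volume 0 R := by
      rw [intervalIntegrable_iff_integrableOn_Ioc_of_le hR]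
      refine Measure.integrableOn_of_bounded (M := 2 * R) (by simp)
        ((((spB_meas a y).comp hmv).add ((spB_meas a y).comp hmv')).mul
          measurable_id).aestronglyMeasurable ?_
      rw [ae_restrict_iff' measurableSet_Ioc]
      refine Filter.Eventually.of_forall fun r hr => ?_
      have b1 := spB_bd a y (r • v)
      have b2 := spB_bd a y (-(r • v))
      rw [norm_mul]
      have b3 : ‖spB a y (r • v) + spB a y (-(r • v))‖ ≤ 2 := by
        refine (norm_add_le _ _).trans ?_
        linarith
      have b4 : ‖r‖ ≤ R := by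
        rw [Real.norm_eq_abs, abs_of_pos hr.1]
        exact hr.2
      exact mul_le_mul b3 b4 (norm_nonneg _) (by norm_num)
    have e7 : ∫ r in (0:ℝ)..R, (G (r • v) + G (-(r • v))) * r =
        (∫ r in (0:ℝ)..R, (spA a (r • v) + spA a (-(r • v))) * r) -
          2 * (1 + y) * ∫ r in (0:ℝ)..R, (spB a y (r • v) + spB a y (-(r • v))) * r := by
      rw [← intervalIntegral.integral_const_mul, ← intervalIntegral.integral_sub jA
        (jB.const_mul _)]
      congr 1
      funext r
      rw [hGs, hGs]
      ring
    rw [e7]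
    have e8 : (∫ r in (0:ℝ)..R, (spB a y (r • v) + spB a y (-(r • v))) * r) =
        ∫ r in (0:ℝ)..R, ((if y ≤ tau a (r • v) ∧ -y ≤ tau a (-(r • v)) then 1 else 0) +
          (if y ≤ tau a (-(r • v)) ∧ -y ≤ tau a (r • v) then 1 else 0)) * r := by
      congr 1
      funext r
      unfold spB
      rw [neg_neg]
    rw [e8]
    unfold spA
    linarith
  · unfold IntegrableOn at hint
    rw [integral_undef hint]

end Pool.Agent.Lib.MP_a773b5_gt
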