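import Pool.Agent.Lib.MP_a773b5_gt.SVol
import Pool.Agent.Lib.MP_a773b5_gt.SCellSum
import Pool.Agent.Lib.MP_a773b5_gt.SPolar

set_option autoImplicit false

namespace Pool.Agent.Lib.MP_a773b5_gt

open MeasureTheory Set

variable {n : ℕ} {a : Fin (n + 1) → P3}

/-- Key inequality in standard position. -/
theorem key_std (h : Std a) {y : ℝ} (hy : 0 ≤ y) (hy1 : y ≤ 1) :
    (1 + y) * secArea (SP a) y ≤
      3 / 4 * ((volume (SP a)).toReal + ∑ i, (a i).1 ^ 2 * (volume (cell a i)).toReal) := by
  have h1 := polar_ineq h hy hy1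
  have h2 := volume_SP h
  have h3 := secArea_SP h y
  have h4 := sum_cells h
  have hi1 : IntegrableOn (fun s => 3 * tau a s) (dom a) volume :=
    ((continuous_tau a).const_mul 3).continuousOn.integrableOn_compact (isCompact_dom h)
  have hi2 : IntegrableOn (fun s => 1 / wc a (sel a s)) (dom a) volume := by
    haveI : IsFiniteMeasure (volume.restrict (dom a)) :=
      ⟨by rw [Measure.restrict_apply_univ]; exact (isCompact_dom h).measure_lt_top⟩
    refine Integrable.of_bound (C := 1) ?_ (Filter.Eventually.of_forall fun s => ?_)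
    · exact ((measurable_of_finite (fun i => 1 / wc a i)).comp
        (measurable_sel a)).aestronglyMeasurable
    · have := one_le_wc h (sel a s)
      rw [Real.norm_eq_abs, abs_of_nonneg (by positivity)]
      rw [div_le_one (by linarith)]
      exact this
  have h5 : ∫ s in dom a, (3 * tau a s + 1 / wc a (sel a s)) =
      3 * (∫ s in dom a, tau a s) + ∫ s in dom a, 1 / wc a (sel a s) := by
    rw [integral_add hi1 hi2, integral_const_mul]
  rw [h5] at h1
  rw [h2, h3, h4]
  linarith

/-- Change of signs: `SP` and `cell` do not change when `a i` is replaced by `-a i`. -/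
theorem key (a : Fin (n + 1) → P3) (hb : Bornology.IsBounded (SP a)) (ht : ∃ i, a i = (1, 0, 0))
    (hq : ∀ i, |(a i).1| ≤ 1) {y : ℝ} (hy : 0 ≤ y) (hy1 : y ≤ 1) :
    (1 + y) * secArea (SP a) y ≤
      3 / 4 * ((volume (SP a)).toReal + ∑ i, (a i).1 ^ 2 * (volume (cell a i)).toReal) := by
  classical
  set a' : Fin (n + 1) → P3 := fun i => if 0 ≤ (a i).1 then a i else -(a i) with ha'
  have habs : ∀ i p, |lf (a' i) p| = |lf (a i) p| := by
    intro i p
    by_cases hi : 0 ≤ (a i).1
    · simp only [ha', hi, if_true]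
    · simp only [ha', hi, if_false]
      have : lf (-(a i)) p = -lf (a i) p := by
        simp only [lf, Prod.fst_neg, Prod.snd_neg]; ring
      rw [this, abs_neg]
  have hSP : SP a' = SP a := by
    ext p; simp only [SP, mem_setOf_eq, habs]
  have hcell : ∀ i, cell a' i = cell a i := by
    intro i
    ext p
    simp only [cell, mem_setOf_eq, habs, hSP]
  have hsq : ∀ i, (a' i).1 ^ 2 = (a i).1 ^ 2 := by
    intro i
    by_cases hi : 0 ≤ (a i).1
    · simp only [ha', hi, if_true]
    · simp only [ha', hi, if_false, Prod.fst_neg]; ring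
  have hstd : Std a' := by
    refine ⟨by rw [hSP]; exact hb, ?_, ?_, ?_⟩
    · intro i
      by_cases hi : 0 ≤ (a i).1
      · simp only [ha', hi, if_true]
      · simp only [ha', hi, if_false, Prod.fst_neg]
        linarith [not_le.1 hi]
    · intro i
      have h1 := abs_le.1 (hq i)
      by_cases hi : 0 ≤ (a i).1
      · simp only [ha', hi, if_true]; exact h1.2
      · simp only [ha', hi, if_false, Prod.fst_neg]
        linarith [h1.1]
    · obtain ⟨i, hi⟩ := ht
      refine ⟨i, ?_⟩
      have h0 : 0 ≤ (a i).1 := by rw [hi]; norm_num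
      show (if 0 ≤ (a i).1 then a i else -(a i)) = _
      rw [if_pos h0, hi]
  have := key_std hstd hy hy1
  rw [hSP] at this
  simpa only [hsq, hcell] using this

end Pool.Agent.Lib.MP_a773b5_gt
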