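import Pool.Agent.Lib.MP_a773b5_gt.SStar

set_option autoImplicit false

namespace Pool.Agent.Lib.MP_a773b5_gt

open MeasureTheory Set

/-- An envelope bounded by `1` of lines with `w i ≥ 1` is antitone on `[0,∞)`: an active line at
`r > 0` has `w i - g i r ≤ 1 ≤ w i`, so `g i ≥ 0`. -/
theorem env_anti {n : ℕ} (w g : Fin n → ℝ) {τ : ℝ → ℝ} (hle : ∀ r i, τ r ≤ w i - g i * r)
    (hsel : ∀ r, ∃ i, τ r = w i - g i * r) (hw : ∀ i, 1 ≤ w i) (h1 : ∀ r, τ r ≤ 1) {r r' : ℝ}
    (hr : 0 ≤ r) (hr' : r ≤ r') : τ r' ≤ τ r := by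
  rcases hr.eq_or_lt with h0 | h0
  · obtain ⟨i, hi⟩ := hsel r
    rw [← h0, mul_zero, sub_zero] at hi
    rw [← h0, hi]
    exact (h1 r').trans (hw i)
  · obtain ⟨i, hi⟩ := hsel r
    have h2 : 0 ≤ g i * r := by
      have := h1 r
      have := hw i
      linarith
    have h3 : 0 ≤ g i := by
      by_contra h
      exact absurd h2 (not_le.2 (mul_neg_of_neg_of_pos (not_le.1 h) h0))
    calc τ r' ≤ w i - g i * r' := hle r' i
      _ ≤ w i - g i * r := by
        have := mul_le_mul_of_nonneg_left hr' h3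
        linarith
      _ = τ r := hi.symm

/-- One ray on which `τ ≥ -y` up to `c`: if `{r ∈ [0,c] | y ≤ τ r} = [0,a]` then
`(1 + y) a² ≤ ∫ (3 τ + 1/Ω) r` over `[0,c]`; here in the form of a length integral. (With `a` the
largest point of `[0,c]` with `y ≤ τ a`: `ray_star` on `[0,a]`; if `a < c` then `τ a = y` and
`ray_J` on `[a,c]`.) -/
theorem ray_one {n : ℕ} (w g : Fin n → ℝ) {τ Ω : ℝ → ℝ} (hle : ∀ r i, τ r ≤ w i - g i * r)
    (hsel : ∀ r, ∃ i, τ r = w i - g i * r ∧ Ω r = w i) (hw : ∀ i, 1 ≤ w i) (h1 : ∀ r, τ r ≤ 1)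
    {y c : ℝ} (hy : 0 ≤ y) (hy1 : y ≤ 1) (hc : 0 ≤ c) (htc : -y ≤ τ c) :
    2 * (1 + y) * (∫ r in (0:ℝ)..c, (if y ≤ τ r then 1 else 0) * r) ≤
      ∫ r in (0:ℝ)..c, (3 * τ r + 1 / Ω r) * r := by
  have hsel' : ∀ r, ∃ i, τ r = w i - g i * r := fun r => by
    obtain ⟨i, hi, -⟩ := hsel r; exact ⟨i, hi⟩
  have hcont : Continuous τ := env_cont w g hle hsel'
  have hanti : ∀ {r r' : ℝ}, 0 ≤ r → r ≤ r' → τ r' ≤ τ r := fun h h' =>
    env_anti w g hle hsel' hw h1 h h'
  have hint : ∀ u v, IntervalIntegrable (fun r => (3 * τ r + 1 / Ω r) * r) volume u v := by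
    intro u v
    refine IntervalIntegrable.mul_continuousOn ?_ continuousOn_id
    exact ((hcont.const_mul 3).intervalIntegrable u v).add (env_int w g hle hsel hw u v).2
  have hτ0 : y ≤ τ 0 := by
    obtain ⟨i, hi, -⟩ := hsel 0
    rw [hi, mul_zero, sub_zero]
    exact hy1.trans (hw i)
  have hval : ∀ a : ℝ, 0 ≤ a → a ≤ c → y ≤ τ a → (∀ r, a < r → r ≤ c → ¬ y ≤ τ r) →
      (∫ r in (0:ℝ)..c, (if y ≤ τ r then 1 else 0) * r) = a ^ 2 / 2 := by
    intro a ha hac hya hmax
    have e1 : ∀ r ∈ uIoc 0 a, (if y ≤ τ r then (1:ℝ) else 0) * r = r := by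
      intro r hr
      rw [uIoc_of_le ha] at hr
      rw [if_pos (hya.trans (hanti hr.1.le hr.2)), one_mul]
    have e2 : ∀ r ∈ uIoc a c, (if y ≤ τ r then (1:ℝ) else 0) * r = 0 := by
      intro r hr
      rw [uIoc_of_le hac] at hr
      rw [if_neg (hmax r hr.1 hr.2), zero_mul]
    have i1 : IntervalIntegrable (fun r => (if y ≤ τ r then (1:ℝ) else 0) * r) volume 0 a := by
      refine (intervalIntegrable_congr (f := fun r => r) (g := _) ?_).1
        (continuous_id.intervalIntegrable 0 a)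
      intro r hr
      exact (e1 r hr).symm
    have i2 : IntervalIntegrable (fun r => (if y ≤ τ r then (1:ℝ) else 0) * r) volume a c := by
      refine (intervalIntegrable_congr (f := fun _ => (0:ℝ)) (g := _) ?_).1
        (continuous_const.intervalIntegrable a c)
      intro r hr
      exact (e2 r hr).symm
    rw [← intervalIntegral.integral_add_adjacent_intervals i1 i2]
    rw [intervalIntegral.integral_congr_ae (Filter.Eventually.of_forall e1),
      intervalIntegral.integral_congr_ae (Filter.Eventually.of_forall e2)]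
    simp
  by_cases hyc : y ≤ τ c
  · rw [hval c hc le_rfl hyc (fun r h h' => absurd h (not_lt.2 h'))]
    have h2 := ray_star w g hle hsel hw hc
    nlinarith [sq_nonneg c]
  · have hS : IsCompact {r | r ∈ Icc 0 c ∧ y ≤ τ r} := by
      exact isCompact_Icc.inter_right (isClosed_le continuous_const hcont)
    obtain ⟨a, ⟨⟨ha0, hac⟩, hya⟩, hmax⟩ := hS.exists_isGreatest
      ⟨0, ⟨le_rfl, hc⟩, hτ0⟩
    have hmax' : ∀ r, a < r → r ≤ c → ¬ y ≤ τ r := by
      intro r h h' hyr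
      exact absurd (hmax ⟨⟨ha0.trans h.le, h'⟩, hyr⟩) (not_le.2 h)
    have hta : τ a = y := by
      obtain ⟨a', ha', hτa'⟩ := intermediate_value_Icc' hac hcont.continuousOn
        (⟨(not_le.1 hyc).le, hya⟩ : y ∈ Icc (τ c) (τ a))
      have : a' ≤ a := hmax ⟨⟨ha0.trans ha'.1, ha'.2⟩, hτa'.ge⟩
      have : a' = a := le_antisymm this ha'.1
      rw [← this, hτa']
    rw [hval a ha0 hac hya hmax']
    rw [← intervalIntegral.integral_add_adjacent_intervals (hint 0 a) (hint a c)]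
    have h2 := ray_star w g hle hsel hw ha0
    have h3 := ray_J w g hle hsel hw hy hy1 ha0 hac hta htc
    rw [hta] at h2
    nlinarith

end Pool.Agent.Lib.MP_a773b5_gt
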