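import Pool.Agent.Lib.MP_a773b5_gt.SOne

set_option autoImplicit false

namespace Pool.Agent.Lib.MP_a773b5_gt

open MeasureTheory Set

private theorem spair_int {n : ℕ} (w g : Fin n → ℝ) {τ Ω : ℝ → ℝ}
    (hle : ∀ r i, τ r ≤ w i - g i * r)
    (hsel : ∀ r, ∃ i, τ r = w i - g i * r ∧ Ω r = w i) (hw : ∀ i, 1 ≤ w i) (a b : ℝ) :
    IntervalIntegrable (fun r => (3 * τ r + 1 / Ω r) * r) volume a b := by
  have hc := env_cont w g hle fun r => (hsel r).imp fun i h => h.1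
  obtain ⟨h1, h2⟩ := env_int w g hle hsel hw a b
  have i1 : IntervalIntegrable (fun r => τ r * r) volume a b :=
    (hc.mul continuous_id).intervalIntegrable _ _
  have i3 : IntervalIntegrable (fun r => 1 / Ω r * r) volume a b :=
    h2.mul_continuousOn continuousOn_id
  have e2 : (fun r => (3 * τ r + 1 / Ω r) * r) = fun r => 3 * (τ r * r) + 1 / Ω r * r := by
    funext r
    ring
  rw [e2]
  exact (i1.const_mul 3).add i3

private theorem spair_ind (p : ℝ → Prop) [DecidablePred p] (hp : MeasurableSet {r | p r})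
    (a b : ℝ) : IntervalIntegrable (fun r => (if p r then (1:ℝ) else 0) * r) volume a b := by
  have e : (fun r => (if p r then (1:ℝ) else 0) * r) = indicator {r | p r} fun r => r := by
    funext r
    by_cases h : p r <;> simp [h]
  rw [e]
  have h := (continuous_id.intervalIntegrable a b : IntervalIntegrable (fun r : ℝ => r) volume a b)
  exact ⟨h.1.indicator hp, h.2.indicator hp⟩

/-- The case `τ R < -y`. -/
private theorem spair_aux {n : ℕ} (w g w' g' : Fin n → ℝ) {τ Ω τ' Ω' : ℝ → ℝ}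
    (hle : ∀ r i, τ r ≤ w i - g i * r) (hsel : ∀ r, ∃ i, τ r = w i - g i * r ∧ Ω r = w i)
    (hle' : ∀ r i, τ' r ≤ w' i - g' i * r)
    (hsel' : ∀ r, ∃ i, τ' r = w' i - g' i * r ∧ Ω' r = w' i)
    (hw : ∀ i, 1 ≤ w i) (hw' : ∀ i, 1 ≤ w' i) (h1 : ∀ r, τ r ≤ 1) (h1' : ∀ r, τ' r ≤ 1)
    {R y : ℝ} (hR : 0 ≤ R) (hs : ∀ r ∈ Icc 0 R, 0 ≤ τ r + τ' r) (hy : 0 ≤ y) (hy1 : y ≤ 1)
    (hRy : τ R < -y) :
    2 * (1 + y) * (∫ r in (0:ℝ)..R, ((if y ≤ τ r ∧ -y ≤ τ' r then 1 else 0) +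
        (if y ≤ τ' r ∧ -y ≤ τ r then 1 else 0)) * r) ≤
      ∫ r in (0:ℝ)..R, ((3 * τ r + 1 / Ω r) + (3 * τ' r + 1 / Ω' r)) * r := by
  have hc := env_cont w g hle fun r => (hsel r).imp fun i h => h.1
  have hc' := env_cont w' g' hle' fun r => (hsel' r).imp fun i h => h.1
  have anti : ∀ {r r' : ℝ}, 0 ≤ r → r ≤ r' → τ r' ≤ τ r := fun h h' =>
    env_anti w g hle (fun r => (hsel r).imp fun i h => h.1) hw h1 h h'
  have anti' : ∀ {r r' : ℝ}, 0 ≤ r → r ≤ r' → τ' r' ≤ τ' r := fun h h' =>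
    env_anti w' g' hle' (fun r => (hsel' r).imp fun i h => h.1) hw' h1' h h'
  have hΩ : ∀ r, 0 < 1 / Ω r := by
    intro r
    obtain ⟨i, -, h⟩ := hsel r
    rw [h]
    have := hw i
    positivity
  have hΩ' : ∀ r, 0 < 1 / Ω' r := by
    intro r
    obtain ⟨i, -, h⟩ := hsel' r
    rw [h]
    have := hw' i
    positivity
  -- the last point with `-y ≤ τ`
  have hcomp : IsCompact {r | r ∈ Icc 0 R ∧ -y ≤ τ r} := by
    have : IsClosed {r | r ∈ Icc 0 R ∧ -y ≤ τ r} :=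
      isClosed_Icc.inter (isClosed_le continuous_const hc)
    exact isCompact_Icc.of_isClosed_subset this fun r hr => hr.1
  have h0 : 1 ≤ τ 0 := by
    obtain ⟨i, h, -⟩ := hsel 0
    rw [h, mul_zero, sub_zero]
    exact hw i
  obtain ⟨c, ⟨⟨hc0, hcR⟩, hcy⟩, hmax⟩ := hcomp.exists_isGreatest
    ⟨0, left_mem_Icc.2 hR, by linarith⟩
  have hlt : ∀ r, c < r → r ≤ R → τ r < -y := by
    intro r hr hrR
    by_contra h
    have : r ≤ c := hmax ⟨⟨hc0.trans hr.le, hrR⟩, not_lt.1 h⟩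
    linarith
  have hy' : ∀ r, 0 ≤ r → r ≤ R → y ≤ τ' r := by
    intro r hr hrR
    have h2 := anti' hr hrR
    have h3 := hs R (right_mem_Icc.2 hR)
    linarith
  have m1 : MeasurableSet {r | y ≤ τ r} := (isClosed_le continuous_const hc).measurableSet
  have m2 : MeasurableSet {r | y ≤ τ r ∧ -y ≤ τ' r} :=
    (m1.inter (isClosed_le continuous_const hc').measurableSet)
  have m3 : MeasurableSet {r | y ≤ τ' r ∧ -y ≤ τ r} :=
    ((isClosed_le continuous_const hc').measurableSet.inter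
      (isClosed_le continuous_const hc).measurableSet)
  have eL : (fun r : ℝ => ((if y ≤ τ r ∧ -y ≤ τ' r then (1:ℝ) else 0) +
        (if y ≤ τ' r ∧ -y ≤ τ r then 1 else 0)) * r) = fun r =>
        (if y ≤ τ r ∧ -y ≤ τ' r then (1:ℝ) else 0) * r +
        (if y ≤ τ' r ∧ -y ≤ τ r then (1:ℝ) else 0) * r := by
    funext r
    ring
  have eR : (fun r : ℝ => ((3 * τ r + 1 / Ω r) + (3 * τ' r + 1 / Ω' r)) * r) = fun r =>
      (3 * τ r + 1 / Ω r) * r + (3 * τ' r + 1 / Ω' r) * r := by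
    funext r
    ring
  have iL : ∀ a b, IntervalIntegrable (fun r : ℝ => ((if y ≤ τ r ∧ -y ≤ τ' r then (1:ℝ) else 0) +
        (if y ≤ τ' r ∧ -y ≤ τ r then 1 else 0)) * r) volume a b := by
    intro a b
    rw [eL]
    exact (spair_ind _ m2 a b).add (spair_ind _ m3 a b)
  have i1 := spair_int w g hle hsel hw
  have i2 := spair_int w' g' hle' hsel' hw'
  have iR : ∀ a b, IntervalIntegrable
      (fun r : ℝ => ((3 * τ r + 1 / Ω r) + (3 * τ' r + 1 / Ω' r)) * r) volume a b := by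
    intro a b
    rw [eR]
    exact (i1 a b).add (i2 a b)
  -- split both integrals at `c`
  rw [← intervalIntegral.integral_add_adjacent_intervals (iL 0 c) (iL c R),
    ← intervalIntegral.integral_add_adjacent_intervals (iR 0 c) (iR c R)]
  have A : ∫ r in c..R, ((if y ≤ τ r ∧ -y ≤ τ' r then (1:ℝ) else 0) +
        (if y ≤ τ' r ∧ -y ≤ τ r then 1 else 0)) * r ≤ 0 := by
    have h2 : ∫ r in c..R, ((if y ≤ τ r ∧ -y ≤ τ' r then (1:ℝ) else 0) +
        (if y ≤ τ' r ∧ -y ≤ τ r then 1 else 0)) * r = ∫ r in c..R, (0:ℝ) := by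
      rw [intervalIntegral.integral_of_le hcR, intervalIntegral.integral_of_le hcR]
      refine setIntegral_congr_fun measurableSet_Ioc fun r hr => ?_
      have h3 := hlt r hr.1 hr.2
      have h4 : ¬ (y ≤ τ r) := by
        intro h
        linarith
      have h5 : ¬ (-y ≤ τ r) := not_le.2 h3
      simp [h4, h5]
    rw [h2]
    simp
  have B : 0 ≤ ∫ r in c..R, ((3 * τ r + 1 / Ω r) + (3 * τ' r + 1 / Ω' r)) * r := by
    refine intervalIntegral.integral_nonneg hcR fun r hr => ?_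
    have h2 := hs r ⟨hc0.trans hr.1, hr.2⟩
    have h3 := hΩ r
    have h4 := hΩ' r
    exact mul_nonneg (by linarith) (hc0.trans hr.1)
  have C : ∫ r in (0:ℝ)..c, ((if y ≤ τ r ∧ -y ≤ τ' r then (1:ℝ) else 0) +
        (if y ≤ τ' r ∧ -y ≤ τ r then 1 else 0)) * r ≤
      (∫ r in (0:ℝ)..c, (if y ≤ τ r then (1:ℝ) else 0) * r) + c ^ 2 / 2 := by
    have i3 := spair_ind _ m1 0 c
    have i4 : IntervalIntegrable (fun r : ℝ => r) volume 0 c :=
      (continuous_id.intervalIntegrable 0 c : IntervalIntegrable (fun r : ℝ => r) volume 0 c)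
    have h2 : ∫ r in (0:ℝ)..c, ((if y ≤ τ r ∧ -y ≤ τ' r then (1:ℝ) else 0) +
        (if y ≤ τ' r ∧ -y ≤ τ r then 1 else 0)) * r ≤
        ∫ r in (0:ℝ)..c, ((if y ≤ τ r then (1:ℝ) else 0) * r + r) := by
      refine intervalIntegral.integral_mono_on hc0 (iL 0 c) (i3.add i4) fun r hr => ?_
      have h5 : ((if y ≤ τ r ∧ -y ≤ τ' r then (1:ℝ) else 0) +
          (if y ≤ τ' r ∧ -y ≤ τ r then 1 else 0)) ≤ (if y ≤ τ r then (1:ℝ) else 0) + 1 := by
        have h6 : (if y ≤ τ r ∧ -y ≤ τ' r then (1:ℝ) else 0) ≤ if y ≤ τ r then (1:ℝ) else 0 := by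
          by_cases h : y ≤ τ r
          · by_cases h' : -y ≤ τ' r <;> simp [h, h']
          · simp [h]
        have h7 : (if y ≤ τ' r ∧ -y ≤ τ r then (1:ℝ) else 0) ≤ 1 := by
          split_ifs <;> norm_num
        linarith
      have h8 := mul_le_mul_of_nonneg_right h5 hr.1
      linarith
    rw [intervalIntegral.integral_add i3 i4] at h2
    have h3 : ∫ r in (0:ℝ)..c, r = c ^ 2 / 2 := by
      rw [integral_id]
      ring
    rw [h3] at h2
    exact h2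
  have D := ray_one w g hle hsel hw h1 hy hy1 hc0 hcy
  have E := ray_star w' g' hle' hsel' hw' hc0
  have F : (1 + y) * c ^ 2 ≤ ∫ r in (0:ℝ)..c, (3 * τ' r + 1 / Ω' r) * r :=
    (mul_le_mul_of_nonneg_right (by linarith [hy' c hc0 hcR]) (sq_nonneg c)).trans E
  have G : ∫ r in (0:ℝ)..c, ((3 * τ r + 1 / Ω r) + (3 * τ' r + 1 / Ω' r)) * r =
      (∫ r in (0:ℝ)..c, (3 * τ r + 1 / Ω r) * r) +
        ∫ r in (0:ℝ)..c, (3 * τ' r + 1 / Ω' r) * r := by
    rw [eR, intervalIntegral.integral_add (i1 0 c) (i2 0 c)]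
  rw [G]
  have h1y : 0 ≤ 2 * (1 + y) := by linarith
  have H := mul_le_mul_of_nonneg_left (add_le_add C A) h1y
  linarith

/-- Two opposite rays. If both `τ R ≥ -y` and `τ' R ≥ -y`, apply `ray_one` twice. Otherwise, say,
`τ R < -y`; let `τ c = -y`, `0 ≤ c < R`. Then `τ' ≥ -τ ≥ y` on `[c,R]`, hence (`env_anti`) `τ' ≥ y`
on `[0,R]`; the first indicator is that of `y ≤ τ`, the second one that of `r ≤ c` (up to a null
set). Use `ray_one` for `τ` on `[0,c]`, `ray_star` for `τ'` on `[0,c]` and `τ + τ' ≥ 0` on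
`[c,R]`. -/
theorem ray_pair {n : ℕ} (w g w' g' : Fin n → ℝ) {τ Ω τ' Ω' : ℝ → ℝ}
    (hle : ∀ r i, τ r ≤ w i - g i * r) (hsel : ∀ r, ∃ i, τ r = w i - g i * r ∧ Ω r = w i)
    (hle' : ∀ r i, τ' r ≤ w' i - g' i * r)
    (hsel' : ∀ r, ∃ i, τ' r = w' i - g' i * r ∧ Ω' r = w' i)
    (hw : ∀ i, 1 ≤ w i) (hw' : ∀ i, 1 ≤ w' i) (h1 : ∀ r, τ r ≤ 1) (h1' : ∀ r, τ' r ≤ 1)
    {R y : ℝ} (hR : 0 ≤ R) (hs : ∀ r ∈ Icc 0 R, 0 ≤ τ r + τ' r) (hy : 0 ≤ y) (hy1 : y ≤ 1) :
    2 * (1 + y) * (∫ r in (0:ℝ)..R, ((if y ≤ τ r ∧ -y ≤ τ' r then 1 else 0) +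
        (if y ≤ τ' r ∧ -y ≤ τ r then 1 else 0)) * r) ≤
      ∫ r in (0:ℝ)..R, ((3 * τ r + 1 / Ω r) + (3 * τ' r + 1 / Ω' r)) * r := by
  rcases lt_or_ge (τ R) (-y) with hA | hA
  · exact spair_aux w g w' g' hle hsel hle' hsel' hw hw' h1 h1' hR hs hy hy1 hA
  rcases lt_or_ge (τ' R) (-y) with hB | hB
  · have h := spair_aux w' g' w g hle' hsel' hle hsel hw' hw h1' h1 hR
      (fun r hr => by linarith [hs r hr]) hy hy1 hB
    have e1 : (fun r : ℝ => ((if y ≤ τ' r ∧ -y ≤ τ r then (1:ℝ) else 0) +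
        (if y ≤ τ r ∧ -y ≤ τ' r then 1 else 0)) * r) = fun r : ℝ =>
        ((if y ≤ τ r ∧ -y ≤ τ' r then (1:ℝ) else 0) +
        (if y ≤ τ' r ∧ -y ≤ τ r then 1 else 0)) * r := by
      funext r
      rw [add_comm]
    have e2 : (fun r : ℝ => ((3 * τ' r + 1 / Ω' r) + (3 * τ r + 1 / Ω r)) * r) = fun r : ℝ =>
        ((3 * τ r + 1 / Ω r) + (3 * τ' r + 1 / Ω' r)) * r := by
      funext r
      rw [add_comm (3 * τ' r + 1 / Ω' r)]
    rw [e1, e2] at h
    exact h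
  have hc := env_cont w g hle fun r => (hsel r).imp fun i h => h.1
  have hc' := env_cont w' g' hle' fun r => (hsel' r).imp fun i h => h.1
  have m1 : MeasurableSet {r | y ≤ τ r} := (isClosed_le continuous_const hc).measurableSet
  have m1' : MeasurableSet {r | y ≤ τ' r} := (isClosed_le continuous_const hc').measurableSet
  have m2 : MeasurableSet {r | y ≤ τ r ∧ -y ≤ τ' r} :=
    (m1.inter (isClosed_le continuous_const hc').measurableSet)
  have m3 : MeasurableSet {r | y ≤ τ' r ∧ -y ≤ τ r} :=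
    (m1'.inter (isClosed_le continuous_const hc).measurableSet)
  have eL : (fun r : ℝ => ((if y ≤ τ r ∧ -y ≤ τ' r then (1:ℝ) else 0) +
        (if y ≤ τ' r ∧ -y ≤ τ r then 1 else 0)) * r) = fun r =>
        (if y ≤ τ r ∧ -y ≤ τ' r then (1:ℝ) else 0) * r +
        (if y ≤ τ' r ∧ -y ≤ τ r then (1:ℝ) else 0) * r := by
    funext r
    ring
  have eR : (fun r : ℝ => ((3 * τ r + 1 / Ω r) + (3 * τ' r + 1 / Ω' r)) * r) = fun r =>
      (3 * τ r + 1 / Ω r) * r + (3 * τ' r + 1 / Ω' r) * r := by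
    funext r
    ring
  have i1 := spair_int w g hle hsel hw 0 R
  have i2 := spair_int w' g' hle' hsel' hw' 0 R
  have D := ray_one w g hle hsel hw h1 hy hy1 hR hA
  have D' := ray_one w' g' hle' hsel' hw' h1' hy hy1 hR hB
  have H1 : ∫ r in (0:ℝ)..R, (if y ≤ τ r ∧ -y ≤ τ' r then (1:ℝ) else 0) * r ≤
      ∫ r in (0:ℝ)..R, (if y ≤ τ r then (1:ℝ) else 0) * r := by
    refine intervalIntegral.integral_mono_on hR (spair_ind _ m2 0 R) (spair_ind _ m1 0 R)
      fun r hr => mul_le_mul_of_nonneg_right ?_ hr.1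
    by_cases h : y ≤ τ r
    · by_cases h' : -y ≤ τ' r <;> simp [h, h']
    · simp [h]
  have H2 : ∫ r in (0:ℝ)..R, (if y ≤ τ' r ∧ -y ≤ τ r then (1:ℝ) else 0) * r ≤
      ∫ r in (0:ℝ)..R, (if y ≤ τ' r then (1:ℝ) else 0) * r := by
    refine intervalIntegral.integral_mono_on hR (spair_ind _ m3 0 R) (spair_ind _ m1' 0 R)
      fun r hr => mul_le_mul_of_nonneg_right ?_ hr.1
    by_cases h : y ≤ τ' r
    · by_cases h' : -y ≤ τ r <;> simp [h, h']
    · simp [h]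
  rw [eL, eR, intervalIntegral.integral_add i1 i2,
    intervalIntegral.integral_add (spair_ind _ m2 0 R) (spair_ind _ m3 0 R)]
  have h1y : 0 ≤ 2 * (1 + y) := by linarith
  have H := mul_le_mul_of_nonneg_left (add_le_add H1 H2) h1y
  linarith

end Pool.Agent.Lib.MP_a773b5_gt
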