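import Pool.Agent.Lib.MP_a773b5_gt.STau
import Pool.Agent.Lib.MP_a773b5_gt.SPair

set_option autoImplicit false

namespace Pool.Agent.Lib.MP_a773b5_gt

open MeasureTheory Set

variable {n : ℕ} {a : Fin (n + 1) → P3}

/-- The inequality on one line through the origin: with `v = (cos θ, sin θ)` and `dom a ∩ ray =
[0,R] v` (`isCompact_dom`, `convex_dom`, `zero_mem_dom`, `neg_mem_dom`), this is `ray_pair` for
`τ r = tau a (r v)`, `Ω r = wc a (sel a (r v))`, `w i = wc a i`, `g i = gc a i · v` and the same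
with `-v`. -/
theorem polar_ray (h : Std a) {y : ℝ} (hy : 0 ≤ y) (hy1 : y ≤ 1) (v : ℝ × ℝ) (hv : v ≠ 0) :
    ∃ R : ℝ, 0 ≤ R ∧ (∀ r : ℝ, 0 ≤ r → (r • v ∈ dom a ↔ r ≤ R)) ∧
      2 * (1 + y) * (∫ r in (0:ℝ)..R,
        ((if y ≤ tau a (r • v) ∧ -y ≤ tau a (-(r • v)) then 1 else 0) +
          (if y ≤ tau a (-(r • v)) ∧ -y ≤ tau a (r • v) then 1 else 0)) * r) ≤
      ∫ r in (0:ℝ)..R, ((3 * tau a (r • v) + 1 / wc a (sel a (r • v))) +
        (3 * tau a (-(r • v)) + 1 / wc a (sel a (-(r • v))))) * r := by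
  have hvn : 0 < ‖v‖ := norm_pos_iff.2 hv
  have hcont : Continuous fun r : ℝ => r • v := continuous_id.smul continuous_const
  have hcomp : IsCompact {r : ℝ | 0 ≤ r ∧ r • v ∈ dom a} := by
    refine Metric.isCompact_of_isClosed_isBounded ?_ ?_
    · exact isClosed_Ici.inter ((isCompact_dom h).isClosed.preimage hcont)
    · obtain ⟨C, hC⟩ := (isCompact_dom h).isBounded.exists_norm_le
      refine (Metric.isBounded_Icc (0:ℝ) (C / ‖v‖)).subset ?_
      rintro r ⟨hr0, hr⟩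
      refine ⟨hr0, ?_⟩
      have := hC _ hr
      rw [norm_smul, Real.norm_eq_abs, abs_of_nonneg hr0] at this
      rwa [le_div_iff₀ hvn]
  obtain ⟨R, ⟨hR0, hR⟩, hmax⟩ := hcomp.exists_isGreatest
    ⟨0, le_rfl, by rw [zero_smul]; exact zero_mem_dom a⟩
  have hiff : ∀ r : ℝ, 0 ≤ r → (r • v ∈ dom a ↔ r ≤ R) := by
    intro r hr
    refine ⟨fun hm => hmax ⟨hr, hm⟩, fun hle => ?_⟩
    rcases hR0.eq_or_lt with h0 | h0
    · have : r = 0 := le_antisymm (by rw [h0]; exact hle) hr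
      rw [this, zero_smul]; exact zero_mem_dom a
    · have h2 := convex_dom a hR (zero_mem_dom a) (show (0:ℝ) ≤ r / R by positivity)
        (show (0:ℝ) ≤ 1 - r / R by rw [sub_nonneg, div_le_one h0]; exact hle) (by ring)
      rw [smul_zero, add_zero, smul_smul, div_mul_cancel₀ _ h0.ne'] at h2
      exact h2
  refine ⟨R, hR0, hiff, ?_⟩
  have hup : ∀ i (r : ℝ), up a i (r • v) = wc a i - ((gc a i).1 * v.1 + (gc a i).2 * v.2) * r := by
    intro i r
    simp only [up, Prod.smul_fst, Prod.smul_snd, smul_eq_mul]; ring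
  have hup' : ∀ i (r : ℝ), up a i (-(r • v)) =
      wc a i - (-((gc a i).1 * v.1 + (gc a i).2 * v.2)) * r := by
    intro i r
    simp only [up, Prod.fst_neg, Prod.snd_neg, Prod.smul_fst, Prod.smul_snd, smul_eq_mul]; ring
  refine ray_pair (fun i => wc a i) (fun i => (gc a i).1 * v.1 + (gc a i).2 * v.2)
    (fun i => wc a i) (fun i => -((gc a i).1 * v.1 + (gc a i).2 * v.2))
    (τ := fun r => tau a (r • v)) (Ω := fun r => wc a (sel a (r • v)))
    (τ' := fun r => tau a (-(r • v))) (Ω' := fun r => wc a (sel a (-(r • v))))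
    ?_ ?_ ?_ ?_ (one_le_wc h) (one_le_wc h) (fun r => tau_le_one h _) (fun r => tau_le_one h _)
    hR0 ?_ hy hy1
  · intro r i
    show tau a (r • v) ≤ _
    rw [← hup]; exact tau_le a i _
  · intro r
    refine ⟨sel a (r • v), ?_, rfl⟩
    show tau a (r • v) = _
    rw [← hup]; exact (up_sel a _).symm
  · intro r i
    show tau a (-(r • v)) ≤ _
    rw [← hup']; exact tau_le a i _
  · intro r
    refine ⟨sel a (-(r • v)), ?_, rfl⟩
    show tau a (-(r • v)) = _
    rw [← hup']; exact (up_sel a _).symm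
  · rintro r ⟨hr0, hr⟩
    exact tau_add_nonneg h ((hiff r hr0).2 hr)

end Pool.Agent.Lib.MP_a773b5_gt
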