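import Pool.Agent.Lib.MP_a773b5_gt.SDefs
import Pool.Agent.Lib.MP_a773b5_gt.Aff

set_option autoImplicit false

namespace Pool.Agent.Lib.MP_a773b5_gt

open MeasureTheory Set
open scoped ENNReal

variable {n : ℕ}

/-- The linear form as a linear map. -/
private def lfL (c : P3) : P3 →ₗ[ℝ] ℝ where
  toFun p := lf c p
  map_add' p q := by
    simp only [lf, Prod.fst_add, Prod.snd_add]
    ring
  map_smul' t p := by
    simp only [lf, Prod.smul_fst, Prod.smul_snd, smul_eq_mul, RingHom.id_apply]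
    ring

private theorem lfL_apply (c p : P3) : lfL c p = lf c p := rfl

/-- Coordinates in which `q = (1,0,0)` and the first coordinate is the form `c`. -/
theorem exists_pos (c q : P3) (h : lf c q = 1) :
    ∃ e : P3 ≃ₗ[ℝ] P3, (∀ p, (e p).1 = lf c p) ∧ e q = (1, 0, 0) := by
  have hsurj : Function.Surjective (lfL c) := by
    intro t
    refine ⟨t • q, ?_⟩
    rw [map_smul, lfL_apply, h, smul_eq_mul, mul_one]
  have hrank : Module.finrank ℝ (LinearMap.ker (lfL c)) = Module.finrank ℝ (ℝ × ℝ) := by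
    have h1 := LinearMap.finrank_range_add_finrank_ker (lfL c)
    rw [LinearMap.range_eq_top.2 hsurj, finrank_top] at h1
    have h2 : Module.finrank ℝ P3 = 3 := by
      simp [P3, Module.finrank_prod]
    have h3 : Module.finrank ℝ (ℝ × ℝ) = 2 := by
      simp [Module.finrank_prod]
    have h4 : Module.finrank ℝ ℝ = 1 := Module.finrank_self ℝ
    omega
  let φ : LinearMap.ker (lfL c) ≃ₗ[ℝ] ℝ × ℝ := LinearEquiv.ofFinrankEq _ _ hrank
  let pr : P3 →ₗ[ℝ] LinearMap.ker (lfL c) :=
    LinearMap.codRestrict (LinearMap.ker (lfL c))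
      (LinearMap.id - (LinearMap.toSpanSingleton ℝ P3 q).comp (lfL c)) (by
        intro p
        rw [LinearMap.mem_ker]
        simp only [LinearMap.sub_apply, LinearMap.id_apply, LinearMap.comp_apply,
          LinearMap.toSpanSingleton_apply, map_sub, map_smul, smul_eq_mul]
        rw [lfL_apply c q, h]
        ring)
  have hpr : ∀ p, (pr p : P3) = p - lf c p • q := fun p => rfl
  let g : P3 →ₗ[ℝ] P3 := (lfL c).prod (φ.toLinearMap.comp pr)
  have hg : ∀ p, g p = (lf c p, φ (pr p)) := fun p => rfl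
  have hinj : Function.Injective g := by
    rw [← LinearMap.ker_eq_bot, LinearMap.ker_eq_bot']
    intro p hp
    rw [hg] at hp
    have h1 : lf c p = 0 := congrArg Prod.fst hp
    have h2 : φ (pr p) = 0 := congrArg Prod.snd hp
    have h3 : pr p = 0 := by
      rw [← φ.map_zero] at h2
      exact φ.injective h2
    have h4 := hpr p
    rw [h3, h1, zero_smul, sub_zero] at h4
    exact h4.symm
  refine ⟨LinearEquiv.ofInjectiveEndo g hinj, fun p => ?_, ?_⟩
  · rw [LinearEquiv.coe_ofInjectiveEndo, hg]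
  · rw [LinearEquiv.coe_ofInjectiveEndo, hg, h]
    have h3 : pr q = 0 := by
      apply Subtype.ext
      rw [hpr, h, one_smul, sub_self]
      rfl
    rw [h3, map_zero]
    rfl

/-- Transport of a form. -/
theorem exists_form (e : P3 ≃ₗ[ℝ] P3) (c : P3) : ∃ c' : P3, ∀ p, lf c' (e p) = lf c p := by
  let l : P3 →ₗ[ℝ] ℝ := (lfL c).comp e.symm.toLinearMap
  refine ⟨(l (1, 0, 0), l (0, 1, 0), l (0, 0, 1)), fun p => ?_⟩
  have key : ∀ x : P3, lf (l (1, 0, 0), l (0, 1, 0), l (0, 0, 1)) x = l x := by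
    intro x
    have hx : x = x.1 • ((1, 0, 0) : P3) + x.2.1 • ((0, 1, 0) : P3) + x.2.2 • ((0, 0, 1) : P3) := by
      ext <;> simp
    conv_rhs => rw [hx]
    rw [map_add, map_add, map_smul, map_smul, map_smul]
    simp only [lf, smul_eq_mul]
    ring
  rw [key]
  change lfL c (e.symm (e p)) = lf c p
  rw [e.symm_apply_apply]
  rfl

theorem image_SP (e : P3 ≃ₗ[ℝ] P3) {a a' : Fin (n + 1) → P3}
    (h : ∀ i p, lf (a' i) (e p) = lf (a i) p) : SP a' = e '' SP a := by
  ext x
  constructor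
  · intro hx
    refine ⟨e.symm x, fun i => ?_, e.apply_symm_apply x⟩
    rw [← h, e.apply_symm_apply]
    exact hx i
  · rintro ⟨p, hp, rfl⟩ i
    rw [h]
    exact hp i

theorem image_cell (e : P3 ≃ₗ[ℝ] P3) {a a' : Fin (n + 1) → P3}
    (h : ∀ i p, lf (a' i) (e p) = lf (a i) p) (i : Fin (n + 1)) : cell a' i = e '' cell a i := by
  ext x
  constructor
  · intro hx
    refine ⟨e.symm x, ⟨fun j => ?_, fun j => ?_, fun j hj => ?_⟩, e.apply_symm_apply x⟩
    · rw [← h, e.apply_symm_apply]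
      exact hx.1 j
    · rw [← h, ← h, e.apply_symm_apply]
      exact hx.2.1 j
    · rw [← h, ← h, e.apply_symm_apply]
      exact hx.2.2 j hj
  · rintro ⟨p, hp, rfl⟩
    refine ⟨fun j => ?_, fun j => ?_, fun j hj => ?_⟩
    · rw [h]
      exact hp.1 j
    · rw [h, h]
      exact hp.2.1 j
    · rw [h, h]
      exact hp.2.2 j hj

/-- A linear equivalence scales volumes. -/
theorem exists_scale_lin (e : P3 ≃ₗ[ℝ] P3) :
    ∃ k : ℝ, 0 < k ∧ ∀ S : Set P3, (volume (e '' S)).toReal = k * (volume S).toReal := by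
  have : (volume : Measure (ℝ × ℝ)).IsAddHaarMeasure :=
    inferInstanceAs ((volume : Measure ℝ).prod (volume : Measure ℝ)).IsAddHaarMeasure
  have : (volume : Measure P3).IsAddHaarMeasure :=
    inferInstanceAs ((volume : Measure ℝ).prod (volume : Measure (ℝ × ℝ))).IsAddHaarMeasure
  obtain ⟨c, h0, h1, h2⟩ := exists_scale (E := P3) (F := P3) e.toAffineEquiv
  refine ⟨c.toReal, ENNReal.toReal_pos h0 h1, fun S => ?_⟩
  rw [← ENNReal.toReal_mul, ← h2 S]
  rfl

end Pool.Agent.Lib.MP_a773b5_gt
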