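import Pool.Agent.Lib.MP_a773b5_gt.SDefs

set_option autoImplicit false

namespace Pool.Agent.Lib.MP_a773b5_gt

open MeasureTheory Set
open scoped ENNReal Pointwise

variable {n : ℕ}

private theorem sposb_cont (c : P3) : Continuous fun p => |lf c p| := by
  unfold lf
  fun_prop

private theorem sposb_closed (a : Fin (n + 1) → P3) : IsClosed (SP a) := by
  have : SP a = ⋂ i, {p | |lf (a i) p| ≤ 1} := by
    ext p
    simp [SP]
  rw [this]
  exact isClosed_iInter fun i => isClosed_le (sposb_cont _) continuous_const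

private theorem sposb_meas (a : Fin (n + 1) → P3) (i : Fin (n + 1)) :
    MeasurableSet (cell a i) := by
  have : cell a i = SP a ∩ ((⋂ j, {p | |lf (a j) p| ≤ |lf (a i) p|}) ∩
      ⋂ j, ⋂ (_ : j < i), {p | |lf (a j) p| < |lf (a i) p|}) := by
    ext p
    simp only [cell, mem_setOf_eq, mem_inter_iff, mem_iInter]
  rw [this]
  refine (sposb_closed a).measurableSet.inter (MeasurableSet.inter ?_ ?_)
  · exact MeasurableSet.iInter fun j => (isClosed_le (sposb_cont _) (sposb_cont _)).measurableSet
  · exact MeasurableSet.iInter fun j => MeasurableSet.iInter fun _ =>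
      (isOpen_lt (sposb_cont _) (sposb_cont _)).measurableSet

private theorem sposb_disj (a : Fin (n + 1) → P3) :
    Pairwise (Function.onFun Disjoint (cell a)) := by
  have key : ∀ i j, i < j → Disjoint (cell a i) (cell a j) := by
    intro i j hij
    rw [Set.disjoint_left]
    intro p hi hj
    have h1 := hi.2.1 j
    have h2 := hj.2.2 i hij
    linarith
  intro i j hij
  rcases lt_or_gt_of_ne hij with h | h
  · exact key i j h
  · exact (key j i h).symm

private theorem sposb_union (a : Fin (n + 1) → P3) : ⋃ i, cell a i = SP a := by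
  classical
  apply Subset.antisymm
  · exact iUnion_subset fun i p hp => hp.1
  intro p hp
  obtain ⟨m, -, hm⟩ := Finset.exists_max_image (Finset.univ : Finset (Fin (n + 1)))
    (fun i => |lf (a i) p|) Finset.univ_nonempty
  obtain ⟨i, hi, hmin⟩ := Finset.exists_min_image
    (Finset.univ.filter fun i => ∀ j, |lf (a j) p| ≤ |lf (a i) p|) id
    ⟨m, by simpa using fun j => hm j (Finset.mem_univ j)⟩
  have hi' : ∀ j, |lf (a j) p| ≤ |lf (a i) p| := (Finset.mem_filter.1 hi).2
  refine mem_iUnion.2 ⟨i, hp, hi', fun j hj => ?_⟩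
  by_contra h
  have h1 : i ≤ j := hmin j (Finset.mem_filter.2 ⟨Finset.mem_univ j,
    fun k => (hi' k).trans (not_lt.1 h)⟩)
  exact absurd hj (not_lt.2 h1)

/-- The cells partition the polytope. -/
theorem sum_volume_cell (a : Fin (n + 1) → P3) (hb : Bornology.IsBounded (SP a)) :
    ∑ i, (volume (cell a i)).toReal = (volume (SP a)).toReal := by
  have hfin : volume (SP a) ≠ ∞ := hb.measure_lt_top.ne
  rw [← ENNReal.toReal_sum fun i _ => ?_, ← sposb_union a,
    measure_iUnion (sposb_disj a) (sposb_meas a), tsum_fintype]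
  exact ne_top_of_le_ne_top hfin (measure_mono fun p hp => hp.1)

/-- `0` is an interior point. -/
theorem interior_SP (a : Fin (n + 1) → P3) : (0 : P3) ∈ interior (SP a) := by
  have ho : IsOpen (⋂ i, {p | |lf (a i) p| < 1}) :=
    isOpen_iInter_of_finite fun i => isOpen_lt (sposb_cont _) continuous_const
  refine mem_interior.2 ⟨_, ?_, ho, ?_⟩
  · intro p hp i
    exact (mem_iInter.1 hp i).le
  · refine mem_iInter.2 fun i => ?_
    simp [lf]

theorem convex_SP (a : Fin (n + 1) → P3) : Convex ℝ (SP a) := by
  intro p hp q hq s t hs ht hst i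
  have h1 := abs_le.1 (hp i)
  have h2 := abs_le.1 (hq i)
  have h3 : lf (a i) (s • p + t • q) = s * lf (a i) p + t * lf (a i) q := by
    simp only [lf, Prod.fst_add, Prod.snd_add, Prod.smul_fst, Prod.smul_snd, smul_eq_mul]
    ring
  rw [h3, abs_le]
  constructor <;> nlinarith

theorem isCompact_SP' (a : Fin (n + 1) → P3) (hb : Bornology.IsBounded (SP a)) :
    IsCompact (SP a) :=
  Metric.isCompact_of_isClosed_isBounded (sposb_closed a) hb

theorem volume_SP_pos (a : Fin (n + 1) → P3) (hb : Bornology.IsBounded (SP a)) :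
    0 < (volume (SP a)).toReal :=
  ENNReal.toReal_pos (Measure.measure_pos_of_nonempty_interior volume
    ⟨0, interior_SP a⟩).ne' hb.measure_lt_top.ne

/-- Sections of a symmetric polytope at opposite heights have the same area. -/
theorem secArea_neg (a : Fin (n + 1) → P3) (z : ℝ) : secArea (SP a) (-z) = secArea (SP a) z := by
  have h1 : sec (SP a) (-z) = (-1 : ℝ) • sec (SP a) z := by
    ext p
    rw [mem_smul_set_iff_inv_smul_mem₀ (by norm_num)]
    simp only [sec, SP, mem_setOf_eq]
    refine forall_congr' fun i => ?_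
    have h2 : lf (a i) (z, (-1 : ℝ)⁻¹ • p) = -lf (a i) (-z, p) := by
      simp only [lf, Prod.smul_fst, Prod.smul_snd, smul_eq_mul]
      norm_num
      ring
    rw [h2, abs_neg]
  have h3 : (volume : Measure (ℝ × ℝ)).IsAddHaarMeasure :=
    Measure.prod.instIsAddHaarMeasure (volume : Measure ℝ) (volume : Measure ℝ)
  unfold secArea
  rw [h1, Measure.addHaar_smul]
  norm_num

end Pool.Agent.Lib.MP_a773b5_gt
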