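import Pool.Agent.Lib.MP_a773b5_gt.SKey
import Pool.Agent.Lib.MP_a773b5_gt.SChoice
import Pool.Agent.Lib.MP_a773b5_gt.SPos
import Pool.Agent.Lib.MP_a773b5_gt.SPosB
import Pool.Agent.Lib.MP_a773b5_gt.HeightB

set_option autoImplicit false

namespace Pool.Agent.Lib.MP_a773b5_gt

open MeasureTheory Set
open scoped ENNReal

variable {n : ℕ}

private theorem sp_haar : (volume : Measure P3).IsAddHaarMeasure :=
  Measure.prod.instIsAddHaarMeasure (volume : Measure ℝ) (volume : Measure (ℝ × ℝ))

attribute [local instance] sp_haar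

/-- Symmetric polytopes. -/
theorem hasTet_SP (a : Fin (n + 1) → P3) (hb : Bornology.IsBounded (SP a)) :
    TetRatio (SP a) (9 / 2) := by
  classical
  have hV := volume_SP_pos a hb
  set V := (volume (SP a)).toReal with hVdef
  obtain ⟨q, i0, hq0, hq, hQ⟩ := exists_q a hb (fun i => (volume (cell a i)).toReal / V)
    (fun i => div_nonneg ENNReal.toReal_nonneg hV.le)
    (by rw [← Finset.sum_div, sum_volume_cell a hb]; exact div_self hV.ne')
  obtain ⟨e, he1, he2⟩ := exists_pos (a i0) q hq0
  choose c hc using fun i => exists_form e (a i)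
  have hSP : SP c = e '' SP a := image_SP e hc
  have hcell : ∀ i, cell c i = e '' cell a i := image_cell e hc
  have hlin : ∀ p, lf (1, 0, 0) p = p.1 := fun p => by simp [lf]
  have hc1 : ∀ i, (c i).1 = lf (a i) q := fun i => by
    rw [← hc i q, he2]; simp [lf]
  have hcb : Bornology.IsBounded (SP c) := by
    rw [hSP]
    exact ((isCompact_SP' a hb).image
      (e : P3 →ₗ[ℝ] P3).continuous_of_finiteDimensional).isBounded
  have htop : c i0 = (1, 0, 0) := by
    have h1 : ∀ p, lf (c i0) p = p.1 := fun p => by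
      have := hc i0 (e.symm p)
      rw [e.apply_symm_apply, ← he1, e.apply_symm_apply] at this
      exact this
    have h2 := h1 (1, 0, 0)
    have h3 := h1 (0, 1, 0)
    have h4 := h1 (0, 0, 1)
    simp only [lf, mul_one, mul_zero, add_zero, zero_add] at h2 h3 h4
    exact Prod.ext h2 (Prod.ext h3 h4)
  obtain ⟨k, hk, hkv⟩ := exists_scale_lin e
  have hvc : (volume (SP c)).toReal = k * V := by rw [hSP, hkv]
  have hsum : ∑ i, (c i).1 ^ 2 * (volume (cell c i)).toReal ≤ k * V / 3 := by
    have h1 : ∑ i, (c i).1 ^ 2 * (volume (cell c i)).toReal =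
        k * V * ∑ i, (volume (cell a i)).toReal / V * lf (a i) q ^ 2 := by
      rw [Finset.mul_sum]
      refine Finset.sum_congr rfl fun i _ => ?_
      rw [hc1, hcell, hkv]
      field_simp
    rw [h1]
    have := mul_le_mul_of_nonneg_left hQ (by positivity : 0 ≤ k * V)
    linarith
  have hmain : ∀ z ∈ Icc (0:ℝ) 1, (1 + z) * secArea (SP c) z ≤ k * V := by
    intro z hz
    have := key c hcb ⟨i0, htop⟩ (fun i => by rw [hc1]; exact hq i) hz.1 hz.2
    rw [hvc] at this
    linarith
  have hz1 : ∀ p ∈ SP c, |p.1| ≤ 1 := by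
    intro p hp
    have := hp i0
    rw [htop, hlin] at this
    exact this
  have hsn : ∀ z, 0 ≤ secArea (SP c) z := fun z => ENNReal.toReal_nonneg
  have hkV : 0 < k * V := mul_pos hk hV
  have hall : ∀ z, (z - -1) * secArea (SP c) z ≤ k * V := by
    intro z
    by_cases hz : |z| ≤ 1
    · rcases le_total 0 z with h0 | h0
      · have := hmain z ⟨h0, (abs_le.1 hz).2⟩
        linarith
      · have h1 := hmain (-z) ⟨by linarith, by linarith [(abs_le.1 hz).1]⟩
        rw [secArea_neg] at h1
        have h2 := hsn z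
        nlinarith
    · have h0 : secArea (SP c) z = 0 := by
        have : sec (SP c) z = ∅ := by
          ext p
          simp only [sec, mem_setOf_eq, mem_empty_iff_false, iff_false]
          exact fun hp => hz (hz1 _ hp)
        simp [secArea, this]
      rw [h0, mul_zero]
      exact hkV.le
  have hcomp := isCompact_SP' c hcb
  have hT : HasTet (SP c) (9 / 2 * (k * V)) :=
    tet_above hcomp (convex_SP c) ⟨0, interior_SP c⟩ (z0 := -1)
      (fun p hp => (abs_le.1 (hz1 p hp)).1) hall
  rw [← hvc] at hT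
  have hT2 : TetRatio (SP c) (9 / 2) :=
    tetRatio_of_hasTet hcomp.measure_lt_top.ne (by norm_num) hT
  rw [hSP] at hT2
  exact tetRatio_of_image e.toAffineEquiv hT2

end Pool.Agent.Lib.MP_a773b5_gt
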