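import Mathlib

set_option autoImplicit false

namespace Pool.Agent.Lib.MP_a773b5_gt

open MeasureTheory Set

private theorem env_lip {n : ℕ} (w g : Fin n → ℝ) {τ : ℝ → ℝ} (hle : ∀ r i, τ r ≤ w i - g i * r)
    (hsel : ∀ r, ∃ i, τ r = w i - g i * r) (r s : ℝ) :
    τ r - τ s ≤ (∑ i, |g i|) * |r - s| := by
  obtain ⟨i, hi⟩ := hsel s
  have h1 := hle r i
  have h2 : τ r - τ s ≤ g i * (s - r) := by rw [hi]; linarith
  have h3 : g i * (s - r) ≤ |g i| * |r - s| := by
    calc g i * (s - r) ≤ |g i * (s - r)| := le_abs_self _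
      _ = |g i| * |r - s| := by rw [abs_mul, abs_sub_comm s r]
  have h4 : |g i| ≤ ∑ i, |g i| :=
    Finset.single_le_sum (f := fun i => |g i|) (fun i _ => abs_nonneg _) (Finset.mem_univ i)
  calc τ r - τ s ≤ |g i| * |r - s| := h2.trans h3
    _ ≤ (∑ i, |g i|) * |r - s| := mul_le_mul_of_nonneg_right h4 (abs_nonneg _)

/-- The lower envelope of finitely many lines is continuous. -/
theorem env_cont {n : ℕ} (w g : Fin n → ℝ) {τ : ℝ → ℝ} (hle : ∀ r i, τ r ≤ w i - g i * r)
    (hsel : ∀ r, ∃ i, τ r = w i - g i * r) : Continuous τ := by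
  have hC : 0 ≤ ∑ i, |g i| := Finset.sum_nonneg fun i _ => abs_nonneg _
  apply LipschitzWith.continuous (K := ⟨∑ i, |g i|, hC⟩)
  apply LipschitzWith.of_dist_le_mul
  intro r s
  rw [Real.dist_eq, Real.dist_eq]
  change |τ r - τ s| ≤ (∑ i, |g i|) * |r - s|
  rw [abs_le]
  constructor
  · have := env_lip w g hle hsel s r
    rw [abs_sub_comm s r] at this
    linarith
  · exact env_lip w g hle hsel r s

/-- The lower envelope of finitely many lines is concave: value at a convex combination. -/
theorem env_conc {n : ℕ} (w g : Fin n → ℝ) {τ : ℝ → ℝ} (hle : ∀ r i, τ r ≤ w i - g i * r)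
    (hsel : ∀ r, ∃ i, τ r = w i - g i * r) : ConcaveOn ℝ univ τ := by
  refine ⟨convex_univ, ?_⟩
  intro x _ y _ a b ha hb hab
  obtain ⟨i, hi⟩ := hsel (a • x + b • y)
  rw [hi]
  simp only [smul_eq_mul]
  have h1 := mul_le_mul_of_nonneg_left (hle x i) ha
  have h2 := mul_le_mul_of_nonneg_left (hle y i) hb
  have h3 : w i = a * w i + b * w i := by rw [← add_mul, hab, one_mul]
  calc a * τ x + b * τ y ≤ a * (w i - g i * x) + b * (w i - g i * y) := add_le_add h1 h2
    _ = (a * w i + b * w i) - g i * (a * x + b * y) := by ring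
    _ = w i - g i * (a * x + b * y) := by rw [← h3]

/-- Points where two different lines meet. -/
private def envS {n : ℕ} (w g : Fin n → ℝ) : Set ℝ :=
  ⋃ i : Fin n, ⋃ j : Fin n, {r | g i ≠ g j ∧ w i - g i * r = w j - g j * r}

private theorem envS_fin {n : ℕ} (w g : Fin n → ℝ) : (envS w g).Finite := by
  refine finite_iUnion fun i => finite_iUnion fun j => ?_
  by_cases h : g i = g j
  · convert finite_empty
    ext r
    simp [h]
  · refine (finite_singleton ((w i - w j) / (g i - g j))).subset ?_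
    rintro r ⟨_, hr⟩
    rw [mem_singleton_iff, eq_div_iff (sub_ne_zero.2 h)]
    linarith

private theorem env_ev {n : ℕ} (w g : Fin n → ℝ) {τ : ℝ → ℝ} (hle : ∀ r i, τ r ≤ w i - g i * r)
    (hsel : ∀ r, ∃ i, τ r = w i - g i * r) {r : ℝ} (hr : r ∉ envS w g) {i : Fin n}
    (hi : τ r = w i - g i * r) : ∀ᶠ s in nhds r, τ s = w i - g i * s := by
  have h1 : ∀ᶠ s in nhds r, ∀ j : Fin n, τ r < w j - g j * r → w i - g i * s < w j - g j * s := by
    rw [Filter.eventually_all]
    intro j
    by_cases h : τ r < w j - g j * r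
    · have hc : Filter.Tendsto (fun s => (w j - g j * s) - (w i - g i * s)) (nhds r)
          (nhds ((w j - g j * r) - (w i - g i * r))) := by
        apply Continuous.tendsto
        fun_prop
      have := hc.eventually (lt_mem_nhds (show (0:ℝ) < (w j - g j * r) - (w i - g i * r) by
        rw [← hi]; linarith))
      filter_upwards [this] with s hs _
      linarith
    · exact Filter.Eventually.of_forall fun s hs => absurd hs h
  filter_upwards [h1] with s hs
  obtain ⟨j, hj⟩ := hsel s
  have h2 : ¬ (τ r < w j - g j * r) := by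
    intro h
    have := hs j h
    have := hle s i
    linarith
  have h3 : τ r = w j - g j * r := le_antisymm (hle r j) (not_lt.1 h2)
  have h4 : g i = g j := by
    by_contra hne
    apply hr
    simp only [envS, mem_iUnion]
    exact ⟨i, j, hne, by rw [← hi, ← h3]⟩
  have h5 : w i = w j := by rw [h4] at hi; linarith
  rw [hj, h4, h5]

private theorem env_deriv {n : ℕ} (w g : Fin n → ℝ) {τ : ℝ → ℝ}
    (hle : ∀ r i, τ r ≤ w i - g i * r)
    (hsel : ∀ r, ∃ i, τ r = w i - g i * r) {r : ℝ} (hr : r ∉ envS w g) {i : Fin n}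
    (hi : τ r = w i - g i * r) : HasDerivAt τ (-g i) r := by
  have h1 : HasDerivAt (fun s : ℝ => w i - g i * s) (-g i) r := by
    simpa using ((hasDerivAt_id r).const_mul (g i)).const_sub (w i)
  exact h1.congr_of_eventuallyEq (env_ev w g hle hsel hr hi)

private theorem env_aem {n : ℕ} (w g : Fin n → ℝ) {τ Ω : ℝ → ℝ}
    (hle : ∀ r i, τ r ≤ w i - g i * r)
    (hsel : ∀ r, ∃ i, τ r = w i - g i * r ∧ Ω r = w i) : AEMeasurable Ω volume := by
  have hsel' : ∀ r, ∃ i, τ r = w i - g i * r := fun r => by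
    obtain ⟨i, hi, _⟩ := hsel r
    exact ⟨i, hi⟩
  have hm : Measurable (fun r => τ r - r * deriv τ r) :=
    (env_cont w g hle hsel').measurable.sub (measurable_id.mul (measurable_deriv τ))
  refine ⟨_, hm, ?_⟩
  have h0 : ∀ᵐ r : ℝ, r ∉ envS w g := by
    rw [ae_iff]
    simp only [not_not, ofPred_mem_eq]
    exact (envS_fin w g).measure_zero _
  filter_upwards [h0] with r hr
  obtain ⟨i, hi, hi'⟩ := hsel r
  rw [(env_deriv w g hle hsel' hr hi).deriv, hi, hi']
  ring

/-- If `Ω r` is the value at `0` of a line active at `r`, then `Ω` and `1 / Ω` are integrable.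
Outside the finite set of points where two different lines meet, `Ω = τ - r τ'`. -/
theorem env_int {n : ℕ} (w g : Fin n → ℝ) {τ Ω : ℝ → ℝ} (hle : ∀ r i, τ r ≤ w i - g i * r)
    (hsel : ∀ r, ∃ i, τ r = w i - g i * r ∧ Ω r = w i) (hw : ∀ i, 1 ≤ w i) (a b : ℝ) :
    IntervalIntegrable Ω volume a b ∧ IntervalIntegrable (fun r => 1 / Ω r) volume a b := by
  have hm := env_aem w g hle hsel
  have hm1 : AEMeasurable (fun r => 1 / Ω r) volume := by
    have := hm.inv
    refine this.congr (Filter.Eventually.of_forall fun r => ?_)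
    simp
  constructor
  · refine IntervalIntegrable.mono_fun (g := Ω) (f := fun _ => ∑ i, |w i|)
      intervalIntegrable_const hm.aestronglyMeasurable.restrict ?_
    refine Filter.Eventually.of_forall fun r => ?_
    obtain ⟨i, _, hi⟩ := hsel r
    change abs (Ω r) ≤ abs (∑ i, abs (w i))
    rw [hi]
    exact (Finset.single_le_sum (f := fun i => |w i|) (fun i _ => abs_nonneg _)
      (Finset.mem_univ i)).trans (le_abs_self _)
  · refine IntervalIntegrable.mono_fun (g := fun r => 1 / Ω r) (f := fun _ => (1:ℝ))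
      intervalIntegrable_const hm1.aestronglyMeasurable.restrict ?_
    refine Filter.Eventually.of_forall fun r => ?_
    obtain ⟨i, _, hi⟩ := hsel r
    have h1 := hw i
    change abs (1 / Ω r) ≤ abs (1:ℝ)
    rw [hi, abs_one, abs_of_nonneg (by positivity)]
    rw [div_le_one (by linarith)]
    exact h1

/-- `(r² τ)' = r (3 τ - Ω)` outside the finite set of points where two different lines meet
(`MeasureTheory.integral_eq_of_hasDerivAt_off_countable_of_le` or similar). -/
theorem env_ftc {n : ℕ} (w g : Fin n → ℝ) {τ Ω : ℝ → ℝ} (hle : ∀ r i, τ r ≤ w i - g i * r)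
    (hsel : ∀ r, ∃ i, τ r = w i - g i * r ∧ Ω r = w i) (hw : ∀ i, 1 ≤ w i) {a b : ℝ}
    (hab : a ≤ b) :
    ∫ r in a..b, (3 * τ r - Ω r) * r = b ^ 2 * τ b - a ^ 2 * τ a := by
  have hsel' : ∀ r, ∃ i, τ r = w i - g i * r := fun r => by
    obtain ⟨i, hi, _⟩ := hsel r
    exact ⟨i, hi⟩
  have hc := env_cont w g hle hsel'
  apply integral_eq_of_hasDerivAt_off_countable_of_le (fun r => r ^ 2 * τ r)
    (fun r => (3 * τ r - Ω r) * r) hab (envS_fin w g).countable
  · exact ((continuous_pow 2).mul hc).continuousOn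
  · rintro r ⟨_, hr⟩
    obtain ⟨i, hi, hi'⟩ := hsel r
    have h1 := (hasDerivAt_pow 2 r).mul (env_deriv w g hle hsel' hr hi)
    have h2 : (3 * τ r - Ω r) * r = ((2:ℕ):ℝ) * r ^ (2 - 1) * τ r + r ^ 2 * -g i := by
      rw [hi', hi]
      push_cast
      norm_num
      ring
    rw [h2]
    exact h1
  · apply IntervalIntegrable.mul_continuousOn _ continuousOn_id
    exact ((continuous_const.mul hc).intervalIntegrable a b).sub
      (env_int w g hle hsel hw a b).1

end Pool.Agent.Lib.MP_a773b5_gt
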