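import Pool.Agent.Lib.MP_a773b5_gt.SRay

set_option autoImplicit false

namespace Pool.Agent.Lib.MP_a773b5_gt

open MeasureTheory Set

private theorem sstar_pos {n : ℕ} (w g : Fin n → ℝ) {τ Ω : ℝ → ℝ}
    (hsel : ∀ r, ∃ i, τ r = w i - g i * r ∧ Ω r = w i) (hw : ∀ i, 1 ≤ w i) (r : ℝ) :
    1 ≤ Ω r := by
  obtain ⟨i, -, h⟩ := hsel r
  rw [h]
  exact hw i

private theorem sstar_int {n : ℕ} (w g : Fin n → ℝ) {τ Ω : ℝ → ℝ} (hle : ∀ r i, τ r ≤ w i - g i * r)
    (hsel : ∀ r, ∃ i, τ r = w i - g i * r ∧ Ω r = w i) (hw : ∀ i, 1 ≤ w i) (a b : ℝ) :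
    IntervalIntegrable (fun r => τ r * r) volume a b ∧
      IntervalIntegrable (fun r => Ω r * r) volume a b ∧
      IntervalIntegrable (fun r => 1 / Ω r * r) volume a b := by
  have hc := env_cont w g hle fun r => (hsel r).imp fun i h => h.1
  obtain ⟨h1, h2⟩ := env_int w g hle hsel hw a b
  exact ⟨(hc.mul continuous_id).intervalIntegrable _ _, h1.mul_continuousOn continuousOn_id,
    h2.mul_continuousOn continuousOn_id⟩

private theorem sstar_id (a b : ℝ) : ∫ r in a..b, r = (b ^ 2 - a ^ 2) / 2 := integral_id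

/-- `3 τ + 1/Ω ≥ 3 τ + 2 - Ω`, and `∫ (3 τ - Ω) r = b² τ b` by `env_ftc`. -/
theorem ray_star {n : ℕ} (w g : Fin n → ℝ) {τ Ω : ℝ → ℝ} (hle : ∀ r i, τ r ≤ w i - g i * r)
    (hsel : ∀ r, ∃ i, τ r = w i - g i * r ∧ Ω r = w i) (hw : ∀ i, 1 ≤ w i) {b : ℝ}
    (hb : 0 ≤ b) :
    (1 + τ b) * b ^ 2 ≤ ∫ r in (0:ℝ)..b, (3 * τ r + 1 / Ω r) * r := by
  obtain ⟨i1, i2, i3⟩ := sstar_int w g hle hsel hw 0 b
  have h1 := env_ftc w g hle hsel hw hb
  have e1 : (fun r => (3 * τ r - Ω r) * r) = fun r => 3 * (τ r * r) - Ω r * r := by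
    funext r
    ring
  have e2 : (fun r => (3 * τ r + 1 / Ω r) * r) = fun r => 3 * (τ r * r) + 1 / Ω r * r := by
    funext r
    ring
  have j1 : IntervalIntegrable (fun r => (3 * τ r - Ω r) * r) volume 0 b := by
    rw [e1]
    exact (i1.const_mul 3).sub i2
  have j2 : IntervalIntegrable (fun r => (3 * τ r + 1 / Ω r) * r) volume 0 b := by
    rw [e2]
    exact (i1.const_mul 3).add i3
  have j3 : IntervalIntegrable (fun r : ℝ => 2 * r) volume 0 b :=
    (continuous_const.mul continuous_id).intervalIntegrable _ _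
  have h2 : ∫ r in (0:ℝ)..b, ((3 * τ r - Ω r) * r + 2 * r) ≤
      ∫ r in (0:ℝ)..b, (3 * τ r + 1 / Ω r) * r := by
    refine intervalIntegral.integral_mono_on hb (j1.add j3) j2 fun r hr => ?_
    have hΩ := sstar_pos w g hsel hw r
    have h3 : 2 - Ω r ≤ 1 / Ω r := by
      rw [le_div_iff₀ (by linarith)]
      nlinarith [sq_nonneg (Ω r - 1)]
    have h4 : ((3 * τ r - Ω r) + 2) * r ≤ (3 * τ r + 1 / Ω r) * r :=
      mul_le_mul_of_nonneg_right (by linarith) hr.1
    linarith
  rw [intervalIntegral.integral_add j1 j3, h1, intervalIntegral.integral_const_mul, sstar_id] at h2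
  nlinarith

private theorem sstar_alg {a b y z : ℝ} (ha : 0 ≤ a) (hab : a < b) (hy1 : y ≤ 1)
    (hz : -y ≤ z) (hN : b - a ≤ b * y - a * z) :
    0 ≤ b ^ 2 * z - a ^ 2 * y + ((b * y - a * z) / (b - a) + 1 / ((b * y - a * z) / (b - a))) *
      (b ^ 2 - a ^ 2) / 2 := by
  have hb : 0 < b := by linarith
  have hba : 0 < b - a := by linarith
  have hN0 : 0 < b * y - a * z := by linarith
  have hNy : b * y - a * z ≤ (b + a) * y := by nlinarith
  have hy : 0 < y := by
    by_contra h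
    push Not at h
    nlinarith
  have h1 : (b * y - a * z) / (b - a) * (b ^ 2 - a ^ 2) = (b * y - a * z) * (b + a) := by
    field_simp
    ring
  have h2 : (b - a) ^ 2 / y ≤ 1 / ((b * y - a * z) / (b - a)) * (b ^ 2 - a ^ 2) := by
    rw [one_div_div, div_mul_eq_mul_div, div_le_div_iff₀ hy hN0]
    have h3 : (b - a) ^ 2 * (b * y - a * z) ≤ (b - a) ^ 2 * ((b + a) * y) :=
      mul_le_mul_of_nonneg_left hNy (sq_nonneg _)
    nlinarith
  have h3 : (b - a) ^ 2 * y ≤ (b - a) ^ 2 / y := by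
    rw [le_div_iff₀ hy]
    have : y * y ≤ 1 := by nlinarith
    nlinarith [sq_nonneg (b - a)]
  have h4 : 0 ≤ (z + y) * ((b - a) * (2 * b + a)) :=
    mul_nonneg (by linarith) (mul_nonneg hba.le (by linarith))
  nlinarith

/-- Let `a < b`, `z = τ b` and `W = (b y - a z) / (b - a)`, the value at `0` of the chord; `W ≥ τ 0
≥ 1` by concavity. Since `1/Ω ≥ 2/W - Ω/W²` and `∫ Ω r = ∫ 3 τ r - [r² τ]` (`env_ftc`),
`∫ (3 τ + 1/Ω) r ≥ (1 - 1/W²) ∫ 3 τ r + (b² - a²)/W + (b² z - a² y)/W²`, and on `[a,b]` the function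
`τ` is at least the chord `W - (W - y) r / a`, whose integral gives (with `∫ 3 (chord) r =
W (b² - a²)/2 + b² z - a² y`) the lower bound
`(W + 1/W) (b² - a²)/2 + b² z - a² y
 = (b - a)/2 * (y (b + 2 a) + z (2 b + a)) + (b - a)² (b + a) / (2 (b y - a z))
 ≥ (b - a)²/2 * (1/y - y) ≥ 0` by `z ≥ -y`. (If `y = 0` and `a < b` there is a contradiction.) -/
theorem ray_J {n : ℕ} (w g : Fin n → ℝ) {τ Ω : ℝ → ℝ} (hle : ∀ r i, τ r ≤ w i - g i * r)
    (hsel : ∀ r, ∃ i, τ r = w i - g i * r ∧ Ω r = w i) (hw : ∀ i, 1 ≤ w i) {y a b : ℝ}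
    (hy : 0 ≤ y) (hy1 : y ≤ 1) (ha : 0 ≤ a) (hab : a ≤ b) (hta : τ a = y) (htb : -y ≤ τ b) :
    0 ≤ ∫ r in a..b, (3 * τ r + 1 / Ω r) * r := by
  rcases hab.eq_or_lt with h | hab'
  · rw [h, intervalIntegral.integral_same]
  have hb : 0 < b := by linarith
  have hba : 0 < b - a := by linarith
  have hconc := env_conc w g hle fun r => (hsel r).imp fun i h => h.1
  have h0 : 1 ≤ τ 0 := by
    obtain ⟨i, h, -⟩ := hsel 0
    rw [h, mul_zero, sub_zero]
    exact hw i
  -- the value of the chord at `0`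
  have hN : b - a ≤ b * y - a * τ b := by
    have h1 := hconc.2 (mem_univ (0 : ℝ)) (mem_univ b) (show 0 ≤ (b - a) / b by positivity)
      (show 0 ≤ a / b by positivity) (by field_simp; ring)
    have h2 : (b - a) / b * 0 + a / b * b = a := by field_simp; ring
    simp only [smul_eq_mul] at h1
    rw [h2, hta] at h1
    have h3 : (b - a) * τ 0 + a * τ b ≤ b * y := by
      have h4 := mul_le_mul_of_nonneg_left h1 hb.le
      have h5 : b * ((b - a) / b * τ 0 + a / b * τ b) = (b - a) * τ 0 + a * τ b := by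
        field_simp
      linarith
    nlinarith
  set z := τ b with hz
  set W := (b * y - a * z) / (b - a) with hW
  have hW1 : 1 ≤ W := by
    rw [hW, le_div_iff₀ hba]
    linarith
  have hW0 : 0 < W := by linarith
  obtain ⟨i1, i2, i3⟩ := sstar_int w g hle hsel hw a b
  have h1 := env_ftc w g hle hsel hw hab
  have e1 : (fun r => (3 * τ r - Ω r) * r) = fun r => 3 * (τ r * r) - Ω r * r := by
    funext r
    ring
  have e2 : (fun r => (3 * τ r + 1 / Ω r) * r) = fun r => 3 * (τ r * r) + 1 / Ω r * r := by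
    funext r
    ring
  have j1 : IntervalIntegrable (fun r => (3 * τ r - Ω r) * r) volume a b := by
    rw [e1]
    exact (i1.const_mul 3).sub i2
  have j2 : IntervalIntegrable (fun r => (3 * τ r + 1 / Ω r) * r) volume a b := by
    rw [e2]
    exact (i1.const_mul 3).add i3
  -- the lower bound of the integrand
  set c : ℝ → ℝ := fun r => W + (z - y) / (b - a) * r with hc
  have j4 : IntervalIntegrable (fun r : ℝ => ((1 - 1 / W ^ 2) * (3 * c r) + 2 / W) * r)
      volume a b := by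
    apply Continuous.intervalIntegrable
    simp only [hc]
    fun_prop
  have h2 : ∫ r in a..b, (1 / W ^ 2 * ((3 * τ r - Ω r) * r) +
      ((1 - 1 / W ^ 2) * (3 * c r) + 2 / W) * r) ≤ ∫ r in a..b, (3 * τ r + 1 / Ω r) * r := by
    refine intervalIntegral.integral_mono_on hab ((j1.const_mul _).add j4) j2 fun r hr => ?_
    have hΩ := sstar_pos w g hsel hw r
    have hr0 : 0 ≤ r := ha.trans hr.1
    have h3 : 2 / W - Ω r / W ^ 2 ≤ 1 / Ω r := by
      rw [div_sub_div _ _ hW0.ne' (by positivity), div_le_div_iff₀ (by positivity) (by linarith)]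
      nlinarith [mul_nonneg hW0.le (sq_nonneg (Ω r - W))]
    have h4 : c r ≤ τ r := by
      have h5 := hconc.2 (mem_univ a) (mem_univ b)
        (show 0 ≤ (b - r) / (b - a) from div_nonneg (by linarith [hr.2]) hba.le)
        (show 0 ≤ (r - a) / (b - a) from div_nonneg (by linarith [hr.1]) hba.le)
        (by field_simp; ring)
      have h6 : (b - r) / (b - a) * a + (r - a) / (b - a) * b = r := by field_simp; ring
      simp only [smul_eq_mul] at h5
      rw [h6, hta, ← hz] at h5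
      have h7 : c r = (b - r) / (b - a) * y + (r - a) / (b - a) * z := by
        simp only [hc, hW]
        field_simp
        ring
      rw [h7]
      exact h5
    have h5 : 0 ≤ 1 - 1 / W ^ 2 := by
      rw [sub_nonneg, div_le_one (by positivity)]
      nlinarith
    have h6 : (1 - 1 / W ^ 2) * c r ≤ (1 - 1 / W ^ 2) * τ r := mul_le_mul_of_nonneg_left h4 h5
    have h7 : 1 / W ^ 2 * (3 * τ r - Ω r) + ((1 - 1 / W ^ 2) * (3 * c r) + 2 / W) ≤
        3 * τ r + 1 / Ω r := by
      have h8 : 1 / W ^ 2 * Ω r = Ω r / W ^ 2 := by ring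
      have h9 : 1 / W ^ 2 * (3 * τ r - Ω r) = 3 * τ r - 3 * ((1 - 1 / W ^ 2) * τ r) -
          Ω r / W ^ 2 := by ring
      rw [h9]
      linarith
    have h8 := mul_le_mul_of_nonneg_right h7 hr0
    linarith
  have h3 : ∫ r in a..b, ((1 - 1 / W ^ 2) * (3 * c r) + 2 / W) * r =
      (1 - 1 / W ^ 2) * (W * (b ^ 2 - a ^ 2) / 2 + (b ^ 2 * z - a ^ 2 * y)) +
        (b ^ 2 - a ^ 2) / W := by
    have e3 : (fun r : ℝ => ((1 - 1 / W ^ 2) * (3 * c r) + 2 / W) * r) = fun r =>
        ((1 - 1 / W ^ 2) * (3 * W) + 2 / W) * r +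
          (1 - 1 / W ^ 2) * (3 * ((z - y) / (b - a))) * r ^ 2 := by
      funext r
      simp only [hc]
      ring
    have k1 : IntervalIntegrable (fun r : ℝ => ((1 - 1 / W ^ 2) * (3 * W) + 2 / W) * r)
        volume a b := by
      apply Continuous.intervalIntegrable
      fun_prop
    have k2 : IntervalIntegrable
        (fun r : ℝ => (1 - 1 / W ^ 2) * (3 * ((z - y) / (b - a))) * r ^ 2) volume a b := by
      apply Continuous.intervalIntegrable
      fun_prop
    rw [e3, intervalIntegral.integral_add k1 k2,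
      intervalIntegral.integral_const_mul, intervalIntegral.integral_const_mul, sstar_id,
      integral_pow]
    have e4 : b ^ 2 * z - a ^ 2 * y = W * (b ^ 2 - a ^ 2) +
        (z - y) / (b - a) * (b ^ 3 - a ^ 3) := by
      rw [hW]
      field_simp
      ring
    rw [e4]
    field_simp
    ring
  rw [intervalIntegral.integral_add (j1.const_mul _) j4, intervalIntegral.integral_const_mul, h1,
    hta, ← hz, h3] at h2
  refine le_trans ?_ h2
  have h4 := sstar_alg ha hab' hy1 htb hN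
  rw [← hW] at h4
  have h5 : 1 / W ^ 2 * (b ^ 2 * z - a ^ 2 * y) +
      ((1 - 1 / W ^ 2) * (W * (b ^ 2 - a ^ 2) / 2 + (b ^ 2 * z - a ^ 2 * y)) +
        (b ^ 2 - a ^ 2) / W) =
      b ^ 2 * z - a ^ 2 * y + (W + 1 / W) * (b ^ 2 - a ^ 2) / 2 := by
    field_simp
    ring
  rw [h5]
  exact h4

end Pool.Agent.Lib.MP_a773b5_gt
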