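import Pool.Agent.Lib.MP_a773b5_gt.SDefs

set_option autoImplicit false

namespace Pool.Agent.Lib.MP_a773b5_gt

open MeasureTheory Set

variable {n : ℕ} {a : Fin (n + 1) → P3}

theorem tau_le (a : Fin (n + 1) → P3) (i : Fin (n + 1)) (s : ℝ × ℝ) : tau a s ≤ up a i s :=
  Finset.inf'_le _ (Finset.mem_univ i)

private theorem exists_first (a : Fin (n + 1) → P3) (s : ℝ × ℝ) :
    ∃ i, up a i s = tau a s ∧ ∀ j < i, up a j s ≠ tau a s := by
  obtain ⟨i, -, hi⟩ := Finset.exists_mem_eq_inf' (s := (Finset.univ : Finset (Fin (n + 1))))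
    Finset.univ_nonempty (fun i => up a i s)
  have hne : ({i | up a i s = tau a s} : Set (Fin (n + 1))).Nonempty := ⟨i, hi.symm⟩
  refine ⟨WellFounded.min (wellFounded_lt (α := Fin (n + 1))) _ hne,
    WellFounded.min_mem (wellFounded_lt (α := Fin (n + 1))) _ hne, fun j hj h => ?_⟩
  exact WellFounded.not_lt_min (wellFounded_lt (α := Fin (n + 1))) _ h hj

private theorem sel_spec (a : Fin (n + 1) → P3) (s : ℝ × ℝ) :
    up a (sel a s) s = tau a s ∧ ∀ j < sel a s, up a j s ≠ tau a s := by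
  have h := exists_first a s
  unfold sel
  rw [dif_pos h]
  exact h.choose_spec

theorem up_sel (a : Fin (n + 1) → P3) (s : ℝ × ℝ) : up a (sel a s) s = tau a s :=
  (sel_spec a s).1

theorem sel_eq_iff (a : Fin (n + 1) → P3) (s : ℝ × ℝ) (i : Fin (n + 1)) :
    sel a s = i ↔ up a i s = tau a s ∧ ∀ j < i, up a j s ≠ tau a s := by
  constructor
  · rintro rfl
    exact sel_spec a s
  · rintro ⟨h1, h2⟩
    rcases lt_trichotomy (sel a s) i with h | h | h
    · exact absurd (up_sel a s) (h2 _ h)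
    · exact h
    · exact absurd h1 ((sel_spec a s).2 _ h)

private theorem continuous_up (a : Fin (n + 1) → P3) (i : Fin (n + 1)) :
    Continuous (up a i) := by
  unfold up
  fun_prop

theorem continuous_tau (a : Fin (n + 1) → P3) : Continuous (tau a) := by
  unfold tau
  exact Continuous.finset_inf'_apply Finset.univ_nonempty fun i _ => continuous_up a i

theorem measurable_sel (a : Fin (n + 1) → P3) : Measurable (sel a) := by
  refine measurable_to_countable' fun i => ?_
  have h1 : sel a ⁻¹' {i} = {s | up a i s = tau a s} ∩ ⋂ j ∈ {j : Fin (n + 1) | j < i},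
      {s | up a j s ≠ tau a s} := by
    ext s
    simp only [mem_preimage, mem_singleton_iff, mem_inter_iff, mem_setOf_eq, mem_iInter]
    exact sel_eq_iff a s i
  rw [h1]
  refine (isClosed_eq (continuous_up a i) (continuous_tau a)).measurableSet.inter ?_
  refine MeasurableSet.biInter (Set.to_countable _) fun j _ => ?_
  exact (isOpen_ne_fun (continuous_up a j) (continuous_tau a)).measurableSet

theorem one_le_wc (h : Std a) (i : Fin (n + 1)) : 1 ≤ wc a i := by
  unfold wc
  split_ifs with h1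
  · exact (one_le_div h1).2 (h.le_one i)
  · exact le_rfl

theorem tau_le_one (h : Std a) (s : ℝ × ℝ) : tau a s ≤ 1 := by
  obtain ⟨i, hi⟩ := h.top
  refine (tau_le a i s).trans (le_of_eq ?_)
  simp [up, wc, gc, hi]

private theorem continuous_lf (b : P3) : Continuous (lf b) := by
  unfold lf
  fun_prop

theorem isCompact_SP (h : Std a) : IsCompact (SP a) := by
  refine Metric.isCompact_of_isClosed_isBounded ?_ h.bdd
  have h1 : SP a = ⋂ i, {p | |lf (a i) p| ≤ 1} := by
    ext p
    simp [SP]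
  rw [h1]
  exact isClosed_iInter fun i => isClosed_le (continuous_lf (a i)).abs continuous_const

private theorem dom_eq (a : Fin (n + 1) → P3) : dom a = Prod.snd '' SP a := by
  ext s
  constructor
  · rintro ⟨t, ht⟩
    exact ⟨(t, s), ht, rfl⟩
  · rintro ⟨⟨t, s'⟩, ht, rfl⟩
    exact ⟨t, ht⟩

theorem isCompact_dom (h : Std a) : IsCompact (dom a) := by
  rw [dom_eq]
  exact (isCompact_SP h).image continuous_snd

private theorem lf_comb (b p q : P3) (c d : ℝ) : lf b (c • p + d • q) = c * lf b p + d * lf b q := by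
  simp only [lf, Prod.fst_add, Prod.snd_add, Prod.smul_fst, Prod.smul_snd, smul_eq_mul]
  ring

theorem convex_dom (a : Fin (n + 1) → P3) : Convex ℝ (dom a) := by
  rintro s ⟨t, ht⟩ s' ⟨t', ht'⟩ c d hc hd hcd
  refine ⟨c * t + d * t', fun i => ?_⟩
  have h1 : ((c * t + d * t', c • s + d • s') : P3) = c • ((t, s) : P3) + d • ((t', s') : P3) := by
    simp
  rw [h1, lf_comb, abs_le]
  have h2 := abs_le.1 (ht i)
  have h3 := abs_le.1 (ht' i)
  constructor <;> nlinarith [h2.1, h2.2, h3.1, h3.2]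

private theorem lf_neg (b : P3) (t : ℝ) (s : ℝ × ℝ) : lf b (-t, -s) = -lf b (t, s) := by
  simp only [lf, Prod.fst_neg, Prod.snd_neg]
  ring

private theorem neg_mem_SP {t : ℝ} {s : ℝ × ℝ} (h : (t, s) ∈ SP a) : (-t, -s) ∈ SP a := by
  intro i
  rw [lf_neg, abs_neg]
  exact h i

theorem neg_mem_dom {s : ℝ × ℝ} (hs : s ∈ dom a) : -s ∈ dom a := by
  obtain ⟨t, ht⟩ := hs
  exact ⟨-t, neg_mem_SP ht⟩

theorem zero_mem_dom (a : Fin (n + 1) → P3) : (0 : ℝ × ℝ) ∈ dom a := by
  refine ⟨0, fun i => ?_⟩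
  simp [lf]

private theorem le_up_iff {i : Fin (n + 1)} (hi : 0 < (a i).1) (t : ℝ) (s : ℝ × ℝ) :
    t ≤ up a i s ↔ lf (a i) (t, s) ≤ 1 := by
  have h1 : up a i s = (1 - ((a i).2.1 * s.1 + (a i).2.2 * s.2)) / (a i).1 := by
    simp only [up, wc, gc, if_pos hi]
    field_simp
  rw [h1, le_div_iff₀ hi]
  simp only [lf]
  constructor <;> intro h <;> linarith

private theorem le_tau {t : ℝ} {s : ℝ × ℝ} (h : Std a) (hp : (t, s) ∈ SP a) : t ≤ tau a s := by
  unfold tau
  refine Finset.le_inf' _ _ fun i _ => ?_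
  by_cases hi : 0 < (a i).1
  · exact (le_up_iff hi t s).2 (abs_le.1 (hp i)).2
  · obtain ⟨j, hj⟩ := h.top
    have h1 := (abs_le.1 (hp j)).2
    rw [hj] at h1
    simp only [lf] at h1
    have h2 : up a i s = 1 := by
      simp [up, wc, gc, if_neg hi]
    rw [h2]
    linarith

/-- The polytope in terms of `tau`. (For `0 < (a i).1`: `lf (a i) (t,s) ≤ 1 ↔ t ≤ up a i s` and
`-1 ≤ lf (a i) (t,s) ↔ -(up a i (-s)) ≤ t`; the forms with `(a i).1 = 0` do not depend on `t`, and
the dummy value `up a i s = 1` is also the value for the form `(1,0,0)`.) -/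
theorem mem_SP_iff (h : Std a) (t : ℝ) (s : ℝ × ℝ) :
    (t, s) ∈ SP a ↔ s ∈ dom a ∧ -tau a (-s) ≤ t ∧ t ≤ tau a s := by
  constructor
  · intro hp
    refine ⟨⟨t, hp⟩, ?_, le_tau h hp⟩
    have h1 := le_tau h (neg_mem_SP hp)
    linarith
  · rintro ⟨⟨t', ht'⟩, h1, h2⟩ i
    by_cases hi : 0 < (a i).1
    · have h3 := (le_up_iff hi t s).1 (h2.trans (tau_le a i s))
      have h4 := (le_up_iff hi (-t) (-s)).1 ((by linarith : -t ≤ tau a (-s)).trans (tau_le a i (-s)))
      rw [lf_neg] at h4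
      exact abs_le.2 ⟨by linarith, h3⟩
    · have h3 : (a i).1 = 0 := le_antisymm (not_lt.1 hi) (h.nonneg i)
      have h4 : lf (a i) (t, s) = lf (a i) (t', s) := by
        simp only [lf, h3]
        ring
      rw [h4]
      exact ht' i

theorem tau_add_nonneg (h : Std a) {s : ℝ × ℝ} (hs : s ∈ dom a) : 0 ≤ tau a s + tau a (-s) := by
  obtain ⟨t, ht⟩ := hs
  have h1 := (mem_SP_iff h t s).1 ht
  linarith [h1.2.1, h1.2.2]

end Pool.Agent.Lib.MP_a773b5_gt
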