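import Pool.Agent.Lib.MP_a773b5_gt.STau

set_option autoImplicit false

namespace Pool.Agent.Lib.MP_a773b5_gt

open MeasureTheory Set

variable {n : ℕ} {a : Fin (n + 1) → P3}

/-- Fubini: `|SP a| = ∫_{dom} (tau s + tau (-s)) = 2 ∫_{dom} tau` (the second equality by
`s ↦ -s`). -/
theorem volume_SP (h : Std a) : (volume (SP a)).toReal = 2 * ∫ s in dom a, tau a s := by
  classical
  have hK := isCompact_SP h
  have hKm : MeasurableSet (SP a) := hK.isClosed.measurableSet
  have hdm : MeasurableSet (dom a) := (isCompact_dom h).isClosed.measurableSet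
  have hi1 : IntegrableOn (tau a) (dom a) volume :=
    (continuous_tau a).continuousOn.integrableOn_compact (isCompact_dom h)
  have hi2 : IntegrableOn (fun s => tau a (-s)) (dom a) volume :=
    ((continuous_tau a).comp continuous_neg).continuousOn.integrableOn_compact (isCompact_dom h)
  have hint : IntegrableOn (fun _ : P3 => (1 : ℝ)) (SP a) volume :=
    continuous_const.continuousOn.integrableOn_compact hK
  have hind : Integrable ((SP a).indicator fun _ : P3 => (1 : ℝ)) volume :=
    (integrable_indicator_iff hKm).mpr hint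
  have hin : ∀ s : ℝ × ℝ, ∫ t : ℝ, (SP a).indicator (fun _ : P3 => (1 : ℝ)) (t, s) =
      (dom a).indicator (fun s => tau a s + tau a (-s)) s := by
    intro s
    by_cases hs : s ∈ dom a
    · rw [indicator_of_mem hs]
      have e : (fun t : ℝ => (SP a).indicator (fun _ : P3 => (1 : ℝ)) (t, s)) =
          (Icc (-tau a (-s)) (tau a s)).indicator fun _ => (1 : ℝ) := by
        funext t
        by_cases ht : (t, s) ∈ SP a
        · have h1 := (mem_SP_iff h t s).1 ht
          rw [indicator_of_mem ht, indicator_of_mem (show t ∈ Icc _ _ from ⟨h1.2.1, h1.2.2⟩)]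
        · have h1 : t ∉ Icc (-tau a (-s)) (tau a s) := fun h2 =>
            ht ((mem_SP_iff h t s).2 ⟨hs, h2.1, h2.2⟩)
          rw [indicator_of_notMem ht, indicator_of_notMem h1]
      rw [e, integral_indicator measurableSet_Icc, setIntegral_const, smul_eq_mul, mul_one,
        measureReal_def, Real.volume_Icc, ENNReal.toReal_ofReal]
      · ring
      · have := tau_add_nonneg h hs
        linarith
    · rw [indicator_of_notMem hs]
      have e : (fun t : ℝ => (SP a).indicator (fun _ : P3 => (1 : ℝ)) (t, s)) = fun _ => 0 := by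
        funext t
        have ht : (t, s) ∉ SP a := fun ht => hs ⟨t, ht⟩
        rw [indicator_of_notMem ht]
      rw [e, integral_zero]
  have h1 : (volume (SP a)).toReal = ∫ p in SP a, (1 : ℝ) := by
    rw [setIntegral_const, smul_eq_mul, mul_one]
    rfl
  have h2 : ∫ p in SP a, (1 : ℝ) = ∫ s in dom a, (tau a s + tau a (-s)) := by
    rw [← integral_indicator hKm]
    have h3 := integral_prod_symm (μ := (volume : Measure ℝ)) (ν := (volume : Measure (ℝ × ℝ)))
      ((SP a).indicator fun _ : P3 => (1 : ℝ)) hind
    rw [← Measure.volume_eq_prod] at h3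
    rw [h3, ← integral_indicator hdm]
    exact integral_congr_ae (Filter.Eventually.of_forall hin)
  have h4 : ∫ s in dom a, tau a (-s) = ∫ s in dom a, tau a s := by
    have h5 := (Measure.measurePreserving_neg (volume : Measure (ℝ × ℝ))).setIntegral_preimage_emb
      (MeasurableEquiv.neg (ℝ × ℝ)).measurableEmbedding (tau a) (dom a)
    have h6 : (Neg.neg : ℝ × ℝ → ℝ × ℝ) ⁻¹' dom a = dom a := by
      ext s
      constructor
      · intro hs
        have := neg_mem_dom (a := a) hs
        rwa [neg_neg] at this
      · intro hs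
        exact neg_mem_dom hs
    rw [h6] at h5
    exact h5
  rw [h1, h2, integral_add hi1 hi2, h4]
  ring

/-- The section at height `y` is `{s ∈ dom | y ≤ tau s, -y ≤ tau (-s)}` (`mem_SP_iff`). -/
theorem secArea_SP (h : Std a) (y : ℝ) :
    secArea (SP a) y =
      ∫ s in dom a, (if y ≤ tau a s ∧ -y ≤ tau a (-s) then (1:ℝ) else 0) := by
  classical
  have hKm : MeasurableSet (SP a) := (isCompact_SP h).isClosed.measurableSet
  have hdm : MeasurableSet (dom a) := (isCompact_dom h).isClosed.measurableSet
  have hsm : MeasurableSet (sec (SP a) y) := measurable_prodMk_left hKm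
  have h1 : secArea (SP a) y = ∫ s in sec (SP a) y, (1 : ℝ) := by
    rw [setIntegral_const, smul_eq_mul, mul_one]
    rfl
  rw [h1, ← integral_indicator hsm, ← integral_indicator hdm]
  congr 1
  funext s
  by_cases hs : s ∈ sec (SP a) y
  · have h2 := (mem_SP_iff h y s).1 hs
    rw [indicator_of_mem hs, indicator_of_mem h2.1, if_pos ⟨h2.2.2, by linarith [h2.2.1]⟩]
  · rw [indicator_of_notMem hs]
    by_cases hd : s ∈ dom a
    · rw [indicator_of_mem hd, if_neg]
      rintro ⟨h3, h4⟩
      exact hs ((mem_SP_iff h y s).2 ⟨hd, by linarith, h3⟩)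
    · rw [indicator_of_notMem hd]

end Pool.Agent.Lib.MP_a773b5_gt
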