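import Pool.Agent.Lib.MP_a773b5_gt.BM

set_option autoImplicit false

namespace Pool.Agent.Lib.MP_a773b5_gt

open MeasureTheory Set Filter Topology

/-- The projection of a convex body is a nondegenerate compact interval. -/
theorem exists_Icc {K : Set P3} (hK : IsCompact K) (hc : Convex ℝ K)
    (hi : (interior K).Nonempty) : ∃ z0 z1 : ℝ, z0 < z1 ∧ Prod.fst '' K = Icc z0 z1 := by
  have hcomp : IsCompact (Prod.fst '' K) := hK.image continuous_fst
  have hKne : K.Nonempty := hi.mono interior_subset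
  have hconn : IsConnected (Prod.fst '' K) :=
    (hc.isConnected hKne).image _ continuous_fst.continuousOn
  have h := eq_Icc_of_connected_compact hconn hcomp
  refine ⟨_, _, ?_, h⟩
  obtain ⟨⟨z, y, x⟩, hp⟩ := hi
  obtain ⟨r, hr, hball⟩ := Metric.isOpen_iff.1 isOpen_interior _ hp
  have h1 : z ∈ Prod.fst '' K := ⟨_, interior_subset hp, rfl⟩
  have h2 : z + r / 2 ∈ Prod.fst '' K := by
    refine ⟨(z + r / 2, y, x), interior_subset (hball ?_), rfl⟩
    rw [Metric.mem_ball, Prod.dist_eq, dist_self]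
    simp only [Real.dist_eq, add_sub_cancel_left]
    rw [abs_of_pos (half_pos hr)]
    exact max_lt (half_lt_self hr) hr
  rw [h] at h1 h2
  linarith [h1.1, h2.2]

private theorem seccont_compact {K : Set P3} (hK : IsCompact K) (z : ℝ) :
    IsCompact (sec K z) := by
  have h1 : sec K z = Prod.snd '' (K ∩ {p | p.1 = z}) := by
    ext t
    constructor
    · intro ht
      exact ⟨(z, t), ⟨ht, rfl⟩, rfl⟩
    · rintro ⟨⟨a, b⟩, ⟨hab, h2⟩, rfl⟩
      have h3 : a = z := h2
      subst h3
      exact hab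
  rw [h1]
  have hcl : IsClosed {p : P3 | p.1 = z} := isClosed_eq continuous_fst continuous_const
  exact (hK.inter_right hcl).image continuous_snd

/-- The area of the sections is upper semicontinuous. (For an open `U ⊇ sec K z`, the section
`sec K w` is contained in `U` for `w` near `z` by compactness.) -/
theorem secArea_usc {K : Set P3} (hK : IsCompact K) (z : ℝ) {ε : ℝ} (hε : 0 < ε) :
    ∀ᶠ w in 𝓝 z, secArea K w < secArea K z + ε := by
  have hfin : volume (sec K z) ≠ ⊤ := (seccont_compact hK z).measure_lt_top.ne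
  obtain ⟨U, hU1, hU2, hU3⟩ := (sec K z).exists_isOpen_lt_add (μ := volume) hfin
    (ε := ENNReal.ofReal ε) (by rw [Ne, ENNReal.ofReal_eq_zero, not_le]; exact hε)
  have hC : IsCompact (Prod.fst '' (K ∩ {p : P3 | p.2 ∉ U})) := by
    have hcl : IsClosed {p : P3 | p.2 ∉ U} := hU2.isClosed_compl.preimage continuous_snd
    exact (hK.inter_right hcl).image continuous_fst
  have hz : z ∉ Prod.fst '' (K ∩ {p : P3 | p.2 ∉ U}) := by
    rintro ⟨⟨a, b⟩, ⟨hab, h2⟩, h3⟩
    have h4 : a = z := h3
    subst h4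
    exact h2 (hU1 hab)
  filter_upwards [hC.isClosed.isOpen_compl.mem_nhds hz] with w hw
  have hsub : sec K w ⊆ U := by
    intro p hp
    by_contra hpU
    exact hw ⟨(w, p), ⟨hp, hpU⟩, rfl⟩
  have hUfin : volume U ≠ ⊤ := (hU3.trans_le le_top).ne
  have h1 : (volume (sec K w)).toReal ≤ (volume U).toReal :=
    ENNReal.toReal_mono hUfin (measure_mono hsub)
  have h2 : (volume U).toReal < (volume (sec K z) + ENNReal.ofReal ε).toReal :=
    ENNReal.toReal_strict_mono (ENNReal.add_ne_top.2 ⟨hfin, ENNReal.ofReal_ne_top⟩) hU3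
  rw [ENNReal.toReal_add hfin ENNReal.ofReal_ne_top, ENNReal.toReal_ofReal hε.le] at h2
  unfold secArea
  linarith

private theorem seccont_nonneg (K : Set P3) (z : ℝ) : 0 ≤ secArea K z := ENNReal.toReal_nonneg

private theorem seccont_lower {K : Set P3} {z0 z1 : ℝ}
    (hcv : ConcaveOn ℝ (Icc z0 z1) fun z => √(secArea K z)) {z e : ℝ} (hz : z ∈ Icc z0 z1)
    (he : e ∈ Icc z0 z1) {ε : ℝ} (hε : 0 < ε) :
    ∃ δ > 0, ∀ w ∈ segment ℝ z e, |w - z| < δ → secArea K z - ε < secArea K w := by
  by_cases hez : e = z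
  · refine ⟨1, one_pos, fun w hw _ => ?_⟩
    rw [hez, segment_same, mem_singleton_iff] at hw
    rw [hw]
    linarith
  · have hd : 0 < |e - z| := abs_pos.2 (sub_ne_zero.2 hez)
    have hf0 := seccont_nonneg K z
    refine ⟨|e - z| * (ε / (2 * secArea K z + 1)), by positivity, ?_⟩
    rintro w ⟨a, b, ha, hb, hab, rfl⟩ hw
    have h1 := hcv.2 hz he ha hb hab
    simp only [smul_eq_mul] at h1 hw ⊢
    have e1 : a * z + b * e - z = b * (e - z) := by
      have : a = 1 - b := by linarith
      rw [this]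
      ring
    rw [e1, abs_mul, abs_of_nonneg hb, mul_comm] at hw
    have h2 : b < ε / (2 * secArea K z + 1) := lt_of_mul_lt_mul_left hw hd.le
    rw [lt_div_iff₀ (by positivity)] at h2
    have h3 : a * √(secArea K z) ≤ √(secArea K (a * z + b * e)) := by
      have := mul_nonneg hb (Real.sqrt_nonneg (secArea K e))
      linarith
    have h4 : (a * √(secArea K z)) ^ 2 ≤ √(secArea K (a * z + b * e)) ^ 2 :=
      pow_le_pow_left₀ (mul_nonneg ha (Real.sqrt_nonneg _)) h3 2
    rw [mul_pow, Real.sq_sqrt hf0, Real.sq_sqrt (seccont_nonneg K _)] at h4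
    have h5 : a ^ 2 = 1 - 2 * b + b ^ 2 := by
      have : a = 1 - b := by linarith
      rw [this]
      ring
    rw [h5] at h4
    have h6 : 0 ≤ b ^ 2 * secArea K z := by positivity
    nlinarith

/-- The area of the sections is continuous on the projection: upper semicontinuity by
`secArea_usc`; lower semicontinuity by concavity of the square root
(`sqrt_secArea_concaveOn`), also at the end points. -/
theorem secArea_continuousOn {K : Set P3} (hK : IsCompact K) (hc : Convex ℝ K) {z0 z1 : ℝ}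
    (h01 : z0 < z1) (hI : Prod.fst '' K = Icc z0 z1) : ContinuousOn (secArea K) (Icc z0 z1) := by
  have hcv : ConcaveOn ℝ (Icc z0 z1) fun z => √(secArea K z) := by
    rw [← hI]
    exact sqrt_secArea_concaveOn hK hc
  intro z hz
  rw [ContinuousWithinAt, Metric.tendsto_nhds]
  intro ε hε
  obtain ⟨δ1, hδ1, H1⟩ := seccont_lower hcv hz (right_mem_Icc.2 h01.le) hε
  obtain ⟨δ2, hδ2, H2⟩ := seccont_lower hcv hz (left_mem_Icc.2 h01.le) hε
  have hup : ∀ᶠ w in 𝓝[Icc z0 z1] z, secArea K w < secArea K z + ε :=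
    nhdsWithin_le_nhds (secArea_usc hK z hε)
  have hb1 : ∀ᶠ w in 𝓝[Icc z0 z1] z, |w - z| < δ1 :=
    nhdsWithin_le_nhds (Metric.ball_mem_nhds z hδ1)
  have hb2 : ∀ᶠ w in 𝓝[Icc z0 z1] z, |w - z| < δ2 :=
    nhdsWithin_le_nhds (Metric.ball_mem_nhds z hδ2)
  filter_upwards [hup, hb1, hb2, self_mem_nhdsWithin] with w w1 w2 w3 w4
  rw [Real.dist_eq, abs_lt]
  refine ⟨?_, by linarith⟩
  rcases le_total z w with h | h
  · have hs : w ∈ segment ℝ z z1 := by
      rw [segment_eq_Icc hz.2]
      exact ⟨h, w4.2⟩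
    have := H1 w hs w2
    linarith
  · have hs : w ∈ segment ℝ z z0 := by
      rw [segment_symm, segment_eq_Icc hz.1]
      exact ⟨w4.1, h⟩
    have := H2 w hs w3
    linarith

end Pool.Agent.Lib.MP_a773b5_gt
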