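import Pool.Agent.Lib.MP_a773b5_gt.Aff
import Pool.Agent.Lib.MP_a773b5_gt.Cone

set_option autoImplicit false

namespace Pool.Agent.Lib.MP_a773b5_gt

open MeasureTheory Set
open scoped ENNReal

/-- A polytope is covered by the cones from a point `c` of it over its facets. (For `x ∈ K`,
`x ≠ c`, take the largest `τ ≥ 1` with `c + τ (x - c) ∈ K`; beyond it some constraint fails, so this
constraint has `a i ≠ 0` and is an equality at `c + τ (x - c)`. For `x = c` take any other point, or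
argue that `{c}` has measure zero; here `x ≠ c` is assumed.) -/
theorem cone_cover {n : ℕ} (a : Fin n → E3) (b : Fin n → ℝ) {K : Set E3}
    (hKdef : K = {x | ∀ i, inner ℝ (a i) x ≤ b i}) (hK : IsCompact K) {c : E3} (hc : c ∈ K)
    {x : E3} (hx : x ∈ K) (hxc : x ≠ c) :
    ∃ i, a i ≠ 0 ∧ ∃ y ∈ K, inner ℝ (a i) y = b i ∧ ∃ t ∈ Icc (0:ℝ) 1, x = c + t • (y - c) := by
  classical
  have hc' : ∀ i, inner ℝ (a i) c ≤ b i := by rw [hKdef] at hc; exact hc
  have hx' : ∀ i, inner ℝ (a i) x ≤ b i := by rw [hKdef] at hx; exact hx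
  have hin : ∀ (i : Fin n) (τ : ℝ), inner ℝ (a i) (c + τ • (x - c)) =
      inner ℝ (a i) c + τ * inner ℝ (a i) (x - c) := by
    intro i τ
    rw [inner_add_right, inner_smul_right]
  have hne : (Finset.univ.filter fun i : Fin n => 0 < inner ℝ (a i) (x - c)).Nonempty := by
    by_contra hemp
    rw [Finset.not_nonempty_iff_eq_empty, Finset.filter_eq_empty_iff] at hemp
    have hall : ∀ τ : ℝ, 0 ≤ τ → c + τ • (x - c) ∈ K := by
      intro τ hτ
      rw [hKdef]
      intro i
      rw [hin]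
      have h1 := hemp (Finset.mem_univ i)
      have h2 := mul_nonneg hτ (sub_nonneg.2 (not_lt.1 h1))
      have h3 := hc' i
      linarith
    obtain ⟨R, hR⟩ := hK.isBounded.exists_norm_le
    have hpos : 0 < ‖x - c‖ := norm_pos_iff.2 (sub_ne_zero.2 hxc)
    have hR0 : 0 ≤ R := (norm_nonneg c).trans (hR c hc)
    have h4 := hR _ (hall ((2 * R + 1) / ‖x - c‖) (by positivity))
    have h5 : ‖((2 * R + 1) / ‖x - c‖) • (x - c)‖ = 2 * R + 1 := by
      rw [norm_smul, Real.norm_eq_abs, abs_of_nonneg (by positivity), div_mul_cancel₀ _ hpos.ne']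
    have h6 : ‖((2 * R + 1) / ‖x - c‖) • (x - c)‖ ≤
        ‖c + ((2 * R + 1) / ‖x - c‖) • (x - c)‖ + ‖c‖ := by
      have := norm_sub_le (c + ((2 * R + 1) / ‖x - c‖) • (x - c)) c
      rwa [add_sub_cancel_left] at this
    have h7 := hR c hc
    linarith
  obtain ⟨i, hi, hmin⟩ := Finset.exists_min_image _
    (fun i : Fin n => (b i - inner ℝ (a i) c) / inner ℝ (a i) (x - c)) hne
  rw [Finset.mem_filter] at hi
  have hip := hi.2
  set τ := (b i - inner ℝ (a i) c) / inner ℝ (a i) (x - c) with hτ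
  have hτ1 : 1 ≤ τ := by
    rw [hτ, one_le_div hip, inner_sub_right]
    have := hx' i
    linarith
  have hτ0 : 0 < τ := by linarith
  refine ⟨i, ?_, c + τ • (x - c), ?_, ?_, τ⁻¹, ⟨by positivity, inv_le_one_of_one_le₀ hτ1⟩, ?_⟩
  · intro h0
    rw [h0, inner_zero_left] at hip
    exact lt_irrefl _ hip
  · rw [hKdef]
    intro j
    rw [hin]
    rcases lt_or_ge 0 (inner ℝ (a j) (x - c)) with hj | hj
    · have h1 := hmin j (Finset.mem_filter.2 ⟨Finset.mem_univ j, hj⟩)
      have h2 : τ ≤ (b j - inner ℝ (a j) c) / inner ℝ (a j) (x - c) := h1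
      rw [le_div_iff₀ hj] at h2
      linarith
    · have h2 := mul_nonneg hτ0.le (sub_nonneg.2 hj)
      have h3 := hc' j
      linarith
  · rw [hin, hτ, div_mul_cancel₀ _ hip.ne']
    ring
  · rw [add_sub_cancel_left, smul_smul, inv_mul_cancel₀ hτ0.ne', one_smul]
    abel

private theorem facet_select_one {n : ℕ} (a : Fin n → E3) (b : Fin n → ℝ) {K : Set E3}
    (hKdef : K = {x | ∀ i, inner ℝ (a i) x ≤ b i}) (hK : IsCompact K)
    {c : E3} (hc : c ∈ K) (hn : 0 < n)
    (hno : ¬ ∃ i, a i ≠ 0 ∧ ∃ e : E3 ≃ᵃ[ℝ] P3, (∀ x, (e x).1 = b i - inner ℝ (a i) x) ∧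
      3 / (n : ℝ) * (volume (e '' K)).toReal ≤ (e c).1 * secArea (e '' K) 0) (i : Fin n)
    (hai : a i ≠ 0) :
    volume {p : E3 | ∃ y ∈ K, inner ℝ (a i) y = b i ∧ ∃ t ∈ Icc (0:ℝ) 1, p = c + t • (y - c)} ≠ ∞ ∧
    (volume {p : E3 | ∃ y ∈ K, inner ℝ (a i) y = b i ∧ ∃ t ∈ Icc (0:ℝ) 1,
      p = c + t • (y - c)}).toReal < (volume K).toReal / n := by
  obtain ⟨e, he⟩ := exists_coord (a i) hai (b i)
  have hI2 : (volume : Measure (ℝ × ℝ)).IsAddHaarMeasure := by
    rw [Measure.volume_eq_prod]; infer_instance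
  have hI3 : (volume : Measure P3).IsAddHaarMeasure := by
    show (volume : Measure (ℝ × (ℝ × ℝ))).IsAddHaarMeasure
    rw [Measure.volume_eq_prod]; infer_instance
  obtain ⟨κ, hκ0, hκ1, hκ⟩ := exists_scale e
  have hlt : (e c).1 * secArea (e '' K) 0 < 3 / (n : ℝ) * (volume (e '' K)).toReal := by
    by_contra h
    exact hno ⟨i, hai, e, he, not_lt.1 h⟩
  have hcomp : IsCompact (e '' K) := by
    apply hK.image
    exact AffineMap.continuous_of_finiteDimensional (e : E3 →ᵃ[ℝ] P3)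
  have hc0 : 0 ≤ (e c).1 := by
    rw [he]
    rw [hKdef] at hc
    have := hc i
    linarith
  have h1 := cone_volume_le hcomp (e c) hc0
  set S : Set E3 := {p : E3 | ∃ y ∈ K, inner ℝ (a i) y = b i ∧ ∃ t ∈ Icc (0:ℝ) 1,
    p = c + t • (y - c)} with hS
  have hsub : e '' S ⊆ {p : P3 | ∃ y ∈ e '' K, y.1 = 0 ∧ ∃ t ∈ Icc (0:ℝ) 1,
      p = e c + t • (y - e c)} := by
    rintro _ ⟨p, ⟨y, hy, hyb, t, ht, rfl⟩, rfl⟩
    refine ⟨e y, ⟨y, hy, rfl⟩, ?_, t, ht, ?_⟩
    · rw [he, hyb, sub_self]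
    · have h2 : e (AffineMap.lineMap c y t) = AffineMap.lineMap (e c) (e y) t :=
        AffineMap.apply_lineMap (e : E3 →ᵃ[ℝ] P3) c y t
      have h3 : c + t • (y - c) = AffineMap.lineMap c y t := by
        rw [AffineMap.lineMap_apply, vsub_eq_sub, vadd_eq_add, add_comm]
      rw [h3, h2, AffineMap.lineMap_apply, vsub_eq_sub, vadd_eq_add, add_comm]
  have h4 : κ * volume S ≤ ENNReal.ofReal (1 / 3 * (e c).1 * secArea (e '' K) 0) := by
    rw [← hκ]
    exact (measure_mono hsub).trans h1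
  have hfin : volume S ≠ ∞ := by
    intro htop
    rw [htop, ENNReal.mul_top hκ0, top_le_iff] at h4
    exact ENNReal.ofReal_ne_top h4
  refine ⟨hfin, ?_⟩
  have hκr : 0 < κ.toReal := ENNReal.toReal_pos hκ0 hκ1
  have hA : 0 ≤ 1 / 3 * (e c).1 * secArea (e '' K) 0 := by
    have : 0 ≤ secArea (e '' K) 0 := ENNReal.toReal_nonneg
    positivity
  have h5 : κ.toReal * (volume S).toReal ≤ 1 / 3 * (e c).1 * secArea (e '' K) 0 := by
    rw [← ENNReal.toReal_mul]
    exact ENNReal.toReal_le_of_le_ofReal hA h4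
  have h6 : (volume (e '' K)).toReal = κ.toReal * (volume K).toReal := by
    rw [hκ, ENNReal.toReal_mul]
  rw [h6] at hlt
  have hn' : (0:ℝ) < n := by exact_mod_cast hn
  have h7 : κ.toReal * (volume S).toReal < κ.toReal * ((volume K).toReal / n) := by
    calc κ.toReal * (volume S).toReal ≤ 1 / 3 * ((e c).1 * secArea (e '' K) 0) := by linarith
      _ < 1 / 3 * (3 / (n : ℝ) * (κ.toReal * (volume K).toReal)) := by linarith
      _ = κ.toReal * ((volume K).toReal / n) := by field_simp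
  exact lt_of_mul_lt_mul_left h7 hκr.le

/-- Some facet carries at least the fraction `1/n` of the volume: in suitable coordinates in which
its plane is `z = 0`, `(3/n) |K| ≤ (height of c) * (area of the facet)`. (By `cone_cover` the
volume of `K` is at most the sum over `i` with `a i ≠ 0` of the volumes of the cones; transport each
cone by `exists_coord (a i) (b i)` and use `cone_volume_le` and `exists_scale`.) -/
theorem facet_select {n : ℕ} (a : Fin n → E3) (b : Fin n → ℝ) {K : Set E3}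
    (hKdef : K = {x | ∀ i, inner ℝ (a i) x ≤ b i}) (hK : IsCompact K)
    (hi : (interior K).Nonempty) {c : E3} (hc : c ∈ K) :
    ∃ i, a i ≠ 0 ∧ ∃ e : E3 ≃ᵃ[ℝ] P3, (∀ x, (e x).1 = b i - inner ℝ (a i) x) ∧
      3 / (n : ℝ) * (volume (e '' K)).toReal ≤ (e c).1 * secArea (e '' K) 0 := by
  classical
  by_contra hno
  have hVpos : 0 < volume K :=
    (isOpen_interior.measure_pos volume hi).trans_le (measure_mono interior_subset)
  have hVfin : volume K ≠ ∞ := hK.measure_lt_top.ne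
  have hVr : 0 < (volume K).toReal := ENNReal.toReal_pos hVpos.ne' hVfin
  let S : Fin n → Set E3 := fun i => {p : E3 | ∃ y ∈ K, inner ℝ (a i) y = b i ∧
    ∃ t ∈ Icc (0:ℝ) 1, p = c + t • (y - c)}
  let I : Finset (Fin n) := Finset.univ.filter fun i => a i ≠ 0
  have hcov : K ⊆ {c} ∪ ⋃ i ∈ I, S i := by
    intro x hx
    by_cases hxc : x = c
    · exact Or.inl hxc
    · right
      obtain ⟨i, hai, y, hy, hyb, t, ht, hxe⟩ := cone_cover a b hKdef hK hc hx hxc
      rw [mem_iUnion₂]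
      exact ⟨i, Finset.mem_filter.2 ⟨Finset.mem_univ i, hai⟩, y, hy, hyb, t, ht, hxe⟩
  have h1 : volume K ≤ ∑ i ∈ I, volume (S i) := by
    calc volume K ≤ volume ({c} ∪ ⋃ i ∈ I, S i) := measure_mono hcov
      _ ≤ volume ({c} : Set E3) + volume (⋃ i ∈ I, S i) := measure_union_le _ _
      _ ≤ 0 + ∑ i ∈ I, volume (S i) := by
        gcongr
        · exact (measure_singleton c).le
        · exact measure_biUnion_finset_le I S
      _ = _ := zero_add _
  have hIne : I.Nonempty := by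
    rw [Finset.nonempty_iff_ne_empty]
    intro h0
    rw [h0, Finset.sum_empty] at h1
    exact absurd h1 (not_le.2 hVpos)
  have hn : 0 < n := by
    obtain ⟨i, -⟩ := hIne
    exact i.pos
  have h2 := fun (i : Fin n) (hi : a i ≠ 0) => facet_select_one a b hKdef hK hc hn hno i hi
  have h3 : ∀ i ∈ I, volume (S i) ≠ ∞ := fun i hi => (h2 i (Finset.mem_filter.1 hi).2).1
  have h4 : (volume K).toReal ≤ ∑ i ∈ I, (volume (S i)).toReal := by
    rw [← ENNReal.toReal_sum h3]
    exact ENNReal.toReal_mono (ENNReal.sum_ne_top.2 h3) h1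
  have h5 : ∑ i ∈ I, (volume (S i)).toReal < ∑ _i ∈ I, (volume K).toReal / n :=
    Finset.sum_lt_sum_of_nonempty hIne fun i hi => (h2 i (Finset.mem_filter.1 hi).2).2
  rw [Finset.sum_const, nsmul_eq_mul] at h5
  have h6 : (I.card : ℝ) ≤ n := by
    have := Finset.card_le_univ I
    rw [Fintype.card_fin] at this
    exact_mod_cast this
  have hn' : (0:ℝ) < n := by exact_mod_cast hn
  have h7 : (I.card : ℝ) * ((volume K).toReal / n) ≤ n * ((volume K).toReal / n) :=
    mul_le_mul_of_nonneg_right h6 (by positivity)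
  have h8 : (n : ℝ) * ((volume K).toReal / n) = (volume K).toReal := by field_simp
  linarith

end Pool.Agent.Lib.MP_a773b5_gt
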