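import Pool.Agent.Lib.MP_a773b5_gt.Select
import Pool.Agent.Lib.MP_a773b5_gt.FacetLemma
import Pool.Agent.Lib.MP_a773b5_gt.SecCont
import Pool.Agent.Lib.MP_a773b5_gt.Fub
import Pool.Agent.Lib.MP_a773b5_gt.Height

set_option autoImplicit false

namespace Pool.Agent.Lib.MP_a773b5_gt

open MeasureTheory Set
open scoped ENNReal

private theorem sf_haar : (volume : Measure P3).IsAddHaarMeasure :=
  Measure.prod.instIsAddHaarMeasure (volume : Measure ℝ) (volume : Measure (ℝ × ℝ))

attribute [local instance] sf_haar

private theorem sf_vol_ne_top {K : Set E3} (hK : IsCompact K) : volume K ≠ ∞ :=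
  hK.measure_lt_top.ne

private theorem sf_vol_ne_zero {K : Set E3} (hi : (interior K).Nonempty) : volume K ≠ 0 := by
  have h := isOpen_interior.measure_pos (volume : Measure E3) hi
  exact (lt_of_lt_of_le h (measure_mono interior_subset)).ne'

private theorem sf_integrable {K : Set E3} (hK : IsCompact K) :
    IntegrableOn (fun x : E3 => x) K volume :=
  continuous_id.continuousOn.integrableOn_compact hK

/-- The centroid of a convex body lies in it. -/
theorem centroid_mem {K : Set E3} (hK : IsCompact K) (hc : Convex ℝ K)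
    (hi : (interior K).Nonempty) : (⨍ x in K, x) ∈ K := by
  refine hc.set_average_mem hK.isClosed (sf_vol_ne_zero hi) (sf_vol_ne_top hK) ?_ (sf_integrable hK)
  exact ae_restrict_mem hK.isClosed.measurableSet

/-- The height of the centroid: `(e c).1 * |e K| = ∫_{eK} z`. -/
theorem centroid_height {K : Set E3} (hK : IsCompact K) (hi : (interior K).Nonempty)
    (e : E3 ≃ᵃ[ℝ] P3) :
    (e (⨍ x in K, x)).1 * (volume (e '' K)).toReal = ∫ p in e '' K, p.1 := by
  obtain ⟨c, hc0, hc1, hc⟩ := exists_scale e
  have hec : Continuous e := e.toAffineMap.continuous_of_finiteDimensional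
  have heS : Continuous e.symm := e.symm.toAffineMap.continuous_of_finiteDimensional
  have hvK0 := sf_vol_ne_zero hi
  have hvK1 := sf_vol_ne_top hK
  -- the volume of `P3`
  have hvol : (volume : Measure P3) = c • (volume : Measure E3).map e := by
    ext T hT
    rw [Measure.smul_apply, Measure.map_apply hec.measurable hT, smul_eq_mul, ← hc (e ⁻¹' T),
      image_preimage_eq T e.surjective]
  have h1 : ∫ p in e '' K, p.1 = c.toReal * ∫ x in K, (e x).1 := by
    have hme : MeasurableEmbedding e := by
      have : (e : E3 → P3) = (e.toContinuousAffineEquiv.toHomeomorph : E3 ≃ₜ P3) := rfl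
      rw [this]
      exact (e.toContinuousAffineEquiv.toHomeomorph).measurableEmbedding
    conv_lhs => rw [hvol]
    rw [Measure.restrict_smul, integral_smul_measure, smul_eq_mul,
      hme.setIntegral_map, preimage_image_eq K e.injective]
  have h2 : ∫ x in K, (e x).1 = (e (⨍ x in K, x)).1 * (volume K).toReal := by
    set L : E3 →L[ℝ] ℝ := LinearMap.toContinuousLinearMap
      ((LinearMap.fst ℝ ℝ (ℝ × ℝ)).comp e.linear.toLinearMap) with hL
    have hex : ∀ x : E3, (e x).1 = L x + (e 0).1 := by
      intro x
      have h3 : e x = e.linear x + e 0 := by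
        have h4 := e.map_vadd 0 x
        simpa using h4
      rw [h3, Prod.fst_add]
      simp [hL]
    obtain ⟨k, hk⟩ : ∃ k : ℝ, ∀ x : E3, (e x).1 = L x + k := ⟨_, hex⟩
    have h5 : ∫ x in K, L x = L (∫ x in K, x) := L.integral_comp_comm (sf_integrable hK)
    have h6 : IntegrableOn (fun x : E3 => L x) K volume :=
      L.continuous.continuousOn.integrableOn_compact hK
    have h7 : IntegrableOn (fun _ : E3 => k) K volume :=
      continuous_const.continuousOn.integrableOn_compact hK
    simp only [hk]
    rw [integral_add h6 h7, h5, setIntegral_const, setAverage_eq, map_smul, smul_eq_mul, smul_eq_mul]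
    have h8 : (volume.real K) ≠ 0 := (ENNReal.toReal_ne_zero.mpr ⟨hvK0, hvK1⟩)
    have h9 : (volume K).toReal = volume.real K := rfl
    rw [h9]
    field_simp
  rw [h1, h2, hc K, ENNReal.toReal_mul]
  ring

/-- Sections of a body in the half-space `z ≥ 0` in terms of `f = √(secArea)`: if the facet in
`z = 0` satisfies `V²/2 ≤ (area) ∫ z`, the body lies in a tetrahedron of volume `(9/2) V`
(`facet_lemma` for `f z = √(secArea K z)` on `[0,h]`, `sqrt_secArea_concaveOn`,
`secArea_continuousOn`, `integral_height`, `volume_height`, `tet_height`). -/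
theorem hasTet_of_facet {K : Set P3} (hK : IsCompact K) (hc : Convex ℝ K)
    (hi : (interior K).Nonempty) (hz : ∀ p ∈ K, 0 ≤ p.1)
    (hyp : (volume K).toReal ^ 2 / 2 ≤ secArea K 0 * ∫ p in K, p.1) :
    HasTet K (9 / 2 * (volume K).toReal) := by
  obtain ⟨z0, z1, h01, hI⟩ := exists_Icc hK hc hi
  have hV : 0 < (volume K).toReal := by
    apply ENNReal.toReal_pos
    · have h := isOpen_interior.measure_pos (volume : Measure P3) hi
      exact (lt_of_lt_of_le h (measure_mono interior_subset)).ne'
    · exact hK.measure_lt_top.ne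
  have hz0 : 0 ≤ z0 := by
    have h1 : z0 ∈ Prod.fst '' K := by rw [hI]; exact ⟨le_rfl, h01.le⟩
    obtain ⟨p, hp, rfl⟩ := h1
    exact hz p hp
  have hz00 : z0 = 0 := by
    by_contra hne
    have h2 : (0:ℝ) ∉ Prod.fst '' K := by
      rw [hI]
      rintro ⟨h3, _⟩
      exact hne (le_antisymm h3 hz0)
    rw [secArea_eq_zero h2, zero_mul] at hyp
    nlinarith
  subst hz00
  have hsn : ∀ z, 0 ≤ secArea K z := fun z => ENNReal.toReal_nonneg
  have hsq : ∀ z, √(secArea K z) ^ 2 = secArea K z := fun z => Real.sq_sqrt (hsn z)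
  have hcv : ConcaveOn ℝ (Icc 0 z1) (fun z => √(secArea K z)) := by
    have := sqrt_secArea_concaveOn hK hc
    rwa [hI] at this
  have hct : ContinuousOn (fun z => √(secArea K z)) (Icc 0 z1) :=
    (secArea_continuousOn hK hc h01 hI).sqrt
  have hvh := volume_height hK h01.le hI.le
  have hih := integral_height hK h01.le hI.le (φ := fun z => z) continuous_id
  have key := facet_lemma h01 hcv hct (fun z _ => Real.sqrt_nonneg _) (by
    simp only [hsq]
    rw [← hvh, ← hih]
    exact hyp)
  simp only [hsq] at key
  rw [← hvh] at key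
  refine tet_height hK hc hi hz (G := (volume K).toReal) ?_
  intro z
  by_cases hzI : z ∈ Icc 0 z1
  · exact key z hzI
  · rw [secArea_eq_zero (by rw [hI]; exact hzI), mul_zero]
    exact hV.le

/-- Convex polytopes with at most six facets. -/
theorem six_facets (a : Fin 6 → E3) (b : Fin 6 → ℝ) {K : Set E3}
    (hKdef : K = {x | ∀ i, inner ℝ (a i) x ≤ b i}) (hK : IsCompact K)
    (hi : (interior K).Nonempty) : TetRatio K (9 / 2) := by
  have hcv : Convex ℝ K := by
    rw [hKdef]
    have : {x : E3 | ∀ i, inner ℝ (a i) x ≤ b i} = ⋂ i, {x : E3 | inner ℝ (a i) x ≤ b i} := by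
      ext x; simp
    rw [this]
    refine convex_iInter fun i => ?_
    exact convex_halfSpace_le (f := fun x : E3 => inner ℝ (a i) x)
      ⟨fun x y => inner_add_right _ _ _, fun r x => by rw [inner_smul_right]; rfl⟩ (b i)
  have hcm := centroid_mem hK hcv hi
  obtain ⟨i, hai, e, he, hsel⟩ := facet_select a b hKdef hK hi hcm
  have hec : Continuous e := e.toAffineMap.continuous_of_finiteDimensional
  have hK' : IsCompact (e '' K) := hK.image hec
  have hcv' : Convex ℝ (e '' K) := hcv.affine_image e.toAffineMap
  have hi' : (interior (e '' K)).Nonempty := by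
    have hop : IsOpenMap e := (e.toContinuousAffineEquiv.toHomeomorph).isOpenMap
    exact (hi.image e).mono (hop.image_interior_subset K)
  have hz : ∀ p ∈ e '' K, 0 ≤ p.1 := by
    rintro p ⟨x, hx, rfl⟩
    rw [he x]
    rw [hKdef] at hx
    linarith [hx i]
  have hch := centroid_height hK hi e
  have h1 : HasTet (e '' K) (9 / 2 * (volume (e '' K)).toReal) := by
    refine hasTet_of_facet hK' hcv' hi' hz ?_
    rw [← hch]
    have h2 : 0 ≤ (volume (e '' K)).toReal := ENNReal.toReal_nonneg
    push_cast at hsel
    nlinarith [mul_le_mul_of_nonneg_right hsel h2]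
  exact tetRatio_of_image e (tetRatio_of_hasTet hK'.measure_lt_top.ne (by norm_num) h1)

end Pool.Agent.Lib.MP_a773b5_gt
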