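import Pool.Agent.Lib.MP_a773b5_gt.Iso

set_option autoImplicit false

namespace Pool.Agent.Lib.MP_a773b5_gt

open MeasureTheory Set Metric

/-- Numerical step: `Q ≥ h₁²/5`, `h₁ ≤ h₂`, `m = (h₁-h₂)/2`, `r = (h₁+h₂)/2` give
`Q + m² ≥ r²/6`, because `6 (r+m)²/5 + 6 m² - r² = (r+6m)²/5`. -/
theorem slab_num {Q h1 h2 : ℝ} (hQ : h1 ^ 2 / 5 ≤ Q) :
    ((h1 + h2) / 2) ^ 2 / 6 ≤ Q + ((h1 - h2) / 2) ^ 2 := by
  nlinarith [sq_nonneg ((h1 + h2) / 2 + 6 * ((h1 - h2) / 2))]

/-- change of variables for an affine isomorphism -/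
private lemma slab_cov {E F : Type*} [NormedAddCommGroup E] [NormedSpace ℝ E]
    [FiniteDimensional ℝ E] [MeasureSpace E] [BorelSpace E] [(volume : Measure E).IsAddHaarMeasure]
    [NormedAddCommGroup F] [NormedSpace ℝ F] [FiniteDimensional ℝ F] [MeasureSpace F]
    [BorelSpace F] [(volume : Measure F).IsAddHaarMeasure] (e : E ≃ᵃ[ℝ] F) :
    ∃ c : ℝ, 0 < c ∧ (∀ S : Set E, (volume (e '' S)).toReal = c * (volume S).toReal) ∧
      ∀ (S : Set E) (f : F → ℝ), ∫ y in e '' S, f y = c * ∫ x in S, f (e x) := by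
  obtain ⟨c, hc0, hct, hc⟩ := exists_scale e
  refine ⟨c.toReal, ENNReal.toReal_pos hc0 hct, fun S => by rw [hc, ENNReal.toReal_mul], ?_⟩
  intro S f
  let ψ : E ≃ᵐ F := e.toHomeomorphOfFiniteDimensional.toMeasurableEquiv
  have hψ : ∀ x, ψ x = e x := fun x => rfl
  have hvol : (volume : Measure F) = c • Measure.map ψ volume := by
    refine Measure.ext fun T hT => ?_
    rw [Measure.smul_apply, ψ.map_apply, smul_eq_mul, ← hc]
    congr 1
    ext y
    constructor
    · intro hy
      refine ⟨e.symm y, ?_, e.apply_symm_apply y⟩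
      show e (e.symm y) ∈ T
      rw [e.apply_symm_apply]
      exact hy
    · rintro ⟨x, hx, rfl⟩
      exact hx
  conv_lhs => rw [hvol]
  rw [Measure.restrict_smul, integral_smul_measure, setIntegral_map_equiv, smul_eq_mul]
  have h1 : ψ ⁻¹' (e '' S) = S := by
    ext x
    constructor
    · rintro ⟨x', hx', h2⟩
      have h3 : x' = x := e.injective h2
      rw [← h3]
      exact hx'
    · intro hx
      exact ⟨x, hx, rfl⟩
  rw [h1]
  rfl

/-- A good slab: an affine isomorphism onto `P3` whose first coordinate maps `K` onto `[-1,1]` and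
has mean square at least `1/6`. (Isotropic position about the centroid; `exists_near`; if the
opposite support plane is nearer, change the sign of `u`; then normalise the slab.) -/
theorem exists_slab {K : Set E3} (hK : IsCompact K) (hc : Convex ℝ K)
    (hi : (interior K).Nonempty) :
    ∃ e : E3 ≃ᵃ[ℝ] P3, Prod.fst '' (e '' K) = Icc (-1) 1 ∧
      1 / 6 * (volume (e '' K)).toReal ≤ ∫ p in e '' K, p.1 ^ 2 := by
  have hVpos : ∀ S : Set E3, IsCompact S → (interior S).Nonempty → 0 < (volume S).toReal := by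
    intro S hS hSi
    apply ENNReal.toReal_pos
    · exact (lt_of_lt_of_le (isOpen_interior.measure_pos volume hSi)
        (measure_mono interior_subset)).ne'
    · exact hS.measure_lt_top.ne
  have hVK := hVpos K hK hi
  -- the centroid
  set g : E3 := ((volume K).toReal)⁻¹ • ∫ x in K, x with hg
  obtain ⟨e, heg, hiso⟩ := exists_iso hK hi g
  have hint : IntegrableOn (fun x : E3 => x) K :=
    continuous_id.continuousOn.integrableOn_compact hK
  have hcent : ∫ x in K, (x - g) = 0 := by
    rw [integral_sub hint (continuous_const.continuousOn.integrableOn_compact hK),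
      setIntegral_const, hg, smul_smul, Measure.real, mul_inv_cancel₀ hVK.ne', one_smul, sub_self]
  set K' : Set E3 := e '' K with hK'
  have hecont : Continuous e := e.toHomeomorphOfFiniteDimensional.continuous
  have hK'c : IsCompact K' := hK.image hecont
  have hK'v : Convex ℝ K' := by
    have := hc.affine_image e.toAffineMap
    exact this
  have hK'i : (interior K').Nonempty := by
    have h1 : e.toHomeomorphOfFiniteDimensional '' (interior K) =
        interior (e.toHomeomorphOfFiniteDimensional '' K) :=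
      e.toHomeomorphOfFiniteDimensional.image_interior K
    have h2 : (interior (e.toHomeomorphOfFiniteDimensional '' K)).Nonempty := by
      rw [← h1]
      exact hi.image _
    exact h2
  have hVK' := hVpos K' hK'c hK'i
  obtain ⟨u, hu1, hu⟩ := exists_near hK'c hK'v hK'i hiso
  have hcontu : Continuous fun x : E3 => (inner ℝ u x : ℝ) := by fun_prop
  -- the mean of `⟪u, x⟫` is zero
  have hmean : ∫ x in K', (inner ℝ u x : ℝ) = 0 := by
    obtain ⟨c, hc0, _, hc2⟩ := slab_cov e
    rw [hK', hc2]
    have h1 : ∀ x, e x = e.linear (x - g) := by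
      intro x
      have h2 := e.map_vadd g (x - g)
      rw [heg] at h2
      simpa using h2
    let Lc : E3 →L[ℝ] ℝ := (innerSL ℝ u).comp
      (LinearMap.toContinuousLinearMap e.linear.toLinearMap)
    have h3 : ∀ x, (inner ℝ u (e x) : ℝ) = Lc (x - g) := by
      intro x
      rw [h1]
      rfl
    simp only [h3]
    have h4 := Lc.integral_comp_comm (μ := volume.restrict K) (φ := fun x => x - g)
      (hint.sub (continuous_const.continuousOn.integrableOn_compact hK))
    rw [h4, hcent, map_zero, mul_zero]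
  have hsq : ∫ x in K', (inner ℝ u x : ℝ) ^ 2 = 1 / 5 * (volume K').toReal := by
    rw [hiso u, hu1]
    ring
  have hK'ne : K'.Nonempty := hK'i.mono interior_subset
  obtain ⟨x1, hx1, hmax⟩ := hK'c.exists_isMaxOn hK'ne hcontu.continuousOn
  obtain ⟨x0, hx0, hmin⟩ := hK'c.exists_isMinOn hK'ne hcontu.continuousOn
  set h1 : ℝ := inner ℝ u x1 with hh1
  set h0 : ℝ := inner ℝ u x0 with hh0
  have hle : ∀ x ∈ K', (inner ℝ u x : ℝ) ≤ h1 := fun x hx => hmax hx
  have hge : ∀ x ∈ K', h0 ≤ (inner ℝ u x : ℝ) := fun x hx => hmin hx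
  have hi1 : IntegrableOn (fun x : E3 => (inner ℝ u x : ℝ)) K' :=
    hcontu.continuousOn.integrableOn_compact hK'c
  have hi2 : IntegrableOn (fun x : E3 => (inner ℝ u x : ℝ) ^ 2) K' :=
    (hcontu.pow 2).continuousOn.integrableOn_compact hK'c
  have hi0 : ∀ c : ℝ, IntegrableOn (fun _ : E3 => c) K' := fun c =>
    continuous_const.continuousOn.integrableOn_compact hK'c
  have hh1n : 0 ≤ h1 := by
    have h2 : ∫ x in K', (inner ℝ u x : ℝ) ≤ ∫ _x in K', h1 :=
      setIntegral_mono_on hi1 (hi0 h1) hK'c.measurableSet hle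
    rw [hmean, setIntegral_const, smul_eq_mul, Measure.real] at h2
    by_contra h3
    push Not at h3
    nlinarith
  have hh1le : h1 ≤ 1 := hu x1 hx1
  have hh01 : h0 < h1 := by
    by_contra hcon
    push Not at hcon
    have h2 : ∀ x ∈ K', (inner ℝ u x : ℝ) = h1 := fun x hx =>
      le_antisymm (hle x hx) (hcon.trans (hge x hx))
    have h3 : ∫ x in K', (inner ℝ u x : ℝ) = (volume K').toReal * h1 := by
      rw [setIntegral_congr_fun hK'c.measurableSet h2, setIntegral_const, smul_eq_mul,
        Measure.real]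
    have h4 : h1 = 0 := by
      rw [hmean] at h3
      rcases mul_eq_zero.1 h3.symm with h | h
      · exact absurd h hVK'.ne'
      · exact h
    have h5 : ∫ x in K', (inner ℝ u x : ℝ) ^ 2 = 0 := by
      have h6 : ∀ x ∈ K', (inner ℝ u x : ℝ) ^ 2 = 0 := by
        intro x hx
        rw [h2 x hx, h4]
        norm_num
      rw [setIntegral_congr_fun hK'c.measurableSet h6]
      simp
    rw [hsq] at h5
    nlinarith
  set m : ℝ := (h1 + h0) / 2 with hm
  set r : ℝ := (h1 - h0) / 2 with hr
  have hr0 : 0 < r := by rw [hr]; linarith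
  have hu0 : u ≠ 0 := by
    rintro rfl
    simp at hu1
  obtain ⟨e2, he2⟩ := exists_coord (-(r⁻¹ • u)) (neg_ne_zero.2 (smul_ne_zero
    (inv_ne_zero hr0.ne') hu0)) (-(m / r))
  have hs : ∀ x, (e2 x).1 = (inner ℝ u x - m) / r := by
    intro x
    rw [he2, inner_neg_left, real_inner_smul_left]
    field_simp
    ring
  refine ⟨e.trans e2, ?_, ?_⟩
  · have him : (e.trans e2) '' K = e2 '' K' := by
      rw [hK', ← image_comp]
      rfl
    rw [him]
    ext t
    constructor
    · rintro ⟨_, ⟨x, hx, rfl⟩, rfl⟩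
      show (e2 x).1 ∈ Icc (-1:ℝ) 1
      rw [hs, mem_Icc, le_div_iff₀ hr0, div_le_iff₀ hr0]
      have := hle x hx
      have := hge x hx
      constructor
      · rw [hm, hr]; linarith
      · rw [hm, hr]; linarith
    · rintro ⟨ht0, ht1⟩
      refine ⟨e2 (((1 - t) / 2) • x0 + ((1 + t) / 2) • x1), ⟨_, ?_, rfl⟩, ?_⟩
      · exact hK'v hx0 hx1 (by linarith) (by linarith) (by ring)
      · rw [hs, inner_add_right, real_inner_smul_right, real_inner_smul_right, ← hh0, ← hh1,
          div_eq_iff hr0.ne', hm, hr]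
        ring
  · have him : (e.trans e2) '' K = e2 '' K' := by
      rw [hK', ← image_comp]
      rfl
    rw [him]
    haveI : (volume : Measure P3).IsAddHaarMeasure := by
      rw [Measure.volume_eq_prod]
      infer_instance
    obtain ⟨c, hc0, hc1, hc2⟩ := slab_cov e2
    rw [hc1, hc2]
    have h5 : ∫ x in K', (e2 x).1 ^ 2 = (1 / r ^ 2) * ((1 / 5 + m ^ 2) * (volume K').toReal) := by
      have h6 : ∀ x, (e2 x).1 ^ 2 =
          (1 / r ^ 2) * ((inner ℝ u x : ℝ) ^ 2 - (2 * m) * inner ℝ u x + m ^ 2) := by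
        intro x
        rw [hs, div_pow]
        ring
      simp only [h6]
      rw [integral_const_mul]
      have h7 : ∫ x in K', ((inner ℝ u x : ℝ) ^ 2 - (2 * m) * inner ℝ u x + m ^ 2) =
          (∫ x in K', (inner ℝ u x : ℝ) ^ 2) - (2 * m) * (∫ x in K', (inner ℝ u x : ℝ)) +
            m ^ 2 * (volume K').toReal := by
        have a1 : IntegrableOn (fun x : E3 => (2 * m) * (inner ℝ u x : ℝ)) K' :=
          hi1.const_mul _
        have a2 : IntegrableOn (fun x : E3 => (inner ℝ u x : ℝ) ^ 2 - (2 * m) * inner ℝ u x) K' :=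
          hi2.sub a1
        rw [integral_add (f := fun x : E3 => (inner ℝ u x : ℝ) ^ 2 - (2 * m) * inner ℝ u x) a2
          (hi0 (m ^ 2)), integral_sub hi2 a1, integral_const_mul, setIntegral_const, smul_eq_mul,
          Measure.real, mul_comm (volume K').toReal]
      rw [h7, hmean, hsq]
      ring
    rw [h5]
    have h8 := slab_num (Q := 1 / 5) (h1 := h1) (h2 := -h0) (by nlinarith)
    have h9 : r ^ 2 / 6 ≤ 1 / 5 + m ^ 2 := by
      have e1 : (h1 + -h0) / 2 = r := by rw [hr]; ring
      have e2 : (h1 - -h0) / 2 = m := by rw [hm]; ring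
      rw [e1, e2] at h8
      exact h8
    have h10 : 1 / 6 ≤ (1 / r ^ 2) * (1 / 5 + m ^ 2) := by
      rw [one_div_mul_eq_div, le_div_iff₀ (by positivity)]
      linarith
    calc 1 / 6 * (c * (volume K').toReal) = c * (1 / 6 * (volume K').toReal) := by ring
      _ ≤ c * (((1 / r ^ 2) * (1 / 5 + m ^ 2)) * (volume K').toReal) := by
          apply mul_le_mul_of_nonneg_left _ hc0.le
          exact mul_le_mul_of_nonneg_right h10 hVK'.le
      _ = _ := by ring

end Pool.Agent.Lib.MP_a773b5_gt
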