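import Pool.Agent.Lib.MP_a773b5_gt.Defs

set_option autoImplicit false

namespace Pool.Agent.Lib.MP_a773b5_gt

open MeasureTheory Set

private def stdS (a b c : ℝ) : Set P3 :=
  {p | 0 ≤ p.1 ∧ 0 ≤ p.2.1 ∧ 0 ≤ p.2.2 ∧ p.1 / a + p.2.1 / b + p.2.2 / c ≤ 1}

private theorem stdTet_hull (a b c : ℝ) (ha : 0 < a) (hb : 0 < b) (hc : 0 < c) :
    convexHull ℝ (range (![((0:ℝ), (0:ℝ), (0:ℝ)), (a, 0, 0), (0, b, 0), (0, 0, c)] :
      Fin 4 → P3)) = stdS a b c := by
  apply Subset.antisymm
  · apply convexHull_min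
    · rintro _ ⟨i, rfl⟩
      fin_cases i <;> simp [stdS, ha.le, hb.le, hc.le, ha.ne', hb.ne', hc.ne']
    · intro p hp q hq s t hs ht hst
      obtain ⟨p1, p2, p3, p4⟩ := hp
      obtain ⟨q1, q2, q3, q4⟩ := hq
      refine ⟨?_, ?_, ?_, ?_⟩
      · simp only [Prod.fst_add, Prod.smul_fst, smul_eq_mul]; positivity
      · simp only [Prod.snd_add, Prod.smul_snd, Prod.fst_add, Prod.smul_fst, smul_eq_mul]
        positivity
      · simp only [Prod.snd_add, Prod.smul_snd, smul_eq_mul]
        positivity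
      · simp only [Prod.snd_add, Prod.smul_snd, Prod.fst_add, Prod.smul_fst, smul_eq_mul]
        have h1 : (s * p.1 + t * q.1) / a + (s * p.2.1 + t * q.2.1) / b
            + (s * p.2.2 + t * q.2.2) / c
            = s * (p.1 / a + p.2.1 / b + p.2.2 / c) + t * (q.1 / a + q.2.1 / b + q.2.2 / c) := by
          ring
        rw [h1]
        nlinarith [mul_le_mul_of_nonneg_left p4 hs, mul_le_mul_of_nonneg_left q4 ht]
  · rintro ⟨z, y, x⟩ ⟨h1, h2, h3, h4⟩
    simp only at h1 h2 h3 h4
    have key := (convex_convexHull ℝ (range (![((0:ℝ), (0:ℝ), (0:ℝ)), (a, 0, 0), (0, b, 0),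
      (0, 0, c)] : Fin 4 → P3))).sum_mem (t := Finset.univ)
      (w := ![1 - z / a - y / b - x / c, z / a, y / b, x / c])
      (z := (![((0:ℝ), (0:ℝ), (0:ℝ)), (a, 0, 0), (0, b, 0), (0, 0, c)] : Fin 4 → P3))
      (by
        intro i _
        fin_cases i
        · simp; linarith
        · simp; positivity
        · simp; positivity
        · simp; positivity)
      (by simp [Fin.sum_univ_four]; ring)
      (by
        intro i _
        exact subset_convexHull ℝ _ (mem_range_self i))
    convert key using 1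
    simp [Fin.sum_univ_four, ha.ne', hb.ne', hc.ne']

private theorem stdTet_meas (a b c : ℝ) : MeasurableSet (stdS a b c) := by
  unfold stdS
  apply IsClosed.measurableSet
  refine IsClosed.inter ?_ (IsClosed.inter ?_ (IsClosed.inter ?_ ?_))
  · exact isClosed_le continuous_const continuous_fst
  · exact isClosed_le continuous_const (continuous_fst.comp continuous_snd)
  · exact isClosed_le continuous_const (continuous_snd.comp continuous_snd)
  · exact isClosed_le (f := fun p : P3 => p.1 / a + p.2.1 / b + p.2.2 / c) (by fun_prop)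
      continuous_const

private theorem stdTet_line (c u : ℝ) (hc : 0 < c) :
    volume {x : ℝ | 0 ≤ x ∧ x / c ≤ u} = ENNReal.ofReal (c * u) := by
  have : {x : ℝ | 0 ≤ x ∧ x / c ≤ u} = Icc 0 (c * u) := by
    ext x
    simp only [mem_ofPred_eq, mem_Icc, div_le_iff₀ hc]
    constructor
    · rintro ⟨h1, h2⟩; exact ⟨h1, by linarith⟩
    · rintro ⟨h1, h2⟩; exact ⟨h1, by linarith⟩
  rw [this, Real.volume_Icc]
  simp

private theorem stdTet_lint (b u : ℝ) (hb : 0 < b) (hu : 0 ≤ u) (f : ℝ → ℝ)
    (hf : Continuous f) (hpos : ∀ y, y / b ≤ u → 0 ≤ f y) (hneg : ∀ y, u < y / b → f y ≤ 0) :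
    ∫⁻ y in Ici (0:ℝ), ENNReal.ofReal (f y) = ENNReal.ofReal (∫ y in (0:ℝ)..(b * u), f y) := by
  have hbu : 0 ≤ b * u := by positivity
  have h1 : Ici (0:ℝ) = Icc 0 (b * u) ∪ Ioi (b * u) := by
    rw [Icc_union_Ioi_eq_Ici hbu]
  rw [h1, lintegral_union measurableSet_Ioi]
  · have h2 : ∫⁻ y in Ioi (b * u), ENNReal.ofReal (f y) = 0 := by
      rw [setLIntegral_congr_fun measurableSet_Ioi (g := fun _ => 0)]
      · simp
      · intro y hy
        simp only [mem_Ioi] at hy
        apply ENNReal.ofReal_eq_zero.2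
        apply hneg
        rw [lt_div_iff₀ hb]
        linarith
    rw [h2, add_zero, intervalIntegral.integral_of_le hbu, ← integral_Icc_eq_integral_Ioc,
      ofReal_integral_eq_lintegral_ofReal]
    · exact hf.continuousOn.integrableOn_compact isCompact_Icc
    · rw [Filter.EventuallyLE, ae_restrict_iff' measurableSet_Icc]
      refine Filter.Eventually.of_forall fun y hy => ?_
      apply hpos
      rw [div_le_iff₀ hb]
      linarith [hy.2]
  · rw [Set.disjoint_left]
    intro y hy hy2
    simp only [mem_Icc, mem_Ioi] at hy hy2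
    linarith [hy.2]

private theorem stdTet_plane (b c u : ℝ) (hb : 0 < b) (hc : 0 < c) :
    volume {p : ℝ × ℝ | 0 ≤ p.1 ∧ 0 ≤ p.2 ∧ p.1 / b + p.2 / c ≤ u}
      = ENNReal.ofReal (if u ≤ 0 then 0 else b * c * u ^ 2 / 2) := by
  have hm : MeasurableSet {p : ℝ × ℝ | 0 ≤ p.1 ∧ 0 ≤ p.2 ∧ p.1 / b + p.2 / c ≤ u} := by
    apply IsClosed.measurableSet
    refine IsClosed.inter ?_ (IsClosed.inter ?_ ?_)
    · exact isClosed_le continuous_const continuous_fst
    · exact isClosed_le continuous_const continuous_snd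
    · exact isClosed_le (f := fun p : ℝ × ℝ => p.1 / b + p.2 / c) (by fun_prop)
        continuous_const
  rw [Measure.volume_eq_prod, Measure.prod_apply hm]
  have h1 : ∀ y : ℝ, volume (Prod.mk y ⁻¹' {p : ℝ × ℝ | 0 ≤ p.1 ∧ 0 ≤ p.2 ∧ p.1 / b + p.2 / c ≤ u})
      = (Ici (0:ℝ)).indicator (fun y => ENNReal.ofReal (c * (u - y / b))) y := by
    intro y
    by_cases hy : 0 ≤ y
    · rw [indicator_of_mem (by simpa using hy)]
      rw [← stdTet_line c (u - y / b) hc]
      congr 1
      ext x
      simp only [mem_preimage, mem_ofPred_eq, hy, true_and]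
      constructor
      · rintro ⟨h1, h2⟩; exact ⟨h1, by linarith⟩
      · rintro ⟨h1, h2⟩; exact ⟨h1, by linarith⟩
    · rw [indicator_of_notMem (by simpa using hy)]
      have : Prod.mk y ⁻¹' {p : ℝ × ℝ | 0 ≤ p.1 ∧ 0 ≤ p.2 ∧ p.1 / b + p.2 / c ≤ u} = ∅ := by
        ext x
        simp [hy]
      rw [this, measure_empty]
  simp_rw [h1]
  rw [lintegral_indicator measurableSet_Ici]
  split_ifs with hu
  · rw [setLIntegral_congr_fun measurableSet_Ici (g := fun _ => 0)]
    · simp
    · intro y hy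
      simp only [mem_Ici] at hy
      apply ENNReal.ofReal_eq_zero.2
      have : 0 ≤ y / b := by positivity
      nlinarith
  · push Not at hu
    rw [stdTet_lint b u hb hu.le (fun y => c * (u - y / b)) (by fun_prop)
      (fun y hy => by have : 0 ≤ u - y / b := by linarith
                      positivity)
      (fun y hy => by nlinarith)]
    congr 1
    have : ∀ y ∈ uIcc (0:ℝ) (b * u), HasDerivAt (fun y => c * (u * y - y ^ 2 / (2 * b)))
        (c * (u - y / b)) y := by
      intro y _
      have h2 : HasDerivAt (fun y : ℝ => c * (u * y - y ^ 2 / (2 * b)))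
          (c * (u * 1 - (2 * y ^ (2 - 1) * 1) / (2 * b))) y := by
        refine HasDerivAt.const_mul _ (HasDerivAt.sub ((hasDerivAt_id y).const_mul u) ?_)
        simpa using ((hasDerivAt_id y).pow 2).div_const (2 * b)
      convert h2 using 1
      field_simp
      ring
    rw [intervalIntegral.integral_eq_sub_of_hasDerivAt this
      (Continuous.intervalIntegrable (by fun_prop) _ _)]
    field_simp
    ring

/-- Volume of the corner tetrahedron. (Fubini: the tetrahedron is
`{(z,y,x) | 0 ≤ z, 0 ≤ y, 0 ≤ x, z/a + y/b + x/c ≤ 1}`.) -/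
theorem volume_stdTet (a b c : ℝ) (ha : 0 < a) (hb : 0 < b) (hc : 0 < c) :
    volume (convexHull ℝ (range (![((0:ℝ), (0:ℝ), (0:ℝ)), (a, 0, 0), (0, b, 0), (0, 0, c)] :
      Fin 4 → P3))) = ENNReal.ofReal (a * b * c / 6) := by
  rw [stdTet_hull a b c ha hb hc, Measure.volume_eq_prod, Measure.prod_apply (stdTet_meas a b c)]
  have h1 : ∀ z : ℝ, volume (Prod.mk z ⁻¹' stdS a b c)
      = (Ici (0:ℝ)).indicator (fun z => ENNReal.ofReal
        (if 1 - z / a ≤ 0 then 0 else b * c * (1 - z / a) ^ 2 / 2)) z := by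
    intro z
    by_cases hz : 0 ≤ z
    · rw [indicator_of_mem (by simpa using hz)]
      rw [← stdTet_plane b c (1 - z / a) hb hc]
      congr 1
      ext p
      simp only [stdS, mem_preimage, mem_ofPred_eq, hz, true_and]
      constructor
      · rintro ⟨h1, h2, h3⟩; exact ⟨h1, h2, by linarith⟩
      · rintro ⟨h1, h2, h3⟩; exact ⟨h1, h2, by linarith⟩
    · rw [indicator_of_notMem (by simpa using hz)]
      have : Prod.mk z ⁻¹' stdS a b c = ∅ := by
        ext x
        simp [stdS, hz]
      rw [this, measure_empty]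
  simp_rw [h1]
  rw [lintegral_indicator measurableSet_Ici]
  have h2 : ∀ z : ℝ, (if 1 - z / a ≤ 0 then (0:ℝ) else b * c * (1 - z / a) ^ 2 / 2)
      = b * c * (max (1 - z / a) 0) ^ 2 / 2 := by
    intro z
    split_ifs with h
    · rw [max_eq_right h]; simp
    · rw [max_eq_left (by linarith)]
  simp_rw [h2]
  rw [stdTet_lint a 1 ha zero_le_one (fun z => b * c * (max (1 - z / a) 0) ^ 2 / 2)
    (by fun_prop) (fun y hy => by positivity)
    (fun y hy => by rw [max_eq_right (by linarith)]; simp)]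
  congr 1
  rw [mul_one]
  have h3 : ∫ y in (0:ℝ)..a, b * c * (max (1 - y / a) 0) ^ 2 / 2
      = ∫ y in (0:ℝ)..a, b * c * (1 - y / a) ^ 2 / 2 := by
    apply intervalIntegral.integral_congr
    intro y hy
    rw [uIcc_of_le ha.le] at hy
    have : y / a ≤ 1 := by
      rw [div_le_one ha]; exact hy.2
    simp only
    rw [max_eq_left (by linarith)]
  rw [h3]
  have : ∀ y ∈ uIcc (0:ℝ) a, HasDerivAt (fun y => -(a * b * c / 6) * (1 - y / a) ^ 3)
      (b * c * (1 - y / a) ^ 2 / 2) y := by
    intro y _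
    have h2 : HasDerivAt (fun y : ℝ => -(a * b * c / 6) * (1 - y / a) ^ 3)
        (-(a * b * c / 6) * (3 * (1 - y / a) ^ (3 - 1) * (0 - 1 / a))) y := by
      refine HasDerivAt.const_mul _ ?_
      exact ((hasDerivAt_const y (1:ℝ)).sub ((hasDerivAt_id y).div_const a)).pow 3
    convert h2 using 1
    have h5 : a * (1 / a) = 1 := by field_simp
    linear_combination (- (b * c * (1 - y / a) ^ 2 / 2)) * h5
  rw [intervalIntegral.integral_eq_sub_of_hasDerivAt this
    (Continuous.intervalIntegrable (by fun_prop) _ _)]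
  field_simp
  ring

end Pool.Agent.Lib.MP_a773b5_gt
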