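import Pool.Agent.Lib.MP_a773b5_gt.Chord1

set_option autoImplicit false

namespace Pool.Agent.Lib.MP_a773b5_gt

open MeasureTheory Set

private lemma sym_aux {h : ℝ} (hh : 0 < h) {f : ℝ → ℝ} (hf : ConcaveOn ℝ (Icc 0 h) f)
    (hfc : ContinuousOn f (Icc 0 h)) (hn : ∀ z ∈ Icc 0 h, 0 ≤ f z)
    (hs : ∀ z ∈ Icc 0 h, f (h - z) = f z)
    (hyp : 3 / 22 * (∫ z in (0:ℝ)..h, f z ^ 2) ≤ f 0 ^ 2 * (h / 2))
    {z : ℝ} (hz : z ∈ Icc 0 h) (hz2 : h / 2 ≤ z) : z * f z ^ 2 ≤ ∫ z in (0:ℝ)..h, f z ^ 2 := by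
  obtain ⟨hz0, hz1⟩ := hz
  by_contra hcon
  push Not at hcon
  have hz' : h - z ∈ Icc 0 h := ⟨by linarith, by linarith⟩
  have hle1 : h - z ≤ z := by linarith
  have hgz : f (h - z) = f z := hs z ⟨hz0, hz1⟩
  have hfh : f h = f 0 := by
    have := hs 0 ⟨le_rfl, hh.le⟩
    simpa using this
  -- integrability
  have hint : ∀ a b : ℝ, 0 ≤ a → a ≤ b → b ≤ h →
      IntervalIntegrable (fun z => f z ^ 2) volume a b := by
    intro a b ha hab hb
    apply ContinuousOn.intervalIntegrable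
    rw [uIcc_of_le hab]
    exact (hfc.mono (Icc_subset_Icc ha hb)).pow 2
  have i1 := hint 0 (h - z) le_rfl hz'.1 hz'.2
  have i2 := hint (h - z) z hz'.1 hle1 hz1
  have i3 := hint z h hz0 hz1 le_rfl
  have hsplit : (∫ z in (0:ℝ)..h, f z ^ 2) = (∫ x in (0:ℝ)..(h - z), f x ^ 2) +
      (∫ x in (h - z)..z, f x ^ 2) + ∫ x in z..h, f x ^ 2 := by
    rw [intervalIntegral.integral_add_adjacent_intervals i1 i2,
      intervalIntegral.integral_add_adjacent_intervals (i1.trans i2) i3]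
  have m1 := chord_mass (u := 0) (w := h - z) hz'.1
    (hf.subset (Icc_subset_Icc le_rfl hz'.2) (convex_Icc _ _))
    (hfc.mono (Icc_subset_Icc le_rfl hz'.2)) (fun x hx => hn x ⟨hx.1, hx.2.trans hz'.2⟩)
  have m3 := chord_mass (u := z) (w := h) hz1
    (hf.subset (Icc_subset_Icc hz0 le_rfl) (convex_Icc _ _))
    (hfc.mono (Icc_subset_Icc hz0 le_rfl)) (fun x hx => hn x ⟨hz0.trans hx.1, hx.2⟩)
  have hg0 : 0 ≤ f z := hn z ⟨hz0, hz1⟩
  have m2 : (z - (h - z)) * f z ^ 2 ≤ ∫ x in (h - z)..z, f x ^ 2 := by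
    have : (∫ x in (h - z)..z, f z ^ 2) = (z - (h - z)) * f z ^ 2 := by
      simp
    rw [← this]
    apply intervalIntegral.integral_mono_on hle1 (by simp) i2
    intro x hx
    have := hf.min_le_of_mem_Icc hz' ⟨hz0, hz1⟩ hx
    rw [hgz, min_self] at this
    exact pow_le_pow_left₀ hg0 this 2
  rw [hgz] at m1
  rw [hfh] at m3
  set V := ∫ z in (0:ℝ)..h, f z ^ 2 with hV
  set g := f z with hg
  set k := f 0 with hk
  have hk0 : 0 ≤ k := hn 0 ⟨le_rfl, hh.le⟩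
  have hVge : (2 * z - h) * g ^ 2 + 2 / 3 * (h - z) * (g ^ 2 + g * k + k ^ 2) ≤ V := by
    rw [hsplit]
    linarith
  have hstep : 2 / 3 * (h - z) * (g ^ 2 + g * k + k ^ 2) < (h - z) * g ^ 2 := by
    linarith
  have hpos : 0 < h - z := by
    rcases hz'.1.eq_or_lt with h0 | h0
    · rw [← h0] at hstep
      simp at hstep
    · exact h0
  have hstep2 : 2 / 3 * (g ^ 2 + g * k + k ^ 2) < g ^ 2 := by
    have : (h - z) * (2 / 3 * (g ^ 2 + g * k + k ^ 2)) < (h - z) * g ^ 2 := by linarith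
    exact lt_of_mul_lt_mul_left this hpos.le
  have hVM : h / 2 * (2 / 3 * (g ^ 2 + g * k + k ^ 2)) ≤ V := by
    have h1 : (2 * z - h) * (2 / 3 * (g ^ 2 + g * k + k ^ 2)) ≤ (2 * z - h) * g ^ 2 :=
      mul_le_mul_of_nonneg_left hstep2.le (by linarith)
    have h2 : h / 2 * (2 / 3 * (g ^ 2 + g * k + k ^ 2)) ≤
        z * (2 / 3 * (g ^ 2 + g * k + k ^ 2)) :=
      mul_le_mul_of_nonneg_right hz2 (by positivity)
    linarith
  have hkey : 10 * k ^ 2 < g ^ 2 + g * k := by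
    rcases hk0.eq_or_lt with h0 | h0
    · rw [← h0] at hstep2 ⊢
      nlinarith
    · have hgk : 8 / 3 * k < g := by
        by_contra hle
        push Not at hle
        nlinarith [mul_nonneg hk0 hg0, mul_nonneg (sub_nonneg.2 hle) hg0]
      nlinarith
  have : h / 2 * (2 / 3 * (g ^ 2 + g * k + k ^ 2)) ≤ h / 2 * (22 / 3 * k ^ 2) := by
    linarith
  have := le_of_mul_le_mul_left this (by linarith : 0 < h / 2)
  linarith

/-- Symmetric lemma. Suppose `z f(z)² > V`. By symmetry we may take `z ≥ h/2`, write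
`z = (h/2)(1+t)`, `g = f z`, `k = f 0 / g`. On `[h - z, z]` we have `f ≥ g`, on the two end
intervals use `chord_mass`: `V ≥ (h/2) g² (2t + (2/3)(1-t)(1+k+k²))`. Hence `t < 1` and
`1+k+k² < 3/2`, so `10 k² < k + 1`, and `V ≥ (h/2) g² (2/3)(1+k+k²) > (22/3)(h/2) k² g²`,
against `hyp`. -/
theorem sym_lemma {h : ℝ} (hh : 0 < h) {f : ℝ → ℝ} (hf : ConcaveOn ℝ (Icc 0 h) f)
    (hfc : ContinuousOn f (Icc 0 h)) (hn : ∀ z ∈ Icc 0 h, 0 ≤ f z)
    (hs : ∀ z ∈ Icc 0 h, f (h - z) = f z)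
    (hyp : 3 / 22 * (∫ z in (0:ℝ)..h, f z ^ 2) ≤ f 0 ^ 2 * (h / 2)) :
    ∀ z ∈ Icc 0 h, z * f z ^ 2 ≤ ∫ z in (0:ℝ)..h, f z ^ 2 := by
  intro z hz
  rcases le_total (h / 2) z with h2 | h2
  · exact sym_aux hh hf hfc hn hs hyp hz h2
  · have h3 := sym_aux hh hf hfc hn hs hyp (z := h - z) ⟨by linarith [hz.2], by linarith [hz.1]⟩
      (by linarith)
    rw [hs z hz] at h3
    refine le_trans ?_ h3
    exact mul_le_mul_of_nonneg_right (by linarith) (sq_nonneg _)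

end Pool.Agent.Lib.MP_a773b5_gt
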