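import Pool.Agent.Lib.MP_a773b5_gt.Select
import Pool.Agent.Lib.MP_a773b5_gt.SymLemma
import Pool.Agent.Lib.MP_a773b5_gt.SecCont
import Pool.Agent.Lib.MP_a773b5_gt.Fub
import Pool.Agent.Lib.MP_a773b5_gt.Height

set_option autoImplicit false

namespace Pool.Agent.Lib.MP_a773b5_gt

open MeasureTheory Set
open scoped ENNReal

private theorem sy_haar : (volume : Measure P3).IsAddHaarMeasure :=
  Measure.prod.instIsAddHaarMeasure (volume : Measure ℝ) (volume : Measure (ℝ × ℝ))

attribute [local instance] sy_haar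

/-- sections of a symmetric body at symmetric heights have the same area -/
private theorem sy_secArea {K : Set P3} {c : P3} (hs : ∀ p ∈ K, (2:ℝ) • c - p ∈ K) (z : ℝ) :
    secArea K (2 * c.1 - z) = secArea K z := by
  have h : sec K (2 * c.1 - z) = (fun q : ℝ × ℝ => (2:ℝ) • c.2 - q) ⁻¹' sec K z := by
    ext q
    simp only [sec, mem_setOf_eq, mem_preimage]
    constructor
    · intro hq
      have h1 := hs _ hq
      have h2 : (2:ℝ) • c - ((2 * c.1 - z, q) : P3) = (z, (2:ℝ) • c.2 - q) := by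
        ext <;> simp
      rwa [h2] at h1
    · intro hq
      have h1 := hs _ hq
      have h2 : (2:ℝ) • c - ((z, (2:ℝ) • c.2 - q) : P3) = (2 * c.1 - z, q) := by
        ext <;> simp
      rwa [h2] at h1
  unfold secArea
  rw [h]
  congr 1
  exact (Measure.measurePreserving_sub_left (volume : Measure (ℝ × ℝ)) ((2:ℝ) • c.2)).measure_preimage_emb
    (Homeomorph.subLeft ((2:ℝ) • c.2)).measurableEmbedding _

/-- A body in `z ≥ 0`, symmetric about a point `c`, with a large facet in `z = 0`. -/
theorem hasTet_of_facet_sym {K : Set P3} (hK : IsCompact K) (hc : Convex ℝ K)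
    (hi : (interior K).Nonempty) (hz : ∀ p ∈ K, 0 ≤ p.1) {c : P3}
    (hs : ∀ p ∈ K, (2:ℝ) • c - p ∈ K)
    (hyp : 3 / 22 * (volume K).toReal ≤ c.1 * secArea K 0) :
    HasTet K (9 / 2 * (volume K).toReal) := by
  obtain ⟨z0, z1, h01, hI⟩ := exists_Icc hK hc hi
  have hV : 0 < (volume K).toReal := by
    apply ENNReal.toReal_pos
    · have h := isOpen_interior.measure_pos (volume : Measure P3) hi
      exact (lt_of_lt_of_le h (measure_mono interior_subset)).ne'
    · exact hK.measure_lt_top.ne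
  have hz0 : 0 ≤ z0 := by
    have h1 : z0 ∈ Prod.fst '' K := by rw [hI]; exact ⟨le_rfl, h01.le⟩
    obtain ⟨p, hp, rfl⟩ := h1
    exact hz p hp
  have hz00 : z0 = 0 := by
    by_contra hne
    have h2 : (0:ℝ) ∉ Prod.fst '' K := by
      rw [hI]
      rintro ⟨h3, _⟩
      exact hne (le_antisymm h3 hz0)
    rw [secArea_eq_zero h2, mul_zero] at hyp
    nlinarith
  subst hz00
  have hrefl : ∀ z ∈ Prod.fst '' K, 2 * c.1 - z ∈ Prod.fst '' K := by
    rintro z ⟨p, hp, rfl⟩
    exact ⟨_, hs p hp, by simp⟩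
  rw [hI] at hrefl
  have hc1 : 2 * c.1 = z1 := by
    have h1 := (hrefl 0 ⟨le_rfl, h01.le⟩).2
    have h2 := (hrefl z1 ⟨h01.le, le_rfl⟩).1
    linarith
  have hsn : ∀ z, 0 ≤ secArea K z := fun z => ENNReal.toReal_nonneg
  have hsq : ∀ z, √(secArea K z) ^ 2 = secArea K z := fun z => Real.sq_sqrt (hsn z)
  have hcv : ConcaveOn ℝ (Icc 0 z1) (fun z => √(secArea K z)) := by
    have := sqrt_secArea_concaveOn hK hc
    rwa [hI] at this
  have hct : ContinuousOn (fun z => √(secArea K z)) (Icc 0 z1) :=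
    (secArea_continuousOn hK hc h01 hI).sqrt
  have hvh := volume_height hK h01.le hI.le
  have key := sym_lemma h01 hcv hct (fun z _ => Real.sqrt_nonneg _)
    (fun z _ => by
      show √(secArea K (z1 - z)) = √(secArea K z)
      rw [← hc1, sy_secArea hs z]) (by
    simp only [hsq]
    rw [← hvh, ← hc1]
    linarith)
  simp only [hsq] at key
  rw [← hvh] at key
  refine tet_height hK hc hi hz (G := (volume K).toReal) ?_
  intro z
  by_cases hzI : z ∈ Icc 0 z1
  · exact key z hzI
  · rw [secArea_eq_zero (by rw [hI]; exact hzI), mul_zero]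
    exact hV.le

/-- Centrally symmetric convex polytopes with at most 22 facets. -/
theorem sym_facets (a : Fin 22 → E3) (b : Fin 22 → ℝ) {K : Set E3}
    (hKdef : K = {x | ∀ i, inner ℝ (a i) x ≤ b i}) (hK : IsCompact K)
    (hi : (interior K).Nonempty) (hs : ∀ x ∈ K, -x ∈ K) : TetRatio K (9 / 2) := by
  have hcv : Convex ℝ K := by
    rw [hKdef]
    have : {x : E3 | ∀ i, inner ℝ (a i) x ≤ b i} = ⋂ i, {x : E3 | inner ℝ (a i) x ≤ b i} := by
      ext x; simp
    rw [this]
    refine convex_iInter fun i => ?_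
    exact convex_halfSpace_le (f := fun x : E3 => inner ℝ (a i) x)
      ⟨fun x y => inner_add_right _ _ _, fun r x => by rw [inner_smul_right]; rfl⟩ (b i)
  have hcm : (0 : E3) ∈ K := by
    obtain ⟨x, hx⟩ := hi
    have hx' := interior_subset hx
    have h1 := hcv hx' (hs x hx') (by norm_num : (0:ℝ) ≤ 1/2) (by norm_num : (0:ℝ) ≤ 1/2) (by norm_num)
    rwa [smul_neg, add_neg_cancel] at h1
  obtain ⟨i, hai, e, he, hsel⟩ := facet_select a b hKdef hK hi hcm
  have hec : Continuous e := e.toAffineMap.continuous_of_finiteDimensional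
  have hK' : IsCompact (e '' K) := hK.image hec
  have hcv' : Convex ℝ (e '' K) := hcv.affine_image e.toAffineMap
  have hi' : (interior (e '' K)).Nonempty := by
    have hop : IsOpenMap e := (e.toContinuousAffineEquiv.toHomeomorph).isOpenMap
    exact (hi.image e).mono (hop.image_interior_subset K)
  have hz : ∀ p ∈ e '' K, 0 ≤ p.1 := by
    rintro p ⟨x, hx, rfl⟩
    rw [he x]
    rw [hKdef] at hx
    linarith [hx i]
  have hex : ∀ x : E3, e x = e.linear x + e 0 := by
    intro x
    have h4 := e.map_vadd 0 x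
    simpa using h4
  have hs' : ∀ p ∈ e '' K, (2:ℝ) • e 0 - p ∈ e '' K := by
    rintro p ⟨x, hx, rfl⟩
    refine ⟨-x, hs x hx, ?_⟩
    rw [hex (-x), hex x, map_neg, two_smul]
    abel
  have h1 : HasTet (e '' K) (9 / 2 * (volume (e '' K)).toReal) := by
    refine hasTet_of_facet_sym hK' hcv' hi' hz hs' ?_
    push_cast at hsel
    exact hsel
  exact tetRatio_of_image e (tetRatio_of_hasTet hK'.measure_lt_top.ne (by norm_num) h1)

end Pool.Agent.Lib.MP_a773b5_gt
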