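import Pool.Agent.Lib.MP_a773b5_gt.StdTet
import Pool.Agent.Lib.MP_a773b5_gt.Aff

set_option autoImplicit false

namespace Pool.Agent.Lib.MP_a773b5_gt

open MeasureTheory Set

/-- The coordinate map. -/
private def tvPsi : E3 → P3 := fun x => (x 0, x 1, x 2)

private theorem tvPsi_mp : MeasurePreserving tvPsi volume volume := by
  have h1 := PiLp.volume_preserving_ofLp (Fin 3)
  have h2 := volume_preserving_piFinSuccAbove (fun _ : Fin 3 => ℝ) 0
  have h3 := (MeasurePreserving.id (volume : Measure ℝ)).prod (volume_preserving_finTwoArrow ℝ)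
  have h := (h3.comp h2).comp h1
  have he : tvPsi = ((Prod.map id (MeasurableEquiv.finTwoArrow : (Fin 2 → ℝ) ≃ᵐ ℝ × ℝ)) ∘
      (MeasurableEquiv.piFinSuccAbove (fun _ : Fin 3 => ℝ) 0)) ∘ (@WithLp.ofLp 2 (Fin 3 → ℝ)) := by
    ext x
    · rfl
    · rfl
    · rfl
  rw [he]
  exact h

/-- The inverse of the coordinate map. -/
private noncomputable def tvG : P3 →ₗ[ℝ] E3 where
  toFun q := WithLp.toLp 2 ![q.1, q.2.1, q.2.2]
  map_add' p q := by
    ext i
    fin_cases i <;> simp
  map_smul' r p := by
    ext i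
    fin_cases i <;> simp

private theorem tvG_apply (q : P3) : tvG q = WithLp.toLp 2 ![q.1, q.2.1, q.2.2] := rfl

private theorem tvPsi_tvG (q : P3) : tvPsi (tvG q) = q := by
  simp [tvPsi, tvG_apply]

private theorem tvG_tvPsi (x : E3) : tvG (tvPsi x) = x := by
  ext i
  fin_cases i <;> simp [tvPsi, tvG_apply]

private theorem volume_tvG_image (S : Set P3) (hS : MeasurableSet S) :
    volume (tvG '' S) = volume S := by
  have h : tvG '' S = tvPsi ⁻¹' S := by
    ext x
    constructor
    · rintro ⟨q, hq, rfl⟩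
      simpa [mem_preimage, tvPsi_tvG] using hq
    · intro hx
      exact ⟨tvPsi x, hx, tvG_tvPsi x⟩
  rw [h]
  exact tvPsi_mp.measure_preimage hS.nullMeasurableSet

/-- Volume of a tetrahedron in Euclidean three-space (image of the corner tetrahedron with legs
`1`, `volume_stdTet`, under the affine map `x ↦ v 0 + M x`). -/
theorem volume_tet (v : Fin 4 → E3) :
    volume (convexHull ℝ (range v)) =
      ENNReal.ofReal (|(Matrix.of (fun i j : Fin 3 => v i.succ j - v 0 j)).det| / 6) := by
  set w : Fin 4 → P3 := ![((0:ℝ), (0:ℝ), (0:ℝ)), (1, 0, 0), (0, 1, 0), (0, 0, 1)] with hw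
  have h0 := volume_stdTet 1 1 1 one_pos one_pos one_pos
  rw [← hw] at h0
  set B := (EuclideanSpace.basisFun (Fin 3) ℝ).toBasis with hB
  set f : E3 →ₗ[ℝ] E3 := B.constr ℝ (fun i : Fin 3 => v i.succ - v 0) with hf
  have hfB : ∀ i : Fin 3, f (B i) = v i.succ - v 0 := fun i => by
    rw [hf, Module.Basis.constr_basis]
  have hdet : LinearMap.det f =
      (Matrix.of (fun i j : Fin 3 => v i.succ j - v 0 j)).det := by
    rw [← LinearMap.det_toMatrix B f, ← Matrix.det_transpose]
    congr 1
    ext i j
    rw [Matrix.transpose_apply, LinearMap.toMatrix_apply, hfB]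
    simp [hB]
  have hBi : ∀ i : Fin 3, B i = EuclideanSpace.single i (1:ℝ) := by
    intro i
    simp [hB]
  have hrange : range v = (fun x => v 0 + x) '' (f '' (tvG '' (range w))) := by
    rw [image_image, image_image, ← range_comp]
    congr 1
    have hg0 : tvG (w 0) = 0 := by
      ext i
      fin_cases i <;> simp [hw, tvG_apply]
    have hg1 : tvG (w 1) = B 0 := by
      rw [hBi]
      ext i
      fin_cases i <;> simp [hw, tvG_apply]
    have hg2 : tvG (w 2) = B 1 := by
      rw [hBi]
      ext i
      fin_cases i <;> simp [hw, tvG_apply]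
    have hg3 : tvG (w 3) = B 2 := by
      rw [hBi]
      ext i
      fin_cases i <;> simp [hw, tvG_apply]
    funext i
    fin_cases i
    · show v 0 = v 0 + f (tvG (w 0))
      rw [hg0, map_zero, add_zero]
    · show v 1 = v 0 + f (tvG (w 1))
      rw [hg1, hfB]
      show v 1 = v 0 + (v 1 - v 0)
      abel
    · show v 2 = v 0 + f (tvG (w 2))
      rw [hg2, hfB]
      show v 2 = v 0 + (v 2 - v 0)
      abel
    · show v 3 = v 0 + f (tvG (w 3))
      rw [hg3, hfB]
      show v 3 = v 0 + (v 3 - v 0)
      abel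
  have hhull : convexHull ℝ (range v) =
      (fun x => v 0 + x) '' (f '' (tvG '' (convexHull ℝ (range w)))) := by
    rw [hrange, LinearMap.image_convexHull, LinearMap.image_convexHull]
    have := (AffineEquiv.constVAdd ℝ E3 (v 0)).toAffineMap.image_convexHull
      (f '' (tvG '' (range w)))
    exact this.symm
  rw [hhull, image_add_left, measure_preimage_add, Measure.addHaar_image_linearMap,
    volume_tvG_image _ ((finite_range w).isCompact_convexHull (𝕜 := ℝ)).measurableSet, h0, hdet,
    ← ENNReal.ofReal_mul (abs_nonneg _)]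
  congr 1
  ring

end Pool.Agent.Lib.MP_a773b5_gt
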