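import Pool.Agent.Lib.MP_a773b5_gt.WCase

set_option autoImplicit false

namespace Pool.Agent.Lib.MP_a773b5_gt

open MeasureTheory Set

/-- The `7/6` lemma. Suppose `(1+s) f(s)² > (7/6) V` and `(1-t) f(t)² > (7/6) V` with
`V = ∫ f² > 0`. Divide `f²` by a constant so that both products are at least `1` and `V < 6/7`. If
`t > 0` use `w_caseB` at `t`; if `s < 0` use `w_caseB` for `T ↦ f (-T)` at `-s`; otherwise
`t ≤ 0 ≤ s` and `w_caseA` applies. Then `∫ T² f² ≤ (2/5) V - 1/5 < V/6`, a contradiction. -/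
theorem w_lemma {f : ℝ → ℝ} (hf : ConcaveOn ℝ (Icc (-1) 1) f)
    (hfc : ContinuousOn f (Icc (-1) 1)) (hn : ∀ T ∈ Icc (-1) 1, 0 ≤ f T)
    (hV : 1 / 6 * (∫ T in (-1:ℝ)..1, f T ^ 2) ≤ ∫ T in (-1:ℝ)..1, T ^ 2 * f T ^ 2) :
    (∀ T ∈ Icc (-1:ℝ) 1, (1 + T) * f T ^ 2 ≤ 7 / 6 * ∫ T in (-1:ℝ)..1, f T ^ 2) ∨
    (∀ T ∈ Icc (-1:ℝ) 1, (1 - T) * f T ^ 2 ≤ 7 / 6 * ∫ T in (-1:ℝ)..1, f T ^ 2) := by
  by_contra hcon
  rw [not_or] at hcon
  obtain ⟨hc1, hc2⟩ := hcon
  push_neg at hc1 hc2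
  obtain ⟨s, hs, hs1⟩ := hc1
  obtain ⟨t, ht, ht1⟩ := hc2
  obtain ⟨V, hVd⟩ : ∃ V, V = ∫ T in (-1:ℝ)..1, f T ^ 2 := ⟨_, rfl⟩
  rw [← hVd] at hV hs1 ht1
  have hV0 : 0 ≤ V := by
    rw [hVd]
    exact intervalIntegral.integral_nonneg (by norm_num) fun T _ => sq_nonneg _
  -- the scaling constant
  obtain ⟨c, hc⟩ : ∃ c, c = min ((1 + s) * f s ^ 2) ((1 - t) * f t ^ 2) := ⟨_, rfl⟩
  have hcV : 7 / 6 * V < c := by
    rw [hc]
    exact lt_min hs1 ht1
  have hcs : c ≤ (1 + s) * f s ^ 2 := by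
    rw [hc]
    exact min_le_left _ _
  have hct : c ≤ (1 - t) * f t ^ 2 := by
    rw [hc]
    exact min_le_right _ _
  have hc0 : 0 < c := by linarith
  obtain ⟨r, hr⟩ : ∃ r : ℝ, r = (Real.sqrt c)⁻¹ := ⟨_, rfl⟩
  have hr0 : 0 < r := by
    rw [hr]
    exact inv_pos.mpr (Real.sqrt_pos.mpr hc0)
  have hr2 : r ^ 2 = 1 / c := by
    rw [hr, inv_pow, Real.sq_sqrt hc0.le, one_div]
  obtain ⟨g, hg⟩ : ∃ g : ℝ → ℝ, g = fun T => r * f T := ⟨_, rfl⟩
  have hg2 : ∀ T, g T ^ 2 = f T ^ 2 / c := by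
    intro T
    rw [hg]
    show (r * f T) ^ 2 = _
    rw [mul_pow, hr2]
    ring
  have hgc : ConcaveOn ℝ (Icc (-1) 1) g := by
    rw [hg]
    exact hf.smul hr0.le
  have hgcont : ContinuousOn g (Icc (-1) 1) := by
    rw [hg]
    exact continuousOn_const.mul hfc
  have hgn : ∀ T ∈ Icc (-1) 1, 0 ≤ g T := by
    intro T hT
    rw [hg]
    exact mul_nonneg hr0.le (hn T hT)
  have hgV : ∫ T in (-1:ℝ)..1, g T ^ 2 < 6 / 7 := by
    have e : (fun T => g T ^ 2) = fun T => f T ^ 2 / c := funext hg2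
    rw [e, intervalIntegral.integral_div, ← hVd, div_lt_iff₀ hc0]
    linarith
  have hgs : 1 ≤ (1 + s) * g s ^ 2 := by
    rw [hg2, ← mul_div_assoc, le_div_iff₀ hc0, one_mul]
    exact hcs
  have hgt : 1 ≤ (1 - t) * g t ^ 2 := by
    rw [hg2, ← mul_div_assoc, le_div_iff₀ hc0, one_mul]
    exact hct
  have key : 1 / 5 ≤ ∫ T in (-1:ℝ)..1, (2 / 5 - T ^ 2) * g T ^ 2 := by
    by_cases h1 : 0 ≤ t
    · exact w_caseB h1 ht.2 hgc hgcont hgn hgt hgV
    · by_cases h2 : s ≤ 0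
      · have hneg : ∀ T ∈ Icc (-1:ℝ) 1, -T ∈ Icc (-1:ℝ) 1 := by
          intro T hT
          exact ⟨by linarith [hT.2], by linarith [hT.1]⟩
        have hgc' : ConcaveOn ℝ (Icc (-1) 1) fun T => g (-T) := by
          refine ⟨convex_Icc _ _, ?_⟩
          intro x hx y hy a b ha hb hab
          have h3 := hgc.2 (hneg x hx) (hneg y hy) ha hb hab
          have e : a • (-x) + b • (-y) = -(a • x + b • y) := by
            simp only [smul_eq_mul]
            ring
          rw [e] at h3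
          exact h3
        have hcont' : ContinuousOn (fun T => g (-T)) (Icc (-1) 1) :=
          hgcont.comp continuous_neg.continuousOn hneg
        have hV' : ∫ T in (-1:ℝ)..1, g (-T) ^ 2 < 6 / 7 := by
          have e := intervalIntegral.integral_comp_neg (a := (-1:ℝ)) (b := 1)
            (fun T => g T ^ 2)
          rw [neg_neg] at e
          rw [e]
          exact hgV
        have h3 := w_caseB (β := -s) (by linarith) (by linarith [hs.1]) hgc' hcont'
          (fun T hT => hgn _ (hneg T hT)) (by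
            show 1 ≤ (1 - -s) * g (- -s) ^ 2
            rw [neg_neg, sub_neg_eq_add]
            exact hgs) hV'
        have e := intervalIntegral.integral_comp_neg (a := (-1:ℝ)) (b := 1)
          (fun T => (2 / 5 - T ^ 2) * g T ^ 2)
        rw [neg_neg] at e
        rw [← e]
        have e2 : (fun T : ℝ => (2 / 5 - (-T) ^ 2) * g (-T) ^ 2) =
            fun T => (2 / 5 - T ^ 2) * g (-T) ^ 2 := by
          funext T
          rw [neg_sq]
        rw [e2]
        exact h3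
      · have h3 := w_caseA (a := s) (b := -t) (by linarith) (by linarith) hs.2
          (by linarith [ht.1]) hgc hgcont hgn hgs (by
            rw [neg_neg, ← sub_eq_add_neg]
            exact hgt) hgV
        exact h3
  -- the contradiction
  have hI1 : IntervalIntegrable (fun T => g T ^ 2) volume (-1) 1 := by
    apply ContinuousOn.intervalIntegrable
    rw [uIcc_of_le (by norm_num)]
    exact hgcont.pow 2
  have hI2 : IntervalIntegrable (fun T => T ^ 2 * g T ^ 2) volume (-1) 1 := by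
    apply ContinuousOn.intervalIntegrable
    rw [uIcc_of_le (by norm_num)]
    exact (continuousOn_id.pow 2).mul (hgcont.pow 2)
  have e1 : ∫ T in (-1:ℝ)..1, (2 / 5 - T ^ 2) * g T ^ 2 =
      2 / 5 * (∫ T in (-1:ℝ)..1, g T ^ 2) - ∫ T in (-1:ℝ)..1, T ^ 2 * g T ^ 2 := by
    rw [← intervalIntegral.integral_const_mul, ← intervalIntegral.integral_sub
      (hI1.const_mul _) hI2]
    congr 1
    funext T
    ring
  have e2 : ∫ T in (-1:ℝ)..1, g T ^ 2 = V / c := by
    have e : (fun T => g T ^ 2) = fun T => f T ^ 2 / c := funext hg2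
    rw [e, intervalIntegral.integral_div, ← hVd]
  have e3 : ∫ T in (-1:ℝ)..1, T ^ 2 * g T ^ 2 = (∫ T in (-1:ℝ)..1, T ^ 2 * f T ^ 2) / c := by
    have e : (fun T => T ^ 2 * g T ^ 2) = fun T => T ^ 2 * f T ^ 2 / c := by
      funext T
      rw [hg2]
      ring
    rw [e, intervalIntegral.integral_div]
  have h4 : 1 / 6 * (V / c) ≤ (∫ T in (-1:ℝ)..1, T ^ 2 * f T ^ 2) / c := by
    rw [← mul_div_assoc]
    exact div_le_div_of_nonneg_right hV hc0.le
  rw [e2] at hgV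
  rw [e1, e2, e3] at key
  linarith

end Pool.Agent.Lib.MP_a773b5_gt
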