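import Pool.Agent.Lib.MP_a773b5_gt.Slab
import Pool.Agent.Lib.MP_a773b5_gt.WLemma
import Pool.Agent.Lib.MP_a773b5_gt.SecCont
import Pool.Agent.Lib.MP_a773b5_gt.Fub
import Pool.Agent.Lib.MP_a773b5_gt.HeightB

set_option autoImplicit false

namespace Pool.Agent.Lib.MP_a773b5_gt

open MeasureTheory Set

/-- A body with projection `[-1,1]` and mean square height at least `1/6` (`w_lemma` for
`f z = √(secArea K z)`, `tet_above`, `tet_below`). -/
theorem hasTet_of_slab {K : Set P3} (hK : IsCompact K) (hc : Convex ℝ K)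
    (hi : (interior K).Nonempty) (hI : Prod.fst '' K = Icc (-1) 1)
    (hm : 1 / 6 * (volume K).toReal ≤ ∫ p in K, p.1 ^ 2) :
    HasTet K (21 / 4 * (volume K).toReal) := by
  have hsq : ∀ z, √(secArea K z) ^ 2 = secArea K z := fun z =>
    Real.sq_sqrt ENNReal.toReal_nonneg
  have hV : (volume K).toReal = ∫ z in (-1:ℝ)..1, √(secArea K z) ^ 2 := by
    rw [volume_height hK (by norm_num : (-1:ℝ) ≤ 1) hI.subset]
    congr 1
    funext z
    rw [hsq]
  have hM : ∫ p in K, p.1 ^ 2 = ∫ z in (-1:ℝ)..1, z ^ 2 * √(secArea K z) ^ 2 := by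
    rw [integral_height hK (by norm_num : (-1:ℝ) ≤ 1) hI.subset (φ := fun z => z ^ 2)
      (continuous_pow 2)]
    congr 1
    funext z
    rw [hsq]
  have hconc : ConcaveOn ℝ (Icc (-1) 1) (fun z => √(secArea K z)) := by
    rw [← hI]
    exact sqrt_secArea_concaveOn hK hc
  have hcont : ContinuousOn (fun z => √(secArea K z)) (Icc (-1) 1) :=
    (secArea_continuousOn hK hc (by norm_num) hI).sqrt
  have hw := w_lemma hconc hcont (fun z _ => Real.sqrt_nonneg _) (by rw [← hV, ← hM]; exact hm)
  rw [← hV] at hw
  have e1 : 21 / 4 * (volume K).toReal = 9 / 2 * (7 / 6 * (volume K).toReal) := by ring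
  have hVn : 0 ≤ (volume K).toReal := ENNReal.toReal_nonneg
  have hmem : ∀ p ∈ K, p.1 ∈ Icc (-1:ℝ) 1 := fun p hp => hI ▸ mem_image_of_mem _ hp
  rw [e1]
  rcases hw with h | h
  · refine tet_above hK hc hi (z0 := -1) (fun p hp => (hmem p hp).1) fun z => ?_
    by_cases hz : z ∈ Icc (-1:ℝ) 1
    · have := h z hz
      rw [hsq] at this
      have e2 : z - -1 = 1 + z := by ring
      rw [e2]
      exact this
    · rw [secArea_eq_zero (by rw [hI]; exact hz), mul_zero]
      positivity
  · refine tet_below hK hc hi (h := 1) (fun p hp => (hmem p hp).2) fun z => ?_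
    by_cases hz : z ∈ Icc (-1:ℝ) 1
    · have := h z hz
      rw [hsq] at this
      exact this
    · rw [secArea_eq_zero (by rw [hI]; exact hz), mul_zero]
      positivity

/-- Every convex body of volume `V` lies in a tetrahedron of volume at most `(21/4) V`. -/
theorem upper {K : Set E3} (hK : IsCompact K) (hc : Convex ℝ K) (hi : (interior K).Nonempty) :
    TetRatio K (21 / 4) := by
  obtain ⟨e, he1, he2⟩ := exists_slab hK hc hi
  have hecont : Continuous e := e.toHomeomorphOfFiniteDimensional.continuous
  have hK'c : IsCompact (e '' K) := hK.image hecont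
  have hK'v : Convex ℝ (e '' K) := hc.affine_image e.toAffineMap
  have hK'i : (interior (e '' K)).Nonempty := by
    have h1 : e.toHomeomorphOfFiniteDimensional '' (interior K) =
        interior (e.toHomeomorphOfFiniteDimensional '' K) :=
      e.toHomeomorphOfFiniteDimensional.image_interior K
    have h2 : (interior (e.toHomeomorphOfFiniteDimensional '' K)).Nonempty := by
      rw [← h1]
      exact hi.image _
    exact h2
  have h3 := hasTet_of_slab hK'c hK'v hK'i he1 he2
  haveI : (volume : Measure P3).IsAddHaarMeasure := by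
    rw [Measure.volume_eq_prod]
    infer_instance
  exact tetRatio_of_image e (tetRatio_of_hasTet hK'c.measure_lt_top.ne (by norm_num) h3)

end Pool.Agent.Lib.MP_a773b5_gt
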