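import Mathlib

set_option autoImplicit false

namespace Pool.Agent.Lib.MP_a773b5_gt

private theorem wpoly_P {a P : ℝ} (ha : 0 ≤ a) (hP : 1 ≤ (1 + a) * P) : 1 / (1 + a) ≤ P := by
  rw [div_le_iff₀ (by linarith)]
  linarith

private theorem wpoly_R {a b R : ℝ} (ha : 0 ≤ a) (hb : 0 ≤ b) (hR : 2 ≤ (2 + a + b) * R) :
    2 / (2 + a + b) ≤ R := by
  rw [div_le_iff₀ (by linarith)]
  linarith

/-- the polynomial form of the region bound -/
private theorem wpoly_key {a b P Q R : ℝ} (ha : 0 ≤ a) (hb : 0 ≤ b)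
    (hP : 1 ≤ (1 + a) * P) (hQ : 1 ≤ (1 + b) * Q) (hR : 2 ≤ (2 + a + b) * R)
    (hV : (P * (1 + b) + Q * (1 + a) + R * (a + b)) / 3 < 6 / 7) :
    7 * ((1 + b) ^ 2 * (2 + a + b) + (1 + a) ^ 2 * (2 + a + b) + 2 * (a + b) * ((1 + a) * (1 + b))) <
      18 * ((1 + a) * (1 + b) * (2 + a + b)) := by
  have h1 := wpoly_P ha hP
  have h2 := wpoly_P hb hQ
  have h3 := wpoly_R ha hb hR
  have e1 : 1 / (1 + a) * (1 + b) ≤ P * (1 + b) := mul_le_mul_of_nonneg_right h1 (by linarith)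
  have e2 : 1 / (1 + b) * (1 + a) ≤ Q * (1 + a) := mul_le_mul_of_nonneg_right h2 (by linarith)
  have e3 : 2 / (2 + a + b) * (a + b) ≤ R * (a + b) := mul_le_mul_of_nonneg_right h3 (by linarith)
  have e4 : 1 / (1 + a) * (1 + b) + 1 / (1 + b) * (1 + a) + 2 / (2 + a + b) * (a + b) < 18 / 7 := by
    linarith
  have p1 : (0 : ℝ) < 1 + a := by linarith
  have p2 : (0 : ℝ) < 1 + b := by linarith
  have p3 : (0 : ℝ) < 2 + a + b := by linarith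
  have e5 : 1 / (1 + a) * (1 + b) + 1 / (1 + b) * (1 + a) + 2 / (2 + a + b) * (a + b) =
      ((1 + b) ^ 2 * (2 + a + b) + (1 + a) ^ 2 * (2 + a + b) + 2 * (a + b) * ((1 + a) * (1 + b))) /
        ((1 + a) * (1 + b) * (2 + a + b)) := by
    field_simp
  rw [e5, div_lt_iff₀ (by positivity)] at e4
  linarith

/-- The parameters are small. Here `2 ≤ (2+a+b) R`, `1 ≤ (1+a) P`, `1 ≤ (1+b) Q`. Hint:
`(1+b)/(1+a) + (1+a)/(1+b) ≥ 2`. -/
theorem poly_region {a b P Q R : ℝ} (ha : 0 ≤ a) (hb : 0 ≤ b) (ha1 : a ≤ 1) (hb1 : b ≤ 1)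
    (hP : 1 ≤ (1 + a) * P) (hQ : 1 ≤ (1 + b) * Q) (hR : 2 ≤ (2 + a + b) * R)
    (hV : (P * (1 + b) + Q * (1 + a) + R * (a + b)) / 3 < 6 / 7) :
    a + b ≤ 4 / 5 ∧ a ≤ 3 / 5 ∧ b ≤ 3 / 5 := by
  have hk := wpoly_key ha hb hP hQ hR hV
  have hab : a + b ≤ 4 / 5 := by
    by_contra hcon
    push Not at hcon
    have p1 : (0 : ℝ) < (1 + a) * (1 + b) := by positivity
    nlinarith [mul_nonneg (sq_nonneg (a - b)) (by linarith : (0 : ℝ) ≤ 2 + a + b),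
      mul_pos p1 (sub_pos.2 hcon)]
  have aux : ∀ x y : ℝ, 0 ≤ x → 0 ≤ y → x ≤ 1 → x + y ≤ 4 / 5 →
      7 * ((1 + y) ^ 2 * (2 + x + y) + (1 + x) ^ 2 * (2 + x + y) +
        2 * (x + y) * ((1 + x) * (1 + y))) < 18 * ((1 + x) * (1 + y) * (2 + x + y)) → x ≤ 3 / 5 := by
    intro x y hx hy hx1 hxy h
    by_contra hcon
    push Not at hcon
    obtain ⟨t, ht⟩ : ∃ t, t = x - 3 / 5 := ⟨_, rfl⟩
    have hx' : x = 3 / 5 + t := by linarith
    subst hx'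
    have ht0 : 0 < t := by linarith
    have hty : t + y ≤ 1 / 5 := by linarith
    nlinarith [mul_nonneg ht0.le hy, mul_nonneg (mul_nonneg ht0.le hy) (sub_nonneg.2 hty),
      mul_nonneg ht0.le (sub_nonneg.2 hty), mul_nonneg hy (sub_nonneg.2 hty),
      mul_nonneg (mul_nonneg hy hy) (sub_nonneg.2 hty), mul_nonneg (mul_nonneg ht0.le ht0.le) hy,
      mul_nonneg (mul_nonneg ht0.le ht0.le) ht0.le, mul_nonneg (mul_nonneg hy hy) hy]
  refine ⟨hab, aux a b ha hb ha1 hab hk, aux b a hb ha hb1 (by linarith) ?_⟩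
  have e1 : 2 + b + a = 2 + a + b := by ring
  rw [e1]
  linarith [hk]

/-- Mass bound needed for `oneside` (minimum about `0.9167` at `a = b = 0`). -/
theorem poly_J {a b P Q R : ℝ} (ha : 0 ≤ a) (hb : 0 ≤ b) (ha1 : a ≤ 1) (hb1 : b ≤ 1)
    (hP : 1 ≤ (1 + a) * P) (hQ : 1 ≤ (1 + b) * Q) (hR : 2 ≤ (2 + a + b) * R) :
    6 / 7 ≤ (a + b) / 3 * (P + R + Q) + Q * (1 - b) / 3 + 7 / 12 * (P * (1 - a)) := by
  have h1 := wpoly_P ha hP
  have h2 := wpoly_P hb hQ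
  have h3 := wpoly_R ha hb hR
  have p1 : (0 : ℝ) < 1 + a := by linarith
  have p2 : (0 : ℝ) < 1 + b := by linarith
  have p3 : (0 : ℝ) < 2 + a + b := by linarith
  have e1 : (a + b) / 3 * (1 / (1 + a) + 2 / (2 + a + b) + 1 / (1 + b)) ≤
      (a + b) / 3 * (P + R + Q) :=
    mul_le_mul_of_nonneg_left (by linarith) (by linarith)
  have e2 : 1 / (1 + b) * (1 - b) ≤ Q * (1 - b) := mul_le_mul_of_nonneg_right h2 (by linarith)
  have e3 : 1 / (1 + a) * (1 - a) ≤ P * (1 - a) := mul_le_mul_of_nonneg_right h1 (by linarith)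
  have e4 : 6 / 7 ≤ (a + b) / 3 * (1 / (1 + a) + 2 / (2 + a + b) + 1 / (1 + b)) +
      1 / (1 + b) * (1 - b) / 3 + 7 / 12 * (1 / (1 + a) * (1 - a)) := by
    have e5 : (a + b) / 3 * (1 / (1 + a) + 2 / (2 + a + b) + 1 / (1 + b)) +
        1 / (1 + b) * (1 - b) / 3 + 7 / 12 * (1 / (1 + a) * (1 - a)) - 6 / 7 =
        (10 + 71 * b + 117 * b ^ 2 + 28 * b ^ 3 - 13 * a - 106 * (a * b) - 9 * (a * b ^ 2) +
          75 * a ^ 2 - 9 * (a ^ 2 * b) + 28 * a ^ 3) / (84 * ((1 + a) * (1 + b) * (2 + a + b))) := by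
      field_simp
      ring
    have e6 : 0 ≤ 10 + 71 * b + 117 * b ^ 2 + 28 * b ^ 3 - 13 * a - 106 * (a * b) -
        9 * (a * b ^ 2) + 75 * a ^ 2 - 9 * (a ^ 2 * b) + 28 * a ^ 3 := by
      nlinarith [mul_nonneg (mul_nonneg hb hb) (sub_nonneg.2 ha1), pow_nonneg hb 3, pow_nonneg ha 3,
        mul_nonneg hb (sub_nonneg.2 (pow_le_one₀ (n := 2) ha ha1)), sq_nonneg (27 * a - 53 * b),
        sq_nonneg (96 * a - 13), sq_nonneg b]
    have e7 := div_nonneg e6 (by positivity : (0 : ℝ) ≤ 84 * ((1 + a) * (1 + b) * (2 + a + b)))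
    linarith
  linarith

end Pool.Agent.Lib.MP_a773b5_gt
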