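import Mathlib

set_option autoImplicit false

namespace Pool.Agent.Lib.MP_a773b5_gt

/-- Structural identity behind `poly_A`. -/
theorem key_id (a b P Q R A B G c : ℝ) :
    ((1 + a) * (1 + b) * (2 + a + b)) * (A * P + B * Q + G * R - c - 1 / 5) =
    A * ((1 + b) * (2 + a + b)) * ((1 + a) * P - 1) +
    B * ((1 + a) * (2 + a + b)) * ((1 + b) * Q - 1) +
    G * ((1 + a) * (1 + b)) * ((2 + a + b) * R - 2) +
    (A * ((1 + b) * (2 + a + b)) + B * ((1 + a) * (2 + a + b)) + 2 * G * ((1 + a) * (1 + b)) -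
      (c + 1 / 5) * ((1 + a) * (1 + b) * (2 + a + b))) := by
  ring

/-- The polynomial identity in two variables behind `poly_A`. -/
theorem key_id2 (a b : ℝ) :
    (1 / 10 + 2 / 15 * b - 1 / 30 * b ^ 3 + 1 / 18 * a + 11 / 90 * a * b +
      1 / 15 * a * b ^ 2 - 1 / 45 * a ^ 2 - 1 / 45 * a ^ 2 * b) * ((1 + b) * (2 + a + b)) +
    (1 / 10 - 1 / 15 * b - 1 / 10 * b ^ 2 + 23 / 90 * a - 1 / 10 * a * b ^ 2 +
      1 / 5 * a ^ 2 + 1 / 15 * a ^ 2 * b + 2 / 45 * a ^ 3) * ((1 + a) * (2 + a + b)) +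
    2 * (2 / 15 * b - 1 / 10 * b ^ 3 + 2 / 15 * a + 11 / 90 * a * b +
      1 / 30 * a * b ^ 2 + 11 / 90 * a ^ 2 + 1 / 9 * a ^ 2 * b - 1 / 45 * a ^ 3) *
      ((1 + a) * (1 + b)) -
      (6 / 7 * ((11 * a + 7 * a ^ 2) / 30) + 1 / 5) * ((1 + a) * (1 + b) * (2 + a + b)) =
    (b * (82 / 315 + 8 / 21 * b - 104 / 315 * b ^ 2 - 16 / 21 * b ^ 3 -
      14 / 45 * b ^ 4) + (a - b) * (19 / 315 + 103 / 315 * b - 6 / 35 * b ^ 2 -
      313 / 315 * b ^ 3 - 5 / 9 * b ^ 4) + (a - b) ^ 2 * (31 / 126 + 2 / 15 * b -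
      39 / 70 * b ^ 2 - 4 / 9 * b ^ 3) + (a - b) ^ 3 * (131 / 630 + 4 / 63 * b -
      11 / 90 * b ^ 2) + (a - b) ^ 4 * (4 / 45 + 4 / 45 * b) + (a - b) ^ 5 * (2 / 45)) := by
  ring

/-- The final inequality of case A, for `b ≤ a`. Eliminate `mL, mR, C`: with
`α t = (11 t + 7 t²)/30` one has
`α a mR + α b mL ≤ α a (6/7 - (a+b)/3 (P+R+Q)) - (α a - α b) Q (1-b)/3`; the result is affine in
`P, Q, R` with nonnegative coefficients, so `P, Q, R` may be replaced by `1/(1+a)`, `1/(1+b)`,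
`2/(2+a+b)`. The remaining two-variable inequality is an equality at `a = b = 0`, and numerically
the difference is at least `0.0276 (a+b)` on `0 ≤ b ≤ a`, `a + b ≤ 4/5`. -/
theorem poly_A {a b P Q R mL mR C : ℝ} (hb : 0 ≤ b) (hba : b ≤ a) (hab : a + b ≤ 4 / 5)
    (ha' : a ≤ 3 / 5)
    (hP : 1 ≤ (1 + a) * P) (hQ : 1 ≤ (1 + b) * Q) (hR : 2 ≤ (2 + a + b) * R)
    (hC : (a + b) / 3 * (P + R + Q) ≤ C) (hmR : P * (1 - a) / 3 ≤ mR)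
    (hmL : Q * (1 - b) / 3 ≤ mL) (hV : mL + C + mR < 6 / 7) :
    1 / 5 ≤
      (a + b) * (Q * ((2 / 5 - b ^ 2) / 3 + b * (a + b) / 6 - (a + b) ^ 2 / 30) +
        R * ((2 / 5 - b ^ 2) / 3 + b * (a + b) / 3 - (a + b) ^ 2 / 10) +
        P * ((2 / 5 - b ^ 2) / 3 + b * (a + b) / 2 - (a + b) ^ 2 / 5)) +
      (P * (2 / 9 * a * (1 - a) ^ 2 + (1 - a) ^ 3 / 10) - (11 * a + 7 * a ^ 2) / 30 * mR) +
      (Q * (2 / 9 * b * (1 - b) ^ 2 + (1 - b) ^ 3 / 10) - (11 * b + 7 * b ^ 2) / 30 * mL) := by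
  have ha : 0 ≤ a := hb.trans hba
  have hb2 : b ≤ 2 / 5 := by linarith
  -- powers of `b`
  have hbb : b ^ 2 ≤ 4 / 25 := by nlinarith
  have hb3 : b ^ 3 ≤ 8 / 125 := by
    have : b ^ 3 = b ^ 2 * b := by ring
    rw [this]
    nlinarith [sq_nonneg b]
  have hb4 : b ^ 4 ≤ 16 / 625 := by
    have : b ^ 4 = b ^ 2 * b ^ 2 := by ring
    rw [this]
    nlinarith [sq_nonneg b]
  have hb2' : 0 ≤ b ^ 2 := sq_nonneg b
  -- nonnegativity of the coefficients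
  have AP : 0 ≤ 1 / 10 + 2 / 15 * b - 1 / 30 * b ^ 3 + 1 / 18 * a + 11 / 90 * a * b +
      1 / 15 * a * b ^ 2 - 1 / 45 * a ^ 2 - 1 / 45 * a ^ 2 * b := by
    have h1 : 0 ≤ a * b := mul_nonneg ha hb
    have h2 : 0 ≤ a * b ^ 2 := mul_nonneg ha hb2'
    have h3 : a ^ 2 ≤ 9 / 25 := by nlinarith
    have h4 : a ^ 2 * b ≤ 9 / 25 * (2 / 5) := mul_le_mul h3 hb2 hb (by norm_num)
    linarith only [h1, h2, h4, h3, hb3, ha, hb]
  have AQ : 0 ≤ 1 / 10 - 1 / 15 * b - 1 / 10 * b ^ 2 + 23 / 90 * a - 1 / 10 * a * b ^ 2 +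
      1 / 5 * a ^ 2 + 1 / 15 * a ^ 2 * b + 2 / 45 * a ^ 3 := by
    have h1 : 0 ≤ a ^ 2 := sq_nonneg a
    have h2 : 0 ≤ a ^ 2 * b := mul_nonneg h1 hb
    have h3 : 0 ≤ a ^ 3 := by positivity
    have h4 : a * b ^ 2 ≤ 3 / 5 * (4 / 25) := mul_le_mul ha' hbb hb2' (by norm_num)
    linarith only [h1, h2, h3, h4, ha, hb, hb2, hbb]
  have AR : 0 ≤ 2 / 15 * b - 1 / 10 * b ^ 3 + 2 / 15 * a + 11 / 90 * a * b +
      1 / 30 * a * b ^ 2 + 11 / 90 * a ^ 2 + 1 / 9 * a ^ 2 * b - 1 / 45 * a ^ 3 := by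
    have h1 : 0 ≤ a * b := mul_nonneg ha hb
    have h2 : 0 ≤ a * b ^ 2 := mul_nonneg ha hb2'
    have h3 : 0 ≤ a ^ 2 * b := mul_nonneg (sq_nonneg a) hb
    have h4 : 0 ≤ b * (4 / 25 - b ^ 2) := mul_nonneg hb (by linarith)
    have h5 : 0 ≤ a ^ 2 * (1 - a) := mul_nonneg (sq_nonneg a) (by linarith)
    have h6 : 0 ≤ a ^ 2 := sq_nonneg a
    linarith only [h1, h2, h3, h4, h5, h6, ha, hb]
  -- the two-variable inequality
  have ht : 0 ≤ a - b := by linarith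
  have c1 : 0 ≤ 82 / 315 + 8 / 21 * b - 104 / 315 * b ^ 2 - 16 / 21 * b ^ 3 -
      14 / 45 * b ^ 4 := by linarith only [hb, hbb, hb3, hb4]
  have c2 : 0 ≤ 19 / 315 + 103 / 315 * b - 6 / 35 * b ^ 2 - 313 / 315 * b ^ 3 -
      5 / 9 * b ^ 4 := by
    have h1 : 0 ≤ b * (2 / 5 - b) := mul_nonneg hb (by linarith)
    have h2 : 0 ≤ b * (b * (2 / 5 - b)) := mul_nonneg hb h1
    have h3 : 0 ≤ b * (b * (b * (2 / 5 - b))) := mul_nonneg hb h2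
    linarith only [h1, h2, h3, hb]
  have c3 : 0 ≤ 31 / 126 + 2 / 15 * b - 39 / 70 * b ^ 2 - 4 / 9 * b ^ 3 := by
    linarith only [hb, hbb, hb3]
  have c4 : 0 ≤ 131 / 630 + 4 / 63 * b - 11 / 90 * b ^ 2 := by
    linarith only [hb, hbb]
  have D : 0 ≤ b * (82 / 315 + 8 / 21 * b - 104 / 315 * b ^ 2 - 16 / 21 * b ^ 3 -
      14 / 45 * b ^ 4) + (a - b) * (19 / 315 + 103 / 315 * b - 6 / 35 * b ^ 2 -
      313 / 315 * b ^ 3 - 5 / 9 * b ^ 4) + (a - b) ^ 2 * (31 / 126 + 2 / 15 * b -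
      39 / 70 * b ^ 2 - 4 / 9 * b ^ 3) + (a - b) ^ 3 * (131 / 630 + 4 / 63 * b -
      11 / 90 * b ^ 2) + (a - b) ^ 4 * (4 / 45 + 4 / 45 * b) + (a - b) ^ 5 * (2 / 45) := by
    have e1 := mul_nonneg hb c1
    have e2 := mul_nonneg ht c2
    have e3 := mul_nonneg (pow_nonneg ht 2) c3
    have e4 := mul_nonneg (pow_nonneg ht 3) c4
    have e5 : 0 ≤ (a - b) ^ 4 * (4 / 45 + 4 / 45 * b) :=
      mul_nonneg (pow_nonneg ht 4) (by linarith)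
    have e6 : 0 ≤ (a - b) ^ 5 * (2 / 45 : ℝ) := mul_nonneg (pow_nonneg ht 5) (by norm_num)
    exact add_nonneg (add_nonneg (add_nonneg (add_nonneg (add_nonneg e1 e2) e3) e4) e5) e6
  have hK : 0 < (1 + a) * (1 + b) * (2 + a + b) := by positivity
  set X : ℝ := (1 / 10 + 2 / 15 * b - 1 / 30 * b ^ 3 + 1 / 18 * a + 11 / 90 * a * b +
      1 / 15 * a * b ^ 2 - 1 / 45 * a ^ 2 - 1 / 45 * a ^ 2 * b) * P +
    (1 / 10 - 1 / 15 * b - 1 / 10 * b ^ 2 + 23 / 90 * a - 1 / 10 * a * b ^ 2 +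
      1 / 5 * a ^ 2 + 1 / 15 * a ^ 2 * b + 2 / 45 * a ^ 3) * Q +
    (2 / 15 * b - 1 / 10 * b ^ 3 + 2 / 15 * a + 11 / 90 * a * b +
      1 / 30 * a * b ^ 2 + 11 / 90 * a ^ 2 + 1 / 9 * a ^ 2 * b - 1 / 45 * a ^ 3) * R -
    6 / 7 * ((11 * a + 7 * a ^ 2) / 30) - 1 / 5 with hX
  have hKX : 0 ≤ ((1 + a) * (1 + b) * (2 + a + b)) * X := by
    have f1 := mul_nonneg (mul_nonneg AP (show 0 ≤ (1 + b) * (2 + a + b) by positivity))
      (sub_nonneg.2 hP)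
    have f2 := mul_nonneg (mul_nonneg AQ (show 0 ≤ (1 + a) * (2 + a + b) by positivity))
      (sub_nonneg.2 hQ)
    have f3 := mul_nonneg (mul_nonneg AR (show 0 ≤ (1 + a) * (1 + b) by positivity))
      (sub_nonneg.2 hR)
    rw [hX, key_id, key_id2]
    exact add_nonneg (add_nonneg (add_nonneg f1 f2) f3) D
  have hX0 : 0 ≤ X := nonneg_of_mul_nonneg_right hKX hK
  have g1 : 0 ≤ (6 / 7 - mL - C - mR) * ((11 * a + 7 * a ^ 2) / 30) :=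
    mul_nonneg (by linarith only [hV]) (by positivity)
  have g2 : 0 ≤ (C - (a + b) / 3 * (P + R + Q)) * ((11 * a + 7 * a ^ 2) / 30) :=
    mul_nonneg (by linarith only [hC]) (by positivity)
  have hα : 0 ≤ (11 * a + 7 * a ^ 2) / 30 - (11 * b + 7 * b ^ 2) / 30 := by
    have := mul_nonneg ht (show 0 ≤ 11 + 7 * (a + b) by positivity)
    linarith only [this]
  have g3 : 0 ≤ (mL - Q * (1 - b) / 3) *
      ((11 * a + 7 * a ^ 2) / 30 - (11 * b + 7 * b ^ 2) / 30) :=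
    mul_nonneg (by linarith only [hmL]) hα
  rw [hX] at hX0
  linarith only [g1, g2, g3, hX0]

end Pool.Agent.Lib.MP_a773b5_gt
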