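import Mathlib

set_option autoImplicit false

namespace Pool.Agent.Lib.MP_a773b5_gt

/-- The final inequality of case B. The masses give `2F/3 < 6/7`, hence `β < 2/9`. Then
`(4/5 β + 7/5 β²) mL + (11β+7β²)/30 mR` is at most
`(4/5 β + 7/5 β²) 6/7 - (4/5 β + 7/5 β² - (11β+7β²)/30) F (1-β)/3`. -/
theorem poly_B {β F mL mR : ℝ} (hβ : 0 ≤ β) (hβ1 : β < 1) (hF : 1 ≤ (1 - β) * F)
    (hmL : F * (1 + β) / 3 ≤ mL) (hmR : F * (1 - β) / 3 ≤ mR) (hV : mL + mR < 6 / 7) :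
    1 / 5 ≤ (F * ((1 + β) ^ 3 / 10 + β * (1 + β) ^ 2 / 6) - (4 / 5 * β + 7 / 5 * β ^ 2) * mL) +
      (F * (2 / 9 * β * (1 - β) ^ 2 + (1 - β) ^ 3 / 10) - (11 * β + 7 * β ^ 2) / 30 * mR) := by
  have h1 : 0 < 1 - β := by linarith
  have hF0 : 0 < F := by
    by_contra h
    push Not at h
    have : (1 - β) * F ≤ 0 := mul_nonpos_of_nonneg_of_nonpos h1.le h
    linarith
  have a : 0 ≤ ((1 - β) * F - 1) * (6 / 7 * (4 / 5 * β + 7 / 5 * β ^ 2) + 1 / 5) :=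
    mul_nonneg (by linarith) (by positivity)
  have b : 0 ≤ F * (5 / 105 * β + 23 / 105 * β ^ 2 + 6 / 5 * β ^ 3) := by positivity
  have c : 0 ≤ (mR - F * (1 - β) / 3) * ((13 * β + 35 * β ^ 2) / 30) :=
    mul_nonneg (by linarith) (by positivity)
  have e : 0 ≤ (6 / 7 - mL - mR) * (4 / 5 * β + 7 / 5 * β ^ 2) :=
    mul_nonneg (by linarith) (by positivity)
  nlinarith [a, b, c, e]

end Pool.Agent.Lib.MP_a773b5_gt
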