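import Pool.Agent.Lib.MP_a773b5_gt.WSide
import Pool.Agent.Lib.MP_a773b5_gt.WPoly
import Pool.Agent.Lib.MP_a773b5_gt.WPolyA
import Pool.Agent.Lib.MP_a773b5_gt.WPolyB

set_option autoImplicit false

namespace Pool.Agent.Lib.MP_a773b5_gt

open MeasureTheory Set

private theorem wcase_int {u v : ℝ} (huv : u ≤ v) {f : ℝ → ℝ} (hfc : ContinuousOn f (Icc u v)) :
    IntervalIntegrable (fun T => f T ^ 2) volume u v :=
  (hfc.pow 2).intervalIntegrable_of_Icc huv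

private theorem wcase_int2 {u v : ℝ} (huv : u ≤ v) {f : ℝ → ℝ} (hfc : ContinuousOn f (Icc u v)) :
    IntervalIntegrable (fun T => (2 / 5 - T ^ 2) * f T ^ 2) volume u v :=
  (ContinuousOn.mul (by fun_prop) (hfc.pow 2)).intervalIntegrable_of_Icc huv

/-- Case A with `b ≤ a`. -/
private theorem wcase_A {a b : ℝ} (hb : 0 ≤ b) (hba : b ≤ a) (ha1 : a ≤ 1) {f : ℝ → ℝ}
    (hf : ConcaveOn ℝ (Icc (-1) 1) f) (hfc : ContinuousOn f (Icc (-1) 1))
    (hn : ∀ T ∈ Icc (-1) 1, 0 ≤ f T) (h1 : 1 ≤ (1 + a) * f a ^ 2) (h2 : 1 ≤ (1 + b) * f (-b) ^ 2)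
    (hV : ∫ T in (-1:ℝ)..1, f T ^ 2 < 6 / 7) :
    1 / 5 ≤ ∫ T in (-1:ℝ)..1, (2 / 5 - T ^ 2) * f T ^ 2 := by
  have ha : 0 ≤ a := hb.trans hba
  have hb1 : b ≤ 1 := hba.trans ha1
  have hfa : 0 ≤ f a := hn a ⟨by linarith, ha1⟩
  have hfb : 0 ≤ f (-b) := hn (-b) ⟨by linarith, by linarith⟩
  -- subintervals
  have sL : Icc (-1) (-b) ⊆ Icc (-1 : ℝ) 1 := Icc_subset_Icc le_rfl (by linarith)
  have sM : Icc (-b) a ⊆ Icc (-1 : ℝ) 1 := Icc_subset_Icc (by linarith) ha1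
  have sR : Icc a 1 ⊆ Icc (-1 : ℝ) 1 := Icc_subset_Icc (by linarith) le_rfl
  have cL := hfc.mono sL
  have cM := hfc.mono sM
  have cR := hfc.mono sR
  have kL := hf.subset sL (convex_Icc _ _)
  have kM := hf.subset sM (convex_Icc _ _)
  have kR := hf.subset sR (convex_Icc _ _)
  have mL := chord_mass (by linarith : (-1 : ℝ) ≤ -b) kL cL fun z hz => hn z (sL hz)
  have mM := chord_mass (by linarith : -b ≤ a) kM cM fun z hz => hn z (sM hz)
  have mR := chord_mass ha1 kR cR fun z hz => hn z (sR hz)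
  have e1 : ∫ T in (-1:ℝ)..1, f T ^ 2 = (∫ T in (-1:ℝ)..(-b), f T ^ 2) +
      (∫ T in (-b)..a, f T ^ 2) + ∫ T in a..1, f T ^ 2 := by
    rw [intervalIntegral.integral_add_adjacent_intervals (wcase_int (by linarith) cL)
      (wcase_int (by linarith) cM), intervalIntegral.integral_add_adjacent_intervals
      ((wcase_int (by linarith) cL).trans (wcase_int (by linarith) cM)) (wcase_int ha1 cR)]
  have e2 : ∫ T in (-1:ℝ)..1, (2 / 5 - T ^ 2) * f T ^ 2 =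
      (∫ T in (-1:ℝ)..(-b), (2 / 5 - T ^ 2) * f T ^ 2) +
      (∫ T in (-b)..a, (2 / 5 - T ^ 2) * f T ^ 2) + ∫ T in a..1, (2 / 5 - T ^ 2) * f T ^ 2 := by
    rw [intervalIntegral.integral_add_adjacent_intervals (wcase_int2 (by linarith) cL)
      (wcase_int2 (by linarith) cM), intervalIntegral.integral_add_adjacent_intervals
      ((wcase_int2 (by linarith) cL).trans (wcase_int2 (by linarith) cM)) (wcase_int2 ha1 cR)]
  -- endpoint values
  have f1 : 0 ≤ f 1 := hn 1 ⟨by norm_num, le_rfl⟩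
  have fm1 : 0 ≤ f (-1) := hn (-1) ⟨le_rfl, by norm_num⟩
  obtain ⟨P, hP⟩ : ∃ P, P = f a ^ 2 := ⟨_, rfl⟩
  obtain ⟨Q, hQ⟩ : ∃ Q, Q = f (-b) ^ 2 := ⟨_, rfl⟩
  obtain ⟨R, hR⟩ : ∃ R, R = f (-b) * f a := ⟨_, rfl⟩
  have hP1 : 1 ≤ (1 + a) * P := by rw [hP]; exact h1
  have hQ1 : 1 ≤ (1 + b) * Q := by rw [hQ]; exact h2
  have hR0 : 0 ≤ R := by rw [hR]; exact mul_nonneg hfb hfa
  have hP0 : 0 ≤ P := by rw [hP]; positivity
  have hQ0 : 0 ≤ Q := by rw [hQ]; positivity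
  have hR1 : 2 ≤ (2 + a + b) * R := by
    by_contra hcon
    push Not at hcon
    have hRR : R ^ 2 = P * Q := by rw [hR, hP, hQ]; ring
    have k1 : ((2 + a + b) * R) ^ 2 < 4 := by
      have : 0 ≤ (2 + a + b) * R := mul_nonneg (by linarith) hR0
      nlinarith
    have k2 : 1 ≤ ((1 + a) * P) * ((1 + b) * Q) := by nlinarith
    have k3 : ((2 + a + b) * R) ^ 2 = (2 + a + b) ^ 2 * (P * Q) := by rw [mul_pow, hRR]
    have k4 : 0 ≤ (a - b) ^ 2 * (P * Q) := mul_nonneg (sq_nonneg _) (mul_nonneg hP0 hQ0)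
    nlinarith
  have mL' : Q * (1 - b) / 3 ≤ ∫ T in (-1:ℝ)..(-b), f T ^ 2 := by
    refine le_trans ?_ mL
    rw [hQ]
    nlinarith [mul_nonneg (by linarith : 0 ≤ 1 - b) (sq_nonneg (f (-1))),
      mul_nonneg (by linarith : 0 ≤ 1 - b) (mul_nonneg fm1 hfb)]
  have mR' : P * (1 - a) / 3 ≤ ∫ T in a..1, f T ^ 2 := by
    refine le_trans ?_ mR
    rw [hP]
    nlinarith [mul_nonneg (by linarith : 0 ≤ 1 - a) (sq_nonneg (f 1)),
      mul_nonneg (by linarith : 0 ≤ 1 - a) (mul_nonneg hfa f1)]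
  have mM' : (a + b) / 3 * (P + R + Q) ≤ ∫ T in (-b)..a, f T ^ 2 := by
    refine le_trans (le_of_eq ?_) mM
    rw [hP, hQ, hR]
    ring
  have hV' : (∫ T in (-1:ℝ)..(-b), f T ^ 2) + (∫ T in (-b)..a, f T ^ 2) +
      (∫ T in a..1, f T ^ 2) < 6 / 7 := by
    rw [← e1]
    exact hV
  obtain ⟨hab, ha3, hb3⟩ := poly_region ha hb ha1 hb1 hP1 hQ1 hR1 (by linarith)
  have ha1' : a < 1 := by linarith
  have hb1' : b < 1 := by linarith
  have pa : 0 < f a := by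
    rcases hfa.eq_or_lt with h | h
    · rw [← h] at h1
      norm_num at h1
    · exact h
  have pb : 0 < f (-b) := by
    rcases hfb.eq_or_lt with h | h
    · rw [← h] at h2
      norm_num at h2
    · exact h
  have jR := poly_J ha hb ha1 hb1 hP1 hQ1 hR1
  have jL := poly_J hb ha hb1 ha1 hQ1 hP1 (R := R) (by linarith)
  have gR : ∫ T in a..1, f T ^ 2 ≤ 7 / 12 * (f a ^ 2 * (1 - a)) := by
    rw [← hP]
    linarith
  have gL : ∫ T in (-1:ℝ)..(-b), f T ^ 2 ≤ 7 / 12 * (f (-b) ^ 2 * (1 - b)) := by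
    rw [← hQ]
    linarith
  have tR := w_right ha ha1' kR cR (fun z hz => hn z (sR hz)) pa gR
  have tL := w_left hb hb1' kL cL (fun z hz => hn z (sL hz)) pb gL
  have tM := w_mid ha hb ha3 hb3 kM cM (fun z hz => hn z (sM hz))
  have fin := poly_A hb hba hab ha3 hP1 hQ1 hR1 mM' mR' mL' (by linarith)
  rw [← hP] at tR
  rw [← hQ] at tL
  rw [← hP, ← hQ, ← hR] at tM
  rw [e2]
  linarith

/-- Case A: good points on both sides of `0`. Put `P = f(a)²`, `Q = f(-b)²`, `R = f(a) f(-b)`;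
then `2 ≤ (2+a+b) R` since `(1+a)(1+b) ≤ ((2+a+b)/2)²`. The three masses are bounded below by
`chord_mass`; `poly_region`, `poly_J`, then `w_left`, `w_mid`, `w_right` and `poly_A`
(for `a < b` reflect). -/
theorem w_caseA {a b : ℝ} (ha : 0 ≤ a) (hb : 0 ≤ b) (ha1 : a ≤ 1) (hb1 : b ≤ 1) {f : ℝ → ℝ}
    (hf : ConcaveOn ℝ (Icc (-1) 1) f) (hfc : ContinuousOn f (Icc (-1) 1))
    (hn : ∀ T ∈ Icc (-1) 1, 0 ≤ f T) (h1 : 1 ≤ (1 + a) * f a ^ 2) (h2 : 1 ≤ (1 + b) * f (-b) ^ 2)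
    (hV : ∫ T in (-1:ℝ)..1, f T ^ 2 < 6 / 7) :
    1 / 5 ≤ ∫ T in (-1:ℝ)..1, (2 / 5 - T ^ 2) * f T ^ 2 := by
  rcases le_total b a with hba | hab
  · exact wcase_A hb hba ha1 hf hfc hn h1 h2 hV
  · have mem : ∀ T ∈ Icc (-1 : ℝ) 1, -T ∈ Icc (-1 : ℝ) 1 := fun T hT =>
      ⟨by linarith [hT.2], by linarith [hT.1]⟩
    obtain ⟨g, hg⟩ : ∃ g : ℝ → ℝ, g = fun T => f (-T) := ⟨_, rfl⟩
    have hgr : ∀ T, g T = f (-T) := fun T => congrFun hg T
    have hgconc : ConcaveOn ℝ (Icc (-1) 1) g := by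
      refine ⟨convex_Icc _ _, fun x hx y hy α β hα hβ hαβ => ?_⟩
      have h := hf.2 (mem x hx) (mem y hy) hα hβ hαβ
      rw [hgr, hgr, hgr]
      have e : α • (-x) + β • (-y) = -(α • x + β • y) := by
        simp only [smul_eq_mul]
        ring
      rw [e] at h
      exact h
    have hgc : ContinuousOn g (Icc (-1) 1) := by
      rw [hg]
      exact hfc.comp (by fun_prop) mem
    have hgn : ∀ T ∈ Icc (-1) 1, 0 ≤ g T := fun T hT => by
      rw [hgr]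
      exact hn _ (mem T hT)
    have i1 : ∫ T in (-1:ℝ)..1, g T ^ 2 = ∫ T in (-1:ℝ)..1, f T ^ 2 := by
      simp only [hgr]
      have := intervalIntegral.integral_comp_neg (a := (-1 : ℝ)) (b := 1) (fun T => f T ^ 2)
      rw [neg_neg] at this
      exact this
    have i2 : ∫ T in (-1:ℝ)..1, (2 / 5 - T ^ 2) * g T ^ 2 =
        ∫ T in (-1:ℝ)..1, (2 / 5 - T ^ 2) * f T ^ 2 := by
      simp only [hgr]
      have := intervalIntegral.integral_comp_neg (a := (-1 : ℝ)) (b := 1)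
        (fun T => (2 / 5 - T ^ 2) * f T ^ 2)
      rw [neg_neg] at this
      rw [← this]
      congr 1
      funext T
      ring
    rw [← i2]
    refine wcase_A ha hab hb1 hgconc hgc hgn ?_ ?_ ?_
    · rw [hgr]
      exact h2
    · rw [hgr, neg_neg]
      exact h1
    · rw [i1]
      exact hV

/-- Case B: one good point `β ≥ 0` for the direction from above. -/
theorem w_caseB {β : ℝ} (hβ : 0 ≤ β) (hβ1 : β ≤ 1) {f : ℝ → ℝ}
    (hf : ConcaveOn ℝ (Icc (-1) 1) f) (hfc : ContinuousOn f (Icc (-1) 1))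
    (hn : ∀ T ∈ Icc (-1) 1, 0 ≤ f T) (h1 : 1 ≤ (1 - β) * f β ^ 2)
    (hV : ∫ T in (-1:ℝ)..1, f T ^ 2 < 6 / 7) :
    1 / 5 ≤ ∫ T in (-1:ℝ)..1, (2 / 5 - T ^ 2) * f T ^ 2 := by
  have hβ2 : β < 1 := by
    rcases hβ1.eq_or_lt with h | h
    · rw [h] at h1
      norm_num at h1
    · exact h
  have hfβ : 0 ≤ f β := hn β ⟨by linarith, hβ1⟩
  have pβ : 0 < f β := by
    rcases hfβ.eq_or_lt with h | h
    · rw [← h] at h1
      norm_num at h1
    · exact h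
  have sL : Icc (-1) β ⊆ Icc (-1 : ℝ) 1 := Icc_subset_Icc le_rfl hβ1
  have sR : Icc β 1 ⊆ Icc (-1 : ℝ) 1 := Icc_subset_Icc (by linarith) le_rfl
  have cL := hfc.mono sL
  have cR := hfc.mono sR
  have kL := hf.subset sL (convex_Icc _ _)
  have kR := hf.subset sR (convex_Icc _ _)
  have mL := chord_mass (by linarith : (-1 : ℝ) ≤ β) kL cL fun z hz => hn z (sL hz)
  have mR := chord_mass hβ1 kR cR fun z hz => hn z (sR hz)
  have f1 : 0 ≤ f 1 := hn 1 ⟨by norm_num, le_rfl⟩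
  have fm1 : 0 ≤ f (-1) := hn (-1) ⟨le_rfl, by norm_num⟩
  have e1 : ∫ T in (-1:ℝ)..1, f T ^ 2 = (∫ T in (-1:ℝ)..β, f T ^ 2) + ∫ T in β..1, f T ^ 2 := by
    rw [intervalIntegral.integral_add_adjacent_intervals (wcase_int (by linarith) cL)
      (wcase_int hβ1 cR)]
  have e2 : ∫ T in (-1:ℝ)..1, (2 / 5 - T ^ 2) * f T ^ 2 =
      (∫ T in (-1:ℝ)..β, (2 / 5 - T ^ 2) * f T ^ 2) + ∫ T in β..1, (2 / 5 - T ^ 2) * f T ^ 2 := by
    rw [intervalIntegral.integral_add_adjacent_intervals (wcase_int2 (by linarith) cL)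
      (wcase_int2 hβ1 cR)]
  obtain ⟨F, hF⟩ : ∃ F, F = f β ^ 2 := ⟨_, rfl⟩
  have hF1 : 1 ≤ (1 - β) * F := by rw [hF]; exact h1
  have hF0 : 0 ≤ F := by rw [hF]; positivity
  have mL' : F * (1 + β) / 3 ≤ ∫ T in (-1:ℝ)..β, f T ^ 2 := by
    refine le_trans ?_ mL
    rw [hF]
    nlinarith [mul_nonneg (by linarith : 0 ≤ 1 + β) (sq_nonneg (f (-1))),
      mul_nonneg (by linarith : 0 ≤ 1 + β) (mul_nonneg fm1 hfβ)]
  have mR' : F * (1 - β) / 3 ≤ ∫ T in β..1, f T ^ 2 := by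
    refine le_trans ?_ mR
    rw [hF]
    nlinarith [mul_nonneg (by linarith : 0 ≤ 1 - β) (sq_nonneg (f 1)),
      mul_nonneg (by linarith : 0 ≤ 1 - β) (mul_nonneg hfβ f1)]
  have hV' : (∫ T in (-1:ℝ)..β, f T ^ 2) + (∫ T in β..1, f T ^ 2) < 6 / 7 := by
    rw [← e1]
    exact hV
  -- `mL + mR < 6/7`, `mR ≥ F (1-β)/3 ≥ 1/3`
  have gL : ∫ T in (-1:ℝ)..β, f T ^ 2 ≤ 7 / 12 * (f β ^ 2 * (1 + β)) := by
    rw [← hF]
    nlinarith
  have gR : ∫ T in β..1, f T ^ 2 ≤ 7 / 12 * (f β ^ 2 * (1 - β)) := by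
    rw [← hF]
    nlinarith
  have tL := w_left_long hβ kL cL (fun z hz => hn z (sL hz)) pβ gL
  have tR := w_right hβ hβ2 kR cR (fun z hz => hn z (sR hz)) pβ gR
  have fin := poly_B hβ hβ2 hF1 mL' mR' hV'
  rw [← hF] at tL tR
  rw [e2]
  linarith

end Pool.Agent.Lib.MP_a773b5_gt
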