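import Pool.Agent.Lib.MP_a773b5_gt.OneSide

set_option autoImplicit false

namespace Pool.Agent.Lib.MP_a773b5_gt

open MeasureTheory Set

private theorem wside_conc_add {a c d : ℝ} {f : ℝ → ℝ}
    (hf : ConcaveOn ℝ (Icc (a + c) (a + d)) f) : ConcaveOn ℝ (Icc c d) fun r => f (a + r) := by
  refine ⟨convex_Icc _ _, fun x hx y hy α β hα hβ hαβ => ?_⟩
  have hx' : a + x ∈ Icc (a + c) (a + d) := ⟨by linarith [hx.1], by linarith [hx.2]⟩
  have hy' : a + y ∈ Icc (a + c) (a + d) := ⟨by linarith [hy.1], by linarith [hy.2]⟩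
  have h := hf.2 hx' hy' hα hβ hαβ
  have e : α • (a + x) + β • (a + y) = a + (α • x + β • y) := by
    simp only [smul_eq_mul]
    linear_combination a * hαβ
  rw [e] at h
  exact h

private theorem wside_conc_sub {a c d : ℝ} {f : ℝ → ℝ}
    (hf : ConcaveOn ℝ (Icc (a - d) (a - c)) f) : ConcaveOn ℝ (Icc c d) fun r => f (a - r) := by
  refine ⟨convex_Icc _ _, fun x hx y hy α β hα hβ hαβ => ?_⟩
  have hx' : a - x ∈ Icc (a - d) (a - c) := ⟨by linarith [hx.2], by linarith [hx.1]⟩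
  have hy' : a - y ∈ Icc (a - d) (a - c) := ⟨by linarith [hy.2], by linarith [hy.1]⟩
  have h := hf.2 hx' hy' hα hβ hαβ
  have e : α • (a - x) + β • (a - y) = a - (α • x + β • y) := by
    simp only [smul_eq_mul]
    linear_combination a * hαβ
  rw [e] at h
  exact h

private theorem wside_cont_add {a c d : ℝ} {f : ℝ → ℝ}
    (hf : ContinuousOn f (Icc (a + c) (a + d))) : ContinuousOn (fun r => f (a + r)) (Icc c d) := by
  refine hf.comp (by fun_prop) fun r hr => ?_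
  exact ⟨by linarith [hr.1], by linarith [hr.2]⟩

private theorem wside_cont_sub {a c d : ℝ} {f : ℝ → ℝ}
    (hf : ContinuousOn f (Icc (a - d) (a - c))) : ContinuousOn (fun r => f (a - r)) (Icc c d) := by
  refine hf.comp (by fun_prop) fun r hr => ?_
  exact ⟨by linarith [hr.2], by linarith [hr.1]⟩

/-- Splitting of the integral of a quadratic weight. -/
private theorem wside_split {L : ℝ} (hL : 0 ≤ L) {g : ℝ → ℝ} (hgc : ContinuousOn g (Icc 0 L))
    (u v w : ℝ) :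
    ∫ r in (0:ℝ)..L, (u + v * r + w * r ^ 2) * g r ^ 2 =
      u * (∫ r in (0:ℝ)..L, g r ^ 2) + v * (∫ r in (0:ℝ)..L, r * g r ^ 2) +
        w * ∫ r in (0:ℝ)..L, r ^ 2 * g r ^ 2 := by
  have c0 : IntervalIntegrable (fun r => g r ^ 2) volume 0 L :=
    (hgc.pow 2).intervalIntegrable_of_Icc hL
  have c1 : IntervalIntegrable (fun r => r * g r ^ 2) volume 0 L :=
    (continuousOn_id.mul (hgc.pow 2)).intervalIntegrable_of_Icc hL
  have c2 : IntervalIntegrable (fun r => r ^ 2 * g r ^ 2) volume 0 L :=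
    ((continuousOn_id.pow 2).mul (hgc.pow 2)).intervalIntegrable_of_Icc hL
  have e : (fun r => (u + v * r + w * r ^ 2) * g r ^ 2) =
      fun r => (u * g r ^ 2 + v * (r * g r ^ 2)) + w * (r ^ 2 * g r ^ 2) := by
    funext r
    ring
  rw [e, intervalIntegral.integral_add ((c0.const_mul u).add (c1.const_mul v)) (c2.const_mul w),
    intervalIntegral.integral_add (c0.const_mul u) (c1.const_mul v),
    intervalIntegral.integral_const_mul, intervalIntegral.integral_const_mul,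
    intervalIntegral.integral_const_mul]

/-- Right side, from `oneside` for `g r = f (a + r)`, `L = 1 - a`:
`2/5 - T² = 2/5 - a² - 2 a r - r²`. -/
theorem w_right {a : ℝ} (ha : 0 ≤ a) (ha1 : a < 1) {f : ℝ → ℝ}
    (hf : ConcaveOn ℝ (Icc a 1) f) (hfc : ContinuousOn f (Icc a 1))
    (hn : ∀ T ∈ Icc a 1, 0 ≤ f T) (h0 : 0 < f a)
    (hm : ∫ T in a..1, f T ^ 2 ≤ 7 / 12 * (f a ^ 2 * (1 - a))) :
    f a ^ 2 * (2 / 9 * a * (1 - a) ^ 2 + (1 - a) ^ 3 / 10) -
      (11 * a + 7 * a ^ 2) / 30 * ∫ T in a..1, f T ^ 2 ≤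
    ∫ T in a..1, (2 / 5 - T ^ 2) * f T ^ 2 := by
  have hL : 0 < 1 - a := by linarith
  have hL' : 0 ≤ 1 - a := hL.le
  have e1 : a + (1 - a) = 1 := by ring
  obtain ⟨g, hgd⟩ : ∃ g : ℝ → ℝ, g = fun r => f (a + r) := ⟨_, rfl⟩
  have hgr : ∀ r, g r = f (a + r) := fun r => congrFun hgd r
  have hg : ConcaveOn ℝ (Icc 0 (1 - a)) g := by
    rw [hgd]
    exact wside_conc_add (by rw [add_zero, e1]; exact hf)
  have hgc : ContinuousOn g (Icc 0 (1 - a)) := by
    rw [hgd]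
    exact wside_cont_add (by rw [add_zero, e1]; exact hfc)
  have hgn : ∀ r ∈ Icc 0 (1 - a), 0 ≤ g r := fun r hr => by
    rw [hgr]
    exact hn (a + r) ⟨by linarith [hr.1], by linarith [hr.2]⟩
  have hm0 : ∫ r in (0:ℝ)..(1 - a), g r ^ 2 = ∫ T in a..1, f T ^ 2 := by
    simp only [hgr]
    have := intervalIntegral.integral_comp_add_left (a := 0) (b := 1 - a) (fun T => f T ^ 2) a
    rw [add_zero, e1] at this
    exact this
  have hw0 : ∫ r in (0:ℝ)..(1 - a), ((2 / 5 - a ^ 2) + (-2 * a) * r + (-1) * r ^ 2) *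
      g r ^ 2 = ∫ T in a..1, (2 / 5 - T ^ 2) * f T ^ 2 := by
    simp only [hgr]
    have := intervalIntegral.integral_comp_add_left (a := 0) (b := 1 - a)
      (fun T => (2 / 5 - T ^ 2) * f T ^ 2) a
    rw [add_zero, e1] at this
    rw [← this]
    congr 1
    funext r
    ring
  have hfa : g 0 = f a := by rw [hgr, add_zero]
  have h0' : 0 < g 0 := by
    rw [hfa]
    exact h0
  have hmm : ∫ r in (0:ℝ)..(1 - a), g r ^ 2 ≤ 7 / 12 * (g 0 ^ 2 * (1 - a)) := by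
    rw [hm0, hfa]
    exact hm
  obtain ⟨h1, h2⟩ := oneside hL hg hgc hgn h0' hmm
  rw [hm0, hfa] at h1 h2
  rw [← hw0, wside_split hL' hgc, hm0]
  nlinarith [mul_le_mul_of_nonneg_left h1 ha]

/-- The mirror image of `w_right` (apply it to `T ↦ f (-T)`). -/
theorem w_left {b : ℝ} (hb : 0 ≤ b) (hb1 : b < 1) {f : ℝ → ℝ}
    (hf : ConcaveOn ℝ (Icc (-1) (-b)) f) (hfc : ContinuousOn f (Icc (-1) (-b)))
    (hn : ∀ T ∈ Icc (-1) (-b), 0 ≤ f T) (h0 : 0 < f (-b))
    (hm : ∫ T in (-1:ℝ)..(-b), f T ^ 2 ≤ 7 / 12 * (f (-b) ^ 2 * (1 - b))) :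
    f (-b) ^ 2 * (2 / 9 * b * (1 - b) ^ 2 + (1 - b) ^ 3 / 10) -
      (11 * b + 7 * b ^ 2) / 30 * ∫ T in (-1:ℝ)..(-b), f T ^ 2 ≤
    ∫ T in (-1:ℝ)..(-b), (2 / 5 - T ^ 2) * f T ^ 2 := by
  have e1 : -(-b) = b := neg_neg b
  obtain ⟨g, hgd⟩ : ∃ g : ℝ → ℝ, g = fun r => f (0 - r) := ⟨_, rfl⟩
  have hgr : ∀ r, g r = f (0 - r) := fun r => congrFun hgd r
  have hg : ConcaveOn ℝ (Icc b 1) g := by
    rw [hgd]
    exact wside_conc_sub (by rw [zero_sub, zero_sub]; exact hf)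
  have hgc : ContinuousOn g (Icc b 1) := by
    rw [hgd]
    exact wside_cont_sub (by rw [zero_sub, zero_sub]; exact hfc)
  have hgn : ∀ T ∈ Icc b 1, 0 ≤ g T := fun T hT => by
    rw [hgr]
    exact hn (0 - T) ⟨by linarith [hT.2], by linarith [hT.1]⟩
  have hm0 : ∫ T in b..1, g T ^ 2 = ∫ T in (-1:ℝ)..(-b), f T ^ 2 := by
    simp only [hgr]
    have := intervalIntegral.integral_comp_sub_left (a := b) (b := 1) (fun T => f T ^ 2) 0
    rw [zero_sub, zero_sub] at this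
    exact this
  have hw0 : ∫ T in b..1, (2 / 5 - T ^ 2) * g T ^ 2 =
      ∫ T in (-1:ℝ)..(-b), (2 / 5 - T ^ 2) * f T ^ 2 := by
    simp only [hgr]
    have := intervalIntegral.integral_comp_sub_left (a := b) (b := 1)
      (fun T => (2 / 5 - T ^ 2) * f T ^ 2) 0
    rw [zero_sub, zero_sub] at this
    rw [← this]
    congr 1
    funext r
    ring
  have hfa : g b = f (-b) := by rw [hgr, zero_sub]
  have h := w_right hb hb1 hg hgc hgn (by rw [hfa]; exact h0) (by rw [hm0, hfa]; exact hm)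
  rw [hm0, hfa, hw0] at h
  exact h

/-- Long left side, from `oneside` and `oneside_lower` for `g r = f (β - r)`, `L = 1 + β`:
`2/5 - T² = 2/5 - β² + 2 β r - r²`. -/
theorem w_left_long {β : ℝ} (hβ : 0 ≤ β) {f : ℝ → ℝ}
    (hf : ConcaveOn ℝ (Icc (-1) β) f) (hfc : ContinuousOn f (Icc (-1) β))
    (hn : ∀ T ∈ Icc (-1) β, 0 ≤ f T) (h0 : 0 < f β)
    (hm : ∫ T in (-1:ℝ)..β, f T ^ 2 ≤ 7 / 12 * (f β ^ 2 * (1 + β))) :
    f β ^ 2 * ((1 + β) ^ 3 / 10 + β * (1 + β) ^ 2 / 6) -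
      (4 / 5 * β + 7 / 5 * β ^ 2) * ∫ T in (-1:ℝ)..β, f T ^ 2 ≤
    ∫ T in (-1:ℝ)..β, (2 / 5 - T ^ 2) * f T ^ 2 := by
  have hL : 0 < 1 + β := by linarith
  have hL' : 0 ≤ 1 + β := hL.le
  have e1 : β - (1 + β) = -1 := by ring
  obtain ⟨g, hgd⟩ : ∃ g : ℝ → ℝ, g = fun r => f (β - r) := ⟨_, rfl⟩
  have hgr : ∀ r, g r = f (β - r) := fun r => congrFun hgd r
  have hg : ConcaveOn ℝ (Icc 0 (1 + β)) g := by
    rw [hgd]
    exact wside_conc_sub (by rw [sub_zero, e1]; exact hf)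
  have hgc : ContinuousOn g (Icc 0 (1 + β)) := by
    rw [hgd]
    exact wside_cont_sub (by rw [sub_zero, e1]; exact hfc)
  have hgn : ∀ r ∈ Icc 0 (1 + β), 0 ≤ g r := fun r hr => by
    rw [hgr]
    exact hn (β - r) ⟨by linarith [hr.2], by linarith [hr.1]⟩
  have hm0 : ∫ r in (0:ℝ)..(1 + β), g r ^ 2 = ∫ T in (-1:ℝ)..β, f T ^ 2 := by
    simp only [hgr]
    have := intervalIntegral.integral_comp_sub_left (a := 0) (b := 1 + β) (fun T => f T ^ 2) β
    rw [sub_zero, e1] at this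
    exact this
  have hw0 : ∫ r in (0:ℝ)..(1 + β), ((2 / 5 - β ^ 2) + (2 * β) * r + (-1) * r ^ 2) *
      g r ^ 2 = ∫ T in (-1:ℝ)..β, (2 / 5 - T ^ 2) * f T ^ 2 := by
    simp only [hgr]
    have := intervalIntegral.integral_comp_sub_left (a := 0) (b := 1 + β)
      (fun T => (2 / 5 - T ^ 2) * f T ^ 2) β
    rw [sub_zero, e1] at this
    rw [← this]
    congr 1
    funext r
    ring
  have hfa : g 0 = f β := by rw [hgr, sub_zero]
  have h0' : 0 < g 0 := by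
    rw [hfa]
    exact h0
  have hmm : ∫ r in (0:ℝ)..(1 + β), g r ^ 2 ≤ 7 / 12 * (g 0 ^ 2 * (1 + β)) := by
    rw [hm0, hfa]
    exact hm
  obtain ⟨h1, h2⟩ := oneside hL hg hgc hgn h0' hmm
  have h3 := oneside_lower hL hg hgc hgn
  rw [hm0, hfa] at h1 h2
  rw [hfa] at h3
  rw [← hw0, wside_split hL' hgc, hm0]
  nlinarith [mul_le_mul_of_nonneg_left h3 hβ]

/-- Middle part: `f` is above its chord and the weight is nonnegative on `[-b, a]`. -/
theorem w_mid {a b : ℝ} (ha : 0 ≤ a) (hb : 0 ≤ b) (ha' : a ≤ 3 / 5) (hb' : b ≤ 3 / 5) {f : ℝ → ℝ}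
    (hf : ConcaveOn ℝ (Icc (-b) a) f) (hfc : ContinuousOn f (Icc (-b) a))
    (hn : ∀ T ∈ Icc (-b) a, 0 ≤ f T) :
    (a + b) * (f (-b) ^ 2 * ((2 / 5 - b ^ 2) / 3 + b * (a + b) / 6 - (a + b) ^ 2 / 30) +
      f (-b) * f a * ((2 / 5 - b ^ 2) / 3 + b * (a + b) / 3 - (a + b) ^ 2 / 10) +
      f a ^ 2 * ((2 / 5 - b ^ 2) / 3 + b * (a + b) / 2 - (a + b) ^ 2 / 5)) ≤
    ∫ T in (-b)..a, (2 / 5 - T ^ 2) * f T ^ 2 := by
  rcases (add_nonneg ha hb).eq_or_lt with hs | hs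
  · have ea : a = 0 := by linarith
    have eb : b = 0 := by linarith
    subst ea
    subst eb
    simp
  have hab : -b ≤ a := by linarith
  obtain ⟨A, B, hA, hB⟩ : ∃ A B : ℝ, f (-b) = A - b * B ∧ f a = A + a * B := by
    refine ⟨f (-b) + b * ((f a - f (-b)) / (a + b)), (f a - f (-b)) / (a + b), by ring, ?_⟩
    have hne : a + b ≠ 0 := hs.ne'
    field_simp
    ring
  have hchord : ∀ T ∈ Icc (-b) a, A + B * T ≤ f T := by
    intro T hT
    have h1 : 0 ≤ (a - T) / (a + b) := div_nonneg (by linarith [hT.2]) hs.le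
    have h2 : 0 ≤ (T + b) / (a + b) := div_nonneg (by linarith [hT.1]) hs.le
    have h3 : (a - T) / (a + b) + (T + b) / (a + b) = 1 := by
      rw [← add_div, div_eq_one_iff_eq hs.ne']
      ring
    have h := hf.2 (left_mem_Icc.2 hab) (right_mem_Icc.2 hab) h1 h2 h3
    have e : ((a - T) / (a + b)) • (-b) + ((T + b) / (a + b)) • a = T := by
      have hne : a + b ≠ 0 := hs.ne'
      simp only [smul_eq_mul]
      field_simp
      ring
    rw [e, hA, hB] at h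
    refine le_trans (le_of_eq ?_) h
    have hne : a + b ≠ 0 := hs.ne'
    simp only [smul_eq_mul]
    field_simp
    ring
  have hpos : ∀ T ∈ Icc (-b) a, 0 ≤ A + B * T := by
    intro T hT
    have h1 : 0 ≤ A - b * B := by
      rw [← hA]
      exact hn _ (left_mem_Icc.2 hab)
    have h2 : 0 ≤ A + a * B := by
      rw [← hB]
      exact hn _ (right_mem_Icc.2 hab)
    rcases le_total 0 B with h | h
    · nlinarith [hT.1, mul_nonneg h (by linarith [hT.1] : (0:ℝ) ≤ T + b)]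
    · nlinarith [hT.2, mul_nonneg_of_nonpos_of_nonpos h (by linarith [hT.2] : T - a ≤ 0)]
  have hint : ∫ T in (-b)..a, (2 / 5 - T ^ 2) * (A + B * T) ^ 2 =
      (a + b) * (f (-b) ^ 2 * ((2 / 5 - b ^ 2) / 3 + b * (a + b) / 6 - (a + b) ^ 2 / 30) +
      f (-b) * f a * ((2 / 5 - b ^ 2) / 3 + b * (a + b) / 3 - (a + b) ^ 2 / 10) +
      f a ^ 2 * ((2 / 5 - b ^ 2) / 3 + b * (a + b) / 2 - (a + b) ^ 2 / 5)) := by
    have hd : ∀ T ∈ uIcc (-b) a, HasDerivAt (fun T : ℝ => 2 / 5 * A ^ 2 * T + 2 / 5 * A * B * T ^ 2 +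
        2 / 15 * B ^ 2 * T ^ 3 - A ^ 2 / 3 * T ^ 3 - A * B / 2 * T ^ 4 - B ^ 2 / 5 * T ^ 5)
        ((2 / 5 - T ^ 2) * (A + B * T) ^ 2) T := by
      intro T _
      have k1 := (hasDerivAt_id T).const_mul (2 / 5 * A ^ 2)
      have k2 := (hasDerivAt_pow 2 T).const_mul (2 / 5 * A * B)
      have k3 := (hasDerivAt_pow 3 T).const_mul (2 / 15 * B ^ 2)
      have k4 := (hasDerivAt_pow 3 T).const_mul (A ^ 2 / 3)
      have k5 := (hasDerivAt_pow 4 T).const_mul (A * B / 2)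
      have k6 := (hasDerivAt_pow 5 T).const_mul (B ^ 2 / 5)
      have k := ((((k1.add k2).add k3).sub k4).sub k5).sub k6
      exact k.congr_deriv (by
        push_cast
        ring)
    rw [intervalIntegral.integral_eq_sub_of_hasDerivAt hd
      (by apply Continuous.intervalIntegrable; fun_prop), hA, hB]
    ring
  rw [← hint]
  refine intervalIntegral.integral_mono_on hab (by apply Continuous.intervalIntegrable; fun_prop)
    ?_ fun T hT => ?_
  · refine ContinuousOn.intervalIntegrable_of_Icc hab ?_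
    exact ContinuousOn.mul (by fun_prop) (hfc.pow 2)
  · have hw : 0 ≤ 2 / 5 - T ^ 2 := by nlinarith [hT.1, hT.2]
    exact mul_le_mul_of_nonneg_left (pow_le_pow_left₀ (hpos T hT) (hchord T hT) 2) hw

end Pool.Agent.Lib.MP_a773b5_gt
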