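import Pool.Agent.Lib.MP_a773b5_gt.ChordProd

set_option autoImplicit false

namespace Pool.Agent.Lib.MP_a773b5_gt

open MeasureTheory Set Filter Topology

/-- Heights at which the direction `v` is bad. -/
def Zset (K : Set P3) (G : ℝ) (v : ℝ × ℝ) : Set ℝ :=
  {z | ∃ (p q : ℝ × ℝ) (l : ℝ), (z, p) ∈ K ∧ (z, (p.1 + l * v.2, p.2 - l * v.1)) ∈ K ∧
    (z, q) ∈ K ∧ 0 ≤ l ∧ 0 ≤ v.1 * (p.1 - q.1) + v.2 * (p.2 - q.2) ∧
    G < z * (l * (v.1 * (p.1 - q.1) + v.2 * (p.2 - q.2)))}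

private theorem prod_affine {G x₁ y₁ w₁ x₂ y₂ w₂ s t : ℝ} (hG : 0 ≤ G)
    (hx₁ : 0 < x₁) (hy₁ : 0 < y₁) (hw₁ : 0 < w₁) (hx₂ : 0 < x₂) (hy₂ : 0 < y₂) (hw₂ : 0 < w₂)
    (h₁ : G < x₁ * (y₁ * w₁)) (h₂ : G < x₂ * (y₂ * w₂)) (hs : 0 ≤ s) (ht : 0 ≤ t)
    (hst : s + t = 1) :
    G < (s * x₁ + t * x₂) * ((s * y₁ + t * y₂) * (s * w₁ + t * w₂)) := by
  have e1 := Real.geom_mean_le_arith_mean2_weighted hs ht hx₁.le hx₂.le hst
  have e2 := Real.geom_mean_le_arith_mean2_weighted hs ht hy₁.le hy₂.le hst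
  have e3 := Real.geom_mean_le_arith_mean2_weighted hs ht hw₁.le hw₂.le hst
  set m := min (x₁ * (y₁ * w₁)) (x₂ * (y₂ * w₂)) with hm
  have hmG : G < m := lt_min h₁ h₂
  have hm0 : 0 < m := lt_of_le_of_lt hG hmG
  have p1 : 0 ≤ x₁ ^ s * x₂ ^ t := by positivity
  have p2 : 0 ≤ y₁ ^ s * y₂ ^ t := by positivity
  have p3 : 0 ≤ w₁ ^ s * w₂ ^ t := by positivity
  have h5 : (x₁ ^ s * x₂ ^ t) * ((y₁ ^ s * y₂ ^ t) * (w₁ ^ s * w₂ ^ t)) ≤
      (s * x₁ + t * x₂) * ((s * y₁ + t * y₂) * (s * w₁ + t * w₂)) :=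
    mul_le_mul e1 (mul_le_mul e2 e3 p3 (p2.trans e2)) (mul_nonneg p2 p3) (p1.trans e1)
  have h6 : (x₁ ^ s * x₂ ^ t) * ((y₁ ^ s * y₂ ^ t) * (w₁ ^ s * w₂ ^ t)) =
      (x₁ * (y₁ * w₁)) ^ s * (x₂ * (y₂ * w₂)) ^ t := by
    rw [Real.mul_rpow hx₁.le (by positivity), Real.mul_rpow hy₁.le hw₁.le,
      Real.mul_rpow hx₂.le (by positivity), Real.mul_rpow hy₂.le hw₂.le]
    ring
  have h7 : m ^ s * m ^ t ≤ (x₁ * (y₁ * w₁)) ^ s * (x₂ * (y₂ * w₂)) ^ t :=
    mul_le_mul (Real.rpow_le_rpow hm0.le (min_le_left _ _) hs)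
      (Real.rpow_le_rpow hm0.le (min_le_right _ _) ht) (by positivity) (by positivity)
  have h8 : m ^ s * m ^ t = m := by
    rw [← Real.rpow_add hm0, hst, Real.rpow_one]
  linarith

/-- `Zset K G v` is an interval: take convex combinations of the data; a product of three
nonnegative affine functions of `t ∈ [0,1]` is at least the minimum of its end values. -/
theorem Zset_ordConnected {K : Set P3} (hc : Convex ℝ K) (hz : ∀ p ∈ K, 0 ≤ p.1) {G : ℝ}
    (hG : 0 ≤ G) (v : ℝ × ℝ) : OrdConnected (Zset K G v) := by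
  apply Convex.ordConnected
  rintro z₁ ⟨p₁, q₁, l₁, a1, a2, a3, a4, a5, a6⟩ z₂ ⟨p₂, q₂, l₂, b1, b2, b3, b4, b5, b6⟩
    s t hs ht hst
  have hz1 : 0 ≤ z₁ := hz _ a1
  have hz2 : 0 ≤ z₂ := hz _ b1
  have ha0 := lt_of_le_of_lt hG a6
  have hb0 := lt_of_le_of_lt hG b6
  have pos : ∀ {x y w : ℝ}, 0 ≤ x → 0 ≤ y → 0 ≤ w → 0 < x * (y * w) → 0 < x ∧ 0 < y ∧ 0 < w := by
    intro x y w hx hy hw h
    refine ⟨lt_of_le_of_ne hx ?_, lt_of_le_of_ne hy ?_, lt_of_le_of_ne hw ?_⟩ <;>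
      · rintro rfl
        simp at h
  obtain ⟨c1, c2, c3⟩ := pos hz1 a4 a5 ha0
  obtain ⟨d1, d2, d3⟩ := pos hz2 b4 b5 hb0
  have key := prod_affine hG c1 c2 c3 d1 d2 d3 a6 b6 hs ht hst
  refine ⟨s • p₁ + t • p₂, s • q₁ + t • q₂, s * l₁ + t * l₂, ?_, ?_, ?_, ?_, ?_, ?_⟩
  · exact hc a1 b1 hs ht hst
  · have h := hc a2 b2 hs ht hst
    have e : s • ((z₁, (p₁.1 + l₁ * v.2, p₁.2 - l₁ * v.1)) : P3) +
        t • ((z₂, (p₂.1 + l₂ * v.2, p₂.2 - l₂ * v.1)) : P3) =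
        (s • z₁ + t • z₂, ((s • p₁ + t • p₂).1 + (s * l₁ + t * l₂) * v.2,
          (s • p₁ + t • p₂).2 - (s * l₁ + t * l₂) * v.1)) := by
      refine Prod.ext rfl (Prod.ext ?_ ?_)
      · change s * (p₁.1 + l₁ * v.2) + t * (p₂.1 + l₂ * v.2) =
          (s * p₁.1 + t * p₂.1) + (s * l₁ + t * l₂) * v.2
        ring
      · change s * (p₁.2 - l₁ * v.1) + t * (p₂.2 - l₂ * v.1) =
          (s * p₁.2 + t * p₂.2) - (s * l₁ + t * l₂) * v.1
        ring
    rw [e] at h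
    exact h
  · exact hc a3 b3 hs ht hst
  · positivity
  all_goals
    have e : v.1 * ((s • p₁ + t • p₂).1 - (s • q₁ + t • q₂).1) +
        v.2 * ((s • p₁ + t • p₂).2 - (s • q₁ + t • q₂).2) =
        s * (v.1 * (p₁.1 - q₁.1) + v.2 * (p₁.2 - q₁.2)) +
        t * (v.1 * (p₂.1 - q₂.1) + v.2 * (p₂.2 - q₂.2)) := by
      change v.1 * ((s * p₁.1 + t * p₂.1) - (s * q₁.1 + t * q₂.1)) +
        v.2 * ((s * p₁.2 + t * p₂.2) - (s * q₁.2 + t * q₂.2)) = _
      ring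
    rw [e]
  · positivity
  · exact key

private theorem sec_compact {K : Set P3} (hK : IsCompact K) (z : ℝ) : IsCompact (sec K z) := by
  have h1 : sec K z = Prod.snd '' (K ∩ {p | p.1 = z}) := by
    ext t
    constructor
    · intro ht
      exact ⟨(z, t), ⟨ht, rfl⟩, rfl⟩
    · rintro ⟨⟨a, b⟩, ⟨hab, h2⟩, rfl⟩
      have h3 : a = z := h2
      subst h3
      exact hab
  rw [h1]
  have hcl : IsClosed {p : P3 | p.1 = z} := isClosed_eq continuous_fst continuous_const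
  exact (hK.inter_right hcl).image continuous_snd

private theorem sec_convex {K : Set P3} (hc : Convex ℝ K) (z : ℝ) : Convex ℝ (sec K z) := by
  intro p hp q hq s t hs ht hst
  have h := hc hp hq hs ht hst
  have e : s • ((z, p) : P3) + t • ((z, q) : P3) = (z, s • p + t • q) := by
    refine Prod.ext ?_ rfl
    change s * z + t * z = z
    rw [← add_mul, hst, one_mul]
  rw [e] at h
  exact h

/-- No height is bad for `v` and for `-v`. (`chord_prod_dir` in the section.) -/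
theorem Zset_disjoint {K : Set P3} (hK : IsCompact K) (hc : Convex ℝ K)
    (hz : ∀ p ∈ K, 0 ≤ p.1) {G : ℝ} (hG : ∀ z, z * secArea K z ≤ G) {v : ℝ × ℝ} (hv : v ≠ 0) :
    Disjoint (Zset K G v) (Zset K G (-v)) := by
  rw [Set.disjoint_left]
  rintro z ⟨p, q, l, a1, a2, a3, a4, a5, a6⟩ ⟨r, s, m, b1, b2, b3, b4, b5, b6⟩
  have hz0 : 0 ≤ z := hz _ a1
  have hA : 0 ≤ secArea K z := ENNReal.toReal_nonneg
  have hG0 : 0 ≤ G := (mul_nonneg hz0 hA).trans (hG z)
  have e5 : (-v).1 * (r.1 - s.1) + (-v).2 * (r.2 - s.2) =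
      v.1 * (s.1 - r.1) + v.2 * (s.2 - r.2) := by
    change (-v.1) * (r.1 - s.1) + (-v.2) * (r.2 - s.2) = _
    ring
  rw [e5] at b5 b6
  have e2 : ((r.1 + m * (-v).2, r.2 - m * (-v).1) : ℝ × ℝ) =
      (r.1 - m * v.2, r.2 + m * v.1) := by
    refine Prod.ext ?_ ?_
    · change r.1 + m * (-v.2) = r.1 - m * v.2
      ring
    · change r.2 - m * (-v.1) = r.2 + m * v.1
      ring
  rw [e2] at b2
  have h := chord_prod_dir (sec_compact hK z) (sec_convex hc z) hv a1 a2 a3 b1 b2 b3 a4 a5 b4 b5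
  set X := l * (v.1 * (p.1 - q.1) + v.2 * (p.2 - q.2)) with hX
  set Y := m * (v.1 * (s.1 - r.1) + v.2 * (s.2 - r.2)) with hY
  have hA' : (volume (sec K z)).toReal = secArea K z := rfl
  rw [hA'] at h
  have h1 : G * G < (z * X) * (z * Y) := mul_lt_mul'' a6 b6 hG0 hG0
  have h2 : (z * X) * (z * Y) ≤ (z * secArea K z) * (z * secArea K z) := by
    have := mul_le_mul_of_nonneg_left h (mul_nonneg hz0 hz0)
    nlinarith
  have h3 : (z * secArea K z) * (z * secArea K z) ≤ G * G :=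
    mul_le_mul (hG z) (hG z) (mul_nonneg hz0 hA) hG0
  linarith

private theorem mem_three {K : Set P3} (hc : Convex ℝ K) {z : ℝ} {p p' q : ℝ × ℝ}
    (h1 : (z, p) ∈ K) (h2 : (z, p') ∈ K) (h3 : (z, q) ∈ K) {σ β : ℝ} (hβ : 0 ≤ β) (hβσ : β ≤ σ)
    (hσ : σ ≤ 1) {x : ℝ × ℝ}
    (hx : x = (1 - σ) • q + (σ - β) • p + β • p') : (z, x) ∈ K := by
  have h := hc.sum_mem (t := Finset.univ) (w := ![1 - σ, σ - β, β])
    (z := ![((z, q) : P3), (z, p), (z, p')]) (by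
      intro i _
      fin_cases i
      · exact sub_nonneg.2 hσ
      · exact sub_nonneg.2 hβσ
      · exact hβ) (by simp [Fin.sum_univ_three]) (by
      intro i _
      fin_cases i
      · exact h3
      · exact h1
      · exact h2)
  rw [Fin.sum_univ_three] at h
  have e : (![1 - σ, σ - β, β] 0 • ![((z, q) : P3), (z, p), (z, p')] 0 +
      ![1 - σ, σ - β, β] 1 • ![((z, q) : P3), (z, p), (z, p')] 1 +
      ![1 - σ, σ - β, β] 2 • ![((z, q) : P3), (z, p), (z, p')] 2) = ((z, x) : P3) := by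
    rw [hx]
    refine Prod.ext ?_ rfl
    change (1 - σ) * z + (σ - β) * z + β * z = z
    ring
  rw [e] at h
  exact h

/-- Bad heights persist under small changes of the direction. (The section at this height
contains a nondegenerate triangle, so it has an interior point `c`; move the data slightly
towards `c`, then they are interior points and the direction can be changed a little.) -/
theorem Zset_nhds {K : Set P3} (hc : Convex ℝ K) (hz : ∀ p ∈ K, 0 ≤ p.1) {G : ℝ} (hG : 0 ≤ G)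
    {v : ℝ × ℝ} {z : ℝ} (h : z ∈ Zset K G v) : ∀ᶠ w in 𝓝 v, z ∈ Zset K G w := by
  obtain ⟨p, q, l, a1, a2, a3, a4, a5, a6⟩ := h
  have hz0 : 0 ≤ z := hz _ a1
  set d := v.1 * (p.1 - q.1) + v.2 * (p.2 - q.2) with hd
  have h0 : 0 < z * (l * d) := lt_of_le_of_lt hG a6
  have hd0 : 0 < d := by
    refine lt_of_le_of_ne a5 ?_
    intro h1
    rw [← h1] at h0
    simp at h0
  have hl0 : 0 < l := by
    refine lt_of_le_of_ne a4 ?_
    intro h1
    rw [← h1] at h0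
    simp at h0
  -- choice of ε
  have hε : ∀ᶠ ε : ℝ in 𝓝[>] 0, G < z * (((1 - 3 * ε) * l) * ((1 - ε) * d)) ∧ ε < 1 / 3 := by
    refine Filter.Eventually.and ?_ ?_
    · refine (Tendsto.eventually_const_lt (u := G) (v := z * (((1 - 3 * 0) * l) * ((1 - 0) * d)))
        (by simpa using a6) ?_)
      apply tendsto_nhdsWithin_of_tendsto_nhds
      have : Continuous fun ε : ℝ => z * (((1 - 3 * ε) * l) * ((1 - ε) * d)) := by fun_prop
      exact this.tendsto 0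
    · apply mem_nhdsWithin_of_mem_nhds
      exact Iio_mem_nhds (by norm_num)
  obtain ⟨ε, ⟨hε1, hε2⟩, hε0⟩ := (hε.and self_mem_nhdsWithin).exists
  have hε0 : 0 < ε := hε0
  let aw : ℝ × ℝ → ℝ := fun w => (v.1 * w.2 - v.2 * w.1) / d
  let bw : ℝ × ℝ → ℝ := fun w => (w.1 * (p.1 - q.1) + w.2 * (p.2 - q.2)) / d
  have hac : Continuous aw := by fun_prop
  have hbc : Continuous bw := by fun_prop
  have hav : aw v = 0 := by simp only [aw]; rw [mul_comm v.2 v.1, sub_self, zero_div]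
  have hbv : bw v = 1 := by
    change d / d = 1
    exact div_self hd0.ne'
  set l' := (1 - 3 * ε) * l with hl'
  have hl'0 : 0 < l' := mul_pos (by linarith) hl0
  -- eventual conditions
  have c1 : ∀ᶠ w in 𝓝 v, 0 < ε + (1 - 3 * ε) * bw w := by
    have hcont : Continuous fun w => ε + (1 - 3 * ε) * bw w := by fun_prop
    refine (hcont.tendsto v).eventually_const_lt ?_
    rw [hbv]; linarith
  have c2 : ∀ᶠ w in 𝓝 v, ε + (1 - 3 * ε) * bw w < (1 - ε) + l' * aw w := by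
    have hcont1 : Continuous fun w => ε + (1 - 3 * ε) * bw w := by fun_prop
    have hcont2 : Continuous fun w => (1 - ε) + l' * aw w := by fun_prop
    refine (hcont1.tendsto v).eventually_lt (hcont2.tendsto v) ?_
    rw [hbv, hav]; linarith
  have c3 : ∀ᶠ w in 𝓝 v, (1 - ε) + l' * aw w < 1 := by
    have hcont2 : Continuous fun w => (1 - ε) + l' * aw w := by fun_prop
    refine (hcont2.tendsto v).eventually_lt_const ?_
    rw [hav]; linarith
  let P : ℝ × ℝ := ((1 - ε) * (p.1 - q.1) + q.1 + ε * l * v.2,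
    (1 - ε) * (p.2 - q.2) + q.2 - ε * l * v.1)
  have hPv : v.1 * (P.1 - q.1) + v.2 * (P.2 - q.2) = (1 - ε) * d := by
    simp only [P, hd]
    ring
  have c4 : ∀ᶠ w in 𝓝 v, 0 < w.1 * (P.1 - q.1) + w.2 * (P.2 - q.2) := by
    have hcont : Continuous fun w : ℝ × ℝ => w.1 * (P.1 - q.1) + w.2 * (P.2 - q.2) := by fun_prop
    refine (hcont.tendsto v).eventually_const_lt ?_
    rw [hPv]
    exact mul_pos (by linarith) hd0
  have c5 : ∀ᶠ w in 𝓝 v, G < z * (l' * (w.1 * (P.1 - q.1) + w.2 * (P.2 - q.2))) := by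
    have hcont : Continuous fun w : ℝ × ℝ =>
        z * (l' * (w.1 * (P.1 - q.1) + w.2 * (P.2 - q.2))) := by fun_prop
    refine (hcont.tendsto v).eventually_const_lt ?_
    rw [hPv]
    exact hε1
  filter_upwards [c1, c2, c3, c4, c5] with w d1 d2 d3 d4 d5
  refine ⟨P, q, l', ?_, ?_, a3, hl'0.le, d4.le, d5⟩
  · refine mem_three hc a1 a2 a3 (σ := 1 - ε) (β := ε) hε0.le (by linarith) (by linarith) ?_
    refine Prod.ext ?_ ?_
    · change (1 - ε) * (p.1 - q.1) + q.1 + ε * l * v.2 =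
        (1 - (1 - ε)) * q.1 + ((1 - ε) - ε) * p.1 + ε * (p.1 + l * v.2)
      ring
    · change (1 - ε) * (p.2 - q.2) + q.2 - ε * l * v.1 =
        (1 - (1 - ε)) * q.2 + ((1 - ε) - ε) * p.2 + ε * (p.2 - l * v.1)
      ring
  · have hJ1 : w.2 = aw w * (p.1 - q.1) + bw w * v.2 := by
      simp only [aw, bw]
      rw [div_mul_eq_mul_div, div_mul_eq_mul_div, ← add_div, eq_div_iff hd0.ne', hd]
      ring
    have hJ2 : -w.1 = aw w * (p.2 - q.2) - bw w * v.1 := by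
      simp only [aw, bw]
      rw [div_mul_eq_mul_div, div_mul_eq_mul_div, ← sub_div, eq_div_iff hd0.ne', hd]
      ring
    refine mem_three hc a1 a2 a3 (σ := (1 - ε) + l' * aw w) (β := ε + (1 - 3 * ε) * bw w)
      d1.le d2.le d3.le ?_
    have hlb : (ε + (1 - 3 * ε) * bw w) * l = ε * l + l' * bw w := by
      rw [hl']; ring
    refine Prod.ext ?_ ?_
    · change (1 - ε) * (p.1 - q.1) + q.1 + ε * l * v.2 + l' * w.2 =
        (1 - ((1 - ε) + l' * aw w)) * q.1 +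
        (((1 - ε) + l' * aw w) - (ε + (1 - 3 * ε) * bw w)) * p.1 +
        (ε + (1 - 3 * ε) * bw w) * (p.1 + l * v.2)
      have e1 : (ε + (1 - 3 * ε) * bw w) * (p.1 + l * v.2) =
          (ε + (1 - 3 * ε) * bw w) * p.1 + (ε * l + l' * bw w) * v.2 := by
        rw [← hlb]; ring
      rw [e1]
      linear_combination l' * hJ1
    · change (1 - ε) * (p.2 - q.2) + q.2 - ε * l * v.1 - l' * w.1 =
        (1 - ((1 - ε) + l' * aw w)) * q.2 +
        (((1 - ε) + l' * aw w) - (ε + (1 - 3 * ε) * bw w)) * p.2 +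
        (ε + (1 - 3 * ε) * bw w) * (p.2 - l * v.1)
      have e1 : (ε + (1 - 3 * ε) * bw w) * (p.2 - l * v.1) =
          (ε + (1 - 3 * ε) * bw w) * p.2 - (ε * l + l' * bw w) * v.1 := by
        rw [← hlb]; ring
      rw [e1]
      linear_combination l' * hJ2

end Pool.Agent.Lib.MP_a773b5_gt
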